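import Mathlib
import Pool.Agent.H11.Selberg.Defs

set_option autoImplicit false

/-!
# MP_8e9775_nt, degree 2 and small conductor: definitions

`Dat a H Q lam mu ε` : the data of an entire element of the Selberg class of degree two
(`∑ lam j = 1`), normalised by `Im ∑ mu j = 0` (no Euler product).
`cond` : the conductor `q = (2 π)^2 Q^2 ∏ lam_j^(2 lam_j)`.
`E β a X = ∑ a n * n^β * exp (- n X)`.
`phi a z = Im z * |∑ a n * n^(1/2) * exp (2 π i n z)|`.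
`R lam mu s` : the Gamma quotient that compares the functional equation with the model one.
`Aut q φ` : the abstract properties of `φ = phi a` used in the geometric part.
-/

namespace Pool.Agent.H14.Sel

open Complex Pool.Agent.H11.Selberg

/-- Normalised data of an entire function of degree two. -/
structure Dat (a : ℕ → ℂ) (H : ℂ → ℂ) (Q : ℝ) {r : ℕ} (lam : Fin r → ℝ) (mu : Fin r → ℂ)
    (ε : ℂ) : Prop where
  one : a 1 = 1
  summ : ∀ s : ℂ, 1 < s.re → LSeriesSummable a s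
  eqL : ∀ s : ℂ, 1 < s.re → H s = LSeries a s
  diff : Differentiable ℂ H
  fin : ∃ (A : ℕ) (B C : ℝ), ∀ s, ‖H s‖ ≤ C * Real.exp (B * (1 + ‖s‖) ^ A)
  Qpos : 0 < Q
  lampos : ∀ j, 0 < lam j
  mupos : ∀ j, 0 ≤ (mu j).re
  eps : ‖ε‖ = 1
  feq : ∀ s : ℂ, 0 < s.re → s.re < 1 →
    completed Q lam mu H s = ε * (starRingEnd ℂ) (completed Q lam mu H (1 - (starRingEnd ℂ) s))
  ram : ∀ δ : ℝ, 0 < δ → ∃ C : ℝ, ∀ n : ℕ, 1 ≤ n → ‖a n‖ ≤ C * (n : ℝ) ^ δ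
  deg : ∑ j, lam j = 1
  im0 : (∑ j, mu j).im = 0

/-- The conductor of a function of degree two. -/
noncomputable def cond (Q : ℝ) {r : ℕ} (lam : Fin r → ℝ) : ℝ :=
  (2 * Real.pi) ^ 2 * Q ^ 2 * ∏ j, (lam j) ^ (2 * lam j)

/-- `∑ a n * n^β * exp (- n X)`. -/
noncomputable def E (β : ℝ) (a : ℕ → ℂ) (X : ℂ) : ℂ :=
  ∑' n : ℕ, a n * (((n : ℝ) ^ β : ℝ) : ℂ) * Complex.exp (-((n : ℂ) * X))

/-- `Im z * |∑ a n * n^(1/2) * exp (2 π i n z)|`. -/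
noncomputable def phi (a : ℕ → ℂ) (z : ℂ) : ℝ :=
  z.im * ‖E (1 / 2) a (-(2 * (Real.pi : ℂ) * I * z))‖

/-- conjugate coefficients -/
noncomputable def cj (a : ℕ → ℂ) (n : ℕ) : ℂ := (starRingEnd ℂ) (a n)

/-- The quotient of Gamma factors of the functional equation. -/
noncomputable def gratio {r : ℕ} (lam : Fin r → ℝ) (mu : Fin r → ℂ) (s : ℂ) : ℂ :=
  (∏ j, Complex.Gamma ((lam j : ℂ) * s + (starRingEnd ℂ) (mu j))) *
    ∏ j, (Complex.Gamma ((lam j : ℂ) * (1 - s) + mu j))⁻¹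

/-- The comparison factor: `Γ(3/2 - s)/Γ(s + 1/2) * ∏ lam_j^(-lam_j (2 s - 1)) * gratio s`. -/
noncomputable def R {r : ℕ} (lam : Fin r → ℝ) (mu : Fin r → ℂ) (s : ℂ) : ℂ :=
  Complex.Gamma (3 / 2 - s) * (Complex.Gamma (s + 1 / 2))⁻¹ *
    (∏ j, Complex.exp (-((lam j : ℂ) * (2 * s - 1) * (Real.log (lam j) : ℂ)))) * gratio lam mu s

/-- The abstract properties of `phi a` used in the geometric part (`q` is the conductor). -/
structure Aut (q : ℝ) (φ : ℂ → ℝ) : Prop where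
  qpos : 0 < q
  q4 : q < 4
  per : ∀ z : ℂ, φ (z + 1) = φ z
  nonneg : ∀ z : ℂ, 0 < z.im → 0 ≤ φ z
  cont : ∀ y : ℝ, 0 < y → Continuous (fun x : ℝ => φ (x + y * I))
  refl : ∃ C : ℝ, ∀ z : ℂ, 0 < z.im → z.im ≤ 1 → ‖z‖ ^ 2 ≤ 1 / q →
    |φ z - φ (1 / ((q : ℂ) * (starRingEnd ℂ) z))| ≤ C * z.im ^ (1 / 4 : ℝ)
  high : ∀ t : ℝ, 0 < t → ∃ M : ℝ, ∀ z : ℂ, t ≤ z.im → φ z ≤ M
  top : ∃ V c : ℝ, 1 ≤ V ∧ 0 < c ∧ ∀ z : ℂ, V ≤ z.im → z.im ≤ 2 * V → c ≤ φ z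

/-- Admissible contraction parameter. -/
def Par (q r₁ : ℝ) : Prop :=
  1 / 2 < r₁ ∧ q * r₁ ^ 2 < 1 ∧ (1 ≤ r₁ ∨ q * r₁ ^ 2 - (4 + q) * r₁ + 3 < 0)

/-- Admissible cusps: `Adm q r₁ p c` says that `p` is sent to an integer by finitely many steps
`p ↦ 1 / (q (p + j))` with `|p + j| ≤ r₁`, and `c` is its `denominator`. -/
inductive Adm (q r₁ : ℝ) : ℝ → ℝ → Prop where
  | base (j : ℤ) : Adm q r₁ j (Real.sqrt q)
  | step (p c : ℝ) (j : ℤ) (h : Adm q r₁ p c) (hp : 1 / (q * r₁) ≤ |p|) :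
      Adm q r₁ (1 / (q * p) - j) (Real.sqrt q * |p| * c)

end Pool.Agent.H14.Sel
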