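import Mathlib
import Pool.Agent.H14.Sel.Defs

set_option autoImplicit false

/-!
# Module TAUB (MP_8e9775_nt): from the mean square on horocycles to the logarithmic mean square

Let `D y = ∑ b n n exp (-4π n y)`.
Upper bound: for real `N ≥ 1`, `∑_{N ≤ n < 2N} b n/n ≤ N^(-2) ∑_{N ≤ n < 2N} b n n ≤ N^(-2) e^(8π) D(1/N) ≤ e^(8π) C`.
Sum over `N = 2^i ≤ x`: at most `1 + log_2 x ≤ C' log x` blocks for `x ≥ 2`.
Lower bound: for `N ≥ 1/Y₁`, `N ≥ 1`, `D(1/N) ≥ c N^2`. For `0 < δ ≤ 1`, `δN ≥ 1`: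
`∑_{n ≤ δN} b n n ≤ e^(4π) D(1/(δN)) ≤ e^(4π) C δ^2 N^2 ≤ (c/4) N^2` for a suitable fixed `δ`; for `L ≥ 1`:
`∑_{n > LN} b n n e^(-4πn/N) ≤ e^(-2πL) D(1/(2N)) ≤ 4 e^(-2πL) C N^2 ≤ (c/4) N^2` for a fixed large `L`.
So `∑_{δN < n ≤ LN} b n n ≥ (c/2) N^2` and `∑_{δN < n ≤ LN} b n/n ≥ (c/2) N^2/(LN)^2 = c/(2L^2) =: c₂`. Use `N_i = N_0 (L/δ)^i`
(`N_0` fixed with `δ N_0 ≥ 1`, `N_0 ≥ 1/Y₁`): the blocks `(δN_i, L N_i]` are disjoint, so for `x ≥ L N_k`
`∑_{n ≤ x} b n/n ≥ c₂ (k+1)`; hence `∑_{n ≤ x} b n/n ≥ c₃ log x` for `x ≥ x₀`, and for `2 ≤ x ≤ x₀` the sum is at least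
`b 1 > 0`, so `≥ (b 1/log x₀) log x`.
-/

namespace Pool.Agent.H14.Sel

open Complex MeasureTheory Filter Topology Pool.Agent.H11.Selberg

private lemma taub_term_nonneg (b : ℕ → ℝ) (hb : ∀ n, 0 ≤ b n) (y : ℝ) (n : ℕ) :
    0 ≤ b n * n * Real.exp (-(4 * Real.pi * n * y)) :=
  mul_nonneg (mul_nonneg (hb n) (Nat.cast_nonneg n)) (Real.exp_pos _).le

private lemma taub_dyadic (b : ℕ → ℝ) (hb : ∀ n, 0 ≤ b n)
    (hs : ∀ y : ℝ, 0 < y → Summable (fun n : ℕ => b n * n * Real.exp (-(4 * Real.pi * n * y))))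
    (C : ℝ)
    (hup : ∀ y : ℝ, 0 < y → y ^ 2 * ∑' n : ℕ, b n * n * Real.exp (-(4 * Real.pi * n * y)) ≤ C)
    (N : ℕ) (hN : 1 ≤ N) :
    ∑ n ∈ Finset.Ico N (2 * N), b n / (n : ℝ) ≤ Real.exp (8 * Real.pi) * C := by
  have hN0 : (0 : ℝ) < N := by exact_mod_cast hN
  have hy : (0 : ℝ) < 1 / (N : ℝ) := by positivity
  have h1 : ∑ n ∈ Finset.Ico N (2 * N), b n * n * Real.exp (-(4 * Real.pi * n * (1 / (N : ℝ))))
      ≤ ∑' n : ℕ, b n * n * Real.exp (-(4 * Real.pi * n * (1 / (N : ℝ)))) :=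
    (hs _ hy).sum_le_tsum _ (fun n _ => taub_term_nonneg b hb _ n)
  have h2 := hup _ hy
  have h3 : ∑ n ∈ Finset.Ico N (2 * N), b n / (n : ℝ) ≤ Real.exp (8 * Real.pi) *
      ((1 / (N : ℝ)) ^ 2 * ∑ n ∈ Finset.Ico N (2 * N),
        b n * n * Real.exp (-(4 * Real.pi * n * (1 / (N : ℝ))))) := by
    rw [Finset.mul_sum, Finset.mul_sum]
    refine Finset.sum_le_sum fun n hn => ?_
    rw [Finset.mem_Ico] at hn
    have hnN : (N : ℝ) ≤ n := by exact_mod_cast hn.1
    have hn2 : (n : ℝ) ≤ 2 * N := by exact_mod_cast hn.2.le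
    have hn0 : (0 : ℝ) < n := lt_of_lt_of_le hN0 hnN
    have he : 1 ≤ Real.exp (8 * Real.pi) * Real.exp (-(4 * Real.pi * n * (1 / (N : ℝ)))) := by
      rw [← Real.exp_add]
      apply Real.one_le_exp
      have : 4 * Real.pi * n * (1 / (N : ℝ)) ≤ 8 * Real.pi := by
        rw [mul_one_div, div_le_iff₀ hN0]
        have := Real.pi_pos
        nlinarith
      linarith
    have hq : 1 / (n : ℝ) ≤ (1 / (N : ℝ)) ^ 2 * n := by
      rw [div_pow, one_pow, one_div, one_div, inv_mul_eq_div, inv_eq_one_div, div_le_div_iff₀ hn0 (by positivity)]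
      nlinarith
    calc b n / (n : ℝ) = b n * (1 / (n : ℝ)) * 1 := by ring
      _ ≤ b n * ((1 / (N : ℝ)) ^ 2 * n) *
          (Real.exp (8 * Real.pi) * Real.exp (-(4 * Real.pi * n * (1 / (N : ℝ))))) := by
          apply mul_le_mul _ he zero_le_one (by have := hb n; positivity)
          exact mul_le_mul_of_nonneg_left hq (hb n)
      _ = _ := by ring
  refine h3.trans (mul_le_mul_of_nonneg_left ?_ (Real.exp_pos _).le)
  refine le_trans (mul_le_mul_of_nonneg_left h1 (by positivity)) h2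

private lemma taub_up (b : ℕ → ℝ) (hb : ∀ n, 0 ≤ b n)
    (hs : ∀ y : ℝ, 0 < y → Summable (fun n : ℕ => b n * n * Real.exp (-(4 * Real.pi * n * y))))
    (C : ℝ)
    (hup : ∀ y : ℝ, 0 < y → y ^ 2 * ∑' n : ℕ, b n * n * Real.exp (-(4 * Real.pi * n * y)) ≤ C)
    (k : ℕ) :
    ∑ n ∈ Finset.Ico 1 (2 ^ k), b n / (n : ℝ) ≤ k * (Real.exp (8 * Real.pi) * C) := by
  induction k with
  | zero => simp
  | succ k ih =>
    have h1 : (1 : ℕ) ≤ 2 ^ k := Nat.one_le_two_pow
    have h2 : (2 : ℕ) ^ k ≤ 2 ^ (k + 1) := Nat.pow_le_pow_right (by norm_num) (by omega)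
    rw [← Finset.sum_Ico_consecutive _ h1 h2]
    have h3 := taub_dyadic b hb hs C hup (2 ^ k) h1
    rw [show 2 * 2 ^ k = 2 ^ (k + 1) by ring] at h3
    push_cast
    linarith

private lemma taub_block (b : ℕ → ℝ) (hb : ∀ n, 0 ≤ b n)
    (hs : ∀ y : ℝ, 0 < y → Summable (fun n : ℕ => b n * n * Real.exp (-(4 * Real.pi * n * y))))
    (c C Y₁ : ℝ)
    (hup : ∀ y : ℝ, 0 < y → y ^ 2 * ∑' n : ℕ, b n * n * Real.exp (-(4 * Real.pi * n * y)) ≤ C)
    (hlo : ∀ y : ℝ, 0 < y → y ≤ Y₁ →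
      c ≤ y ^ 2 * ∑' n : ℕ, b n * n * Real.exp (-(4 * Real.pi * n * y)))
    (d L : ℕ) (hd : 1 ≤ d) (hL : 1 ≤ L)
    (h1 : Real.exp (4 * Real.pi) * C / d ^ 2 ≤ c / 4)
    (h2 : 4 * C * Real.exp (-(2 * Real.pi * L)) ≤ c / 4)
    (T : ℕ) (hT : 1 ≤ T) (hTY : 1 / (T : ℝ) ≤ Y₁) :
    c / (2 * L ^ 2) ≤ ∑ n ∈ Finset.Ioc T (d * L * T), b n / (n : ℝ) := by
  have hT0 : (0 : ℝ) < T := by exact_mod_cast hT
  have hd0 : (1 : ℝ) ≤ d := by exact_mod_cast hd
  have hL0 : (1 : ℝ) ≤ L := by exact_mod_cast hL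
  set y : ℝ := 1 / (d * T) with hy
  have hy0 : 0 < y := by positivity
  have hyY : y ≤ Y₁ := by
    refine le_trans ?_ hTY
    apply one_div_le_one_div_of_le hT0
    nlinarith
  set S := ∑ n ∈ Finset.Ioc T (d * L * T), b n / (n : ℝ) with hS
  have hA := hs (1 / T) (by positivity)
  have hB := hs (y / 2) (by positivity)
  have hbound : ∀ n : ℕ, b n * n * Real.exp (-(4 * Real.pi * n * y)) ≤
      Real.exp (4 * Real.pi) * (b n * n * Real.exp (-(4 * Real.pi * n * (1 / (T : ℝ))))) +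
      Real.exp (-(2 * Real.pi * L)) * (b n * n * Real.exp (-(4 * Real.pi * n * (y / 2)))) +
      (if n ∈ Finset.Ioc T (d * L * T) then ((d : ℝ) * L * T) ^ 2 * (b n / (n : ℝ)) else 0) := by
    intro n
    have hbn := hb n
    have e1 : 0 ≤ Real.exp (4 * Real.pi) *
        (b n * n * Real.exp (-(4 * Real.pi * n * (1 / (T : ℝ))))) := by positivity
    have e2 : 0 ≤ Real.exp (-(2 * Real.pi * L)) *
        (b n * n * Real.exp (-(4 * Real.pi * n * (y / 2)))) := by positivity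
    have e3 : 0 ≤ (if n ∈ Finset.Ioc T (d * L * T) then
        ((d : ℝ) * L * T) ^ 2 * (b n / (n : ℝ)) else 0) := by
      split_ifs
      · positivity
      · exact le_rfl
    have hexp1 : Real.exp (-(4 * Real.pi * n * y)) ≤ 1 := by
      rw [Real.exp_le_one_iff]
      have := Real.pi_pos
      have : 0 ≤ 4 * Real.pi * n * y := by positivity
      linarith
    rcases le_or_gt n T with hn | hn
    · have hnT : (n : ℝ) ≤ T := by exact_mod_cast hn
      have : b n * n * Real.exp (-(4 * Real.pi * n * y)) ≤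
          Real.exp (4 * Real.pi) * (b n * n * Real.exp (-(4 * Real.pi * n * (1 / (T : ℝ))))) := by
        have he : 1 ≤ Real.exp (4 * Real.pi) *
            Real.exp (-(4 * Real.pi * n * (1 / (T : ℝ)))) := by
          rw [← Real.exp_add]
          apply Real.one_le_exp
          have : 4 * Real.pi * n * (1 / (T : ℝ)) ≤ 4 * Real.pi := by
            rw [mul_one_div, div_le_iff₀ hT0]
            have := Real.pi_pos
            nlinarith
          linarith
        calc b n * n * Real.exp (-(4 * Real.pi * n * y)) ≤ b n * n * 1 :=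
              mul_le_mul_of_nonneg_left hexp1 (by positivity)
          _ ≤ b n * n * (Real.exp (4 * Real.pi) *
            Real.exp (-(4 * Real.pi * n * (1 / (T : ℝ))))) :=
              mul_le_mul_of_nonneg_left he (by positivity)
          _ = _ := by ring
      linarith
    · rcases le_or_gt n (d * L * T) with hn2 | hn2
      · have hmem : n ∈ Finset.Ioc T (d * L * T) := Finset.mem_Ioc.mpr ⟨hn, hn2⟩
        rw [if_pos hmem]
        have hn0 : (0 : ℝ) < n := by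
          have : 0 < n := by omega
          exact_mod_cast this
        have hnR : (n : ℝ) ≤ d * L * T := by exact_mod_cast hn2
        have : b n * n * Real.exp (-(4 * Real.pi * n * y)) ≤
            ((d : ℝ) * L * T) ^ 2 * (b n / (n : ℝ)) := by
          calc b n * n * Real.exp (-(4 * Real.pi * n * y)) ≤ b n * n * 1 :=
                mul_le_mul_of_nonneg_left hexp1 (by positivity)
            _ = (n : ℝ) ^ 2 * (b n / n) := by field_simp
            _ ≤ _ := by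
                apply mul_le_mul_of_nonneg_right _ (by positivity)
                exact pow_le_pow_left₀ hn0.le hnR 2
        linarith
      · have hnR : (d : ℝ) * L * T ≤ n := by exact_mod_cast hn2.le
        have : b n * n * Real.exp (-(4 * Real.pi * n * y)) ≤
            Real.exp (-(2 * Real.pi * L)) * (b n * n * Real.exp (-(4 * Real.pi * n * (y / 2)))) := by
          have he : Real.exp (-(4 * Real.pi * n * y)) ≤
              Real.exp (-(2 * Real.pi * L)) * Real.exp (-(4 * Real.pi * n * (y / 2))) := by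
            rw [← Real.exp_add]
            apply Real.exp_le_exp.mpr
            have hLy : (L : ℝ) ≤ n * y := by
              rw [hy, mul_one_div, le_div_iff₀ (by positivity)]
              nlinarith
            have := Real.pi_pos
            nlinarith
          calc b n * n * Real.exp (-(4 * Real.pi * n * y)) ≤ b n * n *
              (Real.exp (-(2 * Real.pi * L)) * Real.exp (-(4 * Real.pi * n * (y / 2)))) :=
                mul_le_mul_of_nonneg_left he (by positivity)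
            _ = _ := by ring
        linarith
  have hfin : HasSum (fun n : ℕ => if n ∈ Finset.Ioc T (d * L * T) then
      ((d : ℝ) * L * T) ^ 2 * (b n / (n : ℝ)) else 0) (((d : ℝ) * L * T) ^ 2 * S) := by
    rw [hS, Finset.mul_sum]
    have := hasSum_sum_of_ne_finset_zero (L := SummationFilter.unconditional ℕ)
      (f := fun n : ℕ => if n ∈ Finset.Ioc T (d * L * T) then
      ((d : ℝ) * L * T) ^ 2 * (b n / (n : ℝ)) else 0) (s := Finset.Ioc T (d * L * T))
      (fun n hn => by simp only [if_neg hn])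
    convert this using 1
    exact Finset.sum_congr rfl fun n hn => by simp only [if_pos hn]
  have htot : ∑' n : ℕ, b n * n * Real.exp (-(4 * Real.pi * n * y)) ≤
      Real.exp (4 * Real.pi) * (∑' n : ℕ, b n * n * Real.exp (-(4 * Real.pi * n * (1 / (T : ℝ))))) +
      Real.exp (-(2 * Real.pi * L)) *
        (∑' n : ℕ, b n * n * Real.exp (-(4 * Real.pi * n * (y / 2)))) +
      ((d : ℝ) * L * T) ^ 2 * S := by
    refine hasSum_le hbound (hs y hy0).hasSum ?_
    exact ((hA.hasSum.mul_left _).add (hB.hasSum.mul_left _)).add hfin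
  have hc := hlo y hy0 hyY
  have hC1 := hup (1 / T) (by positivity)
  have hC2 := hup (y / 2) (by positivity)
  set D := ∑' n : ℕ, b n * n * Real.exp (-(4 * Real.pi * n * y)) with hD
  set D1 := ∑' n : ℕ, b n * n * Real.exp (-(4 * Real.pi * n * (1 / (T : ℝ)))) with hD1
  set D2 := ∑' n : ℕ, b n * n * Real.exp (-(4 * Real.pi * n * (y / 2))) with hD2
  -- y^2 D ≤ ...
  have k1 : y ^ 2 * (Real.exp (4 * Real.pi) * D1) ≤ c / 4 := by
    refine le_trans ?_ h1
    have : y ^ 2 * (Real.exp (4 * Real.pi) * D1) =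
        Real.exp (4 * Real.pi) * ((1 / (T : ℝ)) ^ 2 * D1) / d ^ 2 := by
      rw [hy]; field_simp
    rw [this]
    gcongr
  have k2 : y ^ 2 * (Real.exp (-(2 * Real.pi * L)) * D2) ≤ c / 4 := by
    refine le_trans ?_ h2
    have : y ^ 2 * (Real.exp (-(2 * Real.pi * L)) * D2) =
        4 * ((y / 2) ^ 2 * D2) * Real.exp (-(2 * Real.pi * L)) := by
      ring
    rw [this]
    gcongr
  have k3 : y ^ 2 * (((d : ℝ) * L * T) ^ 2 * S) = L ^ 2 * S := by
    rw [hy]; field_simp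
  have k4 : y ^ 2 * D ≤ y ^ 2 * (Real.exp (4 * Real.pi) * D1) +
      y ^ 2 * (Real.exp (-(2 * Real.pi * L)) * D2) + y ^ 2 * (((d : ℝ) * L * T) ^ 2 * S) := by
    have := mul_le_mul_of_nonneg_left htot (sq_nonneg y)
    linarith
  have k5 : c / 2 ≤ L ^ 2 * S := by
    rw [k3] at k4
    linarith
  rw [div_le_iff₀ (by positivity)]
  linarith

private lemma taub_low (b : ℕ → ℝ) (c₂ : ℝ) (R N₀ : ℕ) (hR : 1 ≤ R)
    (hblock : ∀ T : ℕ, N₀ ≤ T → c₂ ≤ ∑ n ∈ Finset.Ioc T (R * T), b n / (n : ℝ)) (k : ℕ) :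
    k * c₂ ≤ ∑ n ∈ Finset.Ioc N₀ (R ^ k * N₀), b n / (n : ℝ) := by
  induction k with
  | zero => simp
  | succ k ih =>
    have h0 : 1 ≤ R ^ k := Nat.one_le_pow _ _ hR
    have h1 : N₀ ≤ R ^ k * N₀ := Nat.le_mul_of_pos_left _ h0
    have h2 : R ^ k * N₀ ≤ R ^ (k + 1) * N₀ :=
      Nat.mul_le_mul_right _ (Nat.pow_le_pow_right hR (by omega))
    have h3 := Finset.sum_Ioc_consecutive (fun n : ℕ => b n / (n : ℝ)) h1 h2
    rw [← h3]
    have h4 := hblock (R ^ k * N₀) h1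
    rw [show R * (R ^ k * N₀) = R ^ (k + 1) * N₀ by ring] at h4
    push_cast
    linarith

theorem taub (b : ℕ → ℝ) (hb : ∀ n, 0 ≤ b n) (hb1 : 0 < b 1)
    (hs : ∀ y : ℝ, 0 < y → Summable (fun n : ℕ => b n * n * Real.exp (-(4 * Real.pi * n * y))))
    (c C Y₁ : ℝ) (hc : 0 < c) (hY : 0 < Y₁)
    (hup : ∀ y : ℝ, 0 < y → y ^ 2 * ∑' n : ℕ, b n * n * Real.exp (-(4 * Real.pi * n * y)) ≤ C)
    (hlo : ∀ y : ℝ, 0 < y → y ≤ Y₁ →
      c ≤ y ^ 2 * ∑' n : ℕ, b n * n * Real.exp (-(4 * Real.pi * n * y))) :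
    ∃ c' C' : ℝ, 0 < c' ∧ ∀ x : ℝ, 2 ≤ x →
      c' * Real.log x ≤ ∑ n ∈ Finset.Icc 1 ⌊x⌋₊, b n / (n : ℝ) ∧
      ∑ n ∈ Finset.Icc 1 ⌊x⌋₊, b n / (n : ℝ) ≤ C' * Real.log x := by
  have hC0 : 0 ≤ C := le_trans (by positivity) ((hlo Y₁ hY le_rfl).trans (hup Y₁ hY) |> hc.le.trans)
  have hlog2 : 0 < Real.log 2 := Real.log_pos (by norm_num)
  -- choice of d and L
  obtain ⟨d, hd, hd1⟩ : ∃ d : ℕ, 1 ≤ d ∧ Real.exp (4 * Real.pi) * C / d ^ 2 ≤ c / 4 := by
    obtain ⟨d, hd⟩ := exists_nat_ge (Real.exp (4 * Real.pi) * C / (c / 4))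
    refine ⟨d + 1, by omega, ?_⟩
    rw [div_le_iff₀ (by positivity)] at hd ⊢
    push_cast
    have hd0 : (0 : ℝ) ≤ d := Nat.cast_nonneg d
    have : (d : ℝ) ≤ ((d : ℝ) + 1) ^ 2 := by nlinarith
    calc Real.exp (4 * Real.pi) * C ≤ d * (c / 4) := hd
      _ ≤ ((d : ℝ) + 1) ^ 2 * (c / 4) := mul_le_mul_of_nonneg_right this (by positivity)
      _ = _ := by ring
  obtain ⟨L, hL, hL1⟩ : ∃ L : ℕ, 1 ≤ L ∧ 4 * C * Real.exp (-(2 * Real.pi * L)) ≤ c / 4 := by
    obtain ⟨L, hL⟩ := exists_nat_ge (4 * C / (c / 4))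
    refine ⟨L + 1, by omega, ?_⟩
    rw [Real.exp_neg, ← div_eq_mul_inv, div_le_iff₀ (Real.exp_pos _)]
    rw [div_le_iff₀ (by positivity)] at hL
    have hL0 : (0 : ℝ) ≤ L := Nat.cast_nonneg L
    have h1 : (L : ℝ) ≤ Real.exp (2 * Real.pi * ((L + 1 : ℕ) : ℝ)) := by
      have h2 := Real.add_one_le_exp (2 * Real.pi * ((L + 1 : ℕ) : ℝ))
      push_cast at h2 ⊢
      have := Real.pi_gt_three
      nlinarith
    calc 4 * C ≤ L * (c / 4) := hL
      _ ≤ Real.exp (2 * Real.pi * ((L + 1 : ℕ) : ℝ)) * (c / 4) :=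
        mul_le_mul_of_nonneg_right h1 (by positivity)
      _ = _ := by ring
  obtain ⟨N₁, hN₁⟩ := exists_nat_ge (1 / Y₁)
  set N₀ : ℕ := N₁ + 2 with hN₀
  set R : ℕ := d * L + 1 with hRdef
  have hblock : ∀ T : ℕ, N₀ ≤ T → c / (2 * L ^ 2) ≤
      ∑ n ∈ Finset.Ioc T (R * T), b n / (n : ℝ) := by
    intro T hT
    have hT1 : 1 ≤ T := by omega
    have hT0 : (0 : ℝ) < T := by exact_mod_cast hT1
    refine (taub_block b hb hs c C Y₁ hup hlo d L hd hL hd1 hL1 T hT1 ?_).trans ?_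
    · rw [div_le_iff₀ hT0]
      rw [div_le_iff₀ hY] at hN₁
      have : (N₁ : ℝ) ≤ T := by exact_mod_cast (by omega : N₁ ≤ T)
      nlinarith
    · apply Finset.sum_le_sum_of_subset_of_nonneg
      · intro n hn
        rw [Finset.mem_Ioc] at hn ⊢
        refine ⟨hn.1, hn.2.trans (Nat.mul_le_mul_right _ (by omega))⟩
      · intro n _ _
        have := hb n
        positivity
  have hR2 : 2 ≤ R := by
    have : 1 ≤ d * L := Nat.one_le_iff_ne_zero.mpr (by positivity)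
    omega
  have hRr : (2 : ℝ) ≤ R := by exact_mod_cast hR2
  have hN₀r : (2 : ℝ) ≤ N₀ := by
    have : 2 ≤ N₀ := by omega
    exact_mod_cast this
  have hlogR : 0 < Real.log R := Real.log_pos (by linarith)
  have hL0 : (1 : ℝ) ≤ L := by exact_mod_cast hL
  set c₂ : ℝ := c / (2 * L ^ 2) with hc₂
  have hc₂0 : 0 < c₂ := by positivity
  set X : ℝ := (R * N₀ : ℝ) ^ 2 with hX
  have hRN : (4 : ℝ) ≤ R * N₀ := by nlinarith
  have hlogX : 0 < Real.log X := by
    apply Real.log_pos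
    rw [hX]
    nlinarith
  have hlogX2 : Real.log X = 2 * Real.log (R * N₀ : ℝ) := by
    rw [hX, Real.log_pow]; norm_num
  refine ⟨min (b 1 / Real.log X) (c₂ / (2 * Real.log R)),
    2 * (Real.exp (8 * Real.pi) * C) / Real.log 2, ?_, ?_⟩
  · exact lt_min (by positivity) (by positivity)
  intro x hx
  have hx0 : 0 < x := by linarith
  have hlogx : 0 < Real.log x := Real.log_pos (by linarith)
  have hfl : 2 ≤ ⌊x⌋₊ := Nat.le_floor (by exact_mod_cast hx)
  have hterm : ∀ n : ℕ, 0 ≤ b n / (n : ℝ) := fun n => div_nonneg (hb n) (Nat.cast_nonneg n)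
  constructor
  · rcases le_or_gt x X with hxX | hxX
    · have h1 : b 1 ≤ ∑ n ∈ Finset.Icc 1 ⌊x⌋₊, b n / (n : ℝ) := by
        have : b 1 = b 1 / ((1 : ℕ) : ℝ) := by simp
        rw [this]
        exact Finset.single_le_sum (f := fun n : ℕ => b n / (n : ℝ)) (fun n _ => hterm n)
          (Finset.mem_Icc.mpr ⟨le_rfl, by omega⟩)
      calc min (b 1 / Real.log X) (c₂ / (2 * Real.log R)) * Real.log x
          ≤ b 1 / Real.log X * Real.log x :=
            mul_le_mul_of_nonneg_right (min_le_left _ _) hlogx.le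
        _ ≤ b 1 / Real.log X * Real.log X :=
            mul_le_mul_of_nonneg_left (Real.log_le_log hx0 hxX) (by positivity)
        _ = b 1 := by field_simp
        _ ≤ _ := h1
    · set k : ℕ := ⌊Real.log (x / N₀) / Real.log R⌋₊ with hk
      have hN₀0 : (0 : ℝ) < N₀ := by linarith
      have hR0 : (0 : ℝ) < R := by linarith
      have hxN : (1 : ℝ) ≤ x / N₀ := by
        rw [le_div_iff₀ hN₀0]
        have : (N₀ : ℝ) ≤ X := by
          rw [hX]
          nlinarith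
        linarith
      have hk1 : (k : ℝ) ≤ Real.log (x / N₀) / Real.log R :=
        Nat.floor_le (div_nonneg (Real.log_nonneg hxN) hlogR.le)
      have hk2 : Real.log (x / N₀) / Real.log R < k + 1 := Nat.lt_floor_add_one _
      have hpow : R ^ k * N₀ ≤ ⌊x⌋₊ := by
        apply Nat.le_floor
        push_cast
        rw [← le_div_iff₀ hN₀0]
        rw [le_div_iff₀ hlogR] at hk1
        have : Real.log ((R : ℝ) ^ k) ≤ Real.log (x / N₀) := by
          rw [Real.log_pow]; exact hk1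
        exact (Real.log_le_log_iff (by positivity) (by positivity)).mp this
      have hlow := taub_low b c₂ R N₀ (by omega) hblock k
      have hsub : ∑ n ∈ Finset.Ioc N₀ (R ^ k * N₀), b n / (n : ℝ) ≤
          ∑ n ∈ Finset.Icc 1 ⌊x⌋₊, b n / (n : ℝ) := by
        apply Finset.sum_le_sum_of_subset_of_nonneg
        · intro n hn
          rw [Finset.mem_Ioc] at hn
          rw [Finset.mem_Icc]
          exact ⟨by omega, hn.2.trans hpow⟩
        · intro n _ _
          exact hterm n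
      have hkbig : Real.log x / (2 * Real.log R) ≤ k := by
        have h1 : Real.log (x / N₀) = Real.log x - Real.log N₀ :=
          Real.log_div hx0.ne' hN₀0.ne'
        have h2 : Real.log (R * N₀ : ℝ) = Real.log R + Real.log N₀ :=
          Real.log_mul hR0.ne' hN₀0.ne'
        have h3 : Real.log X ≤ Real.log x := Real.log_le_log (by positivity) hxX.le
        rw [div_lt_iff₀ hlogR] at hk2
        rw [div_le_iff₀ (by positivity)]
        rw [h1] at hk2
        rw [hlogX2, h2] at h3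
        nlinarith
      calc min (b 1 / Real.log X) (c₂ / (2 * Real.log R)) * Real.log x
          ≤ c₂ / (2 * Real.log R) * Real.log x :=
            mul_le_mul_of_nonneg_right (min_le_right _ _) hlogx.le
        _ = Real.log x / (2 * Real.log R) * c₂ := by ring
        _ ≤ k * c₂ := mul_le_mul_of_nonneg_right hkbig hc₂0.le
        _ ≤ _ := hlow
        _ ≤ _ := hsub
  · set k : ℕ := Nat.log 2 ⌊x⌋₊ + 1 with hk
    have hlt : ⌊x⌋₊ < 2 ^ k := Nat.lt_pow_succ_log_self (by norm_num) _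
    have hsub : ∑ n ∈ Finset.Icc 1 ⌊x⌋₊, b n / (n : ℝ) ≤
        ∑ n ∈ Finset.Ico 1 (2 ^ k), b n / (n : ℝ) := by
      apply Finset.sum_le_sum_of_subset_of_nonneg
      · intro n hn
        rw [Finset.mem_Icc] at hn
        rw [Finset.mem_Ico]
        exact ⟨hn.1, lt_of_le_of_lt hn.2 hlt⟩
      · intro n _ _
        exact hterm n
    have hup' := taub_up b hb hs C hup k
    have hkle : (k : ℝ) ≤ 2 * Real.log x / Real.log 2 := by
      rw [le_div_iff₀ hlog2]
      have h1 : (2 : ℝ) ^ (Nat.log 2 ⌊x⌋₊) ≤ x := by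
        have h2 : 2 ^ (Nat.log 2 ⌊x⌋₊) ≤ ⌊x⌋₊ := Nat.pow_log_le_self 2 (by omega)
        calc (2 : ℝ) ^ (Nat.log 2 ⌊x⌋₊) = ((2 ^ (Nat.log 2 ⌊x⌋₊) : ℕ) : ℝ) := by push_cast; rfl
          _ ≤ (⌊x⌋₊ : ℝ) := by exact_mod_cast h2
          _ ≤ x := Nat.floor_le hx0.le
      have h3 : (Nat.log 2 ⌊x⌋₊ : ℝ) * Real.log 2 ≤ Real.log x := by
        rw [← Real.log_pow]
        exact Real.log_le_log (by positivity) h1
      have h4 : Real.log 2 ≤ Real.log x := Real.log_le_log (by norm_num) hx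
      rw [hk]
      push_cast
      linarith
    calc ∑ n ∈ Finset.Icc 1 ⌊x⌋₊, b n / (n : ℝ) ≤ _ := hsub
      _ ≤ k * (Real.exp (8 * Real.pi) * C) := hup'
      _ ≤ 2 * Real.log x / Real.log 2 * (Real.exp (8 * Real.pi) * C) :=
          mul_le_mul_of_nonneg_right hkle (by positivity)
      _ = _ := by ring

end Pool.Agent.H14.Sel
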