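import Mathlib
import Pool.Agent.H14.Sel.Defs

set_option autoImplicit false

/-!
# Module TRIV (MP_8e9775_nt): trivial bounds for `E β a X`

`e^(-x) ≤ C_k x^(-k)` for `x > 0`, `k > 0` (e.g. `Real.add_one_le_exp`-type bounds or
`Real.rpow_mul_exp_neg...`, `x^k e^(-x)` is bounded: `isLittleO_rpow_exp_...`, or
`x^k ≤ (k/e)^k e^x`; simplest: `x ≤ k exp (x/k)` so `x^k ≤ k^k exp x`). With `δ = (k - β - 1)/2 > 0` and
`‖a n‖ ≤ C_δ n^δ` the `n`-th term (`n ≥ 1`) is at most `C n^(δ+β-k) u^(-k)` and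
`∑ n^(δ+β-k)` converges (`δ + β - k < -1`); the term `n = 0` is zero when `β ≠ 0`.
`norm_E_le`: `‖exp (-(n X))‖ = exp (-(n Re X))`.
-/

namespace Pool.Agent.H14.Sel

open Complex MeasureTheory Filter Topology Pool.Agent.H11.Selberg

/-- `x^k ≤ K e^x` -/
theorem triv_rpow_le_exp (k : ℝ) (hk : 0 < k) :
    ∃ K : ℝ, 0 < K ∧ ∀ x : ℝ, 0 < x → x ^ k ≤ K * Real.exp x := by
  refine ⟨k ^ k, Real.rpow_pos_of_pos hk k, fun x hx => ?_⟩
  have h1 : x / k ≤ Real.exp (x / k) := by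
    have := Real.add_one_le_exp (x / k)
    linarith
  have h2 : x ≤ k * Real.exp (x / k) := by
    have := mul_le_mul_of_nonneg_left h1 hk.le
    rwa [mul_div_cancel₀ x hk.ne'] at this
  calc x ^ k ≤ (k * Real.exp (x / k)) ^ k := Real.rpow_le_rpow hx.le h2 hk.le
    _ = k ^ k * Real.exp x := by
      rw [Real.mul_rpow hk.le (Real.exp_pos _).le, ← Real.exp_mul, div_mul_cancel₀ x hk.ne']

/-- norm of the exponential -/
theorem triv_norm_exp (n : ℕ) (X : ℂ) :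
    ‖Complex.exp (-((n : ℂ) * X))‖ = Real.exp (-((n : ℝ) * X.re)) := by
  rw [Complex.norm_exp]
  congr 1
  simp

theorem sum_le (a : ℕ → ℂ) (ram : ∀ δ : ℝ, 0 < δ → ∃ C : ℝ, ∀ n : ℕ, 1 ≤ n → ‖a n‖ ≤ C * (n : ℝ) ^ δ)
    (β k : ℝ) (hβ : β ≠ 0) (hk : 0 < k) (hkβ : β + 1 < k) :
    ∃ C : ℝ, 0 ≤ C ∧ ∀ u : ℝ, 0 < u →
      Summable (fun n : ℕ => ‖a n‖ * (n : ℝ) ^ β * Real.exp (-((n : ℝ) * u))) ∧
      ∑' n : ℕ, ‖a n‖ * (n : ℝ) ^ β * Real.exp (-((n : ℝ) * u)) ≤ C * u ^ (-k) := by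
  set δ : ℝ := (k - β - 1) / 2 with hδ
  have hδ0 : 0 < δ := by rw [hδ]; linarith
  obtain ⟨C, hC⟩ := ram δ hδ0
  have hC0 : 0 ≤ C := by
    have := hC 1 le_rfl
    simp only [Nat.cast_one, Real.one_rpow, mul_one] at this
    exact (norm_nonneg _).trans this
  obtain ⟨K, hK, hKx⟩ := triv_rpow_le_exp k hk
  set p : ℝ := δ + β - k with hp
  have hp1 : p < -1 := by rw [hp, hδ]; linarith
  have hs : Summable (fun n : ℕ => (n : ℝ) ^ p) := Real.summable_nat_rpow.2 hp1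
  refine ⟨C * K * ∑' n : ℕ, (n : ℝ) ^ p, ?_, fun u hu => ?_⟩
  · apply mul_nonneg (by positivity)
    exact tsum_nonneg (fun n => by positivity)
  have hterm : ∀ n : ℕ, ‖a n‖ * (n : ℝ) ^ β * Real.exp (-((n : ℝ) * u)) ≤
      C * K * u ^ (-k) * (n : ℝ) ^ p := by
    intro n
    rcases Nat.eq_zero_or_pos n with rfl | hn
    · have h0 : ((0 : ℕ) : ℝ) ^ β = 0 := by
        rw [Nat.cast_zero, Real.zero_rpow hβ]
      rw [h0, mul_zero, zero_mul]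
      positivity
    · have hn0 : (0 : ℝ) < n := by exact_mod_cast hn
      have h1 := hKx (n * u) (by positivity)
      have h2 : Real.exp (-((n : ℝ) * u)) ≤ K * (n : ℝ) ^ (-k) * u ^ (-k) := by
        have h3 : 0 < ((n : ℝ) * u) ^ k := Real.rpow_pos_of_pos (by positivity) k
        have h4 : Real.exp (-((n : ℝ) * u)) * ((n : ℝ) * u) ^ k ≤ K := by
          have h5 : Real.exp (-((n : ℝ) * u)) * Real.exp ((n : ℝ) * u) = 1 := by
            rw [← Real.exp_add]; simp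
          calc Real.exp (-((n : ℝ) * u)) * ((n : ℝ) * u) ^ k
              ≤ Real.exp (-((n : ℝ) * u)) * (K * Real.exp ((n : ℝ) * u)) :=
                mul_le_mul_of_nonneg_left h1 (Real.exp_pos _).le
            _ = K * (Real.exp (-((n : ℝ) * u)) * Real.exp ((n : ℝ) * u)) := by ring
            _ = K := by rw [h5, mul_one]
        have h6 : K * (n : ℝ) ^ (-k) * u ^ (-k) = K / ((n : ℝ) * u) ^ k := by
          rw [Real.mul_rpow hn0.le hu.le, Real.rpow_neg hn0.le, Real.rpow_neg hu.le]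
          field_simp
        rw [h6, le_div_iff₀ h3]
        exact h4
      have h7 : (n : ℝ) ^ p = (n : ℝ) ^ δ * (n : ℝ) ^ β * (n : ℝ) ^ (-k) := by
        rw [← Real.rpow_add hn0, ← Real.rpow_add hn0, hp]
        congr 1
      calc ‖a n‖ * (n : ℝ) ^ β * Real.exp (-((n : ℝ) * u))
          ≤ C * (n : ℝ) ^ δ * (n : ℝ) ^ β * (K * (n : ℝ) ^ (-k) * u ^ (-k)) := by
            gcongr
            exact hC n hn
        _ = C * K * u ^ (-k) * (n : ℝ) ^ p := by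
            rw [h7]; ring
  have hs2 : Summable (fun n : ℕ => C * K * u ^ (-k) * (n : ℝ) ^ p) := hs.mul_left _
  have hs1 : Summable (fun n : ℕ => ‖a n‖ * (n : ℝ) ^ β * Real.exp (-((n : ℝ) * u))) :=
    Summable.of_nonneg_of_le (fun n => by positivity) hterm hs2
  refine ⟨hs1, ?_⟩
  calc ∑' n : ℕ, ‖a n‖ * (n : ℝ) ^ β * Real.exp (-((n : ℝ) * u))
      ≤ ∑' n : ℕ, C * K * u ^ (-k) * (n : ℝ) ^ p := hs1.tsum_le_tsum hterm hs2
    _ = C * K * u ^ (-k) * ∑' n : ℕ, (n : ℝ) ^ p := tsum_mul_left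
    _ = C * K * (∑' n : ℕ, (n : ℝ) ^ p) * u ^ (-k) := by ring

/-- norm of a term -/
theorem triv_norm_term (a : ℕ → ℂ) (β : ℝ) (X : ℂ) (n : ℕ) :
    ‖a n * (((n : ℝ) ^ β : ℝ) : ℂ) * Complex.exp (-((n : ℂ) * X))‖ =
      ‖a n‖ * (n : ℝ) ^ β * Real.exp (-((n : ℝ) * X.re)) := by
  rw [norm_mul, norm_mul, triv_norm_exp, Complex.norm_real,
    Real.norm_of_nonneg (Real.rpow_nonneg (Nat.cast_nonneg n) β)]

theorem norm_E_le (a : ℕ → ℂ) (ram : ∀ δ : ℝ, 0 < δ → ∃ C : ℝ, ∀ n : ℕ, 1 ≤ n → ‖a n‖ ≤ C * (n : ℝ) ^ δ)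
    (β k : ℝ) (hβ : β ≠ 0) (hk : 0 < k) (hkβ : β + 1 < k) :
    ∃ C : ℝ, 0 ≤ C ∧ ∀ X : ℂ, 0 < X.re → ‖E β a X‖ ≤ C * X.re ^ (-k) := by
  obtain ⟨C, hC0, hC⟩ := sum_le a ram β k hβ hk hkβ
  refine ⟨C, hC0, fun X hX => ?_⟩
  obtain ⟨h1, h2⟩ := hC X.re hX
  refine le_trans ?_ h2
  unfold E
  refine tsum_of_norm_bounded h1.hasSum (fun n => ?_)
  rw [triv_norm_term]

end Pool.Agent.H14.Sel
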