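import Mathlib
import Pool.Agent.H14.Sel.Defs

set_option autoImplicit false

/-!
# Module COVER (MP_8e9775_nt): the covering lemma

`exists_par`: for `0 < q < 4` there is `r` with `Par q r`. If `q < 1`: `r = 1` works
(`q < 1`). If `q ≥ 1`: let `s = 1/sqrt q ∈ (1/2, 1]`; the polynomial `g(r) = q r^2 - (4+q) r + 3` at
`r = s` is `4 - 4 s - 1/s = -(2s-1)^2/s < 0` (`q s = 1/s`), so by continuity every `r < s` close to
`s` works (and `q r^2 < 1`, `r > 1/2`).

`cover`: Suppose `U ≠ ∅`. `U` contains no integer (periodicity, `0 ∉ U`). Let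
`ℓ = sup {b - a : 0 ≤ a < b ≤ 1, (a,b) ⊆ U} ∈ (0, 1]` (nonempty by openness and periodicity). Any
interval contained in `U` contains no integer, so it is contained in some `[k, k+1]`, and so its
length is at most `ℓ`. (*)
Let `κ = 1/(q r^2) > 1`. Choose `(a,b) ⊆ U`, `0 ≤ a < b ≤ 1`, with `b - a > ℓ (1 - ε)`, `ε > 0` so small that
`(1 - ε) κ > 1` and (when `r < 1`) `(2r - 1)/(q r (1 - r)) > (2 - q r)/(q r (1 - ε))`; the second is possible because
`Par` gives `(2r-1) > (2 - qr)(1-r)`, that is `g(r) < 0`.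
(i) `b ≤ r`. If `a = 0` the image `{1/(q x) : 0 < x < b} = (1/(qb), ∞) ⊆ U` contains an integer,
contradiction. If `a > 0` then `(1/(qb), 1/(qa)) ⊆ U` has length `(b-a)/(qab) ≥ (b - a)/(q r^2) > ℓ`,
contradiction to (*).
(ii) `a ≥ 1 - r`: replace `(a,b)` by `(1-b, 1-a) ⊆ U` (symmetry and periodicity), case (i).
(iii) `r < b` and `a < 1 - r`; then `r < 1`, and `1/2 ∈ (a,b)` as `r > 1/2`. Let `(α, β)` be the connected
component of `U` containing `1/2` (or: `β = sup {x : [1/2, x] ⊆ U} ≤ 1`, `α = 1 - β` by symmetry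
`U = 1 - U`); `β ∉ U`, `(α, β) ⊆ U`, `α ≤ a < 1 - r`, `β ≥ b > r`. If `α = 0` we get a contradiction as in (i)
(`(0, r) ⊆ U`). Put `s' = 1/(q r) > r` (`q r^2 < 1`). The image of `(α, r)`: `(s', 1/(qα)) ⊆ U`.
If `s' < β`: `β ∉ U` forces `1/(qα) ≤ β` (otherwise `β ∈ (s', 1/(qα))`), so
`1 ≤ q α β = q α (1 - α) < q/4 < 1`, contradiction (`α ≠ 1/2`). So `s' ≥ β`, hence `β - α = 2β - 1 ≤ 2 s' - 1`, and
`ℓ (1 - ε) < b - a ≤ β - α ≤ 2 s' - 1 = (2 - q r)/(q r)`. The interval `(s', 1/(qα))` has length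
`(r - α)/(q r α) > (2r - 1)/(q r (1 - r))` (decreasing in `α`, `α < 1 - r`), and is `≤ ℓ` by (*). So
`(2r-1)/(q r (1-r)) < ℓ < (2 - q r)/(q r (1 - ε))`, contradiction to the choice of `ε`.
-/

namespace Pool.Agent.H14.Sel

open Complex MeasureTheory Filter Topology Pool.Agent.H11.Selberg

theorem exists_par (q : ℝ) (hq : 0 < q) (hq4 : q < 4) : ∃ r : ℝ, Par q r := by
  by_cases h1 : q < 1
  · exact ⟨1, by norm_num, by linarith, Or.inl le_rfl⟩
  push Not at h1
  set t := Real.sqrt q with ht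
  have ht0 : 0 < t := Real.sqrt_pos.2 hq
  have htt : t * t = q := Real.mul_self_sqrt hq.le
  have ht2 : t < 2 := by nlinarith
  set s := 1 / t with hs
  have hs0 : 0 < s := by positivity
  have hst : s * t = 1 := by rw [hs]; field_simp
  have hs12 : 1 / 2 < s := by
    rw [hs, div_lt_div_iff₀ (by norm_num) ht0]; linarith
  have hqs : q * s ^ 2 = 1 := by
    calc q * s ^ 2 = (s * t) ^ 2 := by rw [← htt]; ring
      _ = 1 := by rw [hst]; norm_num
  have hg : q * s ^ 2 - (4 + q) * s + 3 < 0 := by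
    have e1 : q * s = t := by
      calc q * s = t * (s * t) := by rw [← htt]; ring
        _ = t := by rw [hst, mul_one]
    have e2 : (2 * s - 1) ^ 2 > 0 := by
      have : 2 * s - 1 ≠ 0 := by linarith
      positivity
    have e3 : (4 - 4 * s - t) * s < 0 := by nlinarith
    have e4 : 4 - 4 * s - t < 0 := by
      by_contra hc
      push Not at hc
      have := mul_nonneg hc hs0.le
      linarith
    rw [hqs]
    linarith
  have hcont : ContinuousAt (fun r : ℝ => q * r ^ 2 - (4 + q) * r + 3) s := by fun_prop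
  have h2 : ∀ᶠ r in 𝓝 s, q * r ^ 2 - (4 + q) * r + 3 < 0 :=
    hcont.eventually_lt continuousAt_const hg
  have h3 : ∀ᶠ r in 𝓝 s, 1 / 2 < r := lt_mem_nhds hs12
  have h4 : ∀ᶠ r in 𝓝[<] s, (q * r ^ 2 - (4 + q) * r + 3 < 0) ∧ 1 / 2 < r ∧ r < s := by
    filter_upwards [nhdsWithin_le_nhds h2, nhdsWithin_le_nhds h3, self_mem_nhdsWithin]
      with r a b c using ⟨a, b, c⟩
  obtain ⟨r, hr1, hr2, hr3⟩ := h4.exists
  refine ⟨r, hr2, ?_, Or.inr hr1⟩
  rw [← hqs]
  have : r ^ 2 < s ^ 2 := by nlinarith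
  nlinarith

section CoverAux

variable {q r : ℝ} {U : Set ℝ}

private theorem cover_int (hper : ∀ x : ℝ, x ∈ U ↔ x + 1 ∈ U) (x : ℝ) (n : ℤ) :
    x ∈ U ↔ x + n ∈ U := by
  induction n using Int.induction_on with
  | zero => simp
  | succ i ih =>
    rw [ih, hper]
    push_cast
    rw [add_assoc]
  | pred i ih =>
    rw [ih, hper (x + ((-(i : ℤ) - 1 : ℤ) : ℝ))]
    push_cast
    have : x + (-(i : ℝ) - 1) + 1 = x + -(i : ℝ) := by ring
    rw [this]

private theorem cover_noint (hper : ∀ x : ℝ, x ∈ U ↔ x + 1 ∈ U) (h0 : (0 : ℝ) ∉ U) (n : ℤ) :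
    (n : ℝ) ∉ U := by
  intro h
  apply h0
  rw [cover_int hper 0 n, zero_add]
  exact h

private theorem cover_img (hq : 0 < q)
    (hcl : ∀ x : ℝ, x ∈ U → x ≠ 0 → |x| < r → 1 / (q * x) ∈ U) {y : ℝ} (hy : 0 < y)
    (hU : 1 / (q * y) ∈ U) (hr : 1 / (q * y) < r) : y ∈ U := by
  have hx : 0 < 1 / (q * y) := by positivity
  have h := hcl _ hU hx.ne' (by rw [abs_of_pos hx]; exact hr)
  have e : 1 / (q * (1 / (q * y))) = y := by field_simp
  rwa [e] at h

/-- no interval `(0, b)` in `U` -/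
private theorem cover_zero (hq : 0 < q) (hper : ∀ x : ℝ, x ∈ U ↔ x + 1 ∈ U)
    (hcl : ∀ x : ℝ, x ∈ U → x ≠ 0 → |x| < r → 1 / (q * x) ∈ U) (h0 : (0 : ℝ) ∉ U)
    {b : ℝ} (hb : 0 < b) (hbr : b ≤ r) (hs : Set.Ioo 0 b ⊆ U) : False := by
  obtain ⟨n, hn⟩ := exists_nat_gt (1 / (q * b))
  have hn0 : (0 : ℝ) < n := lt_trans (by positivity) hn
  have h1 : 1 / (q * n) < b := by
    rw [div_lt_iff₀ (by positivity)] at hn ⊢
    nlinarith
  have h2 : (n : ℝ) ∈ U := by
    refine cover_img hq hcl hn0 (hs ⟨by positivity, h1⟩) (lt_of_lt_of_le h1 hbr)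
  exact cover_noint hper h0 (n : ℤ) (by exact_mod_cast h2)

/-- the image of an interval -/
private theorem cover_image (hq : 0 < q)
    (hcl : ∀ x : ℝ, x ∈ U → x ≠ 0 → |x| < r → 1 / (q * x) ∈ U)
    {a b : ℝ} (ha : 0 < a) (hab : a < b) (hbr : b ≤ r) (hs : Set.Ioo a b ⊆ U) :
    Set.Ioo (1 / (q * b)) (1 / (q * a)) ⊆ U := by
  rintro y ⟨h1, h2⟩
  have hb : 0 < b := ha.trans hab
  have hy : 0 < y := lt_trans (by positivity) h1
  have h3 : 1 / (q * y) < b := by
    rw [div_lt_iff₀ (by positivity)] at h1 ⊢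
    nlinarith
  have h4 : a < 1 / (q * y) := by
    rw [lt_div_iff₀ (by positivity)] at h2 ⊢
    nlinarith
  exact cover_img hq hcl hy (hs ⟨h4, h3⟩) (lt_of_lt_of_le h3 hbr)

end CoverAux

theorem cover (q r : ℝ) (hq : 0 < q) (hq4 : q < 4) (hr : Par q r) (U : Set ℝ) (hU : IsOpen U)
    (hper : ∀ x : ℝ, x ∈ U ↔ x + 1 ∈ U) (hsym : ∀ x : ℝ, x ∈ U → -x ∈ U)
    (hcl : ∀ x : ℝ, x ∈ U → x ≠ 0 → |x| < r → 1 / (q * x) ∈ U) (h0 : (0 : ℝ) ∉ U) : U = ∅ := by
  obtain ⟨hr12, hqr, hr3⟩ := hr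
  by_contra hne
  obtain ⟨x0, hx0⟩ := Set.nonempty_iff_ne_empty.2 hne
  have hsym' : ∀ x : ℝ, x ∈ U → 1 - x ∈ U := by
    intro x hx
    have := (hper _).1 (hsym x hx)
    rwa [neg_add_eq_sub] at this
  -- the lengths
  set L : Set ℝ := {l | ∃ a b : ℝ, 0 ≤ a ∧ a < b ∧ b ≤ 1 ∧ Set.Ioo a b ⊆ U ∧ l = b - a} with hL
  have hbd : BddAbove L := by
    refine ⟨1, ?_⟩
    rintro l ⟨a, b, h1, h2, h3, h4, rfl⟩
    linarith
  have hfr : Int.fract x0 ∈ U := by
    rw [cover_int hper _ ⌊x0⌋, Int.fract_add_floor]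
    exact hx0
  have hfr0 : 0 < Int.fract x0 := by
    rcases (Int.fract_nonneg x0).lt_or_eq with h | h
    · exact h
    · exact absurd (h ▸ hfr) h0
  have hfr1 : Int.fract x0 < 1 := Int.fract_lt_one x0
  obtain ⟨δ, hδ, hball⟩ := Metric.isOpen_iff.1 hU _ hfr
  set l0 := min (min δ (Int.fract x0)) (1 - Int.fract x0) with hl0
  have hl0pos : 0 < l0 := lt_min (lt_min hδ hfr0) (by linarith)
  have hmem0 : l0 ∈ L := by
    refine ⟨Int.fract x0, Int.fract x0 + l0, hfr0.le, by linarith, ?_, ?_, by ring⟩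
    · have : l0 ≤ 1 - Int.fract x0 := min_le_right _ _
      linarith
    · rintro y ⟨h1, h2⟩
      apply hball
      rw [Metric.mem_ball, Real.dist_eq, abs_of_pos (by linarith)]
      have : l0 ≤ δ := le_trans (min_le_left _ _) (min_le_left _ _)
      linarith
  set ℓ := sSup L with hℓ
  have hℓpos : 0 < ℓ := lt_of_lt_of_le hl0pos (le_csSup hbd hmem0)
  -- any interval in U has length at most ℓ
  have hstar : ∀ c d : ℝ, c < d → Set.Ioo c d ⊆ U → d - c ≤ ℓ := by
    intro c d hcd hs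
    have hk1 : (⌊c⌋ : ℝ) ≤ c := Int.floor_le c
    have hk2 : c < ⌊c⌋ + 1 := Int.lt_floor_add_one c
    have hk3 : d ≤ ⌊c⌋ + 1 := by
      by_contra hc
      push Not at hc
      have := hs ⟨hk2, hc⟩
      refine cover_noint hper h0 (⌊c⌋ + 1) ?_
      push_cast
      exact this
    apply le_csSup hbd
    refine ⟨c - ⌊c⌋, d - ⌊c⌋, by linarith, by linarith, by linarith, ?_, by ring⟩
    rintro y ⟨h1, h2⟩
    rw [cover_int hper y ⌊c⌋]
    exact hs ⟨by linarith, by linarith⟩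
  have hr0 : 0 < r := by linarith
  -- choice of η
  obtain ⟨η, hη1, hη2, hη3, hη4⟩ : ∃ η : ℝ, η < 1 ∧ q * r ^ 2 < η ∧ 0 < η ∧
      (r < 1 → (2 - q * r) * (1 - r) < η * (2 * r - 1)) := by
    by_cases hr1 : r < 1
    · have hg : q * r ^ 2 - (4 + q) * r + 3 < 0 := by
        rcases hr3 with h | h
        · linarith
        · exact h
      have hm : max (q * r ^ 2) ((2 - q * r) * (1 - r) / (2 * r - 1)) < 1 := by
        refine max_lt hqr ?_
        rw [div_lt_one (by linarith)]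
        nlinarith
      obtain ⟨η, h1, h2⟩ := exists_between hm
      have h3 : q * r ^ 2 < η := lt_of_le_of_lt (le_max_left _ _) h1
      refine ⟨η, h2, h3, lt_trans (by positivity) h3, fun _ => ?_⟩
      have h4 := lt_of_le_of_lt (le_max_right _ _) h1
      rwa [div_lt_iff₀ (by linarith)] at h4
    · obtain ⟨η, h1, h2⟩ := exists_between hqr
      exact ⟨η, h2, h1, lt_trans (by positivity) h1, fun h => absurd h hr1⟩
  have hηℓ : η * ℓ < ℓ := by nlinarith
  obtain ⟨l, ⟨a, b, ha, hab, hb, hs, rfl⟩, hl⟩ := exists_lt_of_lt_csSup ⟨l0, hmem0⟩ hηℓ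
  -- case (i)
  have hcase : ∀ a b : ℝ, 0 ≤ a → a < b → b ≤ r → Set.Ioo a b ⊆ U → η * ℓ < b - a → False := by
    intro a b ha hab hbr hs hl
    rcases ha.lt_or_eq with ha | ha
    · have hb0 : 0 < b := ha.trans hab
      have h1 := hstar _ _ ?_ (cover_image hq hcl ha hab hbr hs)
      · have e : 1 / (q * a) - 1 / (q * b) = (b - a) / (q * (a * b)) := by
          field_simp
        rw [e, div_le_iff₀ (by positivity)] at h1
        have h2 : a * b ≤ r ^ 2 := by nlinarith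
        have h3 : ℓ * (q * (a * b)) ≤ ℓ * (q * r ^ 2) := by
          apply mul_le_mul_of_nonneg_left _ hℓpos.le
          exact mul_le_mul_of_nonneg_left h2 hq.le
        nlinarith
      · apply one_div_lt_one_div_of_lt (by positivity)
        exact mul_lt_mul_of_pos_left hab hq
    · subst ha
      exact cover_zero hq hper hcl h0 hab hbr hs
  by_cases hb1 : b ≤ r
  · exact hcase a b ha hab hb1 hs hl
  push Not at hb1
  by_cases ha1 : 1 - r ≤ a
  · refine hcase (1 - b) (1 - a) (by linarith) (by linarith) (by linarith) ?_ (by linarith)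
    rintro y ⟨h1, h2⟩
    have := hsym' (1 - y) (hs ⟨by linarith, by linarith⟩)
    rwa [sub_sub_cancel] at this
  push Not at ha1
  have hr1 : r < 1 := by linarith
  -- the component of 1/2
  set S : Set ℝ := {x | 1 / 2 ≤ x ∧ Set.Icc (1 / 2) x ⊆ U} with hS
  have hS1 : BddAbove S := by
    refine ⟨1, ?_⟩
    rintro x ⟨h1, h2⟩
    by_contra hc
    push Not at hc
    have := h2 ⟨by norm_num, hc.le⟩
    exact cover_noint hper h0 1 (by exact_mod_cast this)
  have hSb : ∀ x, 1 / 2 ≤ x → x < b → x ∈ S := by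
    intro x h1 h2
    refine ⟨h1, ?_⟩
    rintro y ⟨h3, h4⟩
    exact hs ⟨by linarith, by linarith⟩
  have hSa : ∀ x, 1 / 2 ≤ x → x < 1 - a → x ∈ S := by
    intro x h1 h2
    refine ⟨h1, ?_⟩
    rintro y ⟨h3, h4⟩
    have := hsym' (1 - y) (hs ⟨by linarith, by linarith⟩)
    rwa [sub_sub_cancel] at this
  have hSne : S.Nonempty := ⟨1 / 2, hSb _ le_rfl (by linarith)⟩
  set β := sSup S with hβ
  have hβb : b ≤ β := by
    apply le_of_forall_lt
    intro c hc
    obtain ⟨d, hd1, hd2⟩ := exists_between (max_lt hc (show 1 / 2 < b by linarith))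
    have := le_csSup hS1 (hSb d (le_trans (le_max_right _ _) hd1.le) hd2)
    exact lt_of_le_of_lt (le_max_left _ _) (lt_of_lt_of_le hd1 this)
  have hβa : 1 - a ≤ β := by
    apply le_of_forall_lt
    intro c hc
    obtain ⟨d, hd1, hd2⟩ := exists_between (max_lt hc (show 1 / 2 < 1 - a by linarith))
    have := le_csSup hS1 (hSa d (le_trans (le_max_right _ _) hd1.le) hd2)
    exact lt_of_le_of_lt (le_max_left _ _) (lt_of_lt_of_le hd1 this)
  have hβ1 : β ≤ 1 := by
    apply csSup_le hSne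
    rintro x ⟨h1, h2⟩
    by_contra hc
    push Not at hc
    have := h2 ⟨by norm_num, hc.le⟩
    exact cover_noint hper h0 1 (by exact_mod_cast this)
  have hβin : ∀ y, 1 / 2 ≤ y → y < β → y ∈ U := by
    intro y h1 h2
    obtain ⟨x, hx, hxy⟩ := exists_lt_of_lt_csSup hSne h2
    exact hx.2 ⟨h1, hxy.le⟩
  have hβU : β ∉ U := by
    intro h
    obtain ⟨δ, hδ, hball⟩ := Metric.isOpen_iff.1 hU _ h
    have : β + δ / 2 ∈ S := by
      refine ⟨by linarith, ?_⟩
      rintro y ⟨h1, h2⟩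
      by_cases h3 : y < β
      · exact hβin y h1 h3
      · apply hball
        push Not at h3
        rw [Metric.mem_ball, Real.dist_eq, abs_of_nonneg (by linarith)]
        linarith
    have := le_csSup hS1 this
    linarith
  have hcomp : Set.Ioo (1 - β) β ⊆ U := by
    rintro y ⟨h1, h2⟩
    by_cases h3 : 1 / 2 ≤ y
    · exact hβin y h3 h2
    · push Not at h3
      have := hsym' (1 - y) (hβin (1 - y) (by linarith) (by linarith))
      rwa [sub_sub_cancel] at this
  set α := 1 - β with hα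
  have hα0 : 0 ≤ α := by linarith
  have hαr : α < 1 - r := by linarith
  have hβr : r < β := by linarith
  rcases hα0.lt_or_eq with hα0 | hα0
  swap
  · refine cover_zero hq hper hcl h0 hr0 le_rfl (fun y hy => hcomp ⟨?_, ?_⟩)
    · rw [← hα0]; exact hy.1
    · linarith [hy.2]
  have hαr' : α < r := by linarith
  have himg : Set.Ioo (1 / (q * r)) (1 / (q * α)) ⊆ U :=
    cover_image hq hcl hα0 hαr' le_rfl (fun y hy => hcomp ⟨hy.1, by linarith [hy.2]⟩)
  have hlt : 1 / (q * r) < 1 / (q * α) := by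
    apply one_div_lt_one_div_of_lt (by positivity)
    exact mul_lt_mul_of_pos_left hαr' hq
  have hlen := hstar _ _ hlt himg
  have hβs : β ≤ 1 / (q * r) := by
    by_contra hc
    push Not at hc
    have h1 : 1 / (q * α) ≤ β := by
      by_contra hc'
      push Not at hc'
      exact hβU (himg ⟨hc, hc'⟩)
    rw [div_le_iff₀ (by positivity)] at h1
    have h2 : β * (q * α) = q * (α * (1 - α)) := by rw [hα]; ring
    have h3 : α * (1 - α) ≤ 1 / 4 := by nlinarith [sq_nonneg (α - 1 / 2)]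
    have h4 : q * (α * (1 - α)) ≤ q * (1 / 4) := mul_le_mul_of_nonneg_left h3 hq.le
    linarith
  have e1 : 1 / (q * α) - 1 / (q * r) = (r - α) / (q * (r * α)) := by
    field_simp
  rw [e1, div_le_iff₀ (by positivity)] at hlen
  rw [le_div_iff₀ (by positivity)] at hβs
  have h5 : η * ℓ < 2 * β - 1 := by
    have : b - a ≤ β - (1 - β) := by linarith
    linarith
  have h6 := hη4 hr1
  -- contradiction
  have h7 : (2 * r - 1) * α < (r - α) * (1 - r) := by nlinarith
  -- (2r-1) < q r (1-r) ℓ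
  have h8 : (2 * r - 1) < ℓ * (q * r) * (1 - r) := by
    have h9 : (r - α) * (1 - r) ≤ ℓ * (q * (r * α)) * (1 - r) :=
      mul_le_mul_of_nonneg_right hlen (by linarith)
    have h10 : (2 * r - 1) * α < ℓ * (q * r) * (1 - r) * α := by nlinarith
    exact lt_of_mul_lt_mul_right h10 hα0.le
  have h11 : η * ℓ * (q * r) < (2 * β - 1) * (q * r) :=
    mul_lt_mul_of_pos_right h5 (by positivity)
  have h12 : (2 * β - 1) * (q * r) ≤ 2 - q * r := by nlinarith
  have h13 : η * (2 * r - 1) < η * (ℓ * (q * r) * (1 - r)) := mul_lt_mul_of_pos_left h8 hη3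
  have h14 : η * ℓ * (q * r) * (1 - r) < (2 - q * r) * (1 - r) :=
    mul_lt_mul_of_pos_right (by linarith) (by linarith)
  nlinarith

end Pool.Agent.H14.Sel
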