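import Mathlib
import Pool.Agent.H14.Sel.Defs
import Pool.Agent.H14.Sel.Cover

set_option autoImplicit false

/-!
# Module DENSEZ (MP_8e9775_nt): admissible cusps are dense

`Adm.one_le`: `sqrt q ≤ c` for every admissible `(p, c)` (induction: `sqrt q |p| ≥ sqrt q/(q r) = 1/(sqrt q r) > 1`).
`Adm.add_int`: `Adm p c → Adm (p + k) c` (both constructors allow every integer `j`).
`Adm.neg`: `Adm p c → Adm (-p) c` (induction; `|-p| = |p|`).
Let `Z = {p | ∃ c, Adm q r p c}` and `U` the complement of its closure. `U` is open, invariant under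
`x ↦ x ± 1` and `x ↦ -x`, `0 ∉ U`. If `x ∈ U`, `x ≠ 0`, `|x| < r` and `x' = 1/(q x) ∉ U`, then
`x' ∈ closure Z`; `|x'| > 1/(q r)`, so points `p ∈ Z` close to `x'` have `|p| ≥ 1/(q r)`,
and `1/(q p) ∈ Z` (step with `j = 0`); as `p → x'` we get `1/(q p) → 1/(q x') = x`
(continuity of `t ↦ 1/(q t)` at `x' ≠ 0`), so `x ∈ closure Z`, contradiction.
By COVER `U = ∅`, so `Z` is dense. Compactness of `[0,1]`: cover it by finitely many balls
`B(p_i, η)` with `p_i ∈ Z` (`p_i` runs over `Z`; density) and let `cm = max c_i`; translate by integers for general `x`.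
-/

namespace Pool.Agent.H14.Sel

open Complex MeasureTheory Filter Topology Pool.Agent.H11.Selberg

theorem Adm.sqrt_le {q r : ℝ} (hq : 0 < q) (hr : Par q r) {p c : ℝ} (h : Adm q r p c) :
    Real.sqrt q ≤ c := by
  obtain ⟨hr12, hqr, -⟩ := hr
  have hr0 : 0 < r := by linarith
  have hs0 : 0 < Real.sqrt q := Real.sqrt_pos.2 hq
  have hss : Real.sqrt q * Real.sqrt q = q := Real.mul_self_sqrt hq.le
  have hsr : Real.sqrt q * r < 1 := by
    by_contra hc
    push Not at hc
    have : 1 ≤ (Real.sqrt q * r) * (Real.sqrt q * r) := by nlinarith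
    have e : (Real.sqrt q * r) * (Real.sqrt q * r) = q * r ^ 2 := by
      calc (Real.sqrt q * r) * (Real.sqrt q * r) = (Real.sqrt q * Real.sqrt q) * r ^ 2 := by ring
        _ = q * r ^ 2 := by rw [hss]
    linarith
  induction h with
  | base j => exact le_rfl
  | step p c j h hp ih =>
    have hc0 : 0 < c := lt_of_lt_of_le hs0 ih
    have h1 : 1 ≤ Real.sqrt q * |p| := by
      have h2 : Real.sqrt q * (1 / (q * r)) ≤ Real.sqrt q * |p| :=
        mul_le_mul_of_nonneg_left hp hs0.le
      have h3 : 1 ≤ Real.sqrt q * (1 / (q * r)) := by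
        rw [mul_one_div, le_div_iff₀ (by positivity), one_mul]
        calc q * r = Real.sqrt q * (Real.sqrt q * r) := by rw [← mul_assoc, hss]
          _ ≤ Real.sqrt q * 1 := mul_le_mul_of_nonneg_left hsr.le hs0.le
          _ = Real.sqrt q := mul_one _
      linarith
    calc Real.sqrt q ≤ c := ih
      _ = 1 * c := (one_mul _).symm
      _ ≤ Real.sqrt q * |p| * c := mul_le_mul_of_nonneg_right h1 hc0.le

private theorem Adm.add_int {q r : ℝ} {p c : ℝ} (h : Adm q r p c) (k : ℤ) :
    Adm q r (p + k) c := by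
  cases h with
  | base j =>
    have := Adm.base (q := q) (r₁ := r) (j + k)
    push_cast at this
    exact this
  | step p c j h hp =>
    have := Adm.step (q := q) (r₁ := r) p c (j - k) h hp
    push_cast at this
    have e : 1 / (q * p) - (j : ℝ) + k = 1 / (q * p) - ((j : ℝ) - k) := by ring
    rw [e]
    exact this

private theorem Adm.neg' {q r : ℝ} {p c : ℝ} (h : Adm q r p c) : Adm q r (-p) c := by
  induction h with
  | base j =>
    have := Adm.base (q := q) (r₁ := r) (-j)
    push_cast at this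
    exact this
  | step p c j h hp ih =>
    have := Adm.step (q := q) (r₁ := r) (-p) c (-j) ih (by rwa [abs_neg])
    rw [abs_neg] at this
    push_cast at this
    have e : -(1 / (q * p) - (j : ℝ)) = 1 / (q * -p) - -(j : ℝ) := by
      rw [mul_neg, div_neg]; ring
    rw [e]
    exact this

theorem adm_dense (q r : ℝ) (hq : 0 < q) (hq4 : q < 4) (hr : Par q r) (η : ℝ) (hη : 0 < η) :
    ∃ cm : ℝ, 0 < cm ∧ ∀ x : ℝ, ∃ p c : ℝ, Adm q r p c ∧ |x - p| < η ∧ c ≤ cm := by
  have hr0 : 0 < r := by linarith [hr.1]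
  set Z : Set ℝ := {p | ∃ c, Adm q r p c} with hZ
  have htr : ∀ (x : ℝ) (k : ℤ), x ∈ closure Z → x + k ∈ closure Z := by
    intro x k hx
    rw [Metric.mem_closure_iff] at hx ⊢
    intro ε hε
    obtain ⟨b, ⟨c, hc⟩, hb⟩ := hx ε hε
    refine ⟨b + k, ⟨c, hc.add_int k⟩, ?_⟩
    rwa [dist_add_right]
  have hcov := cover q r hq hq4 hr (closure Z)ᶜ isClosed_closure.isOpen_compl ?_ ?_ ?_ ?_
  · have hd : closure Z = Set.univ := by
      rw [← Set.compl_empty_iff]
      exact hcov
    have hsub : Set.Icc (0 : ℝ) 1 ⊆ ⋃ i : {x : ℝ × ℝ // Adm q r x.1 x.2}, Metric.ball i.1.1 η := by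
      intro x _
      have hx : x ∈ closure Z := by rw [hd]; exact Set.mem_univ x
      rw [Metric.mem_closure_iff] at hx
      obtain ⟨b, ⟨c, hc⟩, hb⟩ := hx η hη
      exact Set.mem_iUnion.2 ⟨⟨(b, c), hc⟩, Metric.mem_ball.2 hb⟩
    obtain ⟨t, ht⟩ := isCompact_Icc.elim_finite_subcover _ (fun i => Metric.isOpen_ball) hsub
    refine ⟨∑ i ∈ t, |i.1.2| + 1, by positivity, ?_⟩
    intro x
    have hf : Int.fract x ∈ Set.Icc (0 : ℝ) 1 := ⟨Int.fract_nonneg x, (Int.fract_lt_one x).le⟩
    obtain ⟨i, hi, hix⟩ := Set.mem_iUnion₂.1 (ht hf)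
    refine ⟨i.1.1 + ⌊x⌋, i.1.2, i.2.add_int _, ?_, ?_⟩
    · rw [Metric.mem_ball, Real.dist_eq] at hix
      have e : x - (i.1.1 + ⌊x⌋) = Int.fract x - i.1.1 := by
        rw [Int.fract]; ring
      rwa [e]
    · have h1 : |i.1.2| ≤ ∑ i ∈ t, |i.1.2| :=
        Finset.single_le_sum (f := fun i : {x : ℝ × ℝ // Adm q r x.1 x.2} => |i.1.2|)
          (fun j _ => abs_nonneg _) hi
      have h2 := le_abs_self i.1.2
      linarith
  · intro x
    rw [Set.mem_compl_iff, Set.mem_compl_iff, not_iff_not]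
    constructor
    · intro h
      have := htr x 1 h
      push_cast at this
      exact this
    · intro h
      have := htr (x + 1) (-1) h
      push_cast at this
      rwa [add_neg_cancel_right] at this
  · intro x hx hx'
    apply hx
    rw [Metric.mem_closure_iff] at hx' ⊢
    intro ε hε
    obtain ⟨b, ⟨c, hc⟩, hb⟩ := hx' ε hε
    refine ⟨-b, ⟨c, hc.neg'⟩, ?_⟩
    rw [← neg_neg x, dist_neg_neg]
    exact hb
  · intro x hx hx0 hxr hx'
    apply hx
    have h1 : 1 / (q * x) ≠ 0 := by positivity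
    have h2 : 1 / (q * r) < |1 / (q * x)| := by
      rw [abs_div, abs_one, abs_mul, abs_of_pos hq]
      apply one_div_lt_one_div_of_lt (mul_pos hq (abs_pos.2 hx0))
      exact mul_lt_mul_of_pos_left hxr hq
    have hcont : ContinuousAt (fun t : ℝ => 1 / (q * t)) (1 / (q * x)) := by
      apply ContinuousAt.div continuousAt_const (by fun_prop)
      exact mul_ne_zero hq.ne' h1
    have e : 1 / (q * (1 / (q * x))) = x := by field_simp
    have hlim : Tendsto (fun t : ℝ => 1 / (q * t)) (𝓝 (1 / (q * x))) (𝓝 x) := by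
      have := hcont.tendsto
      simp only [e] at this
      exact this
    rw [mem_closure_iff_frequently] at hx' ⊢
    have h3 : ∀ᶠ p in 𝓝 (1 / (q * x)), 1 / (q * r) < |p| :=
      continuous_abs.continuousAt.eventually_const_lt h2
    refine hlim.frequently ((hx'.and_eventually h3).mono ?_)
    rintro p ⟨⟨c, hc⟩, hp⟩
    have := Adm.step (q := q) (r₁ := r) p c 0 hc hp.le
    rw [Int.cast_zero, sub_zero] at this
    exact ⟨_, this⟩
  · intro h
    apply h
    apply subset_closure
    have := Adm.base (q := q) (r₁ := r) 0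
    rw [Int.cast_zero] at this
    exact ⟨_, this⟩

end Pool.Agent.H14.Sel
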