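import Mathlib
import Pool.Agent.H14.Sel.Defs
import Pool.Agent.H14.Sel.DenseZ

set_option autoImplicit false

/-!
# Module CUSP (MP_8e9775_nt): `φ` is large near admissible cusps

Let `V, cV` be from `h.top`, `C ≥ 0` the constant of `h.refl`, `ρ = 1/(q r^2) > 1`. Take `v₀ > 0` small (below),
`ε = sqrt (2 q v₀/V)`, `K = 4 ε/(1 - 1/ρ)`, `A = C (2 v₀)^(1/4)/(ρ^(1/4) - 1)`,
`D = (sqrt q)^(-1/2) ρ^(1/4)`. Conditions on `v₀`: `V v₀ ≤ 1/8`, `ε ≤ q/2`, `exp (K/q) ≤ 2`, `2 v₀ ≤ q`,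
`r + sqrt (2 v₀/V)/q ≤ 1/sqrt q` (possible: `r < 1/sqrt q`), `A D ≤ cV/2`. (All hold as `v₀ → 0`.)

Claim by induction on `Adm q r p c`: if `y = Im z > 0`, `y/(2V) ≤ c^2 ‖z-p‖^2 ≤ y/V` and
`y c^2 ≤ v₀ exp (K/c^2)`, then `φ z ≥ cV - A (D - c^(-1/2))`. (Gives the theorem with `c₀ = cV/2`.)
Note `c ≥ sqrt q` (`Adm.sqrt_le`), so `exp (K/c^2) ≤ 2`, `y ≤ 2 v₀/c^2 ≤ 2 v₀/q ≤ 1`.

Base `p = j`, `c = sqrt q`: by periodicity `φ z = φ (z - j)`; `‖z - j‖^2 ≤ y/(V q) ≤ 1/q`; the point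
`1/(q conj (z - j))` has imaginary part `y/(q ‖z-j‖^2) ∈ [V, 2V]`. So
`φ z ≥ cV - C y^(1/4) ≥ cV - C (2 v₀)^(1/4) (sqrt q)^(-1/2)` and `A (D - (sqrt q)^(-1/2)) = C (2v₀)^(1/4) (sqrt q)^(-1/2)`.

Step: `(p, c)` admissible with `|p| ≥ 1/(q r)`, `P = 1/(q p) - j`, `c₁ = sqrt q |p| c ≥ sqrt ρ c`, `z` near `P`. Then
`φ z = φ (z + j)`; `‖z + j‖ ≤ |1/(q p)| + ‖z - P‖ ≤ r + sqrt (y/V)/c₁ ≤ r + sqrt(2 v₀/V)/c₁^2 ≤ 1/sqrt q`
(`c₁^2 ≥ q`). Let `z' = 1/(q conj (z + j))`, `y' = Im z' = y/(q ‖z+j‖^2)`,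
`z' - p = -p conj(z - P)/conj (z + j)`, so `c^2 ‖z'-p‖^2 = c₁^2 ‖z-P‖^2/(q ‖z+j‖^2)`: the two inequalities for
`(z, P, c₁)` give those for `(z', p, c)`. And `y' c^2 = y c₁^2 (|1/(qp)|/‖z+j‖)^2`, with
`‖z+j‖ ≥ |1/(qp)| (1 - x)`, `x = q |p| ‖z-P‖ ≤ sqrt (q y/V)/c = sqrt (q y c₁^2/V)/(c c₁) ≤ ε/(c c₁) ≤ ε/c^2 ≤ 1/2`.
So `y' c^2 ≤ y c₁^2 (1-x)^(-2) ≤ y c₁^2 exp (4x) ≤ v₀ exp (K/c₁^2 + 4ε/c^2) ≤ v₀ exp (K/c^2)`, as
`K (1/c^2 - 1/c₁^2) ≥ K (1 - 1/ρ)/c^2 = 4 ε/c^2`. Hence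
`φ z ≥ φ z' - C y^(1/4) ≥ cV - A (D - c^(-1/2)) - C (2v₀)^(1/4) c₁^(-1/2) ≥ cV - A (D - c₁^(-1/2))`,
because `c^(-1/2) ≥ ρ^(1/4) c₁^(-1/2)`.
-/

namespace Pool.Agent.H14.Sel

open Complex MeasureTheory Filter Topology Pool.Agent.H11.Selberg

private theorem per_int {q : ℝ} {φ : ℂ → ℝ} (h : Aut q φ) (z : ℂ) (j : ℤ) : φ (z + (j : ℂ)) = φ z := by
  induction j using Int.induction_on with
  | zero => simp
  | succ i ih =>
      have := h.per (z + ((i : ℤ) : ℂ))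
      rw [ih] at this
      rw [← this]
      congr 1
      push_cast
      ring
  | pred i ih =>
      have := h.per (z + (((-(i : ℤ) - 1 : ℤ)) : ℂ))
      rw [← this, ← ih]
      congr 1
      push_cast
      ring

private theorem geo_im {q : ℝ} (hq : 0 < q) (w : ℂ) (hw : w ≠ 0) :
    (1 / ((q : ℂ) * (starRingEnd ℂ) w)).im = w.im / (q * ‖w‖ ^ 2) := by
  have e1 : (1 / ((q : ℂ) * (starRingEnd ℂ) w)) = ((1 / (q * ‖w‖ ^ 2) : ℝ) : ℂ) * w := by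
    have h1 : (starRingEnd ℂ) w ≠ 0 := by simpa using hw
    have h2 : ((‖w‖ ^ 2 : ℝ) : ℂ) = w * (starRingEnd ℂ) w := by
      rw [Complex.mul_conj, Complex.normSq_eq_norm_sq]
    have hq' : (q : ℂ) ≠ 0 := by exact_mod_cast hq.ne'
    push_cast at h2 ⊢
    rw [h2]
    field_simp
  rw [e1, Complex.im_ofReal_mul]
  ring

private theorem geo_norm {q : ℝ} (hq : 0 < q) (z : ℂ) (p : ℝ) (j : ℤ) (hp : p ≠ 0)
    (hw : z + (j : ℂ) ≠ 0) :
    ‖1 / ((q : ℂ) * (starRingEnd ℂ) (z + (j : ℂ))) - (p : ℂ)‖ =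
      |p| * ‖z - ((1 / (q * p) - j : ℝ) : ℂ)‖ / ‖z + (j : ℂ)‖ := by
  have hq' : (q : ℂ) ≠ 0 := by exact_mod_cast hq.ne'
  have hp' : (p : ℂ) ≠ 0 := by exact_mod_cast hp
  have h1 : (starRingEnd ℂ) (z + (j : ℂ)) ≠ 0 := by
    rw [Ne, map_eq_zero]
    exact hw
  have e1 : 1 / ((q : ℂ) * (starRingEnd ℂ) (z + (j : ℂ))) - (p : ℂ) =
      -((p : ℂ) * (starRingEnd ℂ) (z - ((1 / (q * p) - j : ℝ) : ℂ)) / (starRingEnd ℂ) (z + (j : ℂ))) := by
    have e2 : (starRingEnd ℂ) (z - ((1 / (q * p) - j : ℝ) : ℂ)) =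
        (starRingEnd ℂ) (z + (j : ℂ)) - 1 / ((q : ℂ) * p) := by
      rw [map_sub, map_add, Complex.conj_ofReal]
      push_cast
      rw [map_intCast]
      ring
    rw [e2]
    field_simp
    ring
  rw [e1, norm_neg, norm_div, norm_mul, RCLike.norm_conj, RCLike.norm_conj, Complex.norm_real,
    Real.norm_eq_abs]

private theorem exp_ineq {x : ℝ} (h0 : 0 ≤ x) (h1 : x ≤ 1 / 2) : 1 ≤ Real.exp (4 * x) * (1 - x) ^ 2 := by
  have h2 : 1 ≤ Real.exp (2 * x) * (1 - x) := by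
    have := Real.add_one_le_exp (2 * x)
    have h3 : (2 * x + 1) * (1 - x) ≤ Real.exp (2 * x) * (1 - x) :=
      mul_le_mul_of_nonneg_right this (by linarith)
    nlinarith
  have e : Real.exp (4 * x) * (1 - x) ^ 2 = (Real.exp (2 * x) * (1 - x)) ^ 2 := by
    rw [mul_pow, ← Real.exp_nat_mul]
    congr 2
    push_cast
    ring
  rw [e]
  nlinarith

private theorem cusp_ind {q r : ℝ} {φ : ℂ → ℝ} (h : Aut q φ) (hr : Par q r)
    (V cV C v₀ ε K A D R4 : ℝ) (hV : 1 ≤ V)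
    (htop : ∀ z : ℂ, V ≤ z.im → z.im ≤ 2 * V → cV ≤ φ z)
    (hC : 0 ≤ C)
    (hrefl : ∀ z : ℂ, 0 < z.im → z.im ≤ 1 → ‖z‖ ^ 2 ≤ 1 / q →
      |φ z - φ (1 / ((q : ℂ) * (starRingEnd ℂ) z))| ≤ C * z.im ^ (1 / 4 : ℝ))
    (hv : 0 < v₀) (hε0 : 0 ≤ ε) (hε : 2 * q * v₀ / V ≤ ε ^ 2) (hεq : ε ≤ q / 2)
    (hK0 : 0 ≤ K) (hK : 4 * ε ≤ K * (1 - q * r ^ 2)) (hKq : Real.exp (K / q) ≤ 2)
    (h4 : 2 * v₀ ≤ q) (h5 : r + Real.sqrt (2 * v₀ / V) / q ≤ 1 / Real.sqrt q)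
    (hR4 : R4 = (1 / (q * r ^ 2)) ^ (1 / 4 : ℝ))
    (hA0 : 0 ≤ A) (hA : C * (2 * v₀) ^ (1 / 4 : ℝ) ≤ A * (R4 - 1))
    (hD : D = q ^ (-(1 / 4) : ℝ) * R4) :
    ∀ p c : ℝ, Adm q r p c → ∀ z : ℂ, 0 < z.im →
      z.im * c ^ 2 ≤ v₀ * Real.exp (K / c ^ 2) →
      z.im / (2 * V) ≤ c ^ 2 * ‖z - p‖ ^ 2 → c ^ 2 * ‖z - p‖ ^ 2 ≤ z.im / V →
      cV - A * (D - (c ^ 2) ^ (-(1 / 4) : ℝ)) ≤ φ z := by
  have hq := h.qpos
  have hsq : 0 < Real.sqrt q := Real.sqrt_pos.mpr hq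
  have hsq2 : Real.sqrt q ^ 2 = q := Real.sq_sqrt hq.le
  have hr0 : 0 < r := by linarith [hr.1]
  have hqr : q * r ^ 2 < 1 := hr.2.1
  have hqr0 : 0 < q * r ^ 2 := by positivity
  have hV0 : 0 < V := by linarith
  -- general consequences of the hypothesis on y
  have key : ∀ c y : ℝ, Real.sqrt q ≤ c → 0 < y → y * c ^ 2 ≤ v₀ * Real.exp (K / c ^ 2) →
      y * c ^ 2 ≤ 2 * v₀ ∧ y ≤ 1 ∧ y ^ (1 / 4 : ℝ) ≤ (2 * v₀) ^ (1 / 4 : ℝ) * (c ^ 2) ^ (-(1 / 4) : ℝ) := by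
    intro c y hc hy hyc
    have hc0 : 0 < c := lt_of_lt_of_le hsq hc
    have hc2 : q ≤ c ^ 2 := by
      rw [← hsq2]
      exact pow_le_pow_left₀ hsq.le hc 2
    have hc20 : 0 < c ^ 2 := by positivity
    have h1 : Real.exp (K / c ^ 2) ≤ 2 := by
      refine le_trans (Real.exp_le_exp.mpr ?_) hKq
      exact div_le_div_of_nonneg_left hK0 hq hc2
    have h2 : y * c ^ 2 ≤ 2 * v₀ := by
      have := mul_le_mul_of_nonneg_left h1 hv.le
      linarith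
    have h3 : y ≤ 1 := by
      by_contra hcon
      push Not at hcon
      have : c ^ 2 < y * c ^ 2 := lt_mul_of_one_lt_left hc20 hcon
      linarith
    refine ⟨h2, h3, ?_⟩
    have h6 : y ≤ 2 * v₀ * (c ^ 2)⁻¹ := by
      rw [← div_eq_mul_inv, le_div_iff₀ hc20]
      exact h2
    calc y ^ (1 / 4 : ℝ) ≤ (2 * v₀ * (c ^ 2)⁻¹) ^ (1 / 4 : ℝ) :=
          Real.rpow_le_rpow hy.le h6 (by norm_num)
      _ = (2 * v₀) ^ (1 / 4 : ℝ) * (c ^ 2) ^ (-(1 / 4) : ℝ) := by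
          rw [Real.mul_rpow (by positivity) (by positivity), Real.inv_rpow hc20.le,
            Real.rpow_neg hc20.le]
  intro p c hadm
  induction hadm with
  | base j =>
      intro z hz hyc hlo hhi
      obtain ⟨k1, k2, k3⟩ := key (Real.sqrt q) z.im le_rfl hz hyc
      rw [hsq2] at k1 k3 hlo hhi hyc ⊢
      have hw : z + ((-j : ℤ) : ℂ) = z - ((j : ℝ) : ℂ) := by push_cast; ring
      have hwim : (z + ((-j : ℤ) : ℂ)).im = z.im := by simp
      have hper := per_int h z (-j)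
      set w := z + ((-j : ℤ) : ℂ) with hwdef
      rw [← hw] at hlo hhi
      have hw0 : w ≠ 0 := by
        intro h0
        rw [h0] at hwim
        simp at hwim
        linarith
      have hN : 0 < ‖w‖ := norm_pos_iff.mpr hw0
      have hqN : 0 < q * ‖w‖ ^ 2 := by positivity
      have hle1 : ‖w‖ ^ 2 ≤ 1 / q := by
        rw [le_div_iff₀ hq]
        have : z.im / V ≤ 1 := by
          rw [div_le_one hV0]
          linarith
        linarith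
      have hrf := hrefl w (by rw [hwim]; exact hz) (by rw [hwim]; exact k2) hle1
      rw [hwim] at hrf
      have him := geo_im hq w hw0
      rw [hwim] at him
      have hge : V ≤ (1 / ((q : ℂ) * (starRingEnd ℂ) w)).im := by
        rw [him, le_div_iff₀ hqN]
        rw [le_div_iff₀ hV0] at hhi
        linarith
      have hle : (1 / ((q : ℂ) * (starRingEnd ℂ) w)).im ≤ 2 * V := by
        rw [him, div_le_iff₀ hqN]
        rw [div_le_iff₀ (by positivity)] at hlo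
        linarith
      have ht := htop _ hge hle
      have habs := (abs_le.mp hrf).1
      rw [hper] at habs
      have hCy : C * z.im ^ (1 / 4 : ℝ) ≤ C * ((2 * v₀) ^ (1 / 4 : ℝ) * q ^ (-(1 / 4) : ℝ)) :=
        mul_le_mul_of_nonneg_left k3 hC
      have hq4 : 0 ≤ q ^ (-(1 / 4) : ℝ) := by positivity
      have hfin : C * (2 * v₀) ^ (1 / 4 : ℝ) * q ^ (-(1 / 4) : ℝ) ≤ A * (R4 - 1) * q ^ (-(1 / 4) : ℝ) :=
        mul_le_mul_of_nonneg_right hA hq4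
      rw [hD]
      have e1 : C * ((2 * v₀) ^ (1 / 4 : ℝ) * q ^ (-(1 / 4) : ℝ)) =
        C * (2 * v₀) ^ (1 / 4 : ℝ) * q ^ (-(1 / 4) : ℝ) := by ring
      have e2 : A * (q ^ (-(1 / 4) : ℝ) * R4 - q ^ (-(1 / 4) : ℝ)) =
        A * (R4 - 1) * q ^ (-(1 / 4) : ℝ) := by ring
      rw [e2]
      rw [e1] at hCy
      linarith
  | step p c j hpc hp ih =>
      intro z hz hyc hlo hhi
      have hcs : Real.sqrt q ≤ c := Adm.sqrt_le hq hr hpc
      have hc1s : Real.sqrt q ≤ Real.sqrt q * |p| * c := Adm.sqrt_le hq hr (Adm.step p c j hpc hp)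
      obtain ⟨k1, k2, k3⟩ := key (Real.sqrt q * |p| * c) z.im hc1s hz hyc
      have hc0 : 0 < c := lt_of_lt_of_le hsq hcs
      have hc2 : q ≤ c ^ 2 := by
        rw [← hsq2]
        exact pow_le_pow_left₀ hsq.le hcs 2
      have hc20 : 0 < c ^ 2 := by positivity
      have hp0 : 0 < |p| := lt_of_lt_of_le (by positivity) hp
      have hpne : p ≠ 0 := abs_pos.mp hp0
      have hp20 : 0 < p ^ 2 := by positivity
      have hc1sq : (Real.sqrt q * |p| * c) ^ 2 = q * p ^ 2 * c ^ 2 := by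
        rw [mul_pow, mul_pow, hsq2, sq_abs]
      rw [hc1sq] at k1 k3 hlo hhi hyc ⊢
      have hpr : 1 ≤ |p| * (q * r) := by
        rw [div_le_iff₀ (by positivity)] at hp
        exact hp
      have hpr2 : 1 ≤ p ^ 2 * (q * r) ^ 2 := by
        have : 1 ≤ (|p| * (q * r)) ^ 2 := one_le_pow₀ hpr
        rw [mul_pow, sq_abs] at this
        exact this
      have hρ : c ^ 2 ≤ q * p ^ 2 * c ^ 2 * (q * r ^ 2) := by
        have e : q * p ^ 2 * c ^ 2 * (q * r ^ 2) = c ^ 2 * (p ^ 2 * (q * r) ^ 2) := by ring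
        rw [e]
        exact le_mul_of_one_le_right hc20.le hpr2
      have hC1 : 0 < q * p ^ 2 * c ^ 2 := by positivity
      have hcc1 : c ^ 2 ≤ q * p ^ 2 * c ^ 2 :=
        le_trans hρ (mul_le_of_le_one_right hC1.le hqr.le)
      have hqc1 : q ≤ q * p ^ 2 * c ^ 2 := le_trans hc2 hcc1
      -- the point w
      have hwim : (z + (j : ℂ)).im = z.im := by simp
      have hper := per_int h z j
      have hw0 : z + (j : ℂ) ≠ 0 := by
        intro h0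
        rw [h0] at hwim
        simp at hwim
        linarith
      have hN : 0 < ‖z + (j : ℂ)‖ := norm_pos_iff.mpr hw0
      have hgn := geo_norm hq z p j hpne hw0
      have him := geo_im hq (z + (j : ℂ)) hw0
      rw [hwim] at him
      have hdiff : (z + (j : ℂ)) - ((1 / (q * p) : ℝ) : ℂ) = z - ((1 / (q * p) - j : ℝ) : ℂ) := by
        push_cast
        ring
      set P : ℂ := ((1 / (q * p) - j : ℝ) : ℂ) with hP
      set w := z + (j : ℂ) with hwdef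
      set M := ‖z - P‖ with hM
      have hM0 : 0 ≤ M := norm_nonneg _
      have hnorm1 : ‖((1 / (q * p) : ℝ) : ℂ)‖ = 1 / (q * |p|) := by
        rw [Complex.norm_real, Real.norm_eq_abs, abs_div, abs_mul, abs_one, abs_of_pos hq]
      have htri1 : ‖w‖ ≤ 1 / (q * |p|) + M := by
        have : w = ((1 / (q * p) : ℝ) : ℂ) + (z - P) := by rw [← hdiff]; ring
        calc ‖w‖ = ‖((1 / (q * p) : ℝ) : ℂ) + (z - P)‖ := by rw [← this]
          _ ≤ ‖((1 / (q * p) : ℝ) : ℂ)‖ + ‖z - P‖ := norm_add_le _ _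
          _ = 1 / (q * |p|) + M := by rw [hnorm1]
      have htri2 : 1 / (q * |p|) ≤ ‖w‖ + M := by
        have : ((1 / (q * p) : ℝ) : ℂ) = w - (z - P) := by rw [← hdiff]; ring
        calc 1 / (q * |p|) = ‖((1 / (q * p) : ℝ) : ℂ)‖ := hnorm1.symm
          _ = ‖w - (z - P)‖ := by rw [← this]
          _ ≤ ‖w‖ + ‖z - P‖ := norm_sub_le _ _
      have hinv : 1 / (q * |p|) ≤ r := by
        rw [div_le_iff₀ (by positivity)]
        have e : r * (q * |p|) = |p| * (q * r) := by ring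
        rw [e]
        exact hpr
      -- bound of M
      have hyV : z.im / V * (q * p ^ 2 * c ^ 2) ≤ 2 * v₀ / V := by
        rw [div_mul_eq_mul_div]
        exact div_le_div_of_nonneg_right k1 hV0.le
      have hMb : M ≤ Real.sqrt (2 * v₀ / V) / q := by
        rw [le_div_iff₀ hq]
        apply Real.le_sqrt_of_sq_le
        have h1 : (M * q) ^ 2 ≤ (q * p ^ 2 * c ^ 2 * M ^ 2) * (q * p ^ 2 * c ^ 2) := by
          have h2 : q * q ≤ (q * p ^ 2 * c ^ 2) * (q * p ^ 2 * c ^ 2) :=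
            mul_le_mul hqc1 hqc1 hq.le hC1.le
          calc (M * q) ^ 2 = M ^ 2 * (q * q) := by ring
            _ ≤ M ^ 2 * ((q * p ^ 2 * c ^ 2) * (q * p ^ 2 * c ^ 2)) :=
              mul_le_mul_of_nonneg_left h2 (sq_nonneg M)
            _ = (q * p ^ 2 * c ^ 2 * M ^ 2) * (q * p ^ 2 * c ^ 2) := by ring
        refine le_trans h1 (le_trans ?_ hyV)
        exact mul_le_mul_of_nonneg_right hhi hC1.le
      have hNle : ‖w‖ ≤ 1 / Real.sqrt q := by linarith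
      have hN2 : ‖w‖ ^ 2 ≤ 1 / q := by
        have := pow_le_pow_left₀ hN.le hNle 2
        rw [div_pow, one_pow, hsq2] at this
        exact this
      -- x
      have hx : c ^ 2 * (q * |p| * M) ≤ ε := by
        have h1 : (c ^ 2 * (q * |p| * M)) ^ 2 ≤ ε ^ 2 := by
          have e : (c ^ 2 * (q * |p| * M)) ^ 2 = q * c ^ 2 * (q * p ^ 2 * c ^ 2 * M ^ 2) := by
            rw [mul_pow, mul_pow, mul_pow, sq_abs]
            ring
          rw [e]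
          refine le_trans ?_ hε
          have h2 : q * c ^ 2 * (q * p ^ 2 * c ^ 2 * M ^ 2) ≤ q * c ^ 2 * (z.im / V) :=
            mul_le_mul_of_nonneg_left hhi (by positivity)
          have h3 : q * c ^ 2 * (z.im / V) ≤ q * (z.im / V * (q * p ^ 2 * c ^ 2)) := by
            have h4 : c ^ 2 * (z.im / V) ≤ (q * p ^ 2 * c ^ 2) * (z.im / V) :=
              mul_le_mul_of_nonneg_right hcc1 (by positivity)
            calc q * c ^ 2 * (z.im / V) = q * (c ^ 2 * (z.im / V)) := by ring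
              _ ≤ q * ((q * p ^ 2 * c ^ 2) * (z.im / V)) := mul_le_mul_of_nonneg_left h4 hq.le
              _ = q * (z.im / V * (q * p ^ 2 * c ^ 2)) := by ring
          have h5 : q * (z.im / V * (q * p ^ 2 * c ^ 2)) ≤ q * (2 * v₀ / V) :=
            mul_le_mul_of_nonneg_left hyV hq.le
          have e2 : q * (2 * v₀ / V) = 2 * q * v₀ / V := by ring
          linarith
        exact le_of_sq_le_sq h1 hε0
      set x := q * |p| * M with hxdef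
      have hx0 : 0 ≤ x := by positivity
      have hxhalf : x ≤ 1 / 2 := by
        by_contra hcon
        push Not at hcon
        have : q * x ≤ c ^ 2 * x := mul_le_mul_of_nonneg_right hc2 hx0
        have h2 : q * (1 / 2) < q * x := mul_lt_mul_of_pos_left hcon hq
        linarith
      have hqpN : 1 - x ≤ q * |p| * ‖w‖ := by
        rw [div_le_iff₀ (by positivity)] at htri2
        rw [hxdef]
        have e : (‖w‖ + M) * (q * |p|) = q * |p| * ‖w‖ + q * |p| * M := by ring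
        linarith
      have hqN : 0 < q * ‖w‖ ^ 2 := by positivity
      -- the point z'
      have hz' : 0 < (1 / ((q : ℂ) * (starRingEnd ℂ) w)).im := by
        rw [him]
        positivity
      have hih1 : (1 / ((q : ℂ) * (starRingEnd ℂ) w)).im * c ^ 2 ≤ v₀ * Real.exp (K / c ^ 2) := by
        rw [him, div_mul_eq_mul_div, div_le_iff₀ hqN]
        have h1 : z.im * (q * p ^ 2 * c ^ 2) ≤ v₀ * Real.exp (K / (q * p ^ 2 * c ^ 2)) := hyc
        have h2 := exp_ineq hx0 hxhalf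
        have h3 : (1 - x) ^ 2 ≤ (q * |p| * ‖w‖) ^ 2 := pow_le_pow_left₀ (by linarith) hqpN 2
        have h4 : 1 ≤ Real.exp (4 * x) * (q * |p| * ‖w‖) ^ 2 :=
          le_trans h2 (mul_le_mul_of_nonneg_left h3 (Real.exp_pos _).le)
        have h5 : Real.exp (K / (q * p ^ 2 * c ^ 2)) * Real.exp (4 * x) ≤ Real.exp (K / c ^ 2) := by
          rw [← Real.exp_add]
          apply Real.exp_le_exp.mpr
          have h6 : K / (q * p ^ 2 * c ^ 2) ≤ K * (q * r ^ 2) / c ^ 2 := by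
            rw [div_le_div_iff₀ hC1 hc20]
            calc K * c ^ 2 ≤ K * (q * p ^ 2 * c ^ 2 * (q * r ^ 2)) := mul_le_mul_of_nonneg_left hρ hK0
              _ = K * (q * r ^ 2) * (q * p ^ 2 * c ^ 2) := by ring
          have h7 : 4 * x ≤ K * (1 - q * r ^ 2) / c ^ 2 := by
            rw [le_div_iff₀ hc20]
            have e : 4 * x * c ^ 2 = 4 * (c ^ 2 * x) := by ring
            rw [e]
            linarith
          have h8 : K * (q * r ^ 2) / c ^ 2 + K * (1 - q * r ^ 2) / c ^ 2 = K / c ^ 2 := by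
            field_simp
            ring
          linarith
        have e1 : z.im * c ^ 2 * (q * p ^ 2 * (q * ‖w‖ ^ 2)) =
            z.im * (q * p ^ 2 * c ^ 2) * (q * ‖w‖ ^ 2) := by ring
        have h9 : (q * |p| * ‖w‖) ^ 2 = q * p ^ 2 * (q * ‖w‖ ^ 2) := by
          rw [mul_pow, mul_pow, sq_abs]
          ring
        rw [h9] at h4
        have hE : 0 < Real.exp (4 * x) := Real.exp_pos _
        calc z.im * c ^ 2 ≤ z.im * c ^ 2 * (Real.exp (4 * x) * (q * p ^ 2 * (q * ‖w‖ ^ 2))) :=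
              le_mul_of_one_le_right (by positivity) h4
          _ = (z.im * (q * p ^ 2 * c ^ 2)) * Real.exp (4 * x) * (q * ‖w‖ ^ 2) := by ring
          _ ≤ (v₀ * Real.exp (K / (q * p ^ 2 * c ^ 2))) * Real.exp (4 * x) * (q * ‖w‖ ^ 2) := by
              gcongr
          _ = v₀ * (Real.exp (K / (q * p ^ 2 * c ^ 2)) * Real.exp (4 * x)) * (q * ‖w‖ ^ 2) := by ring
          _ ≤ v₀ * Real.exp (K / c ^ 2) * (q * ‖w‖ ^ 2) := by gcongr
      have hnn : c ^ 2 * ‖1 / ((q : ℂ) * (starRingEnd ℂ) w) - (p : ℂ)‖ ^ 2 =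
          q * p ^ 2 * c ^ 2 * M ^ 2 / (q * ‖w‖ ^ 2) := by
        rw [hgn, div_pow, mul_pow, sq_abs]
        field_simp
      have hih2 : (1 / ((q : ℂ) * (starRingEnd ℂ) w)).im / (2 * V) ≤
          c ^ 2 * ‖1 / ((q : ℂ) * (starRingEnd ℂ) w) - (p : ℂ)‖ ^ 2 := by
        rw [hnn, him, div_right_comm]
        exact div_le_div_of_nonneg_right hlo hqN.le
      have hih3 : c ^ 2 * ‖1 / ((q : ℂ) * (starRingEnd ℂ) w) - (p : ℂ)‖ ^ 2 ≤
          (1 / ((q : ℂ) * (starRingEnd ℂ) w)).im / V := by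
        rw [hnn, him, div_right_comm]
        exact div_le_div_of_nonneg_right hhi hqN.le
      have hIH := ih _ hz' hih1 hih2 hih3
      have hrf := hrefl w (by rw [hwim]; exact hz) (by rw [hwim]; exact k2) hN2
      rw [hwim] at hrf
      have habs := (abs_le.mp hrf).1
      rw [hper] at habs
      have hCy : C * z.im ^ (1 / 4 : ℝ) ≤
          C * ((2 * v₀) ^ (1 / 4 : ℝ) * (q * p ^ 2 * c ^ 2) ^ (-(1 / 4) : ℝ)) :=
        mul_le_mul_of_nonneg_left k3 hC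
      have hG : R4 * (q * p ^ 2 * c ^ 2) ^ (-(1 / 4) : ℝ) ≤ (c ^ 2) ^ (-(1 / 4) : ℝ) := by
        have h1 : (q * p ^ 2 * c ^ 2 * (q * r ^ 2)) ^ (-(1 / 4) : ℝ) ≤ (c ^ 2) ^ (-(1 / 4) : ℝ) :=
          Real.rpow_le_rpow_of_nonpos hc20 hρ (by norm_num)
        rw [Real.mul_rpow hC1.le hqr0.le] at h1
        have h2 : R4 = (q * r ^ 2) ^ (-(1 / 4) : ℝ) := by
          rw [hR4, one_div, Real.inv_rpow hqr0.le, Real.rpow_neg hqr0.le]
        rw [h2]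
        linarith
      have hG0 : 0 ≤ (q * p ^ 2 * c ^ 2) ^ (-(1 / 4) : ℝ) := by positivity
      have hfin : C * (2 * v₀) ^ (1 / 4 : ℝ) * (q * p ^ 2 * c ^ 2) ^ (-(1 / 4) : ℝ) ≤
          A * (R4 - 1) * (q * p ^ 2 * c ^ 2) ^ (-(1 / 4) : ℝ) :=
        mul_le_mul_of_nonneg_right hA hG0
      have hfin2 : A * (R4 * (q * p ^ 2 * c ^ 2) ^ (-(1 / 4) : ℝ)) ≤ A * (c ^ 2) ^ (-(1 / 4) : ℝ) :=
        mul_le_mul_of_nonneg_left hG hA0
      generalize hg1 : (q * p ^ 2 * c ^ 2) ^ (-(1 / 4) : ℝ) = g1 at *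
      generalize hg2 : (c ^ 2) ^ (-(1 / 4) : ℝ) = g2 at *
      generalize hg3 : (2 * v₀) ^ (1 / 4 : ℝ) = g3 at *
      have e1 : C * (g3 * g1) = C * g3 * g1 := by ring
      have e2 : A * (R4 - 1) * g1 = A * (R4 * g1) - A * g1 := by ring
      have e3 : A * (D - g1) = A * D - A * g1 := by ring
      have e4 : A * (D - g2) = A * D - A * g2 := by ring
      rw [e3]
      rw [e4] at hIH
      rw [e1] at hCy
      rw [e2] at hfin
      linarith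

private theorem ev0 {f : ℝ → ℝ} (hf : Continuous f) {b : ℝ} (h : f 0 < b) :
    ∀ᶠ v : ℝ in 𝓝 0, f v < b :=
  hf.continuousAt.eventually_lt continuousAt_const h

theorem cusp_low {q r : ℝ} {φ : ℂ → ℝ} (h : Aut q φ) (hr : Par q r) :
    ∃ V v₀ c₀ : ℝ, 1 ≤ V ∧ 0 < v₀ ∧ 0 < c₀ ∧ V * v₀ ≤ 1 / 8 ∧
      ∀ p c : ℝ, Adm q r p c → ∀ z : ℂ, 0 < z.im → z.im * c ^ 2 ≤ v₀ →
        z.im / (2 * V) ≤ c ^ 2 * ‖z - p‖ ^ 2 → c ^ 2 * ‖z - p‖ ^ 2 ≤ z.im / V → c₀ ≤ φ z := by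
  obtain ⟨V, cV, hV, hcV, htop⟩ := h.top
  obtain ⟨C', hrefl'⟩ := h.refl
  have hq := h.qpos
  have hsq : 0 < Real.sqrt q := Real.sqrt_pos.mpr hq
  have hsq2 : Real.sqrt q ^ 2 = q := Real.sq_sqrt hq.le
  have hr0 : 0 < r := by linarith [hr.1]
  have hqr : q * r ^ 2 < 1 := hr.2.1
  have hqr0 : 0 < q * r ^ 2 := by positivity
  have hV0 : 0 < V := by linarith
  obtain ⟨C, hC0, hrefl⟩ : ∃ C : ℝ, 0 ≤ C ∧ ∀ z : ℂ, 0 < z.im → z.im ≤ 1 → ‖z‖ ^ 2 ≤ 1 / q →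
      |φ z - φ (1 / ((q : ℂ) * (starRingEnd ℂ) z))| ≤ C * z.im ^ (1 / 4 : ℝ) := by
    refine ⟨|C'|, abs_nonneg _, fun z h1 h2 h3 => le_trans (hrefl' z h1 h2 h3) ?_⟩
    exact mul_le_mul_of_nonneg_right (le_abs_self _) (by positivity)
  obtain ⟨R4, hR4⟩ : ∃ R4 : ℝ, R4 = (1 / (q * r ^ 2)) ^ (1 / 4 : ℝ) := ⟨_, rfl⟩
  have hR41 : 1 < R4 := by
    rw [hR4]
    apply Real.one_lt_rpow _ (by norm_num)
    rw [lt_div_iff₀ hqr0]
    linarith
  obtain ⟨D, hD⟩ : ∃ D : ℝ, D = q ^ (-(1 / 4) : ℝ) * R4 := ⟨_, rfl⟩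
  have hD0 : 0 ≤ D := by
    rw [hD]
    have : 0 < R4 := by linarith
    positivity
  have hrs : r < 1 / Real.sqrt q := by
    rw [lt_div_iff₀ hsq]
    by_contra hcon
    push Not at hcon
    have h1 : 1 ≤ (r * Real.sqrt q) ^ 2 := one_le_pow₀ hcon
    rw [mul_pow, hsq2] at h1
    linarith
  have e1 : ∀ᶠ v : ℝ in 𝓝 0, V * v < 1 / 8 :=
    ev0 (f := fun v => V * v) (by fun_prop) (by simp)
  have e2 : ∀ᶠ v : ℝ in 𝓝 0, Real.sqrt (2 * q * v / V) < q / 2 :=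
    ev0 (f := fun v => Real.sqrt (2 * q * v / V)) (by fun_prop) (by simpa using hq)
  have e3 : ∀ᶠ v : ℝ in 𝓝 0,
      Real.exp (4 * Real.sqrt (2 * q * v / V) / (1 - q * r ^ 2) / q) < 2 :=
    ev0 (f := fun v => Real.exp (4 * Real.sqrt (2 * q * v / V) / (1 - q * r ^ 2) / q))
      (by fun_prop) (by simp)
  have e4 : ∀ᶠ v : ℝ in 𝓝 0, 2 * v < q :=
    ev0 (f := fun v => 2 * v) (by fun_prop) (by simpa using hq)
  have e5 : ∀ᶠ v : ℝ in 𝓝 0, r + Real.sqrt (2 * v / V) / q < 1 / Real.sqrt q :=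
    ev0 (f := fun v => r + Real.sqrt (2 * v / V) / q) (by fun_prop) (by simpa using hrs)
  have e6 : ∀ᶠ v : ℝ in 𝓝 0, C * (2 * v) ^ (1 / 4 : ℝ) / (R4 - 1) * D < cV / 2 := by
    have hc0 : Continuous (fun v : ℝ => (2 * v) ^ (1 / 4 : ℝ)) :=
      (continuous_const.mul continuous_id).rpow_const (fun _ => Or.inr (by norm_num))
    have hc : Continuous (fun v : ℝ => C * (2 * v) ^ (1 / 4 : ℝ) / (R4 - 1) * D) :=
      ((continuous_const.mul hc0).div_const _).mul continuous_const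
    refine ev0 (f := fun v => C * (2 * v) ^ (1 / 4 : ℝ) / (R4 - 1) * D) hc ?_
    simp only [mul_zero]
    rw [Real.zero_rpow (by norm_num)]
    simpa using hcV
  have hall := (e1.and (e2.and (e3.and (e4.and (e5.and e6)))))
  have hall' : ∀ᶠ v : ℝ in 𝓝[>] 0, _ := hall.filter_mono nhdsWithin_le_nhds
  obtain ⟨v₀, ⟨h1, h2, h3, h4, h5, h6⟩, hv0⟩ := (hall'.and self_mem_nhdsWithin).exists
  have hv : 0 < v₀ := hv0
  refine ⟨V, v₀, cV / 2, hV, hv, by linarith, h1.le, ?_⟩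
  intro p c hadm z hz hyc hlo hhi
  have hR : 0 < R4 - 1 := by linarith
  have hqr1 : 0 < 1 - q * r ^ 2 := by linarith
  have hcs : Real.sqrt q ≤ c := Adm.sqrt_le hq hr hadm
  have hc0 : 0 < c := lt_of_lt_of_le hsq hcs
  have hA0 : 0 ≤ C * (2 * v₀) ^ (1 / 4 : ℝ) / (R4 - 1) := by positivity
  have hK0 : 0 ≤ 4 * Real.sqrt (2 * q * v₀ / V) / (1 - q * r ^ 2) := by positivity
  have hmain := cusp_ind h hr V cV C v₀ (Real.sqrt (2 * q * v₀ / V))
    (4 * Real.sqrt (2 * q * v₀ / V) / (1 - q * r ^ 2))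
    (C * (2 * v₀) ^ (1 / 4 : ℝ) / (R4 - 1)) D R4 hV htop hC0 hrefl hv (Real.sqrt_nonneg _)
    (by rw [Real.sq_sqrt (by positivity)]) h2.le hK0
    (by rw [div_mul_cancel₀ _ hqr1.ne']) h3.le h4.le h5.le hR4 hA0
    (by rw [div_mul_cancel₀ _ hR.ne']) hD p c hadm z hz
    (le_trans hyc (le_mul_of_one_le_right hv.le (Real.one_le_exp (by positivity)))) hlo hhi
  have hg : 0 ≤ (c ^ 2) ^ (-(1 / 4) : ℝ) := by positivity
  have hAg : 0 ≤ C * (2 * v₀) ^ (1 / 4 : ℝ) / (R4 - 1) * (c ^ 2) ^ (-(1 / 4) : ℝ) :=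
    mul_nonneg hA0 hg
  have e : C * (2 * v₀) ^ (1 / 4 : ℝ) / (R4 - 1) * (D - (c ^ 2) ^ (-(1 / 4) : ℝ)) =
    C * (2 * v₀) ^ (1 / 4 : ℝ) / (R4 - 1) * D -
      C * (2 * v₀) ^ (1 / 4 : ℝ) / (R4 - 1) * (c ^ 2) ^ (-(1 / 4) : ℝ) := by ring
  rw [e] at hmain
  linarith

end Pool.Agent.H14.Sel
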