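import Mathlib
import Pool.Agent.H14.Sel.Defs
import Pool.Agent.H14.Sel.DenseZ

set_option autoImplicit false

/-!
# Module DENSE (MP_8e9775_nt): approximation by admissible cusps

Constants. `κ = 2q/(4+q) < 1`, `K = q/(1 - κ)`, `η > 0` with
`η ≤ (2 - 1/r)/q`, `η ≤ (4-q)/(4q)`, `K η ≤ log 2`. `cm` from `adm_dense` for `η`;
`τ = min 1 (q η^2)`, `v₁ = min (v₀/(2q)) (v₀/(2 cm^2))`, `C = max (1/sqrt v₁) (cm η/sqrt(τ v₁))`,
`Y₁ = v₁/2`.

Claim by induction on `n`: for `0 < Y < v₁` with `v₁ (q/4)^n ≤ Y` and every `x` there is an admissible `(p,c)` with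
`|x - p| ≤ η`, `c |x - p| ≤ C sqrt Y`, `Y c^2 ≤ (v₀/2) exp (K (η - |x - p|))`.
(It gives the theorem since `exp (Kη) ≤ 2`.) Let `j = - round x`, `d = |x + j| ≤ 1/2`.

Stop case: `d = 0` or `Y/(q d^2) ≥ v₁`, i.e. `q d^2 v₁ ≤ Y`.
* `Y < τ v₁`: take `p = -j = round x`, `c = sqrt q` (`Adm.base`): `|x-p| = d ≤ sqrt (Y/(q v₁)) ≤ sqrt (τ/q) ≤ η`,
  `c d ≤ sqrt (Y/v₁) ≤ C sqrt Y`, `Y c^2 = q Y ≤ q v₁ ≤ v₀/2`.
* `Y ≥ τ v₁`: take `(p,c)` from `adm_dense`: `c |x-p| ≤ cm η ≤ C sqrt Y`, `Y c^2 ≤ v₁ cm^2 ≤ v₀/2`.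

Otherwise `x' = 1/(q (x+j))`, `Y' = Y/(q d^2) < v₁`, `Y' ≥ (4/q) Y ≥ v₁ (q/4)^(n-1)` (`n ≥ 1` since `Y < v₁`). Take
`(p', c')` for `(x', Y')` and put `p = 1/(q p') - j`, `c = sqrt q |p'| c'` (`Adm.step`:
`|x'| = 1/(q d) ≥ 2/q`, `|p'| ≥ 2/q - η ≥ 1/(q r)`). Then
`x - p = 1/(q x') - 1/(q p') = (p' - x')/(q x' p')`, `q |x'| |p'| ≥ 2 (2/q - η) ≥ 1/κ`, so
`|x - p| ≤ κ |x' - p'| ≤ η`. `c |x-p| = c' |x'-p'|/(sqrt q |x'|) = c' |x'-p'| sqrt q d ≤ C sqrt Y' sqrt q d = C sqrt Y`.
`Y c^2 = Y' c'^2 (p'/x')^2`, `|p'/x'| ≤ 1 + (q/2) |x'-p'| ≤ exp ((q/2)|x'-p'|)`, so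
`Y c^2 ≤ (v₀/2) exp (K (η - |x'-p'|) + q |x'-p'|) ≤ (v₀/2) exp (K (η - |x-p|))` because
`K |x'-p'| - K |x-p| ≥ K (1-κ) |x'-p'| = q |x'-p'|`.
-/

namespace Pool.Agent.H14.Sel

open Complex MeasureTheory Filter Topology Pool.Agent.H11.Selberg

private theorem dense_ind (q r : ℝ) (hq : 0 < q) (hq4 : q < 4) (hr : Par q r) (v₀ η cm τ v₁ C κ K : ℝ)
    (hv : 0 < v₀) (hη : 0 < η) (hη1 : q * η ≤ 2 - 1 / r) (hη2 : 4 * q * η ≤ 4 - q)
    (hcm : 0 < cm) (hdense : ∀ x : ℝ, ∃ p c : ℝ, Adm q r p c ∧ |x - p| < η ∧ c ≤ cm)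
    (_hτ0 : 0 < τ) (hτ : τ ≤ q * η ^ 2) (hv1 : 0 < v₁) (hv1a : v₁ * (2 * q) ≤ v₀)
    (hv1b : v₁ * (2 * cm ^ 2) ≤ v₀) (hC0 : 0 < C) (hC1 : 1 / Real.sqrt v₁ ≤ C)
    (hC2 : cm * η ≤ C * Real.sqrt (τ * v₁)) (hκ : κ = 2 * q / (4 + q))
    (hK0 : 0 < K) (hK : K * (1 - κ) = q) :
    ∀ n : ℕ, ∀ Y x : ℝ, 0 < Y → Y < v₁ → v₁ * (q / 4) ^ n ≤ Y →
      ∃ p c : ℝ, Adm q r p c ∧ |x - p| ≤ η ∧ c * |x - p| ≤ C * Real.sqrt Y ∧
        Y * c ^ 2 ≤ v₀ / 2 * Real.exp (K * (η - |x - p|)) := by
  have hsq : 0 < Real.sqrt q := Real.sqrt_pos.mpr hq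
  have hsq2 : Real.sqrt q ^ 2 = q := Real.sq_sqrt hq.le
  have hr0 : 0 < r := by linarith [hr.1]
  have hsv : 0 < Real.sqrt v₁ := Real.sqrt_pos.mpr hv1
  have hsv2 : Real.sqrt v₁ ^ 2 = v₁ := Real.sq_sqrt hv1.le
  intro n
  induction n with
  | zero =>
      intro Y x hY hYv hn
      simp at hn
      linarith
  | succ n ih =>
      intro Y x hY hYv hn
      have hsY : 0 < Real.sqrt Y := Real.sqrt_pos.mpr hY
      have hsY2 : Real.sqrt Y ^ 2 = Y := Real.sq_sqrt hY.le
      have hd : |x - round x| ≤ 1 / 2 := abs_sub_round x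
      by_cases hstop : q * |x - round x| ^ 2 * v₁ ≤ Y
      · by_cases hYτ : Y < τ * v₁
        · have hdη : |x - round x| ≤ η := by
            have h1 : q * |x - round x| ^ 2 * v₁ < q * η ^ 2 * v₁ := by
              have := mul_le_mul_of_nonneg_right hτ hv1.le
              linarith
            have h2 : |x - round x| ^ 2 < η ^ 2 := by
              have h3 := lt_of_mul_lt_mul_right h1 hv1.le
              exact lt_of_mul_lt_mul_left h3 hq.le
            exact (lt_of_pow_lt_pow_left₀ 2 hη.le h2).le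
          refine ⟨((round x : ℤ) : ℝ), Real.sqrt q, Adm.base _, hdη, ?_, ?_⟩
          · have h1 : (Real.sqrt q * |x - round x| * Real.sqrt v₁) ^ 2 ≤ (Real.sqrt Y) ^ 2 := by
              rw [mul_pow, mul_pow, hsq2, hsv2, hsY2]
              exact hstop
            have h2 : Real.sqrt q * |x - round x| * Real.sqrt v₁ ≤ Real.sqrt Y :=
              le_of_sq_le_sq h1 hsY.le
            have h3 : Real.sqrt q * |x - round x| ≤ 1 / Real.sqrt v₁ * Real.sqrt Y := by
              rw [one_div, inv_mul_eq_div, le_div_iff₀ hsv]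
              exact h2
            exact le_trans h3 (mul_le_mul_of_nonneg_right hC1 hsY.le)
          · rw [hsq2]
            have h1 : 1 ≤ Real.exp (K * (η - |x - round x|)) := by
              apply Real.one_le_exp
              exact mul_nonneg hK0.le (by linarith)
            have h2 : Y * q ≤ v₀ / 2 := by
              have : Y * q ≤ v₁ * q := mul_le_mul_of_nonneg_right hYv.le hq.le
              linarith
            exact le_trans h2 (le_mul_of_one_le_right (by positivity) h1)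
        · push Not at hYτ
          obtain ⟨p, c, hadm, hp, hc⟩ := hdense x
          have hc0 : 0 ≤ c := le_trans hsq.le (Adm.sqrt_le hq hr hadm)
          refine ⟨p, c, hadm, hp.le, ?_, ?_⟩
          · have h1 : c * |x - p| ≤ cm * η := mul_le_mul hc hp.le (abs_nonneg _) hcm.le
            have h2 : Real.sqrt (τ * v₁) ≤ Real.sqrt Y := Real.sqrt_le_sqrt hYτ
            have h3 := mul_le_mul_of_nonneg_left h2 hC0.le
            linarith
          · have h1 : 1 ≤ Real.exp (K * (η - |x - p|)) := by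
              apply Real.one_le_exp
              exact mul_nonneg hK0.le (by linarith)
            have h2 : Y * c ^ 2 ≤ v₀ / 2 := by
              have h3 : c ^ 2 ≤ cm ^ 2 := pow_le_pow_left₀ hc0 hc 2
              have h4 : Y * c ^ 2 ≤ v₁ * cm ^ 2 := mul_le_mul hYv.le h3 (by positivity) hv1.le
              linarith
            exact le_trans h2 (le_mul_of_one_le_right (by positivity) h1)
      · push Not at hstop
        set u := x - round x with hu
        have hu0 : u ≠ 0 := by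
          intro h0
          rw [h0] at hstop
          simp at hstop
          linarith
        have hd0 : 0 < |u| := abs_pos.mpr hu0
        have hqd : 0 < q * |u| ^ 2 := by positivity
        have hqd4 : q * |u| ^ 2 ≤ q / 4 := by
          have : |u| ^ 2 ≤ (1 / 2) ^ 2 := pow_le_pow_left₀ hd0.le hd 2
          nlinarith
        have hY' : 0 < Y / (q * |u| ^ 2) := by positivity
        have hY'v : Y / (q * |u| ^ 2) < v₁ := by
          rw [div_lt_iff₀ hqd]
          linarith
        have hY'n : v₁ * (q / 4) ^ n ≤ Y / (q * |u| ^ 2) := by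
          rw [le_div_iff₀ hqd]
          have h1 : v₁ * (q / 4) ^ n * (q * |u| ^ 2) ≤ v₁ * (q / 4) ^ n * (q / 4) :=
            mul_le_mul_of_nonneg_left hqd4 (by positivity)
          have h2 : v₁ * (q / 4) ^ n * (q / 4) = v₁ * (q / 4) ^ (n + 1) := by ring
          linarith
        obtain ⟨p', c', hadm, hp1, hp2, hp3⟩ := ih (Y / (q * |u| ^ 2)) (1 / (q * u)) hY' hY'v hY'n
        set x' := 1 / (q * u) with hx'
        have hc' : Real.sqrt q ≤ c' := Adm.sqrt_le hq hr hadm
        have hc'0 : 0 < c' := lt_of_lt_of_le hsq hc'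
        have hx'abs : |x'| = 1 / (q * |u|) := by
          rw [hx', abs_div, abs_one, abs_mul, abs_of_pos hq]
        have hx'ge : 2 / q ≤ |x'| := by
          rw [hx'abs, div_le_div_iff₀ hq (by positivity)]
          nlinarith
        have hx'0 : 0 < |x'| := lt_of_lt_of_le (by positivity) hx'ge
        have hp'ge : 2 / q - η ≤ |p'| := by
          have h1 : |x'| - |p'| ≤ |x' - p'| := abs_sub_abs_le_abs_sub x' p'
          linarith
        have hp'r : 1 / (q * r) ≤ |p'| := by
          refine le_trans ?_ hp'ge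
          have h1 : η ≤ (2 - 1 / r) / q := by
            rw [le_div_iff₀ hq]
            linarith
          have h2 : (2 - 1 / r) / q = 2 / q - 1 / (q * r) := by
            field_simp
          linarith
        have hp'0 : 0 < |p'| := lt_of_lt_of_le (by positivity) hp'r
        have hp'ne : p' ≠ 0 := abs_pos.mp hp'0
        have hx'ne : x' ≠ 0 := abs_pos.mp hx'0
        have hp'κ : 4 + q ≤ 2 * q * (2 * |p'|) := by
          have h1 : 2 / q * (4 * q) = 8 := by field_simp; norm_num
          have h2 : (2 / q - η) * (4 * q) ≤ |p'| * (4 * q) :=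
            mul_le_mul_of_nonneg_right hp'ge (by positivity)
          nlinarith
        refine ⟨1 / (q * p') - ((-round x : ℤ) : ℝ), Real.sqrt q * |p'| * c',
          Adm.step p' c' _ hadm hp'r, ?_⟩
        have hdiff : x - (1 / (q * p') - ((-round x : ℤ) : ℝ)) = (p' - x') / (q * x' * p') := by
          have h1 : x - (1 / (q * p') - ((-round x : ℤ) : ℝ)) = u - 1 / (q * p') := by
            rw [hu]
            push_cast
            ring
          have h2 : u = 1 / (q * x') := by
            rw [hx']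
            field_simp
          rw [h1, h2]
          field_simp
        have hdabs : |x - (1 / (q * p') - ((-round x : ℤ) : ℝ))| = |x' - p'| / (q * |x'| * |p'|) := by
          rw [hdiff, abs_div, abs_mul, abs_mul, abs_of_pos hq, abs_sub_comm]
        have hκ1 : |x' - p'| / (q * |x'| * |p'|) ≤ κ * |x' - p'| := by
          have h1 : (4 + q) / (2 * q) ≤ q * |x'| * |p'| := by
            have h2 : 2 ≤ q * |x'| := by
              have := mul_le_mul_of_nonneg_left hx'ge hq.le
              have e : q * (2 / q) = 2 := by field_simp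
              linarith
            have h3 : 2 * |p'| ≤ q * |x'| * |p'| := mul_le_mul_of_nonneg_right h2 hp'0.le
            refine le_trans ?_ h3
            rw [div_le_iff₀ (by positivity)]
            linarith
          rw [div_le_iff₀ (by positivity), hκ]
          have h4 : 1 ≤ 2 * q / (4 + q) * (q * |x'| * |p'|) := by
            have h5 := mul_le_mul_of_nonneg_left h1 (by positivity : (0 : ℝ) ≤ 2 * q / (4 + q))
            have e : 2 * q / (4 + q) * ((4 + q) / (2 * q)) = 1 := by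
              field_simp
            linarith
          have h6 := mul_le_mul_of_nonneg_right h4 (abs_nonneg (x' - p'))
          linarith
        have hκlt : κ < 1 := by
          rw [hκ, div_lt_one (by positivity)]
          linarith
        have hκ0 : 0 < κ := by
          rw [hκ]
          positivity
        rw [hdabs]
        refine ⟨?_, ?_, ?_⟩
        · refine le_trans hκ1 ?_
          have : κ * |x' - p'| ≤ 1 * |x' - p'| := mul_le_mul_of_nonneg_right hκlt.le (abs_nonneg _)
          linarith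
        · have e1 : Real.sqrt q * |p'| * c' * (|x' - p'| / (q * |x'| * |p'|)) =
              c' * |x' - p'| * (Real.sqrt q * |u|) := by
            rw [hx'abs]
            field_simp
          rw [e1]
          have e2 : C * Real.sqrt Y = C * Real.sqrt (Y / (q * |u| ^ 2)) * (Real.sqrt q * |u|) := by
            rw [Real.sqrt_div hY.le, Real.sqrt_mul hq.le, Real.sqrt_sq (abs_nonneg u)]
            field_simp
          rw [e2]
          exact mul_le_mul_of_nonneg_right hp2 (by positivity)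
        · have e1 : Y * (Real.sqrt q * |p'| * c') ^ 2 =
              Y / (q * |u| ^ 2) * c' ^ 2 * (|p'| / |x'|) ^ 2 := by
            rw [mul_pow, mul_pow, hsq2, hx'abs]
            field_simp
          rw [e1]
          have h1 : |p'| / |x'| ≤ Real.exp (q / 2 * |x' - p'|) := by
            have h2 : |p'| ≤ |x'| + |x' - p'| := by
              have := abs_sub_abs_le_abs_sub p' x'
              rw [abs_sub_comm] at this
              linarith
            have h3 : |p'| / |x'| ≤ 1 + q / 2 * |x' - p'| := by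
              rw [div_le_iff₀ hx'0]
              have h4 : 2 ≤ q * |x'| := by
                have := mul_le_mul_of_nonneg_left hx'ge hq.le
                have e : q * (2 / q) = 2 := by field_simp
                linarith
              have h5 := mul_le_mul_of_nonneg_right h4 (abs_nonneg (x' - p'))
              nlinarith
            have h6 := Real.add_one_le_exp (q / 2 * |x' - p'|)
            linarith
          have h2 : (|p'| / |x'|) ^ 2 ≤ Real.exp (q * |x' - p'|) := by
            have h3 := pow_le_pow_left₀ (by positivity) h1 2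
            have e : Real.exp (q / 2 * |x' - p'|) ^ 2 = Real.exp (q * |x' - p'|) := by
              rw [← Real.exp_nat_mul]
              congr 1
              push_cast
              ring
            rw [e] at h3
            exact h3
          have h3 : Y / (q * |u| ^ 2) * c' ^ 2 * (|p'| / |x'|) ^ 2 ≤
              (v₀ / 2 * Real.exp (K * (η - |x' - p'|))) * Real.exp (q * |x' - p'|) :=
            mul_le_mul hp3 h2 (by positivity) (by positivity)
          refine le_trans h3 ?_
          rw [mul_assoc, ← Real.exp_add]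
          apply mul_le_mul_of_nonneg_left _ (by positivity)
          apply Real.exp_le_exp.mpr
          have h4 := mul_le_mul_of_nonneg_left hκ1 hK0.le
          have h5 : K * (κ * |x' - p'|) + q * |x' - p'| = K * |x' - p'| := by
            rw [← hK]
            ring
          have e3 : K * (η - |x' - p'|) = K * η - K * |x' - p'| := by ring
          have e4 : K * (η - |x' - p'| / (q * |x'| * |p'|)) =
            K * η - K * (|x' - p'| / (q * |x'| * |p'|)) := by ring
          rw [e3, e4]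
          linarith

theorem adm_approx (q r : ℝ) (hq : 0 < q) (hq4 : q < 4) (hr : Par q r) (v₀ : ℝ) (hv : 0 < v₀) :
    ∃ C Y₁ : ℝ, 0 < C ∧ 0 < Y₁ ∧ ∀ x Y : ℝ, 0 < Y → Y ≤ Y₁ →
      ∃ p c : ℝ, Adm q r p c ∧ Y * c ^ 2 ≤ v₀ ∧ c * |x - p| ≤ C * Real.sqrt Y := by
  have hr0 : 0 < r := by linarith [hr.1]
  obtain ⟨κ, hκ⟩ : ∃ κ : ℝ, κ = 2 * q / (4 + q) := ⟨_, rfl⟩
  have hκlt : κ < 1 := by
    rw [hκ, div_lt_one (by positivity)]
    linarith
  have hκ1 : 0 < 1 - κ := by linarith
  obtain ⟨K, hK⟩ : ∃ K : ℝ, K = q / (1 - κ) := ⟨_, rfl⟩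
  have hK0 : 0 < K := by
    rw [hK]
    positivity
  have hK1 : K * (1 - κ) = q := by
    rw [hK, div_mul_cancel₀ _ hκ1.ne']
  have hr2 : 0 < 2 - 1 / r := by
    have : 1 / r < 2 := by
      rw [div_lt_iff₀ hr0]
      linarith [hr.1]
    linarith
  have hq2 : 0 < 4 - q := by linarith
  have hlog : 0 < Real.log 2 := Real.log_pos (by norm_num)
  obtain ⟨η, hη, hη1, hη2, hη3⟩ : ∃ η : ℝ, 0 < η ∧ q * η ≤ 2 - 1 / r ∧ 4 * q * η ≤ 4 - q ∧
      K * η ≤ Real.log 2 := by
    refine ⟨min ((2 - 1 / r) / q) (min ((4 - q) / (4 * q)) (Real.log 2 / K)), ?_, ?_, ?_, ?_⟩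
    · apply lt_min (by positivity)
      exact lt_min (by positivity) (by positivity)
    · have := min_le_left ((2 - 1 / r) / q) (min ((4 - q) / (4 * q)) (Real.log 2 / K))
      have h := mul_le_mul_of_nonneg_left this hq.le
      rwa [mul_div_cancel₀ _ hq.ne'] at h
    · have := le_trans (min_le_right ((2 - 1 / r) / q) (min ((4 - q) / (4 * q)) (Real.log 2 / K)))
        (min_le_left _ _)
      have h := mul_le_mul_of_nonneg_left this (by positivity : (0 : ℝ) ≤ 4 * q)
      rwa [mul_div_cancel₀ _ (by positivity)] at h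
    · have := le_trans (min_le_right ((2 - 1 / r) / q) (min ((4 - q) / (4 * q)) (Real.log 2 / K)))
        (min_le_right _ _)
      have h := mul_le_mul_of_nonneg_left this hK0.le
      rwa [mul_div_cancel₀ _ hK0.ne'] at h
  obtain ⟨cm, hcm, hdense⟩ := adm_dense q r hq hq4 hr η hη
  obtain ⟨τ, hτ⟩ : ∃ τ : ℝ, τ = q * η ^ 2 := ⟨_, rfl⟩
  have hτ0 : 0 < τ := by
    rw [hτ]
    positivity
  obtain ⟨v₁, hv1, hv1a, hv1b⟩ : ∃ v₁ : ℝ, 0 < v₁ ∧ v₁ * (2 * q) ≤ v₀ ∧ v₁ * (2 * cm ^ 2) ≤ v₀ := by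
    refine ⟨min (v₀ / (2 * q)) (v₀ / (2 * cm ^ 2)), ?_, ?_, ?_⟩
    · exact lt_min (by positivity) (by positivity)
    · have h := mul_le_mul_of_nonneg_right (min_le_left (v₀ / (2 * q)) (v₀ / (2 * cm ^ 2)))
        (by positivity : (0 : ℝ) ≤ 2 * q)
      rwa [div_mul_cancel₀ _ (by positivity)] at h
    · have h := mul_le_mul_of_nonneg_right (min_le_right (v₀ / (2 * q)) (v₀ / (2 * cm ^ 2)))
        (by positivity : (0 : ℝ) ≤ 2 * cm ^ 2)
      rwa [div_mul_cancel₀ _ (by positivity)] at h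
  have hsv : 0 < Real.sqrt v₁ := Real.sqrt_pos.mpr hv1
  have hst : 0 < Real.sqrt (τ * v₁) := Real.sqrt_pos.mpr (by positivity)
  obtain ⟨C, hC1, hC2⟩ : ∃ C : ℝ, 1 / Real.sqrt v₁ ≤ C ∧ cm * η ≤ C * Real.sqrt (τ * v₁) := by
    refine ⟨max (1 / Real.sqrt v₁) (cm * η / Real.sqrt (τ * v₁)), le_max_left _ _, ?_⟩
    have h := mul_le_mul_of_nonneg_right (le_max_right (1 / Real.sqrt v₁)
      (cm * η / Real.sqrt (τ * v₁))) hst.le
    rwa [div_mul_cancel₀ _ hst.ne'] at h
  have hC0 : 0 < C := lt_of_lt_of_le (by positivity) hC1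
  refine ⟨C, v₁ / 2, hC0, by positivity, ?_⟩
  intro x Y hY hYv
  obtain ⟨n, hn⟩ : ∃ n : ℕ, v₁ * (q / 4) ^ n ≤ Y := by
    obtain ⟨n, hn⟩ := exists_pow_lt_of_lt_one (div_pos hY hv1) (by linarith : q / 4 < 1)
    refine ⟨n, ?_⟩
    rw [lt_div_iff₀ hv1] at hn
    linarith
  obtain ⟨p, c, h1, h2, h3, h4⟩ := dense_ind q r hq hq4 hr v₀ η cm τ v₁ C κ K hv hη hη1 hη2 hcm hdense
    hτ0 hτ.le hv1 hv1a hv1b hC0 hC1 hC2 hκ hK0 hK1 n Y x hY (by linarith) hn
  refine ⟨p, c, h1, ?_, h3⟩
  refine le_trans h4 ?_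
  have h5 : Real.exp (K * (η - |x - p|)) ≤ 2 := by
    calc Real.exp (K * (η - |x - p|)) ≤ Real.exp (Real.log 2) := by
          apply Real.exp_le_exp.mpr
          have : K * (η - |x - p|) ≤ K * η :=
            mul_le_mul_of_nonneg_left (by linarith [abs_nonneg (x - p)]) hK0.le
          linarith
      _ = 2 := Real.exp_log (by norm_num)
  have := mul_le_mul_of_nonneg_left h5 (by positivity : (0 : ℝ) ≤ v₀ / 2)
  linarith

end Pool.Agent.H14.Sel
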