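import Mathlib
import Pool.Agent.H14.Sel.Defs
import Pool.Agent.H14.Sel.Cusp
import Pool.Agent.H14.Sel.Dense

set_option autoImplicit false

/-!
# Module MEAS (MP_8e9775_nt): lower bound for the mean square on low horocycles

Take `r` from `exists_par`, `V, v₀, c₀` from `cusp_low`, `C, Y₁` from `adm_approx` for `v₀`. Let `0 < Y ≤ Y₁`
(shrink `Y₁` below). For an admissible `(p,c)` with `Y c^2 ≤ v₀` put `ρ_p = sqrt (Y/V)/c`. For real
`x'` with `sqrt(1/2) ρ_p ≤ x' - p ≤ sqrt(7/8) ρ_p` we have with `z = x' + iY`, `‖z - p‖^2 = (x'-p)^2 + Y^2`,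
`c^2 ‖z-p‖^2 ≥ Y/(2V)` and `c^2 ‖z-p‖^2 ≤ (7/8) Y/V + c^2 Y^2 ≤ (7/8) Y/V + v₀ Y ≤ Y/V` (`v₀ ≤ 1/(8V)`), so
`φ z ≥ c₀` on an interval `J_p` of length `(sqrt(7/8) - sqrt(1/2)) ρ_p ≥ ρ_p/5`.
Every `x ∈ [0,1]` lies in a closed ball `B_p = [p - M ρ_p, p + M ρ_p]`, `M = max (C sqrt V) 1`, of such a `p`
(`|x - p| ≤ C sqrt Y/c = C sqrt V ρ_p`). Note `ρ_p ≤ sqrt (Y/(V q))` (`c ≥ sqrt q`), so if `Y` is small all the balls that meet `[0,1]`
are contained in `[-1, 2]`. By compactness finitely many open balls of radius `2 M ρ_p` cover `[0,1]`; take the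
Vitali subfamily (`Vitali.exists_disjoint_subfamily_covering_enlargement_closedBall` with
`τ = 5`, radii `2 M ρ_p`, finite index set): disjoint balls `B(p_i, 2Mρ_i)`, `i ∈ u`, with
`[0,1] ⊆ ⋃ B(p_i, 10 M ρ_i)`, so `1 ≤ 20 M ∑ ρ_i`. The `J_{p_i}` are disjoint (inside the balls) and inside `[-1,2]`, so
`∫_(-1)^2 φ(x+iY)^2 dx ≥ ∑ c₀^2 ρ_i/5 ≥ c₀^2/(100 M)`, and the integral over `[-1,2]` is three times the one over
`[0,1]` by periodicity. (Choose only `p` whose ball meets `[0,1]`, i.e. those coming from `x ∈ [0,1]`.)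
-/

namespace Pool.Agent.H14.Sel

open Complex MeasureTheory Filter Topology Pool.Agent.H11.Selberg

/-- The covering argument: a continuous nonnegative function of period one which is at least `c₁` on
an interval of length `(13/70) ρ x` close to every `x ∈ [0,1]`. -/
theorem vitali_lower (f : ℝ → ℝ) (hf : Continuous f) (hf0 : ∀ t, 0 ≤ f t)
    (hper : Function.Periodic f 1) (M R c₁ : ℝ) (hM : 1 ≤ M) (hR : 3 * M * R ≤ 1) (hc₁ : 0 ≤ c₁)
    (p ρ : ℝ → ℝ) (hρ : ∀ x, 0 < ρ x) (hρR : ∀ x, ρ x ≤ R)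
    (hp : ∀ x, |x - p x| ≤ M * ρ x)
    (hlow : ∀ x t, p x + 5 / 7 * ρ x ≤ t → t ≤ p x + 9 / 10 * ρ x → c₁ ≤ f t) :
    c₁ * (13 / 70) / (20 * M) / 3 ≤ ∫ x in (0:ℝ)..1, f x := by
  classical
  have hM0 : 0 < M := by linarith
  -- finite subcover
  obtain ⟨t, ht, hcov⟩ := (isCompact_Icc (a := (0:ℝ)) (b := 1)).elim_nhds_subcover
    (fun x => Metric.closedBall (p x) (2 * M * ρ x)) (fun x _ => by
      have h1 : dist x (p x) < 2 * M * ρ x := by
        rw [Real.dist_eq]
        have := hp x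
        have h2 : 0 < M * ρ x := mul_pos hM0 (hρ x)
        linarith
      exact Filter.mem_of_superset (Metric.isOpen_ball.mem_nhds (Metric.mem_ball.2 h1))
        Metric.ball_subset_closedBall)
  -- Vitali
  obtain ⟨u, hut, hdisj, hu⟩ := Vitali.exists_disjoint_subfamily_covering_enlargement_closedBall
    (t : Set ℝ) p (fun x => 2 * M * ρ x) (2 * M * R)
    (fun x _ => by
      have := hρR x
      have h2 : 0 ≤ 2 * M := by linarith
      exact mul_le_mul_of_nonneg_left this h2) 5 (by norm_num)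
  set w : Finset ℝ := t.filter (fun x => x ∈ u) with hw
  have hwu : ∀ x, x ∈ w ↔ x ∈ u := by
    intro x
    rw [hw, Finset.mem_filter]
    exact ⟨fun h => h.2, fun h => ⟨hut h, h⟩⟩
  have hwt : ∀ x ∈ w, x ∈ Set.Icc (0:ℝ) 1 := by
    intro x hx
    exact ht x (Finset.mem_filter.1 hx).1
  -- the sum of the radii is bounded below
  have hcover : Set.Icc (0:ℝ) 1 ⊆ ⋃ x ∈ w, Metric.closedBall (p x) (10 * M * ρ x) := by
    intro y hy
    have h1 := hcov hy
    rw [Set.mem_iUnion₂] at h1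
    obtain ⟨x, hx, hxy⟩ := h1
    obtain ⟨b, hb, hsub⟩ := hu x hx
    rw [Set.mem_iUnion₂]
    refine ⟨b, (hwu b).2 hb, ?_⟩
    have h2 := hsub hxy
    have h3 : 5 * (2 * M * ρ b) = 10 * M * ρ b := by ring
    rwa [h3] at h2
  have hsum : (1:ℝ) ≤ ∑ x ∈ w, 20 * M * ρ x := by
    have h1 : volume (Set.Icc (0:ℝ) 1) ≤ ∑ x ∈ w, volume (Metric.closedBall (p x) (10 * M * ρ x)) :=
      (measure_mono hcover).trans (measure_biUnion_finset_le _ _)
    have h2 : ∀ x ∈ w, volume (Metric.closedBall (p x) (10 * M * ρ x)) =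
        ENNReal.ofReal (20 * M * ρ x) := by
      intro x _
      rw [Real.volume_closedBall]
      congr 1
      ring
    rw [Finset.sum_congr rfl h2, ← ENNReal.ofReal_sum_of_nonneg, Real.volume_Icc] at h1
    · rw [ENNReal.ofReal_le_ofReal_iff] at h1
      · simpa using h1
      · refine Finset.sum_nonneg fun x _ => ?_
        have := hρ x
        positivity
    · intro x _
      have := hρ x
      positivity
  -- the intervals
  set J : ℝ → Set ℝ := fun x => Set.Icc (p x + 5 / 7 * ρ x) (p x + 9 / 10 * ρ x) with hJ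
  have hJball : ∀ x, J x ⊆ Metric.closedBall (p x) (2 * M * ρ x) := by
    intro x y hy
    have h0 := hρ x
    rw [Metric.mem_closedBall, Real.dist_eq]
    have h1 : ρ x ≤ M * ρ x := by nlinarith
    rw [abs_le]
    constructor
    · have := hy.1
      linarith
    · have := hy.2
      linarith
  have hJsub : ∀ x ∈ w, J x ⊆ Set.Icc (-1) 2 := by
    intro x hx y hy
    have h0 := hρ x
    have h1 := hwt x hx
    have h2 := abs_le.1 (hp x)
    have h3 : M * ρ x ≤ 1 / 3 := by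
      have : M * ρ x ≤ M * R := mul_le_mul_of_nonneg_left (hρR x) hM0.le
      linarith
    have h4 : ρ x ≤ M * ρ x := by nlinarith
    constructor
    · have := hy.1
      have := h1.1
      linarith
    · have := hy.2
      have := h1.2
      linarith
  have hJdisj : Set.Pairwise (w : Set ℝ) (Function.onFun Disjoint J) := by
    intro x hx y hy hxy
    have h1 := hdisj ((hwu x).1 hx) ((hwu y).1 hy) hxy
    exact h1.mono (hJball x) (hJball y)
  have hint : ∀ a b : ℝ, IntegrableOn f (Set.Icc a b) := fun a b =>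
    hf.continuousOn.integrableOn_Icc
  have hbig : ∑ x ∈ w, ∫ y in J x, f y ≤ ∫ y in Set.Icc (-1:ℝ) 2, f y := by
    rw [← integral_biUnion_finset w (fun x _ => measurableSet_Icc) hJdisj
      (fun x _ => hint _ _)]
    refine setIntegral_mono_set (hint _ _) ?_ ?_
    · exact Filter.Eventually.of_forall hf0
    · exact LE.le.eventuallyLE (Set.iUnion₂_subset hJsub)
  have heach : ∀ x ∈ w, c₁ * (13 / 70) * ρ x ≤ ∫ y in J x, f y := by
    intro x _
    have h0 := hρ x
    have h1 : ∫ y in J x, c₁ ≤ ∫ y in J x, f y := by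
      refine setIntegral_mono_on (integrableOn_const (by simp [hJ])) (hint _ _)
        measurableSet_Icc ?_
      intro y hy
      exact hlow x y hy.1 hy.2
    have h2 : ∫ y in J x, c₁ = c₁ * (13 / 70) * ρ x := by
      rw [setIntegral_const, smul_eq_mul, hJ, measureReal_def, Real.volume_Icc,
        ENNReal.toReal_ofReal (by linarith)]
      ring
    linarith
  have h3 : c₁ * (13 / 70) / (20 * M) ≤ ∫ y in Set.Icc (-1:ℝ) 2, f y := by
    refine le_trans ?_ ((Finset.sum_le_sum heach).trans hbig)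
    have h4 : ∑ x ∈ w, c₁ * (13 / 70) * ρ x =
        c₁ * (13 / 70) / (20 * M) * ∑ x ∈ w, 20 * M * ρ x := by
      rw [Finset.mul_sum]
      refine Finset.sum_congr rfl fun x _ => ?_
      field_simp
    rw [h4]
    have h5 : 0 ≤ c₁ * (13 / 70) / (20 * M) := by positivity
    nlinarith
  -- periodicity
  have h4 : ∫ y in Set.Icc (-1:ℝ) 2, f y = 3 * ∫ y in (0:ℝ)..1, f y := by
    rw [integral_Icc_eq_integral_Ioc, ← intervalIntegral.integral_of_le (by norm_num)]
    have hi : ∀ a b : ℝ, IntervalIntegrable f volume a b := fun a b => hf.intervalIntegrable a b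
    rw [← intervalIntegral.integral_add_adjacent_intervals (hi (-1) 0) (hi 0 2),
      ← intervalIntegral.integral_add_adjacent_intervals (hi 0 1) (hi 1 2)]
    have e1 : ∫ y in (-1:ℝ)..0, f y = ∫ y in (0:ℝ)..1, f y := by
      have := hper.intervalIntegral_add_eq (-1) 0
      simpa using this
    have e2 : ∫ y in (1:ℝ)..2, f y = ∫ y in (0:ℝ)..1, f y := by
      have := hper.intervalIntegral_add_eq 1 0
      norm_num at this
      exact this
    rw [e1, e2]
    ring
  rw [h4] at h3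
  linarith

theorem Aut.mean_low {q : ℝ} {φ : ℂ → ℝ} (h : Aut q φ) : ∃ c Y₁ : ℝ, 0 < c ∧ 0 < Y₁ ∧
    ∀ Y : ℝ, 0 < Y → Y ≤ Y₁ → c ≤ ∫ x in (0:ℝ)..1, (φ (x + Y * I)) ^ 2 := by
  have hq := h.qpos
  obtain ⟨r, hr⟩ := exists_par q h.qpos h.q4
  obtain ⟨V, v₀, c₀, hV, hv₀, hc₀, hVv, hcusp⟩ := cusp_low h hr
  obtain ⟨C, Y₁, hC, hY₁, happ⟩ := adm_approx q r h.qpos h.q4 hr v₀ hv₀
  have hV0 : 0 < V := by linarith
  set M : ℝ := max (C * Real.sqrt V) 1 with hM
  have hM1 : 1 ≤ M := le_max_right _ _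
  have hM0 : 0 < M := by linarith
  have hsq : 0 < Real.sqrt q := Real.sqrt_pos.2 hq
  refine ⟨c₀ ^ 2 * (13 / 70) / (20 * M) / 3, min Y₁ (V * q / (9 * M ^ 2)), by positivity,
    lt_min hY₁ (by positivity), ?_⟩
  intro Y hY hYle
  have hY1 : Y ≤ Y₁ := hYle.trans (min_le_left _ _)
  have hY2 : Y ≤ V * q / (9 * M ^ 2) := hYle.trans (min_le_right _ _)
  choose p c hadm hc1 hc2 using fun x : ℝ => happ x Y hY hY1
  have hcq : ∀ x, Real.sqrt q ≤ c x := fun x => (hadm x).sqrt_le hq hr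
  have hc0 : ∀ x, 0 < c x := fun x => hsq.trans_le (hcq x)
  have hsYV : 0 < Real.sqrt (Y / V) := Real.sqrt_pos.2 (by positivity)
  have hsYV2 : Real.sqrt (Y / V) ^ 2 = Y / V := Real.sq_sqrt (by positivity)
  refine vitali_lower (fun x : ℝ => (φ (x + Y * I)) ^ 2) ((h.cont Y hY).pow 2)
    (fun t => sq_nonneg _) ?_ M (Real.sqrt (Y / V) / Real.sqrt q) (c₀ ^ 2) hM1 ?_ (sq_nonneg _)
    p (fun x => Real.sqrt (Y / V) / c x) (fun x => div_pos hsYV (hc0 x)) ?_ ?_ ?_
  · intro x
    have := h.per ((x : ℂ) + Y * I)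
    simp only
    rw [← this]
    congr 2
    push_cast
    ring
  · -- the radii are small
    have h1 : Real.sqrt (Y / V) / Real.sqrt q ≤ 1 / (3 * M) := by
      rw [← Real.sqrt_div' _ hq.le]
      have h2 : Y / V / q ≤ (1 / (3 * M)) ^ 2 := by
        rw [div_div, div_le_iff₀ (by positivity)]
        calc Y ≤ V * q / (9 * M ^ 2) := hY2
          _ = (1 / (3 * M)) ^ 2 * (V * q) := by field_simp; ring
      calc Real.sqrt (Y / V / q) ≤ Real.sqrt ((1 / (3 * M)) ^ 2) := Real.sqrt_le_sqrt h2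
        _ = 1 / (3 * M) := Real.sqrt_sq (by positivity)
    calc 3 * M * (Real.sqrt (Y / V) / Real.sqrt q) ≤ 3 * M * (1 / (3 * M)) :=
          mul_le_mul_of_nonneg_left h1 (by positivity)
      _ = 1 := by field_simp
  · intro x
    exact div_le_div_of_nonneg_left hsYV.le hsq (hcq x)
  · intro x
    have h1 : |x - p x| ≤ C * Real.sqrt Y / c x := by
      rw [le_div_iff₀ (hc0 x)]
      have := hc2 x
      linarith
    refine h1.trans ?_
    have h2 : C * Real.sqrt Y = C * Real.sqrt V * Real.sqrt (Y / V) := by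
      rw [mul_assoc, ← Real.sqrt_mul hV0.le, mul_div_cancel₀ _ hV0.ne']
    rw [h2, mul_div_assoc]
    exact mul_le_mul_of_nonneg_right (le_max_left _ _) (div_pos hsYV (hc0 x)).le
  · intro x t ht1 ht2
    have hc := hc0 x
    set ρ := Real.sqrt (Y / V) / c x with hρ
    have hρ0 : 0 < ρ := div_pos hsYV hc
    have hρ2 : c x ^ 2 * ρ ^ 2 = Y / V := by
      rw [hρ, div_pow, hsYV2]
      field_simp
    have hnorm : ‖((t : ℂ) + Y * I) - (p x : ℂ)‖ ^ 2 = (t - p x) ^ 2 + Y ^ 2 := by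
      have : ((t : ℂ) + Y * I) - (p x : ℂ) = ((t - p x : ℝ) : ℂ) + (Y : ℂ) * I := by
        push_cast
        ring
      rw [this, Complex.sq_norm, Complex.normSq_add_mul_I]
    have him : ((t : ℂ) + Y * I).im = Y := by simp
    have hs1 : 25 / 49 * ρ ^ 2 ≤ (t - p x) ^ 2 := by nlinarith
    have hs2 : (t - p x) ^ 2 ≤ 81 / 100 * ρ ^ 2 := by nlinarith
    have hcpos : 0 < c x ^ 2 := by positivity
    have hφ : c₀ ≤ φ ((t : ℂ) + Y * I) := by
      refine hcusp (p x) (c x) (hadm x) _ (by rw [him]; exact hY) (by rw [him]; exact hc1 x) ?_ ?_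
      · rw [him, hnorm]
        have h1 : Y / (2 * V) = 1 / 2 * (Y / V) := by field_simp
        rw [h1, ← hρ2]
        have h2 : 0 ≤ c x ^ 2 * Y ^ 2 := by positivity
        have h3 : c x ^ 2 * (25 / 49 * ρ ^ 2) ≤ c x ^ 2 * (t - p x) ^ 2 :=
          mul_le_mul_of_nonneg_left hs1 hcpos.le
        have h4 : 0 ≤ c x ^ 2 * ρ ^ 2 := by positivity
        nlinarith
      · rw [him, hnorm]
        have h3 : c x ^ 2 * (t - p x) ^ 2 ≤ c x ^ 2 * (81 / 100 * ρ ^ 2) :=
          mul_le_mul_of_nonneg_left hs2 hcpos.le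
        have h4 : c x ^ 2 * Y ^ 2 ≤ 1 / 8 * (Y / V) := by
          have h5 : c x ^ 2 * Y ^ 2 ≤ v₀ * Y := by
            have := mul_le_mul_of_nonneg_right (hc1 x) hY.le
            nlinarith
          have h6 : v₀ ≤ 1 / 8 / V := by
            rw [le_div_iff₀ hV0]
            linarith
          have h7 : v₀ * Y ≤ 1 / 8 / V * Y := mul_le_mul_of_nonneg_right h6 hY.le
          have h8 : 1 / 8 / V * Y = 1 / 8 * (Y / V) := by ring
          linarith
        have h5 : c x ^ 2 * ((t - p x) ^ 2 + Y ^ 2) =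
            c x ^ 2 * (t - p x) ^ 2 + c x ^ 2 * Y ^ 2 := by ring
        have h6 : c x ^ 2 * (81 / 100 * ρ ^ 2) = 81 / 100 * (Y / V) := by
          rw [← hρ2]
          ring
        have h7 : 0 < Y / V := by positivity
        linarith
    exact pow_le_pow_left₀ hc₀.le hφ 2

end Pool.Agent.H14.Sel
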