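import Mathlib
import Pool.Agent.H14.Sel.Defs
import Pool.Agent.H14.Sel.Triv
import Pool.Agent.H11.SC.Pars

set_option autoImplicit false

/-!
# Module PARS (MP_8e9775_nt): Parseval

`parseval`: for an absolutely summable sequence `c`, `∫_0^1 ‖∑ c_n e(n x)‖^2 dx = ∑ ‖c_n‖^2`.
(This is `Pool.Agent.H11.SC.parseval`.)
`mean_eq`: `E (1/2) a (-(2πi(x+iy))) = ∑ (a n n^(1/2) e^(-2πny)) e(nx)`; summable by TRIV (`k = 2`);
`‖a n n^(1/2) e^(-2πny)‖^2 = ‖a n‖^2 n e^(-4πny)` (for `n = 0` both are zero).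
-/

namespace Pool.Agent.H14.Sel

open Complex MeasureTheory Filter Topology Pool.Agent.H11.Selberg

theorem parseval (c : ℕ → ℂ) (hc : Summable (fun n => ‖c n‖)) :
    ∫ x in (0:ℝ)..1, ‖∑' n : ℕ, c n * Complex.exp (2 * Real.pi * I * n * x)‖ ^ 2 =
      ∑' n : ℕ, ‖c n‖ ^ 2 :=
  Pool.Agent.H11.SC.parseval c hc

theorem mean_eq (a : ℕ → ℂ) (ram : ∀ δ : ℝ, 0 < δ → ∃ C : ℝ, ∀ n : ℕ, 1 ≤ n → ‖a n‖ ≤ C * (n : ℝ) ^ δ)
    (y : ℝ) (hy : 0 < y) :
    Summable (fun n : ℕ => ‖a n‖ ^ 2 * n * Real.exp (-(4 * Real.pi * n * y))) ∧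
    ∫ x in (0:ℝ)..1, (phi a (x + y * I)) ^ 2 =
      y ^ 2 * ∑' n : ℕ, ‖a n‖ ^ 2 * n * Real.exp (-(4 * Real.pi * n * y)) := by
  have hpi := Real.pi_pos
  obtain ⟨C, -, hC⟩ := sum_le a ram (1 / 2) 2 (by norm_num) (by norm_num) (by norm_num)
  obtain ⟨h1, -⟩ := hC (2 * Real.pi * y) (by positivity)
  set c : ℕ → ℂ := fun n => a n * (((n : ℝ) ^ (1 / 2 : ℝ) : ℝ) : ℂ) *
    ((Real.exp (-((n : ℝ) * (2 * Real.pi * y))) : ℝ) : ℂ) with hc
  have hcn : ∀ n, ‖c n‖ = ‖a n‖ * (n : ℝ) ^ (1 / 2 : ℝ) *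
      Real.exp (-((n : ℝ) * (2 * Real.pi * y))) := by
    intro n
    rw [hc]
    simp only
    rw [norm_mul, norm_mul, Complex.norm_real, Complex.norm_real,
      Real.norm_of_nonneg (Real.rpow_nonneg (Nat.cast_nonneg n) _),
      Real.norm_of_nonneg (Real.exp_pos _).le]
  have hcs : Summable (fun n => ‖c n‖) := by
    have : (fun n => ‖c n‖) = fun n : ℕ => ‖a n‖ * (n : ℝ) ^ (1 / 2 : ℝ) *
      Real.exp (-((n : ℝ) * (2 * Real.pi * y))) := funext hcn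
    rw [this]
    exact h1
  have hsq : ∀ n, ‖c n‖ ^ 2 = ‖a n‖ ^ 2 * n * Real.exp (-(4 * Real.pi * n * y)) := by
    intro n
    rw [hcn]
    have e1 : ((n : ℝ) ^ (1 / 2 : ℝ)) ^ 2 = n := by
      rw [← Real.rpow_natCast, ← Real.rpow_mul (Nat.cast_nonneg n)]
      norm_num
    have e2 : Real.exp (-((n : ℝ) * (2 * Real.pi * y))) ^ 2 =
        Real.exp (-(4 * Real.pi * n * y)) := by
      rw [← Real.exp_nat_mul]
      congr 1
      push_cast
      ring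
    rw [mul_pow, mul_pow, e1, e2]
  have hsum : Summable (fun n => ‖c n‖ ^ 2) := by
    refine Summable.of_nonneg_of_le (fun n => by positivity) (fun n => ?_)
      (hcs.mul_left (∑' n, ‖c n‖))
    rw [sq]
    exact mul_le_mul_of_nonneg_right (hcs.le_tsum n (fun _ _ => norm_nonneg _)) (norm_nonneg _)
  have hfun : (fun n => ‖c n‖ ^ 2) =
      fun n : ℕ => ‖a n‖ ^ 2 * n * Real.exp (-(4 * Real.pi * n * y)) := funext hsq
  rw [← hfun]
  refine ⟨hsum, ?_⟩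
  rw [← parseval c hcs, ← intervalIntegral.integral_const_mul]
  refine intervalIntegral.integral_congr (fun x _ => ?_)
  have him : ((x : ℂ) + y * I).im = y := by simp
  have hE : E (1 / 2) a (-(2 * (Real.pi : ℂ) * I * ((x : ℂ) + y * I))) =
      ∑' n : ℕ, c n * Complex.exp (2 * Real.pi * I * n * x) := by
    unfold E
    refine tsum_congr (fun n => ?_)
    rw [hc]
    simp only
    rw [mul_assoc (a n * _)]
    congr 1
    rw [Complex.ofReal_exp, ← Complex.exp_add]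
    congr 1
    push_cast
    have hI : (I : ℂ) * I = -1 := Complex.I_mul_I
    linear_combination (2 * (Real.pi : ℂ) * n * y) * hI
  unfold phi
  rw [him, hE, mul_pow]

end Pool.Agent.H14.Sel
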