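import Mathlib
import Pool.Agent.H14.Sel.Defs
import Pool.Agent.H14.Sel.Triv

set_option autoImplicit false

/-!
# Module TOP (MP_8e9775_nt): behaviour of `phi a` at fixed and large height

* `phi_per`: `exp (2πi n (z+1)) = exp (2πi n z)`, termwise.
* `phi_cont`: `continuous_tsum` (`‖a n‖ n^(1/2) exp (-(n 2π y))` summable by TRIV with `k = 2`).
* `phi_high`: TRIV with `k = 2`: `phi a z ≤ y C (2π y)^(-2) ≤ C'/y ≤ C'/t`.
* `phi_top`: for `Im z = y ≥ V`: the term `n = 1` of `E (1/2) a (-(2πi z))` has modulus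
  `exp (-2πy)`, the rest is at most `∑_{n ≥ 2} ‖a n‖ n^(1/2) exp (-2π n y)`
  `≤ exp (-2πy) ∑_{n≥2} ‖a n‖ n^(1/2) exp (-π n y)` (since `n - 1 ≥ n/2`) `≤ exp (-2πy) C (π y)^(-2)`
  by TRIV (`k = 2`, `u = π y`), which is at most `exp (-2πy)/2` for `V` large. So
  `phi a z ≥ y exp(-2πy)/2 ≥ V exp (-4πV)/2 > 0` for `V ≤ y ≤ 2V`.
-/

namespace Pool.Agent.H14.Sel

open Complex MeasureTheory Filter Topology Pool.Agent.H11.Selberg

theorem top_re (z : ℂ) : (-(2 * (Real.pi : ℂ) * I * z)).re = 2 * Real.pi * z.im := by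
  simp [Complex.mul_re, Complex.mul_im]

theorem phi_per (a : ℕ → ℂ) (z : ℂ) : phi a (z + 1) = phi a z := by
  have h1 : (z + 1).im = z.im := by simp
  have h2 : E (1 / 2) a (-(2 * (Real.pi : ℂ) * I * (z + 1))) =
      E (1 / 2) a (-(2 * (Real.pi : ℂ) * I * z)) := by
    unfold E
    refine tsum_congr (fun n => ?_)
    congr 1
    have h3 : -((n : ℂ) * -(2 * (Real.pi : ℂ) * I * (z + 1))) =
        -((n : ℂ) * -(2 * (Real.pi : ℂ) * I * z)) + n * (2 * (Real.pi : ℂ) * I) := by ring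
    rw [h3, Complex.exp_add, Complex.exp_nat_mul_two_pi_mul_I, mul_one]
  unfold phi
  rw [h1, h2]

theorem phi_cont (a : ℕ → ℂ) (ram : ∀ δ : ℝ, 0 < δ → ∃ C : ℝ, ∀ n : ℕ, 1 ≤ n → ‖a n‖ ≤ C * (n : ℝ) ^ δ)
    (y : ℝ) (hy : 0 < y) : Continuous (fun x : ℝ => phi a (x + y * I)) := by
  have hpi := Real.pi_pos
  obtain ⟨C, -, hC⟩ := sum_le a ram (1 / 2) 2 (by norm_num) (by norm_num) (by norm_num)
  obtain ⟨h1, -⟩ := hC (2 * Real.pi * y) (by positivity)
  have him : ∀ x : ℝ, ((x : ℂ) + y * I).im = y := by intro x; simp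
  unfold phi
  simp only [him]
  refine continuous_const.mul (Continuous.norm ?_)
  unfold E
  refine continuous_tsum (fun n => by fun_prop) h1 (fun n x => ?_)
  rw [triv_norm_term, top_re, him]

theorem phi_high (a : ℕ → ℂ) (ram : ∀ δ : ℝ, 0 < δ → ∃ C : ℝ, ∀ n : ℕ, 1 ≤ n → ‖a n‖ ≤ C * (n : ℝ) ^ δ)
    (t : ℝ) (ht : 0 < t) : ∃ M : ℝ, ∀ z : ℂ, t ≤ z.im → phi a z ≤ M := by
  have hpi := Real.pi_pos
  obtain ⟨C, hC0, hC⟩ := norm_E_le a ram (1 / 2) 2 (by norm_num) (by norm_num) (by norm_num)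
  refine ⟨C / t, fun z hz => ?_⟩
  have hz0 : 0 < z.im := lt_of_lt_of_le ht hz
  have h1 := hC (-(2 * (Real.pi : ℂ) * I * z)) (by rw [top_re]; positivity)
  rw [top_re] at h1
  have h2 : (2 * Real.pi * z.im) ^ (-(2 : ℝ)) ≤ (z.im ^ 2)⁻¹ := by
    rw [Real.rpow_neg (by positivity), Real.rpow_two]
    apply inv_anti₀ (by positivity)
    have h3 : z.im ≤ 2 * Real.pi * z.im := by
      have : (1 : ℝ) ≤ 2 * Real.pi := by linarith [Real.pi_gt_three]
      nlinarith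
    exact pow_le_pow_left₀ hz0.le h3 2
  unfold phi
  calc z.im * ‖E (1 / 2) a (-(2 * (Real.pi : ℂ) * I * z))‖
      ≤ z.im * (C * (z.im ^ 2)⁻¹) := by
        apply mul_le_mul_of_nonneg_left _ hz0.le
        exact h1.trans (mul_le_mul_of_nonneg_left h2 hC0)
    _ = C / z.im := by field_simp
    _ ≤ C / t := div_le_div_of_nonneg_left hC0 ht hz

theorem phi_top (a : ℕ → ℂ) (h1 : a 1 = 1)
    (ram : ∀ δ : ℝ, 0 < δ → ∃ C : ℝ, ∀ n : ℕ, 1 ≤ n → ‖a n‖ ≤ C * (n : ℝ) ^ δ) :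
    ∃ V c : ℝ, 1 ≤ V ∧ 0 < c ∧ ∀ z : ℂ, V ≤ z.im → z.im ≤ 2 * V → c ≤ phi a z := by
  have hpi := Real.pi_pos
  have hpi3 := Real.pi_gt_three
  obtain ⟨C, hC0, hC⟩ := sum_le a ram (1 / 2) 2 (by norm_num) (by norm_num) (by norm_num)
  set V : ℝ := max 1 (2 * C) with hV
  have hV1 : 1 ≤ V := le_max_left _ _
  have hV2 : 2 * C ≤ V := le_max_right _ _
  have hV0 : 0 < V := by linarith
  refine ⟨V, V * (Real.exp (-(4 * Real.pi * V)) / 2), hV1, by positivity, fun z hz1 hz2 => ?_⟩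
  set y := z.im with hy
  have hy0 : 0 < y := by linarith
  have hy1 : 1 ≤ y := by linarith
  obtain ⟨hs, ht⟩ := hC (Real.pi * y) (by positivity)
  have hsmall : C * (Real.pi * y) ^ (-(2 : ℝ)) ≤ 1 / 2 := by
    rw [Real.rpow_neg (by positivity), Real.rpow_two, ← div_eq_mul_inv,
      div_le_iff₀ (by positivity)]
    have e1 : y ≤ (Real.pi * y) ^ 2 := by
      have : y ≤ Real.pi * y := by nlinarith
      nlinarith
    nlinarith
  set X : ℂ := -(2 * (Real.pi : ℂ) * I * z) with hX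
  have hXre : X.re = 2 * Real.pi * y := by rw [hX, top_re]
  set f : ℕ → ℂ := fun n => a n * (((n : ℝ) ^ (1 / 2 : ℝ) : ℝ) : ℂ) * Complex.exp (-((n : ℂ) * X))
    with hf
  have hfn : ∀ n, ‖f n‖ = ‖a n‖ * (n : ℝ) ^ (1 / 2 : ℝ) * Real.exp (-((n : ℝ) * X.re)) :=
    fun n => triv_norm_term a (1 / 2) X n
  have hf1 : ‖f 1‖ = Real.exp (-(2 * Real.pi * y)) := by
    rw [hfn, hXre, h1]
    simp
  have hb : ∀ n : ℕ, ‖f n - (if n = 1 then f 1 else 0)‖ ≤
      Real.exp (-(2 * Real.pi * y)) *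
        (‖a n‖ * (n : ℝ) ^ (1 / 2 : ℝ) * Real.exp (-((n : ℝ) * (Real.pi * y)))) := by
    intro n
    have hnn : 0 ≤ Real.exp (-(2 * Real.pi * y)) *
        (‖a n‖ * (n : ℝ) ^ (1 / 2 : ℝ) * Real.exp (-((n : ℝ) * (Real.pi * y)))) := by positivity
    by_cases hn1 : n = 1
    · subst hn1
      simpa using hnn
    · rw [if_neg hn1, sub_zero]
      rcases Nat.eq_zero_or_pos n with rfl | hn
      · rw [hfn]
        have : ((0 : ℕ) : ℝ) ^ (1 / 2 : ℝ) = 0 := by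
          rw [Nat.cast_zero, Real.zero_rpow (by norm_num)]
        rw [this]
        simp
      · have hn2 : (2 : ℝ) ≤ n := by
          have : 2 ≤ n := by omega
          exact_mod_cast this
        rw [hfn, hXre]
        have h3 : Real.exp (-((n : ℝ) * (2 * Real.pi * y))) ≤
            Real.exp (-(2 * Real.pi * y)) * Real.exp (-((n : ℝ) * (Real.pi * y))) := by
          rw [← Real.exp_add]
          apply Real.exp_le_exp.2
          have e1 : 0 ≤ (Real.pi * y) * ((n : ℝ) - 2) := by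
            apply mul_nonneg (by positivity)
            linarith
          nlinarith
        calc ‖a n‖ * (n : ℝ) ^ (1 / 2 : ℝ) * Real.exp (-((n : ℝ) * (2 * Real.pi * y)))
            ≤ ‖a n‖ * (n : ℝ) ^ (1 / 2 : ℝ) *
              (Real.exp (-(2 * Real.pi * y)) * Real.exp (-((n : ℝ) * (Real.pi * y)))) := by
              gcongr
          _ = _ := by ring
  have hg := hs.hasSum.mul_left (Real.exp (-(2 * Real.pi * y)))
  have hS2 : Summable (fun n => f n - (if n = 1 then f 1 else 0)) :=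
    Summable.of_norm_bounded hg.summable hb
  have hS1 : Summable f := by
    have h2 := hS2.add (hasSum_ite_eq 1 (f 1)).summable
    simpa using h2
  have hts : ∑' n, (f n - (if n = 1 then f 1 else 0)) = (∑' n, f n) - f 1 := by
    rw [hS1.tsum_sub (hasSum_ite_eq 1 (f 1)).summable, tsum_ite_eq]
  have hnorm := tsum_of_norm_bounded hg hb
  rw [hts] at hnorm
  have hrest : ‖(∑' n, f n) - f 1‖ ≤ Real.exp (-(2 * Real.pi * y)) * (1 / 2) :=
    hnorm.trans (mul_le_mul_of_nonneg_left (ht.trans hsmall) (Real.exp_pos _).le)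
  have hE : E (1 / 2) a X = ∑' n, f n := rfl
  have hlow : Real.exp (-(2 * Real.pi * y)) / 2 ≤ ‖E (1 / 2) a X‖ := by
    have h4 : ‖f 1‖ ≤ ‖∑' n, f n‖ + ‖(∑' n, f n) - f 1‖ := by
      have : f 1 = (∑' n, f n) - ((∑' n, f n) - f 1) := by ring
      calc ‖f 1‖ = ‖(∑' n, f n) - ((∑' n, f n) - f 1)‖ := by rw [← this]
        _ ≤ _ := norm_sub_le _ _
    rw [hf1] at h4
    rw [hE]
    linarith
  have hexp : Real.exp (-(4 * Real.pi * V)) ≤ Real.exp (-(2 * Real.pi * y)) := by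
    apply Real.exp_le_exp.2
    nlinarith
  unfold phi
  calc V * (Real.exp (-(4 * Real.pi * V)) / 2) ≤ y * (Real.exp (-(2 * Real.pi * y)) / 2) := by
        gcongr
    _ ≤ y * ‖E (1 / 2) a X‖ := mul_le_mul_of_nonneg_left hlow hy0.le

end Pool.Agent.H14.Sel
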