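import Mathlib
import Pool.Agent.H14.Sel.Defs

set_option autoImplicit false

/-!
# Module CONJ (MP_8e9775_nt): conjugate data

`Dat` is stable under complex conjugation. Functional equation: put `Ψ s = conj (Φ (conj s))`, the
completed function of the conjugate data (`Complex.Gamma_conj`, `Q^(conj s) = conj (Q^s)` for
`Q > 0`). From `Φ s = ε conj Φ(1 - conj s)` at `1 - s` (in the strip too):
`Φ(1 - s) = ε conj Φ(conj s) = ε Ψ s`, so `Ψ s = conj ε * Φ(1 - s)` (`‖ε‖ = 1`), and
`conj (Ψ (1 - conj s)) = Φ (conj (1 - conj s)) = Φ (1 - s)`. The rest is immediate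
(`LSeries (cj a) s = conj (LSeries a (conj s))`, termwise, `Complex.conj_tsum`).

`E_cj`: termwise. `phi_cj`: `E (1/2) (cj a) (-(2πi z)) = conj (E (1/2) a (conj (-(2πi z))))` and
`conj (-(2πi z)) = 2πi conj z = -(2πi (-conj z))`; `Im (-conj z) = Im z`.
`R_cj`: `Complex.Gamma_conj`, `Complex.exp_conj`, `map_prod`, `map_inv₀`.
-/

namespace Pool.Agent.H14.Sel

open Complex MeasureTheory Filter Topology Pool.Agent.H11.Selberg

private theorem term_conj (a : ℕ → ℂ) (s : ℂ) (n : ℕ) :
    LSeries.term (cj a) s n = (starRingEnd ℂ) (LSeries.term a ((starRingEnd ℂ) s) n) := by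
  rcases Nat.eq_zero_or_pos n with hn | hn
  · subst hn
    simp
  · have hn' : n ≠ 0 := hn.ne'
    rw [LSeries.term_of_ne_zero hn', LSeries.term_of_ne_zero hn', map_div₀,
      Complex.cpow_conj _ _ (by rw [Complex.natCast_arg]; exact Real.pi_pos.ne),
      Complex.conj_natCast, Complex.conj_conj]
    rfl

private theorem completed_conj {k : ℕ} (Q : ℝ) (hQ : 0 < Q) (lam : Fin k → ℝ) (mu : Fin k → ℂ)
    (F : ℂ → ℂ) (s : ℂ) :
    completed Q lam (fun j => (starRingEnd ℂ) (mu j))
      (fun s => (starRingEnd ℂ) (F ((starRingEnd ℂ) s))) s =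
      (starRingEnd ℂ) (completed Q lam mu F ((starRingEnd ℂ) s)) := by
  unfold completed
  rw [map_mul, map_mul, map_prod]
  congr 1
  congr 1
  · rw [Complex.cpow_conj _ _ (by rw [Complex.arg_ofReal_of_nonneg hQ.le]; exact Real.pi_pos.ne),
      Complex.conj_conj, Complex.conj_ofReal]
  · refine Finset.prod_congr rfl (fun j _ => ?_)
    rw [← Complex.Gamma_conj, map_add, map_mul, Complex.conj_ofReal, Complex.conj_conj]

theorem Dat.conj {a : ℕ → ℂ} {H : ℂ → ℂ} {Q : ℝ} {r : ℕ} {lam : Fin r → ℝ} {mu : Fin r → ℂ}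
    {ε : ℂ} (h : Dat a H Q lam mu ε) :
    Dat (cj a) (fun s => (starRingEnd ℂ) (H ((starRingEnd ℂ) s))) Q lam
      (fun j => (starRingEnd ℂ) (mu j)) ((starRingEnd ℂ) ε) where
  one := by
    unfold cj
    rw [h.one, map_one]
  summ := by
    intro s hs
    have h1 := h.summ ((starRingEnd ℂ) s) (by simpa using hs)
    have h2 : Summable (fun n => (starRingEnd ℂ) (LSeries.term a ((starRingEnd ℂ) s) n)) :=
      Complex.summable_conj.2 h1
    have h3 : LSeries.term (cj a) s = fun n => (starRingEnd ℂ)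
        (LSeries.term a ((starRingEnd ℂ) s) n) := by
      funext n
      exact term_conj a s n
    unfold LSeriesSummable
    rw [h3]
    exact h2
  eqL := by
    intro s hs
    have h1 := h.eqL ((starRingEnd ℂ) s) (by simpa using hs)
    rw [h1]
    unfold LSeries
    rw [Complex.conj_tsum]
    exact tsum_congr (fun n => (term_conj a s n).symm)
  diff := by
    intro s
    have h1 : DifferentiableAt ℂ H ((starRingEnd ℂ) s) := h.diff _
    have h2 := h1.star_star
    simp only [Complex.star_def, Complex.conj_conj] at h2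
    exact h2
  fin := by
    obtain ⟨A, B, C, hC⟩ := h.fin
    refine ⟨A, B, C, fun s => ?_⟩
    have := hC ((starRingEnd ℂ) s)
    rw [RCLike.norm_conj] at this
    rw [RCLike.norm_conj]
    exact this
  Qpos := h.Qpos
  lampos := h.lampos
  mupos := fun j => by
    rw [Complex.conj_re]
    exact h.mupos j
  eps := by rw [RCLike.norm_conj, h.eps]
  feq := by
    intro s hs0 hs1
    have h1 := h.feq ((starRingEnd ℂ) s) (by simpa using hs0) (by simpa using hs1)
    rw [completed_conj Q h.Qpos, completed_conj Q h.Qpos, h1, map_mul, Complex.conj_conj,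
      Complex.conj_conj, Complex.conj_conj, map_sub, map_one, Complex.conj_conj]
  ram := by
    intro δ hδ
    obtain ⟨C, hC⟩ := h.ram δ hδ
    refine ⟨C, fun n hn => ?_⟩
    have : ‖cj a n‖ = ‖a n‖ := RCLike.norm_conj _
    rw [this]
    exact hC n hn
  deg := h.deg
  im0 := by
    rw [← map_sum, Complex.conj_im, h.im0, neg_zero]

theorem E_cj (β : ℝ) (a : ℕ → ℂ) (X : ℂ) :
    E β (cj a) X = (starRingEnd ℂ) (E β a ((starRingEnd ℂ) X)) := by
  unfold E
  rw [Complex.conj_tsum]
  refine tsum_congr (fun n => ?_)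
  rw [map_mul, map_mul, Complex.conj_ofReal, ← Complex.exp_conj, map_neg, map_mul,
    Complex.conj_natCast, Complex.conj_conj]
  rfl

theorem phi_cj (a : ℕ → ℂ) (z : ℂ) : phi (cj a) z = phi a (-(starRingEnd ℂ) z) := by
  unfold phi
  rw [E_cj, RCLike.norm_conj]
  have h1 : (-(starRingEnd ℂ) z).im = z.im := by simp
  have h2 : (starRingEnd ℂ) (-(2 * (Real.pi : ℂ) * I * z)) =
      -(2 * (Real.pi : ℂ) * I * (-(starRingEnd ℂ) z)) := by
    rw [map_neg, map_mul, map_mul, map_mul, Complex.conj_ofReal, Complex.conj_I,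
      Complex.conj_ofNat]
    ring
  rw [h1, h2]

theorem R_cj {r : ℕ} (lam : Fin r → ℝ) (mu : Fin r → ℂ) (s : ℂ) :
    R lam (fun j => (starRingEnd ℂ) (mu j)) s = (starRingEnd ℂ) (R lam mu ((starRingEnd ℂ) s)) := by
  unfold R gratio
  simp only [map_mul, map_prod, map_inv₀, ← Complex.Gamma_conj, ← Complex.exp_conj, map_add,
    map_sub, map_neg, map_div₀, Complex.conj_ofReal, Complex.conj_conj, map_one,
    Complex.conj_ofNat]

end Pool.Agent.H14.Sel
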