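import Mathlib
import Pool.Agent.H14.Sel.Defs

set_option autoImplicit false

/-!
# Module ST1 (MP_8e9775_nt): complex Stirling, limit along `z + n`

`stir z = exp ((z - 1/2) log z - z + log(2π)/2 + 1/(12 z))`.

`stir_tendsto`: for `Im z ≠ 0`, `Γ(z + n)/stir(z + n) → 1` along the natural numbers.
It suffices to prove it along `n + 1`. Mathlib: `Complex.GammaSeq z n = n^z n! / (z (z+1) ... (z+n))`
tends to `Γ z` (`Complex.GammaSeq_tendsto_Gamma`) and `Γ(z + n + 1) = z (z+1) ... (z+n) Γ z`
(induction with `Complex.Gamma_add_one`; none of the factors is `0`). Hence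
`Γ(z+n+1)/(n^z n!) = Γ z/GammaSeq z n → 1` (`Γ z ≠ 0` since `z` is not real).
By the real Stirling formula (`Stirling.factorial_isEquivalent_stirling` or
`Stirling.tendsto_stirlingSeq_sqrt_pi`) `n!/(sqrt(2π n) (n/e)^n) → 1`.
Finally `stir (z + n + 1)/(n^z sqrt(2π n) (n/e)^n) → 1`: it is the exponential of
`(z + n + 1/2) log(z + n + 1) - (z + n + 1) + 1/(12 (z+n+1)) - z log n - (n + 1/2) log n + n`
`= (z + n + 1/2) (log(z+n+1) - log n) - (z + 1) + 1/(12(z+n+1))`, and for large `n`
`log(z + n + 1) - log n = log(1 + (z+1)/n)` (`Complex.log_mul_ofReal` or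
`Complex.log_ofReal_mul`), `n log (1 + (z+1)/n) → z + 1`
(e.g. from `Complex.tendsto_one_add_div_pow_exp` style lemmas, or from
`‖log(1+u) - u‖ ≤ ‖u‖^2` for `‖u‖ ≤ 1/2`: `Complex.norm_log_one_add_sub_self_le`), the rest tends
to `0`.

`stir_ne_zero` is `Complex.exp_ne_zero`.
-/

namespace Pool.Agent.H14.Sel

open Complex MeasureTheory Filter Topology Pool.Agent.H11.Selberg

/-- The Stirling approximation of the Gamma function with its first correction term. -/
noncomputable def stir (z : ℂ) : ℂ :=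
  Complex.exp ((z - 1 / 2) * Complex.log z - z + (Real.log (2 * Real.pi) : ℂ) / 2 + 1 / (12 * z))

theorem stir_ne_zero (z : ℂ) : stir z ≠ 0 := Complex.exp_ne_zero _

private theorem st1_factorial (n : ℕ) (hn : n ≠ 0) :
    ((n.factorial : ℝ) : ℝ) = Stirling.stirlingSeq n / Real.sqrt Real.pi *
      Real.exp (Real.log (2 * Real.pi) / 2 + Real.log n / 2 + n * Real.log n - n) := by
  have hn0 : (0 : ℝ) < n := by exact_mod_cast Nat.pos_of_ne_zero hn
  have hpi := Real.pi_pos
  have hsp : 0 < Real.sqrt Real.pi := Real.sqrt_pos.2 hpi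
  have hs2 : 0 < Real.sqrt (2 * n) := Real.sqrt_pos.2 (by positivity)
  have hne : (0 : ℝ) < ((n : ℝ) / Real.exp 1) ^ n := by positivity
  have key : Real.exp (Real.log (2 * Real.pi) / 2 + Real.log n / 2 + n * Real.log n - n) =
      Real.sqrt Real.pi * (Real.sqrt (2 * n) * ((n : ℝ) / Real.exp 1) ^ n) := by
    rw [← Real.exp_log (mul_pos hsp (mul_pos hs2 hne))]
    congr 1
    rw [Real.log_mul hsp.ne' (mul_pos hs2 hne).ne', Real.log_mul hs2.ne' hne.ne',
      Real.log_sqrt hpi.le, Real.log_sqrt (by positivity), Real.log_pow,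
      Real.log_div hn0.ne' (Real.exp_ne_zero _), Real.log_exp, Real.log_mul two_ne_zero hpi.ne',
      Real.log_mul two_ne_zero hn0.ne']
    ring
  rw [key, Stirling.stirlingSeq]
  field_simp

private theorem st1_prod (z : ℂ) (hz : z.im ≠ 0) (n : ℕ) :
    Complex.Gamma (z + (n + 1 : ℕ)) = (∏ j ∈ Finset.range (n + 1), (z + j)) * Complex.Gamma z := by
  have hne : ∀ m : ℕ, z + m ≠ 0 := by
    intro m h
    apply hz
    have := congrArg Complex.im h
    simpa using this
  induction n with
  | zero =>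
    rw [zero_add, Nat.cast_one, Finset.prod_range_one, Nat.cast_zero, add_zero]
    exact Complex.Gamma_add_one z (by simpa using hne 0)
  | succ n ih =>
    rw [Finset.prod_range_succ, mul_right_comm, ← ih, mul_comm, ← Complex.Gamma_add_one _ (hne _)]
    push_cast
    ring_nf

theorem stir_tendsto (z : ℂ) (hz : z.im ≠ 0) :
    Tendsto (fun n : ℕ => Complex.Gamma (z + n) / stir (z + n)) atTop (𝓝 1) := by
  rw [← tendsto_add_atTop_iff_nat 1]
  have hne : ∀ m : ℕ, z + m ≠ 0 := by
    intro m h
    apply hz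
    have := congrArg Complex.im h
    simpa using this
  have hΓ : Complex.Gamma z ≠ 0 := by
    apply Complex.Gamma_ne_zero
    intro m h
    apply hz
    rw [h]
    simp
  -- first factor
  have h1 : Tendsto (fun n : ℕ => Complex.Gamma z / Complex.GammaSeq z n) atTop (𝓝 1) := by
    have := (tendsto_const_nhds (x := Complex.Gamma z)).div (Complex.GammaSeq_tendsto_Gamma z) hΓ
    rwa [div_self hΓ] at this
  -- second factor
  have h2 : Tendsto (fun n : ℕ => ((Stirling.stirlingSeq n / Real.sqrt Real.pi : ℝ) : ℂ)) atTop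
      (𝓝 1) := by
    have hsp : Real.sqrt Real.pi ≠ 0 := (Real.sqrt_pos.2 Real.pi_pos).ne'
    have := Stirling.tendsto_stirlingSeq_sqrt_pi.div_const (Real.sqrt Real.pi)
    rw [div_self hsp] at this
    have h3 := (Complex.continuous_ofReal.tendsto 1).comp this
    rw [Complex.ofReal_one] at h3
    exact h3
  -- third factor
  set D : ℕ → ℂ := fun n => (z + n + 1 / 2) * Complex.log (1 + (z + 1) / n) - (z + 1) +
    1 / (12 * (z + (n + 1 : ℕ))) with hD
  have hdiv : Tendsto (fun n : ℕ => (z + 1) / (n : ℂ)) atTop (𝓝 0) :=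
    tendsto_const_div_atTop_nhds_zero_nat _
  have hD0 : Tendsto D atTop (𝓝 0) := by
    have e1 : Tendsto (fun n : ℕ => (n : ℂ) * Complex.log (1 + (z + 1) / n)) atTop
        (𝓝 (z + 1)) := by
      apply Complex.tendsto_nat_mul_log_one_add_of_tendsto
      refine tendsto_const_nhds.congr' ?_
      filter_upwards [eventually_ne_atTop 0] with n hn
      have : (n : ℂ) ≠ 0 := by exact_mod_cast hn
      field_simp
    have e2 : Tendsto (fun n : ℕ => (z + 1 / 2) * Complex.log (1 + (z + 1) / (n : ℂ))) atTop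
        (𝓝 0) := by
      have hl : Tendsto (fun n : ℕ => Complex.log (1 + (z + 1) / (n : ℂ))) atTop (𝓝 0) := by
        have hc : ContinuousAt Complex.log 1 :=
          continuousAt_clog (Or.inl (by norm_num))
        have h0 : Tendsto (fun n : ℕ => 1 + (z + 1) / (n : ℂ)) atTop (𝓝 1) := by
          have := (tendsto_const_nhds (x := (1 : ℂ))).add hdiv
          rwa [add_zero] at this
        have := hc.tendsto.comp h0
        rwa [Complex.log_one] at this
      have := hl.const_mul (z + 1 / 2)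
      rwa [mul_zero] at this
    have e3 : Tendsto (fun n : ℕ => 1 / (12 * (z + (n + 1 : ℕ)))) atTop (𝓝 0) := by
      rw [tendsto_zero_iff_norm_tendsto_zero]
      have hn : Tendsto (fun n : ℕ => ((n : ℝ) + 1 - ‖z‖)) atTop atTop := by
        have := tendsto_natCast_atTop_atTop (R := ℝ)
        simpa [sub_eq_add_neg, add_assoc] using tendsto_atTop_add_const_right atTop (1 - ‖z‖) this
      have hi : Tendsto (fun n : ℕ => ((n : ℝ) + 1 - ‖z‖)⁻¹) atTop (𝓝 0) :=
        tendsto_inv_atTop_zero.comp hn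
      refine squeeze_zero' (Eventually.of_forall fun n => norm_nonneg _) ?_ hi
      filter_upwards [hn.eventually_gt_atTop 0] with n hpos
      rw [norm_div, norm_one, norm_mul, one_div]
      apply inv_anti₀ hpos
      have h4 : ((n : ℝ) + 1) - ‖z‖ ≤ ‖z + ((n + 1 : ℕ) : ℂ)‖ := by
        have h5 : ‖((n + 1 : ℕ) : ℂ)‖ = (n : ℝ) + 1 := by
          rw [Complex.norm_natCast]; push_cast; ring
        have h6 := norm_sub_norm_le ((n + 1 : ℕ) : ℂ) (-z)
        rw [norm_neg, sub_neg_eq_add, h5, add_comm ((n + 1 : ℕ) : ℂ) z] at h6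
        exact h6
      have h7 : ‖(12 : ℂ)‖ = 12 := by norm_num
      rw [h7]
      have h8 : 0 ≤ ‖z + ((n + 1 : ℕ) : ℂ)‖ := norm_nonneg _
      linarith
    have e4 := ((e1.add e2).sub_const (z + 1)).add e3
    rw [add_zero, add_zero, sub_self] at e4
    refine e4.congr (fun n => ?_)
    simp only [hD]
    ring
  have h3 : Tendsto (fun n : ℕ => Complex.exp (-(D n))) atTop (𝓝 1) := by
    have := (Complex.continuous_exp.tendsto _).comp hD0.neg
    rw [neg_zero, Complex.exp_zero] at this
    exact this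
  have h4 := (h1.mul h2).mul h3
  rw [one_mul, one_mul] at h4
  refine h4.congr' ?_
  filter_upwards [eventually_ne_atTop 0] with n hn
  have hn0 : (0 : ℝ) < n := by exact_mod_cast Nat.pos_of_ne_zero hn
  have hnC : (n : ℂ) ≠ 0 := by exact_mod_cast hn
  have hP : (∏ j ∈ Finset.range (n + 1), (z + j)) ≠ 0 := by
    rw [Finset.prod_ne_zero_iff]
    exact fun j _ => hne j
  have hfac : ((n.factorial : ℕ) : ℂ) =
      ((Stirling.stirlingSeq n / Real.sqrt Real.pi : ℝ) : ℂ) *
      Complex.exp ((Real.log (2 * Real.pi) : ℂ) / 2 + Complex.log n / 2 + n * Complex.log n - n) := by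
    have := congrArg (fun x : ℝ => (x : ℂ)) (st1_factorial n hn)
    simp only [Complex.ofReal_natCast] at this
    rw [this, Complex.ofReal_mul, Complex.ofReal_exp]
    congr 2
    push_cast [Complex.natCast_log]
    ring
  have hcp : (n : ℂ) ^ z = Complex.exp (Complex.log n * z) := Complex.cpow_def_of_ne_zero hnC z
  have hfne : ((n.factorial : ℕ) : ℂ) ≠ 0 := by exact_mod_cast n.factorial_ne_zero
  have hpow : (n : ℂ) ^ z ≠ 0 := by rw [hcp]; exact Complex.exp_ne_zero _
  have hlog : Complex.log (z + (n + 1 : ℕ)) = Complex.log n + Complex.log (1 + (z + 1) / n) := by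
    have e : z + (n + 1 : ℕ) = ((n : ℝ) : ℂ) * (1 + (z + 1) / n) := by
      rw [Complex.ofReal_natCast]
      field_simp
      push_cast
      ring
    have hx : (1 + (z + 1) / n : ℂ) ≠ 0 := by
      intro h
      rw [h, mul_zero] at e
      exact hne _ e
    rw [e, Complex.log_ofReal_mul hn0 hx, Complex.natCast_log]
  rw [st1_prod z hz n]
  have hstir : stir (z + (n + 1 : ℕ)) = (n : ℂ) ^ z *
      Complex.exp ((Real.log (2 * Real.pi) : ℂ) / 2 + Complex.log n / 2 + n * Complex.log n - n) *
      Complex.exp (D n) := by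
    rw [stir, hcp, ← Complex.exp_add, ← Complex.exp_add, hlog]
    congr 1
    simp only [hD]
    push_cast
    ring
  rw [hstir, Complex.GammaSeq, Complex.exp_neg]
  set P := ∏ j ∈ Finset.range (n + 1), (z + (j : ℂ)) with hPdef
  set X := Complex.exp ((Real.log (2 * Real.pi) : ℂ) / 2 + Complex.log n / 2 + n * Complex.log n - n)
    with hX
  have hX0 : X ≠ 0 := Complex.exp_ne_zero _
  have hE0 : Complex.exp (D n) ≠ 0 := Complex.exp_ne_zero _
  have hR0 : ((Stirling.stirlingSeq n / Real.sqrt Real.pi : ℝ) : ℂ) ≠ 0 := by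
    intro h
    rw [h, zero_mul] at hfac
    exact hfne hfac
  rw [hfac]
  field_simp

end Pool.Agent.H14.Sel
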