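import Mathlib
import Pool.Agent.H14.Sel.St1

set_option autoImplicit false

/-!
# Module ST2 (MP_8e9775_nt): complex Stirling, the step `z → z + 1`

For `Im z ≠ 0`, `‖z‖ ≥ 2`: put `u = 1/z`, `‖u‖ ≤ 1/2`. Then
`log (z + 1) - log z = log (1 + u)`: both sides have the same exponential, and the imaginary parts:
for `Im z > 0` we have `0 < arg (z+1) < arg z < π`, so `arg(z+1) - arg z` is in `(-π, 0)`; similarly
for `Im z < 0`. (One can also argue with `Complex.log_mul_eq_add_log_iff`: `z + 1 = z * (1 + u)` and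
`arg z + arg (1+u)` lies in `(-π, π]`: `1 + u = (z+1) conj z/|z|^2` etc. Or: the function
`t ↦ log (z + t) - log (1 + t/z)`, `t ∈ [0,1]`, is continuous (both arguments stay in
`slitPlane`) with constant exponential `z`, or has derivative `0`.)
So `stir (z + 1) = z * stir z * exp w` with
`w = (z + 1/2) log (1 + u) - 1 + (1/12) (1/(z+1) - 1/z)`.
Taylor: `log (1 + u) = u - u^2/2 + u^3/3 + e`, `‖e‖ ≤ ‖u‖^4` for `‖u‖ ≤ 1/2`
(`Complex.norm_log_sub_logTaylor_le` with `n = 3`: `‖log(1+z) - logTaylor 4 z‖ ≤ ‖z‖^4 (1-‖z‖)⁻¹/4`).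
With `z = 1/u`:
`(1/u + 1/2)(u - u^2/2 + u^3/3) - 1 = u^2/12 + u^3/6`, and
`(1/12)(1/(z+1) - 1/z) = -(1/12) u^2/(1+u) = -(1/12)(u^2 - u^3/(1+u))`. So
`w = u^3/6 + (1/12) u^3/(1+u) + (1/u + 1/2) e`, hence `‖w‖ ≤ C ‖u‖^3`.
-/

namespace Pool.Agent.H14.Sel

open Complex MeasureTheory Filter Topology Pool.Agent.H11.Selberg

private lemma st2_log (z : ℂ) (hz : z.im ≠ 0) (h2 : 2 ≤ ‖z‖) :
    Complex.log (z + 1) = Complex.log z + Complex.log (1 + z⁻¹) := by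
  have hz0 : z ≠ 0 := by rintro rfl; simp at hz
  have hn : ‖z⁻¹‖ ≤ 1 / 2 := by
    rw [norm_inv]
    rw [one_div]
    exact inv_anti₀ (by norm_num) h2
  have hre : 0 < (1 + z⁻¹).re := by
    have h1 : |(z⁻¹).re| ≤ 1 / 2 := (Complex.abs_re_le_norm _).trans hn
    have h3 := (abs_le.1 h1).1
    simp only [Complex.add_re, Complex.one_re]
    linarith
  have hne : (1 + z⁻¹) ≠ 0 := by
    intro h
    rw [h] at hre
    simp at hre
  have hmul : z + 1 = z * (1 + z⁻¹) := by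
    field_simp
  have harg : |Complex.arg (1 + z⁻¹)| < Real.pi / 2 := Complex.abs_arg_lt_pi_div_two_iff.2 (Or.inl hre)
  obtain ⟨ha1, ha2⟩ := abs_lt.1 harg
  have him : (1 + z⁻¹).im = - z.im / Complex.normSq z := by
    simp [Complex.inv_im]
  have hns : 0 < Complex.normSq z := Complex.normSq_pos.2 hz0
  rw [hmul]
  refine Complex.log_mul_eq_add_log_iff hz0 hne |>.2 ?_
  rcases lt_or_gt_of_ne hz with h | h
  · -- im z < 0
    have h1 : Complex.arg z < 0 := Complex.arg_neg_iff.2 h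
    have h2' : 0 ≤ Complex.arg (1 + z⁻¹) := by
      rw [Complex.arg_nonneg_iff, him]
      apply div_nonneg _ hns.le
      linarith
    have h3 := Complex.neg_pi_lt_arg z
    constructor <;> [linarith; linarith [Real.pi_pos]]
  · have h1 : 0 ≤ Complex.arg z := Complex.arg_nonneg_iff.2 h.le
    have h2' : Complex.arg (1 + z⁻¹) < 0 := by
      rw [Complex.arg_neg_iff, him]
      apply div_neg_of_neg_of_pos _ hns
      linarith
    have h3 := Complex.arg_le_pi z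
    constructor <;> [linarith [Real.pi_pos]; linarith]

theorem stir_step : ∃ C : ℝ, 0 ≤ C ∧ ∀ z : ℂ, z.im ≠ 0 → 2 ≤ ‖z‖ →
    ∃ w : ℂ, stir (z + 1) = z * stir z * Complex.exp w ∧ ‖w‖ ≤ C / ‖z‖ ^ 3 := by
  refine ⟨2, by norm_num, ?_⟩
  intro z hz h2
  have hz0 : z ≠ 0 := by rintro rfl; simp at hz
  have hlog := st2_log z hz h2
  refine ⟨(z + 1 / 2) * Complex.log (1 + z⁻¹) - 1 + 1 / (12 * (z + 1)) - 1 / (12 * z), ?_, ?_⟩
  · unfold stir
    rw [hlog]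
    have hA : ∀ A : ℂ, z * Complex.exp A = Complex.exp (Complex.log z + A) := by
      intro A
      rw [Complex.exp_add, Complex.exp_log hz0]
    rw [hA, ← Complex.exp_add]
    congr 1
    ring
  · set u : ℂ := z⁻¹ with hu
    have hu0 : u ≠ 0 := inv_ne_zero hz0
    have hzu : z = u⁻¹ := by rw [hu, inv_inv]
    have hun : ‖u‖ ≤ 1 / 2 := by
      rw [hu, norm_inv, one_div]
      exact inv_anti₀ (by norm_num) h2
    have hun1 : ‖u‖ < 1 := by linarith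
    have hupos : 0 < ‖u‖ := norm_pos_iff.2 hu0
    have hT := Complex.norm_log_sub_logTaylor_le 3 hun1
    have hlt : Complex.logTaylor (3 + 1) u = u - u ^ 2 / 2 + u ^ 3 / 3 := by
      simp [Complex.logTaylor, Finset.sum_range_succ]
      ring
    set e : ℂ := Complex.log (1 + u) - Complex.logTaylor (3 + 1) u with he
    have hloge : Complex.log (1 + u) = u - u ^ 2 / 2 + u ^ 3 / 3 + e := by
      rw [he, hlt]; ring
    have hel : ‖e‖ ≤ ‖u‖ ^ 4 := by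
      refine hT.trans ?_
      have h4 : (1 - ‖u‖)⁻¹ ≤ 2 := by
        rw [inv_le_comm₀ (by linarith) (by norm_num)]
        linarith
      have h5 : 0 ≤ ‖u‖ ^ 4 := by positivity
      have : ‖u‖ ^ (3 + 1) * (1 - ‖u‖)⁻¹ / (3 + 1) ≤ ‖u‖ ^ 4 * 2 / (3 + 1) := by
        gcongr
      push_cast
      refine this.trans ?_
      nlinarith
    have h1u : 1 / 2 ≤ ‖1 + u‖ := by
      have := norm_sub_norm_le (1 : ℂ) (-u)
      rw [norm_neg, norm_one, sub_neg_eq_add] at this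
      linarith
    have h1u0 : 1 + u ≠ 0 := by
      intro h
      rw [h, norm_zero] at h1u
      linarith
    have key : (z + 1 / 2) * Complex.log (1 + u) - 1 + 1 / (12 * (z + 1)) - 1 / (12 * z)
        = u ^ 3 / 6 + u ^ 3 / (12 * (1 + u)) + (u⁻¹ + 1 / 2) * e := by
      have hz1 : u⁻¹ + 1 ≠ 0 := by
        intro h
        apply h1u0
        have : u * (u⁻¹ + 1) = 0 := by rw [h, mul_zero]
        rw [mul_add, mul_inv_cancel₀ hu0, mul_one] at this
        exact this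
      rw [hloge, hzu]
      have e1 : (1 : ℂ) / (12 * (u⁻¹ + 1)) = u / (12 * (1 + u)) := by
        rw [div_eq_div_iff (by simpa using hz1) (by simpa using h1u0)]
        have : u * u⁻¹ = 1 := mul_inv_cancel₀ hu0
        linear_combination (-12) * this
      have e2 : (1 : ℂ) / (12 * u⁻¹) = u / 12 := by
        rw [mul_comm, ← div_div, one_div, inv_inv]
      rw [e1, e2]
      field_simp
      ring
    rw [key]
    have hzn : ‖z‖ = ‖u‖⁻¹ := by rw [hzu, norm_inv]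
    rw [hzn]
    have hgoal : (2 : ℝ) / ‖u‖⁻¹ ^ 3 = 2 * ‖u‖ ^ 3 := by
      rw [inv_pow, div_inv_eq_mul]
    rw [hgoal]
    have n1 : ‖u ^ 3 / 6‖ = ‖u‖ ^ 3 / 6 := by simp
    have n2 : ‖u ^ 3 / (12 * (1 + u))‖ ≤ ‖u‖ ^ 3 / 6 := by
      rw [norm_div, norm_mul, norm_pow]
      have : (6 : ℝ) ≤ ‖(12 : ℂ)‖ * ‖1 + u‖ := by
        have : ‖(12 : ℂ)‖ = 12 := by simp
        rw [this]; linarith
      gcongr
    have n3 : ‖(u⁻¹ + 1 / 2) * e‖ ≤ (3 / 2) * ‖u‖ ^ 3 := by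
      rw [norm_mul]
      have h6 : ‖u⁻¹ + 1 / 2‖ ≤ ‖u‖⁻¹ + 1 / 2 := by
        refine (norm_add_le _ _).trans ?_
        rw [norm_inv]
        simp
      calc ‖u⁻¹ + 1 / 2‖ * ‖e‖ ≤ (‖u‖⁻¹ + 1 / 2) * ‖u‖ ^ 4 := by gcongr
        _ = ‖u‖ ^ 3 + ‖u‖ ^ 4 / 2 := by field_simp
        _ ≤ (3 / 2) * ‖u‖ ^ 3 := by
          have : ‖u‖ ^ 4 ≤ ‖u‖ ^ 3 := by
            apply pow_le_pow_of_le_one hupos.le hun1.le (by norm_num)
          nlinarith [pow_pos hupos 3]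
    calc ‖u ^ 3 / 6 + u ^ 3 / (12 * (1 + u)) + (u⁻¹ + 1 / 2) * e‖
        ≤ ‖u ^ 3 / 6‖ + ‖u ^ 3 / (12 * (1 + u))‖ + ‖(u⁻¹ + 1 / 2) * e‖ := norm_add₃_le
      _ ≤ ‖u‖ ^ 3 / 6 + ‖u‖ ^ 3 / 6 + (3 / 2) * ‖u‖ ^ 3 := by rw [n1]; gcongr
      _ ≤ 2 * ‖u‖ ^ 3 := by nlinarith [pow_pos hupos 3]

end Pool.Agent.H14.Sel
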