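import Mathlib
import Pool.Agent.H14.Sel.St1
import Pool.Agent.H14.Sel.St2

set_option autoImplicit false

/-!
# Module ST3 (MP_8e9775_nt): complex Stirling

Let `h z = Γ z/stir z`. By ST2 and `Γ(z+1) = z Γ z` we have `h z = h (z + 1) * exp (w z)` for
`Im z ≠ 0`, `‖z‖ ≥ 2`. Hence `h z = h (z + N) * exp (∑_{n < N} w (z + n))` when `|Im z| ≥ 2`, and
`h (z + N) → 1` by ST1. If `|Re z| ≤ A` and `y = |Im z| ≥ T := 2 + 2 |A|`, then
`‖z + n‖^2 ≥ (n - |A|)^2 + y^2 ≥ n^2/2 - A^2 + y^2 ≥ (n^2 + y^2)/2 ≥ (n + y)^2/4`, so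
`∑_n ‖w (z + n)‖ ≤ ∑_n 8 C/(n + y)^3 ≤ 4 C/((y-1) y) ≤ 8 C/y^2`
(telescoping: `1/(n+y)^3 ≤ (1/2) (1/((n+y-1)(n+y)) - 1/((n+y)(n+y+1)))`). Since
`‖exp s - 1‖ ≤ ‖s‖ exp ‖s‖`, the limit gives `‖h z - 1‖ ≤ C'/y^2`, and
`‖z‖^2 ≤ A^2 + y^2 ≤ 2 y^2`.
-/

namespace Pool.Agent.H14.Sel

open Complex MeasureTheory Filter Topology Pool.Agent.H11.Selberg

/-- the telescoping bound -/
private theorem st3_tele (y : ℝ) (hy : 2 ≤ y) (N : ℕ) :
    ∑ m ∈ Finset.range N, 8 / ((m : ℝ) + y) ^ 3 ≤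
      4 * (1 / ((y - 1) * y) - 1 / (((N : ℝ) + y - 1) * ((N : ℝ) + y))) := by
  induction N with
  | zero =>
    simp
  | succ N ih =>
    rw [Finset.sum_range_succ]
    have hN : (0 : ℝ) ≤ N := Nat.cast_nonneg N
    set u : ℝ := (N : ℝ) + y with hu
    have hu2 : 2 ≤ u := by linarith
    have h1 : 8 / u ^ 3 ≤ 4 * (1 / ((u - 1) * u) - 1 / (u * (u + 1))) := by
      have e : 4 * (1 / ((u - 1) * u) - 1 / (u * (u + 1))) = 8 / ((u - 1) * u * (u + 1)) := by
        have h1 : u - 1 ≠ 0 := by linarith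
        have h2 : u ≠ 0 := by linarith
        have h3 : u + 1 ≠ 0 := by linarith
        field_simp
        ring
      rw [e]
      have hp : 0 < (u - 1) * u * (u + 1) := by
        have h1 : 0 < u - 1 := by linarith
        have h2 : 0 < u := by linarith
        have h3 : 0 < u + 1 := by linarith
        positivity
      refine div_le_div_of_nonneg_left (by norm_num) hp ?_
      nlinarith
    have h2 : ((N + 1 : ℕ) : ℝ) + y - 1 = u := by push_cast; ring
    have h3 : ((N + 1 : ℕ) : ℝ) + y = u + 1 := by push_cast; ring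
    rw [h2, h3]
    have h4 : (N : ℝ) + y - 1 = u - 1 := by ring
    rw [h4] at ih
    linarith

theorem stirling (A : ℝ) : ∃ C T : ℝ, 2 ≤ T ∧ ∀ z : ℂ, |z.re| ≤ A → T ≤ |z.im| →
    ‖Complex.Gamma z / stir z - 1‖ ≤ C / ‖z‖ ^ 2 := by
  obtain ⟨C0, hC0, hstep⟩ := stir_step
  refine ⟨16 * C0 * Real.exp (2 * C0), 2 + 2 * |A|, by linarith [abs_nonneg A], ?_⟩
  intro z hre him
  have hA : 0 ≤ A := (abs_nonneg _).trans hre
  rw [abs_of_nonneg hA] at him
  set y : ℝ := |z.im| with hy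
  have hy2 : 2 ≤ y := by linarith
  have hzim : z.im ≠ 0 := by
    intro h
    rw [h, abs_zero] at hy
    linarith
  -- lower bound for the norms
  have hnorm : ∀ m : ℕ, ((m : ℝ) + y) / 2 ≤ ‖z + m‖ := by
    intro m
    have hm : (0 : ℝ) ≤ m := Nat.cast_nonneg m
    have h1 : (((m : ℝ) + y) / 2) ^ 2 ≤ ‖z + m‖ ^ 2 := by
      rw [Complex.sq_norm, Complex.normSq_apply]
      have e1 : (z + m).re = z.re + m := by simp
      have e2 : (z + m).im = z.im := by simp
      rw [e1, e2]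
      have h2 : z.im * z.im = y ^ 2 := by rw [hy, sq_abs]; ring
      rw [h2]
      have h3 : z.re ^ 2 ≤ A ^ 2 := by
        rw [← sq_abs z.re]
        exact pow_le_pow_left₀ (abs_nonneg _) hre 2
      nlinarith [sq_nonneg ((m : ℝ) / 2 + 2 * z.re / 2 * 2), sq_nonneg ((m : ℝ) - y),
        sq_nonneg ((m : ℝ) + 2 * z.re), sq_nonneg z.re]
    exact le_of_sq_le_sq h1 (norm_nonneg _)
  have hw : ∀ m : ℕ, ∃ w : ℂ, stir (z + m + 1) = (z + m) * stir (z + m) * Complex.exp w ∧
      ‖w‖ ≤ C0 * (8 / ((m : ℝ) + y) ^ 3) := by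
    intro m
    have hm : (0 : ℝ) ≤ m := Nat.cast_nonneg m
    have h1 : (z + m).im ≠ 0 := by simpa using hzim
    have h2 : 2 ≤ ‖z + m‖ := by
      refine le_trans ?_ (Complex.abs_im_le_norm (z + m))
      have : (z + m).im = z.im := by simp
      rw [this]
      exact hy2
    obtain ⟨w, hw1, hw2⟩ := hstep (z + m) h1 h2
    refine ⟨w, hw1, hw2.trans ?_⟩
    have h3 := hnorm m
    have h4 : 0 < ((m : ℝ) + y) / 2 := by linarith
    have h5 : (((m : ℝ) + y) / 2) ^ 3 ≤ ‖z + m‖ ^ 3 := pow_le_pow_left₀ h4.le h3 3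
    calc C0 / ‖z + m‖ ^ 3 ≤ C0 / (((m : ℝ) + y) / 2) ^ 3 :=
          div_le_div_of_nonneg_left hC0 (by positivity) h5
      _ = C0 * (8 / ((m : ℝ) + y) ^ 3) := by
          have : (m : ℝ) + y ≠ 0 := by linarith
          field_simp
          ring
  choose w hw1 hw2 using hw
  -- the recursion
  have hrec : ∀ N : ℕ, Complex.Gamma z / stir z =
      Complex.Gamma (z + N) / stir (z + N) * Complex.exp (∑ m ∈ Finset.range N, w m) := by
    intro N
    induction N with
    | zero => simp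
    | succ N ih =>
      rw [ih, Finset.sum_range_succ, Complex.exp_add]
      have hne : z + (N : ℂ) ≠ 0 := by
        intro h
        have := congrArg Complex.im h
        simp at this
        exact hzim this
      have e1 : z + ((N + 1 : ℕ) : ℂ) = z + N + 1 := by push_cast; ring
      rw [e1, hw1 N, Complex.Gamma_add_one _ hne]
      have h1 := stir_ne_zero (z + N)
      have h2 := Complex.exp_ne_zero (w N)
      field_simp
  -- the sums
  have hS : ∀ N : ℕ, ‖∑ m ∈ Finset.range N, w m‖ ≤ 8 * C0 / y ^ 2 := by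
    intro N
    have hN : (0 : ℝ) ≤ N := Nat.cast_nonneg N
    refine (norm_sum_le _ _).trans ((Finset.sum_le_sum fun m _ => hw2 m).trans ?_)
    rw [← Finset.mul_sum]
    have h1 := st3_tele y hy2 N
    have h2 : 0 ≤ 1 / (((N : ℝ) + y - 1) * ((N : ℝ) + y)) := by
      have h3 : 0 < (N : ℝ) + y - 1 := by linarith
      have h4 : 0 < (N : ℝ) + y := by linarith
      positivity
    have h3 : 4 * (1 / ((y - 1) * y)) ≤ 8 / y ^ 2 := by
      have hy1 : 0 < y - 1 := by linarith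
      have hy0 : 0 < y := by linarith
      rw [mul_one_div, div_le_div_iff₀ (by positivity) (by positivity)]
      nlinarith
    calc C0 * ∑ m ∈ Finset.range N, 8 / ((m : ℝ) + y) ^ 3
        ≤ C0 * (8 / y ^ 2) := mul_le_mul_of_nonneg_left (by linarith) hC0
      _ = 8 * C0 / y ^ 2 := by ring
  set S : ℝ := 8 * C0 / y ^ 2 with hSdef
  have hS0 : 0 ≤ S := by positivity
  have hS2 : S ≤ 2 * C0 := by
    rw [hSdef, div_le_iff₀ (by positivity)]
    have : 4 ≤ y ^ 2 := by nlinarith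
    nlinarith [mul_le_mul_of_nonneg_left this hC0]
  have hexp : ∀ N : ℕ, ‖Complex.exp (∑ m ∈ Finset.range N, w m) - 1‖ ≤
      S * Real.exp (2 * C0) := by
    intro N
    have h1 : ‖Complex.exp (∑ m ∈ Finset.range N, w m) - 1‖ ≤
        ‖∑ m ∈ Finset.range N, w m‖ * Real.exp ‖∑ m ∈ Finset.range N, w m‖ := by
      have := Complex.norm_exp_sub_sum_le_norm_mul_exp (∑ m ∈ Finset.range N, w m) 1
      simpa using this
    refine h1.trans ?_
    have h2 := hS N
    have h3 : Real.exp ‖∑ m ∈ Finset.range N, w m‖ ≤ Real.exp (2 * C0) :=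
      Real.exp_le_exp.2 (h2.trans hS2)
    exact mul_le_mul h2 h3 (Real.exp_pos _).le hS0
  -- the limit
  have hlim := stir_tendsto z hzim
  have hlim2 : Tendsto (fun N : ℕ => ‖Complex.Gamma (z + N) / stir (z + N) - 1‖ *
      (1 + S * Real.exp (2 * C0)) + S * Real.exp (2 * C0)) atTop
      (𝓝 (‖(1 : ℂ) - 1‖ * (1 + S * Real.exp (2 * C0)) + S * Real.exp (2 * C0))) :=
    (((hlim.sub_const 1).norm).mul_const _).add_const _
  have hbound : ‖Complex.Gamma z / stir z - 1‖ ≤ S * Real.exp (2 * C0) := by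
    have h0 : ‖Complex.Gamma z / stir z - 1‖ ≤
        ‖(1 : ℂ) - 1‖ * (1 + S * Real.exp (2 * C0)) + S * Real.exp (2 * C0) := by
      refine ge_of_tendsto' hlim2 fun N => ?_
      set E := Complex.exp (∑ m ∈ Finset.range N, w m) with hE
      set g := Complex.Gamma (z + N) / stir (z + N) with hg
      have e1 : Complex.Gamma z / stir z - 1 = (g - 1) * E + (E - 1) := by
        rw [hrec N]
        ring
      rw [e1]
      have h1 := hexp N
      have h2 : ‖E‖ ≤ 1 + S * Real.exp (2 * C0) := by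
        have : E = 1 + (E - 1) := by ring
        rw [this]
        refine (norm_add_le _ _).trans ?_
        rw [norm_one]
        linarith
      refine (norm_add_le _ _).trans ?_
      rw [norm_mul]
      exact add_le_add (mul_le_mul_of_nonneg_left h2 (norm_nonneg _)) h1
    simpa using h0
  refine hbound.trans ?_
  -- compare `y` with `‖z‖`
  have hz : ‖z‖ ^ 2 ≤ 2 * y ^ 2 := by
    rw [Complex.sq_norm, Complex.normSq_apply]
    have h2 : z.im * z.im = y ^ 2 := by rw [hy, sq_abs]; ring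
    have h3 : z.re * z.re ≤ A ^ 2 := by
      have : z.re * z.re = |z.re| ^ 2 := by rw [sq_abs]; ring
      rw [this]
      exact pow_le_pow_left₀ (abs_nonneg _) hre 2
    nlinarith
  have hzpos : 0 < ‖z‖ ^ 2 := by
    have : 0 < ‖z‖ := norm_pos_iff.2 (by
      rintro rfl
      exact hzim rfl)
    positivity
  have hE := Real.exp_pos (2 * C0)
  rw [le_div_iff₀ hzpos, hSdef]
  have h5 : 8 * C0 / y ^ 2 * Real.exp (2 * C0) * ‖z‖ ^ 2 ≤
      8 * C0 / y ^ 2 * Real.exp (2 * C0) * (2 * y ^ 2) :=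
    mul_le_mul_of_nonneg_left hz (by positivity)
  refine h5.trans (le_of_eq ?_)
  have hy0 : y ≠ 0 := by linarith
  field_simp
  ring

end Pool.Agent.H14.Sel
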