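import Mathlib
import Pool.Agent.H14.Sel.St3

set_option autoImplicit false

/-!
# Module GAMB (MP_8e9775_nt): two bounds for Gamma on vertical lines

From `stirling` (ST3 with `A = 2`): for `|t| ≥ T` and `σ` equal to `7/4` or `1/4`:
`(1/2) |stir (σ + it)| ≤ |Γ(σ + it)| ≤ 2 |stir (σ+it)|` (enlarge `T`), and
`|stir (σ + i t)| = exp ((σ - 1/2) log |z| - t arg z - σ + log(2π)/2 + Re (1/(12 z)))`, where
`t arg z = |t| (π/2 - arctan (σ/|t|))` and `0 ≤ |t| arctan (σ/|t|) ≤ σ`. Hence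
`|stir(σ+it)|` lies between two positive constants times `|t|^(σ-1/2) exp(-π|t|/2)`.
For `|t| ≤ T` use continuity (`Γ` has no zeros and no poles in `Re > 0`) and compactness.
`gamma_ratio`: for `|t| ≥ T` the quotient is at most `C |t|^(3/2) ≤ C (1+|t|)^2`
(`|Γ(1/4 - it)| = |Γ(1/4 + it)|`, `Complex.Gamma_conj`).
A convenient way for `arg`: for `z = σ + i t`, `t > 0`, `arg z = π/2 - arctan (σ/t)`; or use
`|arg z| ≥ π/2 - σ/|t|` from `arg (i · conj ...)`, `Complex.arg`, `Real.arcsin` bounds; only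
`π/2 - C/|t| ≤ |arg z| ≤ π/2` is needed for `Re z > 0`.
-/

namespace Pool.Agent.H14.Sel

open Complex MeasureTheory Filter Topology Pool.Agent.H11.Selberg

lemma GamB_arctan_le {y : ℝ} (hy : 0 ≤ y) : Real.arctan y ≤ y := by
  have h1 : 0 ≤ Real.arctan y := by
    rw [← Real.arctan_zero]
    exact Real.arctan_mono hy
  have h2 := Real.le_tan h1 (Real.arctan_lt_pi_div_two y)
  rwa [Real.tan_arctan] at h2

lemma GamB_arg_lower {σ t : ℝ} (hσ : 0 < σ) (ht : 0 < t) :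
    Real.pi / 2 * t - σ ≤ t * Complex.arg (σ + t * I) := by
  have hre : (σ + t * I : ℂ).re = σ := by simp
  have him : (σ + t * I : ℂ).im = t := by simp
  have hab : |Complex.arg (σ + t * I)| < Real.pi / 2 :=
    Complex.abs_arg_lt_pi_div_two_iff.2 (Or.inl (by rw [hre]; exact hσ))
  have h1 : Complex.arg (σ + t * I) = Real.arctan (t / σ) := by
    have h2 := Complex.tan_arg (σ + t * I)
    rw [hre, him] at h2
    rw [← h2, Real.arctan_tan]
    · linarith [(abs_lt.1 hab).1]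
    · exact (abs_lt.1 hab).2
  have h3 : t / σ = (σ / t)⁻¹ := by rw [inv_div]
  have h4 : Real.arctan (t / σ) = Real.pi / 2 - Real.arctan (σ / t) := by
    rw [h3, Real.arctan_inv_of_pos (by positivity)]
  have h5 : Real.arctan (σ / t) ≤ σ / t := GamB_arctan_le (by positivity)
  rw [h1, h4]
  have h6 : t * (σ / t) = σ := by field_simp
  nlinarith

lemma GamB_arg_lower' {σ t : ℝ} (hσ : 0 < σ) (ht : t ≠ 0) :
    Real.pi / 2 * |t| - σ ≤ t * Complex.arg (σ + t * I) := by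
  rcases lt_or_gt_of_ne ht with h | h
  · have h1 := GamB_arg_lower hσ (neg_pos.2 h)
    have h2 : (σ + ((-t : ℝ) : ℂ) * I : ℂ) = (starRingEnd ℂ) (σ + t * I) := by
      rw [map_add, map_mul, Complex.conj_ofReal, Complex.conj_ofReal, Complex.conj_I]
      push_cast
      ring
    rw [h2, Complex.arg_conj] at h1
    have h3 : Complex.arg (σ + t * I) ≠ Real.pi := by
      have hab : |Complex.arg (σ + t * I)| < Real.pi / 2 :=
        Complex.abs_arg_lt_pi_div_two_iff.2 (Or.inl (by simpa using hσ))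
      intro h4
      rw [h4, abs_of_pos Real.pi_pos] at hab
      linarith [Real.pi_pos]
    rw [if_neg h3] at h1
    rw [abs_of_neg h]
    linarith
  · rw [abs_of_pos h]
    exact GamB_arg_lower hσ h

lemma GamB_arg_upper {σ t : ℝ} (hσ : 0 < σ) :
    t * Complex.arg (σ + t * I) ≤ Real.pi / 2 * |t| := by
  have hab : |Complex.arg (σ + t * I)| < Real.pi / 2 :=
    Complex.abs_arg_lt_pi_div_two_iff.2 (Or.inl (by simpa using hσ))
  calc t * Complex.arg (σ + t * I) ≤ |t * Complex.arg (σ + t * I)| := le_abs_self _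
    _ = |t| * |Complex.arg (σ + t * I)| := abs_mul _ _
    _ ≤ |t| * (Real.pi / 2) := by gcongr
    _ = Real.pi / 2 * |t| := by ring

lemma GamB_norm_stir (σ t : ℝ) (_h : (σ + t * I : ℂ) ≠ 0) :
    ‖stir (σ + t * I)‖ = Real.exp ((σ - 1 / 2) * Real.log ‖(σ + t * I : ℂ)‖ -
      t * Complex.arg (σ + t * I) - σ + Real.log (2 * Real.pi) / 2 +
      (1 / (12 * (σ + t * I : ℂ))).re) := by
  unfold stir
  rw [Complex.norm_exp]
  congr 1
  have h1 : ((Real.log (2 * Real.pi) : ℂ) / 2).re = Real.log (2 * Real.pi) / 2 := by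
    have : ((Real.log (2 * Real.pi) : ℂ) / 2) = ((Real.log (2 * Real.pi) / 2 : ℝ) : ℂ) := by
      push_cast; ring
    rw [this, Complex.ofReal_re]
  rw [Complex.add_re, Complex.add_re, Complex.sub_re, Complex.mul_re, h1, Complex.log_re,
    Complex.log_im]
  have h2 : (σ + t * I - 1 / 2 : ℂ).re = σ - 1 / 2 := by
    have : (σ + t * I - 1 / 2 : ℂ) = ((σ - 1 / 2 : ℝ) : ℂ) + t * I := by push_cast; ring
    rw [this]; simp
  have h3 : (σ + t * I - 1 / 2 : ℂ).im = t := by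
    have : (σ + t * I - 1 / 2 : ℂ) = ((σ - 1 / 2 : ℝ) : ℂ) + t * I := by push_cast; ring
    rw [this]; simp
  have h4 : (σ + t * I : ℂ).re = σ := by simp
  rw [h2, h3, h4]

lemma GamB_norm_lower (σ t : ℝ) : |t| ≤ ‖(σ + t * I : ℂ)‖ := by
  have := Complex.abs_im_le_norm (σ + t * I : ℂ)
  simpa using this

lemma GamB_norm_upper {σ t : ℝ} (h0 : 0 ≤ σ) (h2 : σ ≤ 2) (ht : 1 ≤ |t|) :
    ‖(σ + t * I : ℂ)‖ ≤ 3 * |t| := by
  refine (norm_add_le _ _).trans ?_
  rw [Complex.norm_real, norm_mul, Complex.norm_real, Complex.norm_I, Real.norm_eq_abs,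
    Real.norm_eq_abs, abs_of_nonneg h0]
  linarith

lemma GamB_inv_re {σ t : ℝ} (ht : 1 ≤ |t|) : |(1 / (12 * (σ + t * I : ℂ))).re| ≤ 1 / 12 := by
  refine (Complex.abs_re_le_norm _).trans ?_
  rw [norm_div, norm_mul, norm_one]
  have h1 := GamB_norm_lower σ t
  have h2 : ‖(12 : ℂ)‖ = 12 := by simp
  rw [h2]
  have h3 : 0 < ‖(σ + t * I : ℂ)‖ := by linarith
  rw [div_le_div_iff₀ (by positivity) (by norm_num)]
  linarith

lemma GamB_stir_upper {t : ℝ} (ht : 1 ≤ |t|) :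
    ‖stir ((7 / 4 : ℝ) + t * I)‖ ≤ Real.exp (5 / 4 * Real.log (3 * |t|) - Real.pi / 2 * |t| +
      Real.log (2 * Real.pi) / 2 + 1 / 12) := by
  have ht0 : t ≠ 0 := by
    rintro rfl
    simp at ht
    linarith
  have h1 := GamB_norm_lower (7 / 4) t
  have hne : (((7 / 4 : ℝ) : ℂ) + t * I : ℂ) ≠ 0 := by
    intro h
    rw [h, norm_zero] at h1
    linarith
  rw [GamB_norm_stir _ _ hne]
  apply Real.exp_le_exp.2
  have h2 := GamB_norm_upper (σ := 7 / 4) (by norm_num) (by norm_num) ht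
  have h3 : Real.log ‖(((7 / 4 : ℝ) : ℂ) + t * I : ℂ)‖ ≤ Real.log (3 * |t|) :=
    Real.log_le_log (by linarith) h2
  have h4 := GamB_arg_lower' (σ := 7 / 4) (by norm_num) ht0
  have h5 := (abs_le.1 (GamB_inv_re (σ := 7 / 4) ht)).2
  nlinarith

lemma GamB_stir_lower {t : ℝ} (ht : 1 ≤ |t|) :
    Real.exp (-(1 / 4 * Real.log (3 * |t|)) - Real.pi / 2 * |t| - 1 / 4 +
      Real.log (2 * Real.pi) / 2 - 1 / 12) ≤ ‖stir ((1 / 4 : ℝ) + t * I)‖ := by
  have h1 := GamB_norm_lower (1 / 4) t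
  have hne : (((1 / 4 : ℝ) : ℂ) + t * I : ℂ) ≠ 0 := by
    intro h
    rw [h, norm_zero] at h1
    linarith
  rw [GamB_norm_stir _ _ hne]
  apply Real.exp_le_exp.2
  have h2 := GamB_norm_upper (σ := 1 / 4) (by norm_num) (by norm_num) ht
  have h3 : Real.log ‖(((1 / 4 : ℝ) : ℂ) + t * I : ℂ)‖ ≤ Real.log (3 * |t|) :=
    Real.log_le_log (by linarith) h2
  have h4 := GamB_arg_upper (σ := 1 / 4) (t := t) (by norm_num)
  have h5 := (abs_le.1 (GamB_inv_re (σ := 1 / 4) ht)).1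
  nlinarith

lemma GamB_large : ∃ T : ℝ, 1 ≤ T ∧ ∀ z : ℂ, |z.re| ≤ 2 → T ≤ |z.im| →
    ‖Complex.Gamma z‖ ≤ 3 / 2 * ‖stir z‖ ∧ ‖stir z‖ ≤ 2 * ‖Complex.Gamma z‖ := by
  obtain ⟨C, T, hT, h⟩ := stirling 2
  refine ⟨max T (2 * |C| + 1), le_trans (by linarith) (le_max_left _ _), ?_⟩
  intro z hz1 hz2
  have h1 := h z hz1 (le_trans (le_max_left _ _) hz2)
  have h2 : 2 * |C| + 1 ≤ |z.im| := le_trans (le_max_right _ _) hz2
  have h3 : |z.im| ≤ ‖z‖ := Complex.abs_im_le_norm z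
  have h0 : 0 ≤ |C| := abs_nonneg C
  have h4 : C / ‖z‖ ^ 2 ≤ 1 / 2 := by
    have h5 : 1 ≤ ‖z‖ := by linarith
    rw [div_le_div_iff₀ (by positivity) (by norm_num)]
    have h6 : C ≤ |C| := le_abs_self C
    nlinarith
  have h5 : ‖Complex.Gamma z / stir z - 1‖ ≤ 1 / 2 := h1.trans h4
  have hs : 0 < ‖stir z‖ := norm_pos_iff.2 (stir_ne_zero z)
  have h6 : Complex.Gamma z = (1 + (Complex.Gamma z / stir z - 1)) * stir z := by
    field_simp [stir_ne_zero z]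
    ring
  have h7 : ‖Complex.Gamma z‖ = ‖1 + (Complex.Gamma z / stir z - 1)‖ * ‖stir z‖ := by
    rw [← norm_mul, ← h6]
  have h8 : ‖1 + (Complex.Gamma z / stir z - 1)‖ ≤ 3 / 2 := by
    refine (norm_add_le _ _).trans ?_
    rw [norm_one]
    linarith
  have h9 : 1 / 2 ≤ ‖1 + (Complex.Gamma z / stir z - 1)‖ := by
    have := norm_sub_norm_le (1 : ℂ) (-(Complex.Gamma z / stir z - 1))
    rw [norm_one, norm_neg, sub_neg_eq_add] at this
    linarith
  constructor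
  · rw [h7]
    gcongr
  · rw [h7]
    nlinarith

lemma GamB_Gamma_contAt {s : ℂ} (hs : 0 < s.re) : ContinuousAt Complex.Gamma s := by
  refine (Complex.differentiableAt_Gamma s ?_).continuousAt
  intro m h
  rw [h] at hs
  simp at hs
  have : (0 : ℝ) ≤ (m : ℝ) := Nat.cast_nonneg m
  linarith

lemma GamB_cont7 : Continuous (fun t : ℝ => Complex.Gamma (7 / 4 + t * I)) := by
  rw [continuous_iff_continuousAt]
  intro t
  refine ContinuousAt.comp (g := Complex.Gamma) (f := fun t : ℝ => 7 / 4 + (t : ℂ) * I)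
    (GamB_Gamma_contAt ?_) (by fun_prop)
  have : (7 / 4 + (t : ℂ) * I).re = 7 / 4 := by simp
  rw [this]; norm_num

lemma GamB_cont1 : Continuous (fun t : ℝ => Complex.Gamma (1 / 4 - t * I)) := by
  rw [continuous_iff_continuousAt]
  intro t
  refine ContinuousAt.comp (g := Complex.Gamma) (f := fun t : ℝ => 1 / 4 - (t : ℂ) * I)
    (GamB_Gamma_contAt ?_) (by fun_prop)
  have : (1 / 4 - (t : ℂ) * I).re = 1 / 4 := by simp
  rw [this]; norm_num

lemma GamB_cast7 : (((7 / 4 : ℝ) : ℝ) : ℂ) = 7 / 4 := by push_cast; ring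

lemma GamB_cast1 : (((1 / 4 : ℝ) : ℝ) : ℂ) = 1 / 4 := by push_cast; ring

theorem gamma_le : ∃ C : ℝ, ∀ t : ℝ,
    ‖Complex.Gamma (7 / 4 + t * I)‖ ≤ C * (1 + |t|) ^ (5 / 4 : ℝ) * Real.exp (-(Real.pi / 2 * |t|)) := by
  obtain ⟨T, hT, hL⟩ := GamB_large
  have hcont : Continuous (fun t : ℝ => ‖Complex.Gamma (7 / 4 + t * I)‖) := GamB_cont7.norm
  obtain ⟨B, hB⟩ := (isCompact_Icc (a := -T) (b := T)).exists_bound_of_continuousOn
    hcont.continuousOn
  set D : ℝ := 3 / 2 * (3 : ℝ) ^ (5 / 4 : ℝ) * Real.exp (Real.log (2 * Real.pi) / 2 + 1 / 12) with hD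
  have hD0 : 0 ≤ D := by positivity
  set D' : ℝ := |B| * Real.exp (Real.pi / 2 * T) with hD'
  have hD0' : 0 ≤ D' := by positivity
  refine ⟨D + D', ?_⟩
  intro t
  have h1t : (1 : ℝ) ≤ (1 + |t|) ^ (5 / 4 : ℝ) := by
    refine Real.one_le_rpow ?_ (by norm_num)
    linarith [abs_nonneg t]
  rcases le_total T |t| with h | h
  · have ht1 : 1 ≤ |t| := by linarith
    have h1 := (hL ((7 / 4 : ℝ) + t * I) (by
      have : ((((7 / 4 : ℝ) : ℝ) : ℂ) + t * I : ℂ).re = 7 / 4 := by simp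
      rw [this, abs_of_pos (by norm_num)]; norm_num) (by
      have : ((((7 / 4 : ℝ) : ℝ) : ℂ) + t * I : ℂ).im = t := by simp
      rw [this]; exact h)).1
    have h2 := GamB_stir_upper ht1
    rw [GamB_cast7] at h1 h2
    have h3 : Real.exp (5 / 4 * Real.log (3 * |t|) - Real.pi / 2 * |t| +
      Real.log (2 * Real.pi) / 2 + 1 / 12) =
        (3 : ℝ) ^ (5 / 4 : ℝ) * |t| ^ (5 / 4 : ℝ) * Real.exp (-(Real.pi / 2 * |t|)) *
          Real.exp (Real.log (2 * Real.pi) / 2 + 1 / 12) := by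
      rw [← Real.mul_rpow (by norm_num) (abs_nonneg t),
        Real.rpow_def_of_pos (by positivity : (0 : ℝ) < 3 * |t|), ← Real.exp_add, ← Real.exp_add]
      congr 1
      ring
    rw [h3] at h2
    have h4 : |t| ^ (5 / 4 : ℝ) ≤ (1 + |t|) ^ (5 / 4 : ℝ) :=
      Real.rpow_le_rpow (abs_nonneg t) (by linarith) (by norm_num)
    calc ‖Complex.Gamma (7 / 4 + t * I)‖ ≤ 3 / 2 * ‖stir (7 / 4 + t * I)‖ := h1
      _ ≤ 3 / 2 * ((3 : ℝ) ^ (5 / 4 : ℝ) * |t| ^ (5 / 4 : ℝ) * Real.exp (-(Real.pi / 2 * |t|)) *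
          Real.exp (Real.log (2 * Real.pi) / 2 + 1 / 12)) := by gcongr
      _ = D * |t| ^ (5 / 4 : ℝ) * Real.exp (-(Real.pi / 2 * |t|)) := by rw [hD]; ring
      _ ≤ (D + D') * (1 + |t|) ^ (5 / 4 : ℝ) * Real.exp (-(Real.pi / 2 * |t|)) := by
        gcongr
        linarith
  · have h1 := hB t ⟨by linarith [(abs_le.1 h).1], (abs_le.1 h).2⟩
    rw [Real.norm_eq_abs, abs_of_nonneg (norm_nonneg _)] at h1
    have h2 : 1 ≤ Real.exp (Real.pi / 2 * T) * Real.exp (-(Real.pi / 2 * |t|)) := by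
      rw [← Real.exp_add]
      apply Real.one_le_exp
      have := Real.pi_pos
      nlinarith
    calc ‖Complex.Gamma (7 / 4 + t * I)‖ ≤ B := h1
      _ ≤ |B| := le_abs_self B
      _ = |B| * 1 * 1 := by ring
      _ ≤ |B| * (1 + |t|) ^ (5 / 4 : ℝ) *
          (Real.exp (Real.pi / 2 * T) * Real.exp (-(Real.pi / 2 * |t|))) := by gcongr
      _ = D' * (1 + |t|) ^ (5 / 4 : ℝ) * Real.exp (-(Real.pi / 2 * |t|)) := by rw [hD']; ring
      _ ≤ (D + D') * (1 + |t|) ^ (5 / 4 : ℝ) * Real.exp (-(Real.pi / 2 * |t|)) := by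
        gcongr
        linarith

theorem gamma_ratio : ∃ C : ℝ, ∀ t : ℝ,
    ‖Complex.Gamma (7 / 4 + t * I)‖ ≤ C * (1 + |t|) ^ 2 * ‖Complex.Gamma (1 / 4 - t * I)‖ := by
  obtain ⟨T, hT, hL⟩ := GamB_large
  have hne : ∀ t : ℝ, Complex.Gamma (1 / 4 - t * I) ≠ 0 := by
    intro t
    apply Complex.Gamma_ne_zero_of_re_pos
    have : (1 / 4 - (t : ℂ) * I).re = 1 / 4 := by simp
    rw [this]; norm_num
  have hcont : Continuous (fun t : ℝ => ‖Complex.Gamma (7 / 4 + t * I)‖ /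
      ‖Complex.Gamma (1 / 4 - t * I)‖) :=
    GamB_cont7.norm.div GamB_cont1.norm (fun t => norm_ne_zero_iff.2 (hne t))
  obtain ⟨B, hB⟩ := (isCompact_Icc (a := -T) (b := T)).exists_bound_of_continuousOn
    hcont.continuousOn
  refine ⟨27 * Real.exp 1 + |B|, ?_⟩
  intro t
  have hB0 : 0 ≤ |B| := abs_nonneg B
  have hg : 0 < ‖Complex.Gamma (1 / 4 - t * I)‖ := norm_pos_iff.2 (hne t)
  have he : 0 < Real.exp 1 := Real.exp_pos 1
  have ht0 := abs_nonneg t
  rcases le_total T |t| with h | h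
  · have ht1 : 1 ≤ |t| := by linarith
    have h1 := (hL ((7 / 4 : ℝ) + t * I) (by
      have : ((((7 / 4 : ℝ) : ℝ) : ℂ) + t * I : ℂ).re = 7 / 4 := by simp
      rw [this, abs_of_pos (by norm_num)]; norm_num) (by
      have : ((((7 / 4 : ℝ) : ℝ) : ℂ) + t * I : ℂ).im = t := by simp
      rw [this]; exact h)).1
    have h2 := GamB_stir_upper ht1
    rw [GamB_cast7] at h1 h2
    have ht1' : 1 ≤ |(-t)| := by rwa [abs_neg]
    have h3 := (hL ((1 / 4 : ℝ) + ((-t : ℝ) : ℂ) * I) (by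
      have : ((((1 / 4 : ℝ) : ℝ) : ℂ) + ((-t : ℝ) : ℂ) * I : ℂ).re = 1 / 4 := by simp
      rw [this, abs_of_pos (by norm_num)]; norm_num) (by
      have : ((((1 / 4 : ℝ) : ℝ) : ℂ) + ((-t : ℝ) : ℂ) * I : ℂ).im = -t := by simp
      rw [this, abs_neg]; exact h)).2
    have h4 := GamB_stir_lower ht1'
    have h5 : (1 / 4 : ℂ) + ((-t : ℝ) : ℂ) * I = 1 / 4 - t * I := by push_cast; ring
    rw [GamB_cast1, h5] at h3 h4
    rw [abs_neg] at h4
    have h6 : Real.exp (5 / 4 * Real.log (3 * |t|) - Real.pi / 2 * |t| +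
      Real.log (2 * Real.pi) / 2 + 1 / 12) =
        Real.exp (3 / 2 * Real.log (3 * |t|) + (1 / 4 + 1 / 6)) *
        Real.exp (-(1 / 4 * Real.log (3 * |t|)) - Real.pi / 2 * |t| - 1 / 4 +
          Real.log (2 * Real.pi) / 2 - 1 / 12) := by
      rw [← Real.exp_add]
      congr 1
      ring
    have h7 : Real.exp (3 / 2 * Real.log (3 * |t|) + (1 / 4 + 1 / 6)) ≤
        9 * (1 + |t|) ^ 2 * Real.exp 1 := by
      have h8 : 0 ≤ Real.log (3 * |t|) := Real.log_nonneg (by linarith)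
      have h9 : 3 / 2 * Real.log (3 * |t|) + (1 / 4 + 1 / 6) ≤ 2 * Real.log (3 * |t|) + 1 := by
        linarith
      refine (Real.exp_le_exp.2 h9).trans ?_
      rw [Real.exp_add]
      have h10 : Real.exp (2 * Real.log (3 * |t|)) = (3 * |t|) ^ 2 := by
        rw [two_mul, Real.exp_add, Real.exp_log (by positivity)]
        ring
      rw [h10]
      have h11 : (3 * |t|) ^ 2 ≤ 9 * (1 + |t|) ^ 2 := by nlinarith
      exact mul_le_mul_of_nonneg_right h11 he.le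
    calc ‖Complex.Gamma (7 / 4 + t * I)‖ ≤ 3 / 2 * ‖stir (7 / 4 + t * I)‖ := h1
      _ ≤ 3 / 2 * (Real.exp (3 / 2 * Real.log (3 * |t|) + (1 / 4 + 1 / 6)) *
        Real.exp (-(1 / 4 * Real.log (3 * |t|)) - Real.pi / 2 * |t| - 1 / 4 +
          Real.log (2 * Real.pi) / 2 - 1 / 12)) := by
        rw [← h6]; gcongr
      _ ≤ 3 / 2 * ((9 * (1 + |t|) ^ 2 * Real.exp 1) * (2 * ‖Complex.Gamma (1 / 4 - t * I)‖)) := by
        gcongr
        exact h4.trans h3
      _ = (27 * Real.exp 1) * (1 + |t|) ^ 2 * ‖Complex.Gamma (1 / 4 - t * I)‖ := by ring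
      _ ≤ (27 * Real.exp 1 + |B|) * (1 + |t|) ^ 2 * ‖Complex.Gamma (1 / 4 - t * I)‖ := by
        gcongr
        linarith
  · have h1 := hB t ⟨by linarith [(abs_le.1 h).1], (abs_le.1 h).2⟩
    rw [Real.norm_eq_abs, abs_of_nonneg (by positivity), div_le_iff₀ hg] at h1
    have h2 : B ≤ (27 * Real.exp 1 + |B|) * (1 + |t|) ^ 2 := by
      have h3 : B ≤ |B| := le_abs_self B
      have h4 : 1 ≤ (1 + |t|) ^ 2 := by nlinarith
      nlinarith
    exact h1.trans (mul_le_mul_of_nonneg_right h2 hg.le)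

end Pool.Agent.H14.Sel
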