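import Mathlib
import Pool.Agent.H14.Sel.Defs
import Pool.Agent.H14.Sel.GamB

set_option autoImplicit false

/-!
# Module ERRINT (MP_8e9775_nt): the error integral

Let `Re W > 0`, `Im W ≤ 0`, `θ = arg W ∈ (-π/2, 0]`. Then
`‖W^(-(7/4 + it))‖ = ‖W‖^(-7/4) exp (t θ)` (`Complex.norm_cpow_eq_rpow_re_of_pos` is not enough;
use `Complex.norm_cpow_of_ne_zero`). By GAMB
`‖Γ(7/4+it)‖ ≤ C (1+|t|)^(5/4) exp (-π|t|/2)`.
* `t ≥ 0`: `exp (tθ) ≤ 1`, `∫_0^∞ K C (1+t)^(5/4) e^(-πt/2) dt < ∞`.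
* `t ≤ 0`, `t = -u`: the integrand is at most `K C (1+u)^(-3/4) exp (-u (π/2 + θ)) ‖W‖^(-7/4)`, with
  `(1+u)^(-3/4) ≤ u^(-3/4)` and `∫_0^∞ u^(-3/4) e^(-α u) du = Γ(1/4) α^(-1/4)`
  (`Real.integral_rpow_mul_exp_neg_mul_Ioi`), `α = π/2 + θ ≥ sin α = cos θ = Re W/‖W‖`, so
  `α^(-1/4) ≤ (Re W/‖W‖)^(-1/4)`.
Both are bounded by `C' ‖W‖^(-7/4) (Re W/‖W‖)^(-1/4) = C' ‖W‖^(-3/2) (Re W)^(-1/4)`
(`Re W ≤ ‖W‖`).
-/

namespace Pool.Agent.H14.Sel

open Complex MeasureTheory Filter Topology Pool.Agent.H11.Selberg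

private theorem int_one : Integrable (fun t : ℝ =>
    (Set.Ici (0 : ℝ)).indicator (fun t => 4 * Real.exp (-(1 / 2) * t)) t) ∧
    ∫ t : ℝ, (Set.Ici (0 : ℝ)).indicator (fun t => 4 * Real.exp (-(1 / 2) * t)) t = 8 := by
  have h1 : IntegrableOn (fun t : ℝ => 4 * Real.exp (-(1 / 2) * t)) (Set.Ioi 0) :=
    (exp_neg_integrableOn_Ioi 0 (by norm_num : (0 : ℝ) < 1 / 2)).const_mul 4
  constructor
  · rw [integrable_indicator_iff measurableSet_Ici]
    exact (integrableOn_Ici_iff_integrableOn_Ioi (by simp)).mpr h1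
  · rw [integral_indicator measurableSet_Ici, integral_Ici_eq_integral_Ioi,
      integral_const_mul, integral_exp_mul_Ioi (by norm_num : -(1 / 2 : ℝ) < 0)]
    norm_num

private theorem int_two {α : ℝ} (hα : 0 < α) : Integrable (fun t : ℝ =>
    (Set.Ioi (0 : ℝ)).indicator (fun u => u ^ (-3 / 4 : ℝ) * Real.exp (-(α * u))) (-t)) ∧
    ∫ t : ℝ, (Set.Ioi (0 : ℝ)).indicator (fun u => u ^ (-3 / 4 : ℝ) * Real.exp (-(α * u))) (-t) =
      (1 / α) ^ (1 / 4 : ℝ) * Real.Gamma (1 / 4) := by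
  have h1 : IntegrableOn (fun u : ℝ => u ^ (-3 / 4 : ℝ) * Real.exp (-(α * u))) (Set.Ioi 0) := by
    have h := integrableOn_rpow_mul_exp_neg_mul_rpow (s := -3 / 4) (p := 1) (b := α)
      (by norm_num) (by norm_num) hα
    refine h.congr_fun ?_ measurableSet_Ioi
    intro x hx
    simp only [Real.rpow_one, neg_mul]
  have h2 : Integrable ((Set.Ioi (0 : ℝ)).indicator
      (fun u : ℝ => u ^ (-3 / 4 : ℝ) * Real.exp (-(α * u)))) :=
    (integrable_indicator_iff measurableSet_Ioi).mpr h1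
  constructor
  · exact h2.comp_neg
  · rw [integral_neg_eq_self (fun t : ℝ => (Set.Ioi (0 : ℝ)).indicator
      (fun u => u ^ (-3 / 4 : ℝ) * Real.exp (-(α * u))) t) volume,
      integral_indicator measurableSet_Ioi]
    have h3 := Real.integral_rpow_mul_exp_neg_mul_Ioi (a := 1 / 4) (r := α) (by norm_num) hα
    rw [← h3]
    refine setIntegral_congr_fun measurableSet_Ioi ?_
    intro x hx
    norm_num

theorem err_int (K : ℝ) : ∃ C : ℝ, ∀ (W : ℂ) (e : ℝ → ℂ), 0 < W.re → W.im ≤ 0 →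
    Continuous e → (∀ t : ℝ, t ≤ 0 → ‖e t‖ ≤ K / (1 + |t|) ^ 2) → (∀ t : ℝ, ‖e t‖ ≤ K) →
    ‖∫ t : ℝ, e t * (Complex.Gamma (7 / 4 + t * I) * W ^ (-(7 / 4 + t * I : ℂ)))‖ ≤
      C * ‖W‖ ^ (-3 / 2 : ℝ) * W.re ^ (-1 / 4 : ℝ) := by
  obtain ⟨C0, hC0⟩ := gamma_le
  refine ⟨|K| * |C0| * (8 + Real.Gamma (1 / 4)), ?_⟩
  intro W e hW1 hW2 he he1 he2
  have hW : W ≠ 0 := by
    intro h
    rw [h] at hW1
    simp at hW1
  have hn : 0 < ‖W‖ := norm_pos_iff.mpr hW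
  set θ : ℝ := Complex.arg W with hθ
  have hθ1 : -(Real.pi / 2) < θ := Complex.neg_pi_div_two_lt_arg_iff.mpr (Or.inl hW1)
  have hθ2 : θ ≤ 0 := by
    rcases lt_or_eq_of_le hW2 with h | h
    · exact (Complex.arg_neg_iff.mpr h).le
    · exact (Complex.arg_eq_zero_iff.mpr ⟨hW1.le, h⟩).le
  set α : ℝ := Real.pi / 2 + θ with hα
  have hα0 : 0 < α := by rw [hα]; linarith
  set x : ℝ := W.re / ‖W‖ with hx
  have hx0 : 0 < x := div_pos hW1 hn
  have hx1 : x ≤ 1 := by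
    rw [hx, div_le_one hn]
    exact (le_abs_self _).trans (Complex.abs_re_le_norm W)
  have hαx : x ≤ α := by
    have h1 : Real.cos θ = x := Complex.cos_arg hW
    have h2 : Real.sin α = x := by
      rw [← h1, hα, add_comm, Real.sin_add_pi_div_two]
    rw [← h2]
    exact Real.sin_le hα0.le
  have hG : 0 < Real.Gamma (1 / 4) := Real.Gamma_pos_of_pos (by norm_num)
  set A : ℝ := |K| * |C0| * ‖W‖ ^ (-7 / 4 : ℝ) with hA
  have hA0 : 0 ≤ A := by positivity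
  obtain ⟨i1, i1'⟩ := int_one
  obtain ⟨i2, i2'⟩ := int_two hα0
  set g1 : ℝ → ℝ := fun t => (Set.Ici (0 : ℝ)).indicator (fun t => 4 * Real.exp (-(1 / 2) * t)) t
    with hg1
  set g2 : ℝ → ℝ := fun t => (Set.Ioi (0 : ℝ)).indicator
    (fun u => u ^ (-3 / 4 : ℝ) * Real.exp (-(α * u))) (-t) with hg2
  have hnW : ∀ t : ℝ, ‖W ^ (-(7 / 4 + t * I : ℂ))‖ = ‖W‖ ^ (-7 / 4 : ℝ) * Real.exp (θ * t) := by
    intro t
    rw [Complex.norm_cpow_of_ne_zero hW, div_eq_mul_inv, ← Real.exp_neg]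
    congr 2
    · simp
      norm_num
    · simp [hθ]
  have hb : ∀ t : ℝ, ‖e t * (Complex.Gamma (7 / 4 + t * I) * W ^ (-(7 / 4 + t * I : ℂ)))‖ ≤
      A * (g1 t + g2 t) := by
    intro t
    have hΓ : ‖Complex.Gamma (7 / 4 + t * I)‖ ≤
        |C0| * ((1 + |t|) ^ (5 / 4 : ℝ) * Real.exp (-(Real.pi / 2 * |t|))) := by
      refine (hC0 t).trans ?_
      rw [← mul_assoc]
      gcongr
      exact le_abs_self C0
    rw [norm_mul, norm_mul, hnW t]
    rcases le_or_gt 0 t with ht | ht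
    · have habs : |t| = t := abs_of_nonneg ht
      rw [habs] at hΓ
      have h2 : g2 t = 0 := by
        rw [hg2]
        apply Set.indicator_of_notMem
        simp only [Set.mem_Ioi, not_lt]
        linarith
      have h1 : g1 t = 4 * Real.exp (-(1 / 2) * t) := by
        rw [hg1]
        exact Set.indicator_of_mem ht _
      have hp : (1 + t) ^ (5 / 4 : ℝ) ≤ 4 * Real.exp t := by
        have h3 : (1 + t) ^ (5 / 4 : ℝ) ≤ (1 + t) ^ (2 : ℝ) :=
          Real.rpow_le_rpow_of_exponent_le (by linarith) (by norm_num)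
        have h4 : 1 + t + t ^ 2 / 2 ≤ Real.exp t := Real.quadratic_le_exp_of_nonneg ht
        rw [Real.rpow_two] at h3
        nlinarith
      have hexp : Real.exp t * Real.exp (-(Real.pi / 2 * t)) ≤ Real.exp (-(1 / 2) * t) := by
        rw [← Real.exp_add]
        apply Real.exp_le_exp.mpr
        have := Real.pi_gt_three
        nlinarith
      have hθt : Real.exp (θ * t) ≤ 1 := by
        apply Real.exp_le_one_iff.mpr
        exact mul_nonpos_of_nonpos_of_nonneg hθ2 ht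
      have het : ‖e t‖ ≤ |K| := (he2 t).trans (le_abs_self K)
      rw [h1, h2, add_zero]
      calc ‖e t‖ * (‖Complex.Gamma (7 / 4 + t * I)‖ * (‖W‖ ^ (-7 / 4 : ℝ) * Real.exp (θ * t)))
          ≤ |K| * ((|C0| * ((1 + t) ^ (5 / 4 : ℝ) * Real.exp (-(Real.pi / 2 * t)))) *
            (‖W‖ ^ (-7 / 4 : ℝ) * 1)) := by gcongr
        _ ≤ |K| * ((|C0| * ((4 * Real.exp t) * Real.exp (-(Real.pi / 2 * t)))) *
            (‖W‖ ^ (-7 / 4 : ℝ) * 1)) := by gcongr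
        _ = A * (4 * (Real.exp t * Real.exp (-(Real.pi / 2 * t)))) := by rw [hA]; ring
        _ ≤ A * (4 * Real.exp (-(1 / 2) * t)) := by gcongr
    · set u : ℝ := -t with hu
      have hu0 : 0 < u := by rw [hu]; linarith
      have habs : |t| = u := by rw [hu]; exact abs_of_neg ht
      rw [habs] at hΓ
      have h1 : g1 t = 0 := by
        rw [hg1]
        apply Set.indicator_of_notMem
        simp only [Set.mem_Ici, not_le]
        exact ht
      have h2 : g2 t = u ^ (-3 / 4 : ℝ) * Real.exp (-(α * u)) := by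
        rw [hg2]
        exact Set.indicator_of_mem (show (-t) ∈ Set.Ioi (0 : ℝ) from hu0) _
      have het : ‖e t‖ ≤ |K| * (1 + u) ^ (-2 : ℝ) := by
        have h3 := he1 t ht.le
        rw [habs] at h3
        have h4 : (1 + u) ^ (-2 : ℝ) = ((1 + u) ^ 2)⁻¹ := by
          rw [Real.rpow_neg (by linarith), Real.rpow_two]
        rw [h4, ← div_eq_mul_inv]
        refine h3.trans ?_
        gcongr
        exact le_abs_self K
      have hp : (1 + u) ^ (-2 : ℝ) * (1 + u) ^ (5 / 4 : ℝ) ≤ u ^ (-3 / 4 : ℝ) := by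
        rw [← Real.rpow_add (by linarith)]
        norm_num
        exact Real.rpow_le_rpow_of_nonpos hu0 (by linarith) (by norm_num)
      have hexp : Real.exp (-(Real.pi / 2 * u)) * Real.exp (θ * t) = Real.exp (-(α * u)) := by
        rw [← Real.exp_add]
        congr 1
        rw [hα, hu]
        ring
      rw [h1, h2, zero_add]
      calc ‖e t‖ * (‖Complex.Gamma (7 / 4 + t * I)‖ * (‖W‖ ^ (-7 / 4 : ℝ) * Real.exp (θ * t)))
          ≤ (|K| * (1 + u) ^ (-2 : ℝ)) *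
            ((|C0| * ((1 + u) ^ (5 / 4 : ℝ) * Real.exp (-(Real.pi / 2 * u)))) *
            (‖W‖ ^ (-7 / 4 : ℝ) * Real.exp (θ * t))) := by gcongr
        _ = A * (((1 + u) ^ (-2 : ℝ) * (1 + u) ^ (5 / 4 : ℝ)) *
            (Real.exp (-(Real.pi / 2 * u)) * Real.exp (θ * t))) := by rw [hA]; ring
        _ ≤ A * (u ^ (-3 / 4 : ℝ) * Real.exp (-(α * u))) := by
            rw [hexp]
            gcongr
  have hint : Integrable (fun t => A * (g1 t + g2 t)) := (i1.add i2).const_mul A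
  have h1 := norm_integral_le_of_norm_le hint (Filter.Eventually.of_forall hb)
  have h2 : ∫ t, A * (g1 t + g2 t) = A * (8 + (1 / α) ^ (1 / 4 : ℝ) * Real.Gamma (1 / 4)) := by
    rw [integral_const_mul, integral_add i1 i2, i1', i2']
  have h3 : (1 / α) ^ (1 / 4 : ℝ) ≤ x ^ (-1 / 4 : ℝ) := by
    have e1 : x ^ (-1 / 4 : ℝ) = (1 / x) ^ (1 / 4 : ℝ) := by
      rw [one_div x, Real.inv_rpow hx0.le, ← Real.rpow_neg hx0.le]
      norm_num
    rw [e1]
    apply Real.rpow_le_rpow (by positivity) _ (by norm_num)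
    exact one_div_le_one_div_of_le hx0 hαx
  have h4 : 1 ≤ x ^ (-1 / 4 : ℝ) :=
    Real.one_le_rpow_of_pos_of_le_one_of_nonpos hx0 hx1 (by norm_num)
  have h5 : ‖W‖ ^ (-7 / 4 : ℝ) * x ^ (-1 / 4 : ℝ) =
      ‖W‖ ^ (-3 / 2 : ℝ) * W.re ^ (-1 / 4 : ℝ) := by
    rw [hx, Real.div_rpow hW1.le hn.le, mul_div_assoc', div_eq_mul_inv, ← Real.rpow_neg hn.le]
    have : ‖W‖ ^ (-3 / 2 : ℝ) = ‖W‖ ^ (-7 / 4 : ℝ) * ‖W‖ ^ (-(-1 / 4) : ℝ) := by
      rw [← Real.rpow_add hn]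
      norm_num
    rw [this]
    ring
  calc _ ≤ ∫ t, A * (g1 t + g2 t) := h1
    _ = A * (8 + (1 / α) ^ (1 / 4 : ℝ) * Real.Gamma (1 / 4)) := h2
    _ ≤ A * (8 * x ^ (-1 / 4 : ℝ) + x ^ (-1 / 4 : ℝ) * Real.Gamma (1 / 4)) := by
        gcongr
        linarith
    _ = |K| * |C0| * (8 + Real.Gamma (1 / 4)) * (‖W‖ ^ (-7 / 4 : ℝ) * x ^ (-1 / 4 : ℝ)) := by
        rw [hA]; ring
    _ = |K| * |C0| * (8 + Real.Gamma (1 / 4)) * ‖W‖ ^ (-3 / 2 : ℝ) * W.re ^ (-1 / 4 : ℝ) := by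
        rw [h5]; ring

end Pool.Agent.H14.Sel
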