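import Mathlib
import Pool.Agent.H14.Sel.Defs

set_option autoImplicit false

/-!
# Module DEC (MP_8e9775_nt): rapid decay of `Γ(s) X^(-s)` on vertical strips

For `Re X > 0`, `Re s > 0`: `Γ(s) X^(-s) = ∫_0^∞ t^(s-1) e^(-X t) dt`
(`Complex.integral_cpow_mul_exp_neg_mul_Ioi`, note `(1/X)^s = X^(-s)` as `arg X ≠ π`), hence
`‖Γ(s) X^(-s)‖ ≤ Γ(Re s) (Re X)^(-Re s)` (`Real.integral_rpow_mul_exp_neg_mul_Ioi`).
Apply this to `s + k` and use `Γ(s + k) = s (s+1) ... (s+k-1) Γ(s)`:
`‖Γ(s) X^(-s)‖ ∏_{i<k} ‖s + i‖ = ‖X‖^k ‖Γ(s+k) X^(-(s+k))‖ ≤ ‖X‖^k Γ(Re s + k) (Re X)^(-(Re s + k))`,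
bounded for `α ≤ Re s ≤ β` by continuity. And `‖s + i‖ ≥ c (1 + |Im s|)` with
`c = min α 1/2` or so (`‖s+i‖ ≥ max (α, |Im s|)`). `k` factors give the claim.
-/

namespace Pool.Agent.H14.Sel

open Complex MeasureTheory Filter Topology Pool.Agent.H11.Selberg

/-- the real kernel is integrable -/
theorem dec_integrable_real (σ b : ℝ) (hσ : 0 < σ) (hb : 0 < b) :
    IntegrableOn (fun t : ℝ => t ^ (σ - 1) * Real.exp (-(b * t))) (Set.Ioi 0) := by
  have h := integrableOn_rpow_mul_exp_neg_mul_rpow (p := 1) (s := σ - 1) (b := b) (by linarith)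
    one_pos hb
  refine h.congr_fun ?_ measurableSet_Ioi
  intro t _
  simp [Real.rpow_one]

theorem dec_norm_kernel (s X : ℂ) (t : ℝ) (ht : 0 < t) :
    ‖(t : ℂ) ^ (s - 1) * Complex.exp (-(X * t))‖ = t ^ (s.re - 1) * Real.exp (-(X.re * t)) := by
  rw [norm_mul, Complex.norm_cpow_eq_rpow_re_of_pos ht, Complex.norm_exp]
  simp

theorem dec_cont_kernel (s X : ℂ) :
    ContinuousOn (fun t : ℝ => (t : ℂ) ^ (s - 1) * Complex.exp (-(X * t))) (Set.Ioi 0) := by
  refine ContinuousOn.mul ?_ (by fun_prop)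
  intro t ht
  have : ContinuousAt (fun z : ℂ => z ^ (s - 1)) (t : ℂ) :=
    continuousAt_cpow_const (Or.inl (by simpa using ht))
  exact (this.comp (f := fun t : ℝ => (t : ℂ)) Complex.continuous_ofReal.continuousAt).continuousWithinAt

theorem dec_integrable (s X : ℂ) (hs : 0 < s.re) (hX : 0 < X.re) :
    IntegrableOn (fun t : ℝ => (t : ℂ) ^ (s - 1) * Complex.exp (-(X * t))) (Set.Ioi 0) := by
  refine Integrable.mono' (dec_integrable_real s.re X.re hs hX)
    ((dec_cont_kernel s X).aestronglyMeasurable measurableSet_Ioi) ?_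
  filter_upwards [self_mem_ae_restrict measurableSet_Ioi] with t ht
  exact (dec_norm_kernel s X t ht).le

/-- Euler integral with a complex parameter. -/
theorem dec_integral (s X : ℂ) (hs : 0 < s.re) (hX : 0 < X.re) :
    (∫ t : ℝ in Set.Ioi 0, (t : ℂ) ^ (s - 1) * Complex.exp (-(X * t))) =
      Complex.Gamma s * X ^ (-s) := by
  set U : Set ℂ := {z : ℂ | 0 < z.re} with hU
  have hUo : IsOpen U := isOpen_lt continuous_const Complex.continuous_re
  have hUc : IsPreconnected U := (convex_halfSpace_re_gt 0).isPreconnected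
  set F : ℂ → ℂ := fun X => ∫ t : ℝ in Set.Ioi 0, (t : ℂ) ^ (s - 1) * Complex.exp (-(X * t)) with hF
  have hFd : DifferentiableOn ℂ F U := by
    intro X₀ hX₀
    have hX₀' : 0 < X₀.re := hX₀
    have hnh : {z : ℂ | X₀.re / 2 < z.re} ∈ 𝓝 X₀ :=
      (isOpen_lt continuous_const Complex.continuous_re).mem_nhds (by simp; linarith)
    have h := hasDerivAt_integral_of_dominated_loc_of_deriv_le
      (μ := volume.restrict (Set.Ioi (0:ℝ))) (x₀ := X₀) (s := {z : ℂ | X₀.re / 2 < z.re})
      (F := fun (X : ℂ) (t : ℝ) => (t : ℂ) ^ (s - 1) * Complex.exp (-(X * t)))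
      (F' := fun (X : ℂ) (t : ℝ) => (t : ℂ) ^ (s - 1) * (Complex.exp (-(X * t)) * (-(t:ℂ))))
      (bound := fun t : ℝ => t ^ ((s.re + 1) - 1) * Real.exp (-(X₀.re / 2 * t)))
      hnh ?_ (dec_integrable s X₀ hs hX₀) ?_ ?_
      (dec_integrable_real (s.re + 1) (X₀.re / 2) (by linarith) (by linarith)) ?_
    · exact h.2.differentiableAt.differentiableWithinAt
    · exact Filter.Eventually.of_forall fun X =>
        (dec_cont_kernel s X).aestronglyMeasurable measurableSet_Ioi
    · refine ContinuousOn.aestronglyMeasurable ?_ measurableSet_Ioi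
      have h1 := (dec_cont_kernel s X₀).mul
        (show ContinuousOn (fun t : ℝ => -(t:ℂ)) (Set.Ioi 0) by fun_prop)
      refine h1.congr ?_
      intro t _
      simp only [Pi.mul_apply]
      ring
    · filter_upwards [self_mem_ae_restrict measurableSet_Ioi] with t ht X hX
      have ht' : (0:ℝ) < t := ht
      have e1 : (t : ℂ) ^ (s - 1) * (Complex.exp (-(X * t)) * (-(t:ℂ))) =
          ((t : ℂ) ^ (s - 1) * Complex.exp (-(X * t))) * (-(t:ℂ)) := by ring
      rw [e1, norm_mul, dec_norm_kernel s X t ht', norm_neg, Complex.norm_real, Real.norm_eq_abs,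
        abs_of_pos ht']
      have e2 : t ^ ((s.re + 1) - 1) = t ^ (s.re - 1) * t := by
        rw [show (s.re + 1) - 1 = (s.re - 1) + 1 by ring, Real.rpow_add_one ht'.ne']
      rw [e2]
      have hX' : X₀.re / 2 < X.re := hX
      have e3 : Real.exp (-(X.re * t)) ≤ Real.exp (-(X₀.re / 2 * t)) := by
        apply Real.exp_le_exp.mpr
        nlinarith
      have e4 : 0 ≤ t ^ (s.re - 1) * t := mul_nonneg (Real.rpow_nonneg ht'.le _) ht'.le
      nlinarith [mul_le_mul_of_nonneg_left e3 e4]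
    · filter_upwards [self_mem_ae_restrict measurableSet_Ioi] with t ht X _
      have h1 : HasDerivAt (fun X : ℂ => -(X * t)) (-(t:ℂ)) X := by
        have h2 := ((hasDerivAt_id X).mul_const (t:ℂ)).fun_neg
        simpa using h2
      exact (h1.cexp).const_mul _
  have hGd : DifferentiableOn ℂ (fun X : ℂ => Complex.Gamma s * X ^ (-s)) U := by
    intro X₀ hX₀
    refine DifferentiableAt.differentiableWithinAt ?_
    exact (DifferentiableAt.cpow_const differentiableAt_id (Or.inl hX₀)).const_mul _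
  have hFa : AnalyticOnNhd ℂ F U := hFd.analyticOnNhd hUo
  have hGa : AnalyticOnNhd ℂ (fun X : ℂ => Complex.Gamma s * X ^ (-s)) U := hGd.analyticOnNhd hUo
  have h1U : (1:ℂ) ∈ U := by simp [hU]
  have hreal : ∀ r : ℝ, 0 < r → F r = Complex.Gamma s * (r:ℂ) ^ (-s) := by
    intro r hr
    have h := Complex.integral_cpow_mul_exp_neg_mul_Ioi hs hr
    simp only [hF]
    rw [h, one_div, Complex.inv_cpow _ _ (by rw [Complex.arg_ofReal_of_nonneg hr.le]; exact Real.pi_pos.ne),
      Complex.cpow_neg]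
    ring
  have hfreq : ∃ᶠ z in 𝓝[≠] (1:ℂ), F z = (fun X : ℂ => Complex.Gamma s * X ^ (-s)) z := by
    have ht : Tendsto (fun n : ℕ => ((1 + 1 / ((n:ℝ) + 1) : ℝ) : ℂ)) atTop (𝓝[≠] (1:ℂ)) := by
      refine tendsto_nhdsWithin_iff.mpr ⟨?_, ?_⟩
      · have h0 : Tendsto (fun n : ℕ => (1 + 1 / ((n:ℝ) + 1) : ℝ)) atTop (𝓝 (1 + 0)) :=
          tendsto_const_nhds.add tendsto_one_div_add_atTop_nhds_zero_nat
        have h1 := (Complex.continuous_ofReal.tendsto (1 + 0)).comp h0
        have h2 : (((1 + 0 : ℝ)) : ℂ) = 1 := by simp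
        rw [h2] at h1
        exact h1
      · refine Filter.Eventually.of_forall fun n => ?_
        intro h
        have h' : ((1 + 1 / ((n:ℝ) + 1) : ℝ) : ℂ) = 1 := h
        have h2 : (1 + 1 / ((n:ℝ) + 1) : ℝ) = 1 := by exact_mod_cast h'
        have h3 : (0:ℝ) < 1 / ((n:ℝ) + 1) := by positivity
        linarith
    refine ht.frequently (Filter.Frequently.of_forall fun n => ?_)
    exact hreal _ (by positivity)
  exact hFa.eqOn_of_preconnected_of_frequently_eq hGa hUc h1U hfreq hX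

theorem dec_bound (s X : ℂ) (hs : 0 < s.re) (hX : 0 < X.re) :
    ‖Complex.Gamma s * X ^ (-s)‖ ≤ (1 / X.re) ^ s.re * Real.Gamma s.re := by
  rw [← dec_integral s X hs hX, ← Real.integral_rpow_mul_exp_neg_mul_Ioi hs hX]
  refine (norm_integral_le_integral_norm _).trans (le_of_eq ?_)
  exact setIntegral_congr_fun measurableSet_Ioi fun t ht => dec_norm_kernel s X t ht

theorem gamma_decay (α β : ℝ) (hα : 0 < α) (k : ℕ) (X : ℂ) (hX : 0 < X.re) :
    ∃ C : ℝ, ∀ s : ℂ, α ≤ s.re → s.re ≤ β →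
      ‖Complex.Gamma s * X ^ (-s)‖ * (1 + |s.im|) ^ k ≤ C := by
  set c : ℝ := min α 1 / 2 with hc
  have hc0 : 0 < c := by simp only [hc]; positivity
  have hX0 : X ≠ 0 := fun h => by simp [h] at hX
  -- compactness bound
  have hcont : ContinuousOn (fun σ : ℝ => ‖X‖ ^ k * ((1 / X.re) ^ (σ + k) * Real.Gamma (σ + k)))
      (Set.Icc α β) := by
    refine continuousOn_const.mul (ContinuousOn.mul ?_ ?_)
    · refine ContinuousOn.rpow continuousOn_const (by fun_prop) ?_
      intro σ _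
      exact Or.inl (by positivity)
    · intro σ hσ
      have hpos : 0 < σ + k := by
        have h1 := hσ.1
        have h2 : (0:ℝ) ≤ (k:ℝ) := Nat.cast_nonneg k
        linarith
      have h1 : ContinuousAt Real.Gamma (σ + k) := by
        refine (Real.differentiableAt_Gamma ?_).continuousAt
        intro m hm
        have : (0:ℝ) ≤ (m:ℝ) := Nat.cast_nonneg m
        linarith
      exact (h1.comp (f := fun σ : ℝ => σ + k) (by fun_prop)).continuousWithinAt
  obtain ⟨M, hM⟩ := isCompact_Icc.bddAbove_image hcont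
  refine ⟨M / c ^ k, fun s h1 h2 => ?_⟩
  have hs : 0 < s.re := lt_of_lt_of_le hα h1
  have key : ∀ m : ℕ, ‖Complex.Gamma s * X ^ (-s)‖ * (c * (1 + |s.im|)) ^ m ≤
      ‖X‖ ^ m * ‖Complex.Gamma (s + m) * X ^ (-(s + m))‖ := by
    intro m
    induction m with
    | zero => simp
    | succ m ih =>
      have hm0 : 0 < (s + m).re := by simp; positivity
      have hsm : s + m ≠ 0 := fun h => by rw [h] at hm0; simp at hm0
      have e1 : Complex.Gamma (s + (m + 1 : ℕ)) = (s + m) * Complex.Gamma (s + m) := by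
        rw [Nat.cast_add, Nat.cast_one, ← add_assoc, Complex.Gamma_add_one _ hsm]
      have e2 : X ^ (-(s + (m + 1 : ℕ))) = X ^ (-(s + m)) * X⁻¹ := by
        rw [Nat.cast_add, Nat.cast_one, show -(s + ((m:ℂ) + 1)) = -(s + m) + (-1) by ring,
          Complex.cpow_add _ _ hX0, Complex.cpow_neg_one]
      have e3 : ‖X‖ ^ (m+1) * ‖Complex.Gamma (s + (m + 1 : ℕ)) * X ^ (-(s + (m + 1 : ℕ)))‖ =
          ‖s + m‖ * (‖X‖ ^ m * ‖Complex.Gamma (s + m) * X ^ (-(s + m))‖) := by
        rw [e1, e2]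
        simp only [norm_mul, norm_inv]
        have : ‖X‖ ≠ 0 := norm_ne_zero_iff.mpr hX0
        field_simp
        ring
      rw [e3, pow_succ]
      have e4 : c * (1 + |s.im|) ≤ ‖s + m‖ := by
        have i1 : |(s + m).im| ≤ ‖s + m‖ := Complex.abs_im_le_norm _
        have i2 : |(s + m).re| ≤ ‖s + m‖ := Complex.abs_re_le_norm _
        have i3 : (s + m).im = s.im := by simp
        have i4 : (s + m).re = s.re + m := by simp
        rw [i3] at i1
        rw [i4, abs_of_pos (by positivity)] at i2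
        have i5 : (0:ℝ) ≤ (m:ℝ) := Nat.cast_nonneg m
        have i6 : c ≤ α / 2 := by
          simp only [hc]
          have := min_le_left α 1
          linarith
        have i7 : c ≤ 1 / 2 := by
          simp only [hc]
          have := min_le_right α 1
          linarith
        have i8 : 0 ≤ |s.im| := abs_nonneg _
        nlinarith
      calc ‖Complex.Gamma s * X ^ (-s)‖ * ((c * (1 + |s.im|)) ^ m * (c * (1 + |s.im|)))
          = (c * (1 + |s.im|)) * (‖Complex.Gamma s * X ^ (-s)‖ * (c * (1 + |s.im|)) ^ m) := by ring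
        _ ≤ ‖s + m‖ * (‖X‖ ^ m * ‖Complex.Gamma (s + m) * X ^ (-(s + m))‖) := by
            apply mul_le_mul e4 ih (by positivity) (norm_nonneg _)
  have h3 := key k
  have h4 : ‖X‖ ^ k * ‖Complex.Gamma (s + k) * X ^ (-(s + k))‖ ≤ M := by
    have h5 := dec_bound (s + k) X (by simp; positivity) hX
    have h6 : (s + k).re = s.re + k := by simp
    rw [h6] at h5
    have h7 := hM (Set.mem_image_of_mem _ (show s.re ∈ Set.Icc α β from ⟨h1, h2⟩))
    exact (mul_le_mul_of_nonneg_left h5 (by positivity)).trans h7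
  rw [le_div_iff₀ (by positivity)]
  calc ‖Complex.Gamma s * X ^ (-s)‖ * (1 + |s.im|) ^ k * c ^ k
      = ‖Complex.Gamma s * X ^ (-s)‖ * (c * (1 + |s.im|)) ^ k := by rw [mul_pow]; ring
    _ ≤ M := h3.trans h4

end Pool.Agent.H14.Sel
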