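import Mathlib
import Pool.Agent.H14.Sel.Defs
import Pool.Agent.H14.Sel.Dec

set_option autoImplicit false

/-!
# Module INV (MP_8e9775_nt): Mellin inversion for the exponential

For `c > 0`, `Re X > 0`: apply `mellinInv_mellin_eq` (Mathlib, Analysis/MellinInversion) to
`f t = exp (-X t)` (complex valued function of the real variable `t`) at `x = 1`.
`mellin f s = ∫_0^∞ t^(s-1) exp (-X t) dt = (1/X)^s Γ(s) = Γ(s) X^(-s)`
(`Complex.integral_cpow_mul_exp_neg_mul_Ioi`; `arg X ≠ π`), `MellinConvergent` from integrability of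
`t^(c-1) e^(-Re X t)`, `VerticalIntegrable` and the integrability claim from DEC with `k = 2`
(`‖·‖ ≤ C/(1+|t|)^2`, continuous in `t`; `integrable_inv_one_add_sq` up to constants).
`mellinInv c F 1 = (1/(2π)) ∫ 1^(-(c+it)) F(c+it) dt` (check the normalisation in Mathlib:
`mellinInv σ f x = (1/(2π)) • ∫ y : ℝ, (x : ℂ) ^ (-(σ + y I)) • f (σ + y I)`).
-/

namespace Pool.Agent.H14.Sel

open Complex MeasureTheory Filter Topology Pool.Agent.H11.Selberg

theorem gamma_integrable (c : ℝ) (hc : 0 < c) (X : ℂ) (hX : 0 < X.re) :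
    Integrable (fun t : ℝ => Complex.Gamma (c + t * I) * X ^ (-((c : ℂ) + t * I))) := by
  obtain ⟨C, hC⟩ := gamma_decay c c hc 2 X hX
  have hX0 : X ≠ 0 := fun h => by simp [h] at hX
  have hcont : Continuous (fun t : ℝ => Complex.Gamma (c + t * I) * X ^ (-((c : ℂ) + t * I))) := by
    refine Continuous.mul ?_ ?_
    · rw [continuous_iff_continuousAt]
      intro t
      have h1 : ContinuousAt Complex.Gamma ((c:ℂ) + t * I) := by
        refine (Complex.differentiableAt_Gamma _ ?_).continuousAt
        intro m hm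
        have h2 := congrArg Complex.re hm
        simp at h2
        have : (0:ℝ) ≤ (m:ℝ) := Nat.cast_nonneg m
        linarith
      exact h1.comp (f := fun t : ℝ => (c:ℂ) + t * I) (by fun_prop)
    · exact Continuous.const_cpow (by fun_prop) (Or.inl hX0)
  refine Integrable.mono' (g := fun t : ℝ => C * (1 + t ^ 2)⁻¹) (integrable_inv_one_add_sq.const_mul C)
    hcont.aestronglyMeasurable (Filter.Eventually.of_forall fun t => ?_)
  have h1 := hC ((c:ℂ) + t * I) (by simp) (by simp)
  have h2 : ((c:ℂ) + t * I).im = t := by simp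
  rw [h2] at h1
  have h3 : (1 + t ^ 2) ≤ (1 + |t|) ^ 2 := by
    nlinarith [abs_nonneg t, sq_abs t]
  rw [← div_eq_mul_inv, le_div_iff₀ (by positivity)]
  exact (mul_le_mul_of_nonneg_left h3 (norm_nonneg _)).trans h1

theorem exp_neg_eq (c : ℝ) (hc : 0 < c) (X : ℂ) (hX : 0 < X.re) :
    (∫ t : ℝ, Complex.Gamma (c + t * I) * X ^ (-((c : ℂ) + t * I))) =
      2 * Real.pi * Complex.exp (-X) := by
  have hm : ∀ s : ℂ, 0 < s.re → mellin (fun t : ℝ => Complex.exp (-(X * t))) s =
      Complex.Gamma s * X ^ (-s) := by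
    intro s hs
    rw [mellin]
    simp only [smul_eq_mul]
    exact dec_integral s X hs hX
  have h1 : MellinConvergent (fun t : ℝ => Complex.exp (-(X * t))) (c:ℂ) := by
    rw [MellinConvergent]
    simp only [smul_eq_mul]
    exact dec_integrable c X (by simpa using hc) hX
  have hre : ∀ t : ℝ, 0 < ((c:ℂ) + t * I).re := fun t => by simpa using hc
  have h2 : VerticalIntegrable (mellin (fun t : ℝ => Complex.exp (-(X * t)))) c := by
    rw [VerticalIntegrable]
    refine (gamma_integrable c hc X hX).congr (Filter.Eventually.of_forall fun t => ?_)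
    simp only
    rw [hm _ (hre t)]
  have h3 := mellinInv_mellin_eq c (fun t : ℝ => Complex.exp (-(X * t))) one_pos h1 h2
    (by fun_prop)
  rw [mellinInv] at h3
  have h4 : (∫ y : ℝ, ((1:ℝ) : ℂ) ^ (-((c:ℂ) + y * I)) •
      mellin (fun t : ℝ => Complex.exp (-(X * t))) (c + y * I)) =
      ∫ t : ℝ, Complex.Gamma (c + t * I) * X ^ (-((c : ℂ) + t * I)) := by
    refine integral_congr_ae (Filter.Eventually.of_forall fun t => ?_)
    simp only
    rw [hm _ (hre t)]
    simp
  rw [h4] at h3
  have h5 : Complex.exp (-(X * ((1:ℝ):ℂ))) = Complex.exp (-X) := by simp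
  rw [h5] at h3
  rw [← h3]
  have h6 : (Real.pi : ℂ) ≠ 0 := by exact_mod_cast Real.pi_ne_zero
  rw [Complex.real_smul]
  generalize (∫ t : ℝ, Complex.Gamma (c + t * I) * X ^ (-((c : ℂ) + t * I))) = J
  push_cast
  field_simp

end Pool.Agent.H14.Sel
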