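import Mathlib
import Pool.Agent.H14.Sel.Defs
import Pool.Agent.H14.Sel.Inv

set_option autoImplicit false

/-!
# Module MEL (MP_8e9775_nt): the Mellin representation of `E β b X`

`LSeries b (c + it) = ∑ b n n^(-(c+it))` converges absolutely and uniformly in `t`
(`LSeriesSummable b c`). Exchange sum and integral (`MeasureTheory.integral_tsum_of_summable_integral_norm`
or `hasSum_integral_of_summable_integral_norm`): the norms are
`‖b n‖ n^(-c) ∫ ‖Γ(c+β+it) X^(-(c+β+it))‖ dt`. For each `n ≥ 1`,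
`Γ(c+β+it) X^(-(c+β+it)) b n n^(-(c+it)) = b n n^β Γ(c+β+it) (n X)^(-(c+β+it))`
(`Complex.natCast_mul_cpow`/`Complex.mul_cpow_ofReal_nonneg`-type lemma: for real `n > 0`,
`(n X)^w = n^w X^w`), whose integral is `b n n^β 2π exp (- n X)` by INV (for `c + β` and `n X`).
The term `n = 0` is `0` on both sides (`LSeries.term` at `0` is zero; `0^β = 0` as `β ≠ 0`).
-/

namespace Pool.Agent.H14.Sel

open Complex MeasureTheory Filter Topology Pool.Agent.H11.Selberg

lemma mel_term_norm (b : ℕ → ℂ) (c : ℝ) (n : ℕ) (t : ℝ) :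
    ‖LSeries.term b ((c : ℂ) + t * I) n‖ = ‖LSeries.term b (c : ℂ) n‖ := by
  rw [LSeries.norm_term_eq, LSeries.norm_term_eq]
  simp

lemma mel_term_cont (b : ℕ → ℂ) (c : ℝ) (n : ℕ) :
    Continuous (fun t : ℝ => LSeries.term b ((c : ℂ) + t * I) n) := by
  rcases Nat.eq_zero_or_pos n with h0 | hn
  · subst h0
    simp only [LSeries.term_zero]
    exact continuous_const
  · have hn0 : n ≠ 0 := by omega
    have hnc : (n : ℂ) ≠ 0 := by exact_mod_cast hn0
    have : (fun t : ℝ => LSeries.term b ((c : ℂ) + t * I) n) =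
        fun t : ℝ => b n / (n : ℂ) ^ ((c : ℂ) + t * I) := by
      funext t
      rw [LSeries.term_of_ne_zero hn0]
    rw [this]
    refine Continuous.div continuous_const ?_ ?_
    · refine Continuous.const_cpow ?_ (Or.inl hnc)
      fun_prop
    · intro t
      exact fun h => hnc ((Complex.cpow_eq_zero_iff _ _).1 h).1

lemma mel_mul_cpow (n : ℕ) (hn : 0 < n) (X : ℂ) (hX : X ≠ 0) (w : ℂ) :
    ((n : ℂ) * X) ^ w = (n : ℂ) ^ w * X ^ w := by
  have hn0 : n ≠ 0 := by omega
  have hnc : (n : ℂ) ≠ 0 := by exact_mod_cast hn0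
  have hnr : (0 : ℝ) < n := by exact_mod_cast hn
  rw [Complex.cpow_def_of_ne_zero (mul_ne_zero hnc hX), Complex.cpow_def_of_ne_zero hnc,
    Complex.cpow_def_of_ne_zero hX, ← Complex.exp_add]
  have h1 : Complex.log ((n : ℂ) * X) = Complex.log (n : ℂ) + Complex.log X := by
    have h2 := Complex.log_ofReal_mul hnr hX
    have h3 : (((n : ℝ) : ℝ) : ℂ) = (n : ℂ) := by simp
    rw [h3] at h2
    rw [h2, Complex.ofReal_log hnr.le, h3]
  rw [h1, add_mul]

lemma mel_norm_summable (b : ℕ → ℂ) (c : ℝ) (hb : LSeriesSummable b (c : ℂ)) :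
    Summable (fun n => ‖LSeries.term b (c : ℂ) n‖) := hb.norm

lemma mel_LSeries_cont (b : ℕ → ℂ) (c : ℝ) (hb : LSeriesSummable b (c : ℂ)) :
    Continuous (fun t : ℝ => LSeries b ((c : ℂ) + t * I)) := by
  unfold LSeries
  refine continuous_tsum (fun n => mel_term_cont b c n) (mel_norm_summable b c hb) ?_
  intro n t
  exact (mel_term_norm b c n t).le

lemma mel_LSeries_bdd (b : ℕ → ℂ) (c : ℝ) (hb : LSeriesSummable b (c : ℂ)) (t : ℝ) :
    ‖LSeries b ((c : ℂ) + t * I)‖ ≤ ∑' n, ‖LSeries.term b (c : ℂ) n‖ := by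
  unfold LSeries
  have h : Summable (fun n => ‖LSeries.term b ((c : ℂ) + t * I) n‖) := by
    simpa only [mel_term_norm] using mel_norm_summable b c hb
  refine (norm_tsum_le_tsum_norm h).trans ?_
  simp only [mel_term_norm]
  exact le_rfl

theorem mel (b : ℕ → ℂ) (c β : ℝ) (hβ : β ≠ 0) (hcβ : 0 < c + β)
    (hb : LSeriesSummable b (c : ℂ)) (X : ℂ) (hX : 0 < X.re) :
    (∫ t : ℝ, Complex.Gamma (((c + β : ℝ) : ℂ) + t * I) * X ^ (-(((c + β : ℝ) : ℂ) + t * I)) *
      LSeries b ((c : ℂ) + t * I)) = 2 * Real.pi * E β b X := by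
  set G : ℝ → ℂ := fun t => Complex.Gamma (((c + β : ℝ) : ℂ) + t * I) *
    X ^ (-(((c + β : ℝ) : ℂ) + t * I)) with hG
  have hGint : Integrable G := gamma_integrable (c + β) hcβ X hX
  set F : ℕ → ℝ → ℂ := fun n t => G t * LSeries.term b ((c : ℂ) + t * I) n with hF
  have hFint : ∀ n, Integrable (F n) := by
    intro n
    refine hGint.mul_bdd (c := ‖LSeries.term b (c : ℂ) n‖)
      (mel_term_cont b c n).aestronglyMeasurable ?_
    exact Filter.Eventually.of_forall (fun t => (mel_term_norm b c n t).le)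
  have hFnorm : ∀ n, (∫ t, ‖F n t‖) = (∫ t, ‖G t‖) * ‖LSeries.term b (c : ℂ) n‖ := by
    intro n
    rw [← integral_mul_const]
    refine integral_congr_ae (Filter.Eventually.of_forall (fun t => ?_))
    simp only [hF, norm_mul, mel_term_norm]
  have hFsum : Summable (fun n => ∫ t, ‖F n t‖) := by
    simp only [hFnorm]
    exact (mel_norm_summable b c hb).mul_left _
  have key := hasSum_integral_of_summable_integral_norm hFint hFsum
  have hL : (fun t : ℝ => ∑' n, F n t) = fun t : ℝ => G t * LSeries b ((c : ℂ) + t * I) := by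
    funext t
    simp only [hF]
    rw [tsum_mul_left]
    rfl
  rw [hL] at key
  have hI : ∀ n, (∫ t, F n t) = 2 * Real.pi * (b n * (((n : ℝ) ^ β : ℝ) : ℂ) *
      Complex.exp (-((n : ℂ) * X))) := by
    intro n
    rcases Nat.eq_zero_or_pos n with h0 | hn
    · subst h0
      simp only [hF, LSeries.term_zero, mul_zero, integral_zero, Nat.cast_zero,
        Real.zero_rpow hβ, Complex.ofReal_zero, zero_mul]
    · have hn0 : n ≠ 0 := by omega
      have hnc : (n : ℂ) ≠ 0 := by exact_mod_cast hn0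
      have hnr : (0 : ℝ) < n := by exact_mod_cast hn
      have hnX : 0 < ((n : ℂ) * X).re := by
        have : ((n : ℂ) * X).re = n * X.re := by simp
        rw [this]; positivity
      have hFn : (fun t : ℝ => F n t) = fun t : ℝ => (b n * (((n : ℝ) ^ β : ℝ) : ℂ)) *
          (Complex.Gamma (((c + β : ℝ) : ℂ) + t * I) *
            ((n : ℂ) * X) ^ (-(((c + β : ℝ) : ℂ) + t * I))) := by
        funext t
        simp only [hF, hG]
        rw [LSeries.term_of_ne_zero hn0]
        have h1 : ((n : ℂ) * X) ^ (-(((c + β : ℝ) : ℂ) + t * I)) =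
            (n : ℂ) ^ (-(((c + β : ℝ) : ℂ) + t * I)) * X ^ (-(((c + β : ℝ) : ℂ) + t * I)) := by
          exact mel_mul_cpow n hn X (by rintro rfl; simp at hX) _
        have h3 : (((n : ℝ) ^ β : ℝ) : ℂ) = (n : ℂ) ^ (β : ℂ) := by
          rw [Complex.ofReal_cpow hnr.le]
          simp
        have h4 : (n : ℂ) ^ (β : ℂ) * (n : ℂ) ^ (-(((c + β : ℝ) : ℂ) + t * I)) =
            ((n : ℂ) ^ ((c : ℂ) + t * I))⁻¹ := by
          rw [← Complex.cpow_add _ _ hnc, ← Complex.cpow_neg]
          congr 1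
          push_cast
          ring
        rw [h1, h3, div_eq_mul_inv, ← h4]
        ring
      rw [hFn, integral_const_mul, exp_neg_eq (c + β) hcβ ((n : ℂ) * X) hnX]
      ring
  have h5 : (∫ t : ℝ, G t * LSeries b ((c : ℂ) + t * I)) = ∑' n, (∫ t, F n t) := key.tsum_eq.symm
  rw [h5]
  simp only [hI]
  rw [tsum_mul_left]
  rfl

theorem mel_integrable (b : ℕ → ℂ) (c β : ℝ) (hcβ : 0 < c + β)
    (hb : LSeriesSummable b (c : ℂ)) (X : ℂ) (hX : 0 < X.re) :
    Integrable (fun t : ℝ => Complex.Gamma (((c + β : ℝ) : ℂ) + t * I) *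
      X ^ (-(((c + β : ℝ) : ℂ) + t * I)) * LSeries b ((c : ℂ) + t * I)) := by
  refine (gamma_integrable (c + β) hcβ X hX).mul_bdd (c := ∑' n, ‖LSeries.term b (c : ℂ) n‖)
    (mel_LSeries_cont b c hb).aestronglyMeasurable ?_
  exact Filter.Eventually.of_forall (fun t => mel_LSeries_bdd b c hb t)

end Pool.Agent.H14.Sel
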