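import Mathlib
import Pool.Agent.H14.Sel.St3

set_option autoImplicit false

/-!
# Module ST4 (MP_8e9775_nt): Stirling for `Γ(c u + a)`

Let `c > 0` be real, `a` complex, `|Re u| ≤ A` and `|Im u|` large. Put `z = c u + a`. By ST3
`Γ z = stir z (1 + O(‖u‖^-2))`. Now `log z = log c + log u + log (1 + a/(c u))` for `|Im u|` large
(`z = c * (u * (1 + a/(cu)))`; the argument of `u` is in `[-3π/4, 3π/4]`, that of
`1 + a/(cu)` is small), and with `v = a/(c u)`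
`(z - 1/2) log (1 + v) = (c u + a - 1/2)(v - v^2/2 + O(v^3)) = a - a^2/(2 c u) + a (a - 1/2)/(c u) + O(u^-2)`
(`c u v = a`). Hence the exponent of `stir z` minus
`(c u + a - 1/2)(log c + log u) - c u + log(2π)/2` equals
`ρ/u + O(‖u‖^-2)` with `ρ = (a^2/2 - a/2 + 1/12)/c` (note
`1/(12 z) = 1/(12 c u) + O(u^-2)` and the terms `a` and `- a` cancel). Exponentiate:
`exp (ρ/u + O(u^-2)) = 1 + ρ/u + O(u^-2)`.
(Mathlib: `Complex.norm_log_sub_logTaylor_le` or `Complex.norm_log_one_add_sub_self_le`,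
`Complex.norm_exp_sub_one_sub_id_le`.)
-/

namespace Pool.Agent.H14.Sel

open Complex MeasureTheory Filter Topology Pool.Agent.H11.Selberg

/-- The main term of Stirling's formula for `Γ(c u + a)`. -/
noncomputable def smain (c : ℝ) (a u : ℂ) : ℂ :=
  Complex.exp (((c : ℂ) * u + a - 1 / 2) * ((Real.log c : ℂ) + Complex.log u) - (c : ℂ) * u +
    (Real.log (2 * Real.pi) : ℂ) / 2)

private theorem cos_half_le : Real.cos (1 / 2) ≤ 883 / 1000 := by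
  have h1 : Real.cos 1 = 2 * Real.cos (1 / 2) ^ 2 - 1 := by
    have := Real.cos_two_mul (1 / 2 : ℝ)
    rwa [show (2 : ℝ) * (1 / 2) = 1 by norm_num] at this
  have h2 := Real.cos_one_le
  have h3 : 0 ≤ Real.cos (1 / 2) := by
    apply Real.cos_nonneg_of_neg_pi_div_two_le_of_le
    · linarith [Real.pi_gt_three]
    · linarith [Real.pi_gt_three]
  nlinarith

private theorem arcsin_ge {s : ℝ} (hs : 883 / 1000 ≤ s) (hs1 : s ≤ 1) :
    Real.pi / 2 - 1 / 2 ≤ Real.arcsin s := by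
  have hpi := Real.pi_gt_three
  rw [Real.le_arcsin_iff_sin_le (by constructor <;> linarith) (by constructor <;> linarith),
    Real.sin_pi_div_two_sub]
  exact cos_half_le.trans hs

/-- the argument of a number close to the imaginary direction -/
private theorem abs_arg_le_aux {u : ℂ} (h0 : u.im ≠ 0) (h : 2 * |u.re| ≤ |u.im|) :
    |u.arg| ≤ Real.pi / 2 + 1 / 2 := by
  rcases le_or_gt 0 u.re with hre | hre
  · have := Complex.abs_arg_le_pi_div_two_iff.2 hre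
    linarith
  · have hn : 0 < ‖u‖ := by
      rw [norm_pos_iff]
      rintro rfl
      exact h0 rfl
    have hsq : ‖u‖ ^ 2 = u.re ^ 2 + u.im ^ 2 := by
      rw [Complex.sq_norm, Complex.normSq_apply]
      ring
    have him : 0 < |u.im| := abs_pos.2 h0
    have h4 : 4 * u.re ^ 2 ≤ u.im ^ 2 := by
      rw [← sq_abs u.re, ← sq_abs u.im]
      nlinarith [abs_nonneg u.re]
    have h5 : 883 / 1000 * ‖u‖ ≤ |u.im| := by
      by_contra hcon
      push Not at hcon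
      have h6 : |u.im| ^ 2 < (883 / 1000 * ‖u‖) ^ 2 := pow_lt_pow_left₀ hcon him.le (by norm_num)
      rw [mul_pow, hsq, sq_abs] at h6
      have h7 : 0 ≤ u.im ^ 2 := sq_nonneg _
      nlinarith
    have h6 : |u.im| ≤ ‖u‖ := Complex.abs_im_le_norm u
    rcases le_or_gt 0 u.im with him' | him'
    · rw [Complex.arg_of_re_neg_of_im_nonneg hre him', Complex.neg_im, neg_div, Real.arcsin_neg]
      rw [abs_of_nonneg him'] at h5 h6
      have h7 := arcsin_ge (s := u.im / ‖u‖) (by rwa [le_div_iff₀ hn]) (by rwa [div_le_one hn])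
      have h8 := Real.arcsin_le_pi_div_two (u.im / ‖u‖)
      rw [abs_le]
      constructor <;> linarith [Real.pi_pos]
    · rw [Complex.arg_of_re_neg_of_im_neg hre him', Complex.neg_im]
      rw [abs_of_neg him'] at h5 h6
      have h7 := arcsin_ge (s := -u.im / ‖u‖) (by rwa [le_div_iff₀ hn]) (by rwa [div_le_one hn])
      have h8 := Real.arcsin_le_pi_div_two (-u.im / ‖u‖)
      rw [abs_le]
      constructor <;> linarith [Real.pi_pos]

private theorem log_mul_one_add {u v : ℂ} (h0 : u.im ≠ 0) (h : 2 * |u.re| ≤ |u.im|)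
    (hv : ‖v‖ ≤ 1 / 6) : Complex.log (u * (1 + v)) = Complex.log u + Complex.log (1 + v) := by
  have hu : u ≠ 0 := by
    rintro rfl
    exact h0 rfl
  have hv1 : (1 + v) ≠ 0 := by
    intro hcon
    have : v = -1 := by linear_combination hcon
    rw [this, norm_neg, norm_one] at hv
    norm_num at hv
  rw [Complex.log_mul_eq_add_log_iff hu hv1]
  have h1 := abs_arg_le_aux h0 h
  have h2 : |(1 + v).arg| ≤ 1 / 4 := by
    have h3 := Complex.norm_log_one_add_half_le_self (z := v) (by linarith)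
    have h4 := Complex.abs_im_le_norm (Complex.log (1 + v))
    rw [Complex.log_im] at h4
    linarith
  rw [abs_le] at h1 h2
  have hpi := Real.pi_gt_three
  constructor <;> linarith [h1.1, h1.2, h2.1, h2.2]

private theorem inv_split {w a z : ℂ} (h : z = w + a) (hz : z ≠ 0) (hw : w ≠ 0) :
    (1 : ℂ) / (12 * z) = 1 / (12 * w) - a / (12 * z * w) := by
  have h1 : a = z - w := by rw [h]; ring
  rw [h1]
  field_simp
  ring

private theorem log_taylor {v : ℂ} (hv : ‖v‖ ≤ 1 / 2) :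
    ‖Complex.log (1 + v) - (v - v ^ 2 / 2)‖ ≤ ‖v‖ ^ 3 := by
  have h1 := Complex.norm_log_sub_logTaylor_le 2 (z := v) (by linarith)
  have h2 : Complex.logTaylor (2 + 1) v = v - v ^ 2 / 2 := by
    simp [Complex.logTaylor, Finset.sum_range_succ]
    ring
  rw [h2] at h1
  refine h1.trans ?_
  have h3 : (1 - ‖v‖)⁻¹ ≤ 2 := by
    rw [inv_le_comm₀ (by linarith) (by norm_num)]
    linarith
  have h4 : 0 ≤ ‖v‖ ^ 3 := by positivity
  have h5 : ‖v‖ ^ (2 + 1) * (1 - ‖v‖)⁻¹ ≤ ‖v‖ ^ 3 * 2 := mul_le_mul_of_nonneg_left h3 h4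
  push_cast
  rw [div_le_iff₀ (by norm_num)]
  linarith

theorem gamma_shift (c : ℝ) (hc : 0 < c) (a : ℂ) (A : ℝ) : ∃ (ρ : ℂ) (C T : ℝ), 1 ≤ T ∧
    ∀ u : ℂ, |u.re| ≤ A → T ≤ |u.im| →
      ‖Complex.Gamma ((c : ℂ) * u + a) / smain c a u - (1 + ρ / u)‖ ≤ C / ‖u‖ ^ 2 := by
  obtain ⟨C₁, T₁, hT₁, hst⟩ := stirling (c * |A| + ‖a‖)
  set ρ : ℂ := (a ^ 2 / 2 - a / 2 + 1 / 12) / c with hρ
  set K₁ : ℝ := (‖a‖ + 1 / 2) / 2 * ‖a‖ ^ 2 / c ^ 2 with hK₁
  set K₂ : ℝ := (c + ‖a‖ + 1 / 2) * ‖a‖ ^ 3 / c ^ 3 with hK₂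
  set K₃ : ℝ := ‖a‖ / (6 * c ^ 2) with hK₃
  set C₂ : ℝ := K₁ + K₂ + K₃ with hC₂
  have hK₁0 : 0 ≤ K₁ := by positivity
  have hK₂0 : 0 ≤ K₂ := by positivity
  have hK₃0 : 0 ≤ K₃ := by positivity
  have hC₂0 : 0 ≤ C₂ := by positivity
  refine ⟨ρ, 3 * (|C₁| * (4 / c ^ 2)) + (‖ρ‖ + C₂) ^ 2 + C₂,
    1 + 2 * |A| + 6 * ‖a‖ / c + (T₁ + ‖a‖) / c + (‖ρ‖ + C₂), ?_, ?_⟩
  · have h1 : 0 ≤ 6 * ‖a‖ / c := by positivity
    have h2 : 0 ≤ (T₁ + ‖a‖) / c := by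
      have : 0 ≤ T₁ := by linarith
      positivity
    have h3 : 0 ≤ ‖ρ‖ := norm_nonneg _
    have h4 : 0 ≤ |A| := abs_nonneg _
    linarith
  intro u hre him
  have ha0 : 0 ≤ ‖a‖ := norm_nonneg _
  have h1 : 0 ≤ 6 * ‖a‖ / c := by positivity
  have h2 : 0 ≤ (T₁ + ‖a‖) / c := by
    have : 0 ≤ T₁ := by linarith
    positivity
  have h3 : 0 ≤ ‖ρ‖ := norm_nonneg _
  have h4 : 0 ≤ |A| := abs_nonneg _
  have hA : A ≤ |A| := le_abs_self A
  have hun : |u.im| ≤ ‖u‖ := Complex.abs_im_le_norm u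
  have hn1 : 1 ≤ ‖u‖ := by linarith
  have hn0 : 0 < ‖u‖ := by linarith
  have hu0 : u ≠ 0 := norm_pos_iff.1 hn0
  have him0 : u.im ≠ 0 := by
    intro h
    rw [h, abs_zero] at him
    linarith
  have hcC : (c : ℂ) ≠ 0 := by exact_mod_cast hc.ne'
  set v : ℂ := a / ((c : ℂ) * u) with hv
  have hvn : ‖v‖ = ‖a‖ / (c * ‖u‖) := by
    rw [hv, norm_div, norm_mul, Complex.norm_of_nonneg hc.le]
  have hv6 : ‖v‖ ≤ 1 / 6 := by
    rw [hvn, div_le_iff₀ (by positivity)]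
    have h5 : 6 * ‖a‖ / c ≤ ‖u‖ := by linarith
    rw [div_le_iff₀ hc] at h5
    linarith
  have hcuv : (c : ℂ) * u * v = a := by
    rw [hv]
    field_simp
  -- the point z
  set z : ℂ := (c : ℂ) * u + a with hz
  have hz' : z = (c : ℂ) * (u * (1 + v)) := by
    rw [hz, ← hcuv]
    ring
  have hzre : |z.re| ≤ c * |A| + ‖a‖ := by
    have e1 : z.re = c * u.re + a.re := by simp [hz]
    rw [e1]
    calc |c * u.re + a.re| ≤ |c * u.re| + |a.re| := abs_add_le _ _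
      _ ≤ c * |A| + ‖a‖ := by
        rw [abs_mul, abs_of_pos hc]
        have h5 := Complex.abs_re_le_norm a
        have h6 : c * |u.re| ≤ c * |A| := mul_le_mul_of_nonneg_left (hre.trans hA) hc.le
        linarith
  have hzim : T₁ ≤ |z.im| := by
    have e1 : z.im = c * u.im + a.im := by simp [hz]
    rw [e1]
    have h5 : |c * u.im| - |a.im| ≤ |c * u.im + a.im| := by
      have := abs_sub_abs_le_abs_sub (c * u.im) (-a.im)
      rw [abs_neg, sub_neg_eq_add] at this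
      exact this
    have h6 := Complex.abs_im_le_norm a
    have h7 : (T₁ + ‖a‖) / c ≤ |u.im| := by linarith
    rw [div_le_iff₀ hc] at h7
    rw [abs_mul, abs_of_pos hc] at h5
    linarith
  have hzn : c * ‖u‖ / 2 ≤ ‖z‖ := by
    have h5 : ‖(c : ℂ) * u‖ - ‖a‖ ≤ ‖z‖ := by
      have := norm_sub_norm_le ((c : ℂ) * u) (-a)
      rw [norm_neg, sub_neg_eq_add] at this
      exact this
    rw [norm_mul, Complex.norm_of_nonneg hc.le] at h5
    have h6 : 6 * ‖a‖ / c ≤ ‖u‖ := by linarith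
    rw [div_le_iff₀ hc] at h6
    nlinarith
  have hz0 : z ≠ 0 := by
    rw [← norm_pos_iff]
    have : 0 < c * ‖u‖ / 2 := by positivity
    linarith
  have hS := hst z hzre hzim
  -- logarithm
  have h1v : (1 + v) ≠ 0 := by
    intro h
    rw [h, mul_zero, mul_zero] at hz'
    exact hz0 hz'
  have hlog : Complex.log z = (Real.log c : ℂ) + Complex.log u + Complex.log (1 + v) := by
    rw [hz', Complex.log_ofReal_mul hc (mul_ne_zero hu0 h1v),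
      log_mul_one_add him0 (by linarith) hv6]
    ring
  set e : ℂ := Complex.log (1 + v) - (v - v ^ 2 / 2) with he
  have hen : ‖e‖ ≤ ‖v‖ ^ 3 := log_taylor (by linarith)
  set δ : ℂ := (z - 1 / 2) * Complex.log (1 + v) - a + 1 / (12 * z) with hδ
  have hquot : stir z / smain c a u = Complex.exp δ := by
    unfold stir smain
    rw [← Complex.exp_sub]
    congr 1
    rw [hlog, hδ, hz]
    ring
  have hδρ : δ - ρ / u = -((a - 1 / 2) * v ^ 2 / 2) + ((c : ℂ) * u + a - 1 / 2) * e +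
      (-(a / (12 * z * ((c : ℂ) * u)))) := by
    have e1 : Complex.log (1 + v) = (v - v ^ 2 / 2) + e := by
      rw [he]
      ring
    have e2 : (1 : ℂ) / (12 * z) = 1 / (12 * ((c : ℂ) * u)) - a / (12 * z * ((c : ℂ) * u)) := by
      exact inv_split hz hz0 (mul_ne_zero hcC hu0)
    have e3 : ρ / u = v * ((a - 1) / 2) + 1 / (12 * ((c : ℂ) * u)) := by
      rw [hρ, hv]
      field_simp
    rw [hδ, e1, e2, e3]
    have e4 : (z - 1 / 2) * (v - v ^ 2 / 2 + e) =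
        (c : ℂ) * u * v - ((c : ℂ) * u * v) * v / 2 + (a - 1 / 2) * (v - v ^ 2 / 2) +
          ((c : ℂ) * u + a - 1 / 2) * e := by
      rw [hz]
      ring
    rw [e4, hcuv]
    ring
  have hb1 : ‖(a - 1 / 2) * v ^ 2 / 2‖ ≤ K₁ / ‖u‖ ^ 2 := by
    rw [norm_div, norm_mul, norm_pow, hvn]
    have h5 : ‖a - 1 / 2‖ ≤ ‖a‖ + 1 / 2 := by
      have := norm_sub_le a (1 / 2 : ℂ)
      have h6 : ‖(1 / 2 : ℂ)‖ = 1 / 2 := by norm_num
      linarith
    have h6 : ‖(2 : ℂ)‖ = 2 := by norm_num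
    rw [h6]
    calc ‖a - 1 / 2‖ * (‖a‖ / (c * ‖u‖)) ^ 2 / 2 ≤
        (‖a‖ + 1 / 2) * (‖a‖ / (c * ‖u‖)) ^ 2 / 2 := by gcongr
      _ = K₁ / ‖u‖ ^ 2 := by
        rw [hK₁]
        field_simp
  have hb2 : ‖((c : ℂ) * u + a - 1 / 2) * e‖ ≤ K₂ / ‖u‖ ^ 2 := by
    rw [norm_mul]
    have h5 : ‖(c : ℂ) * u + a - 1 / 2‖ ≤ (c + ‖a‖ + 1 / 2) * ‖u‖ := by
      have h6 := norm_sub_le ((c : ℂ) * u + a) (1 / 2 : ℂ)
      have h7 := norm_add_le ((c : ℂ) * u) a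
      rw [norm_mul, Complex.norm_of_nonneg hc.le] at h7
      have h8 : ‖(1 / 2 : ℂ)‖ = 1 / 2 := by norm_num
      have h9 : ‖a‖ ≤ ‖a‖ * ‖u‖ := le_mul_of_one_le_right ha0 hn1
      have h10 : (1 / 2 : ℝ) ≤ 1 / 2 * ‖u‖ := le_mul_of_one_le_right (by norm_num) hn1
      linarith
    calc ‖(c : ℂ) * u + a - 1 / 2‖ * ‖e‖ ≤ (c + ‖a‖ + 1 / 2) * ‖u‖ * ‖v‖ ^ 3 := by
          gcongr
      _ = K₂ / ‖u‖ ^ 2 := by
        rw [hK₂, hvn]
        field_simp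
  have hb3 : ‖a / (12 * z * ((c : ℂ) * u))‖ ≤ K₃ / ‖u‖ ^ 2 := by
    rw [norm_div, norm_mul, norm_mul, norm_mul, Complex.norm_of_nonneg hc.le]
    have h6 : ‖(12 : ℂ)‖ = 12 := by norm_num
    rw [h6]
    calc ‖a‖ / (12 * ‖z‖ * (c * ‖u‖)) ≤ ‖a‖ / (12 * (c * ‖u‖ / 2) * (c * ‖u‖)) := by
          gcongr
      _ = K₃ / ‖u‖ ^ 2 := by
        rw [hK₃]
        field_simp
        ring
  have hb : ‖δ - ρ / u‖ ≤ C₂ / ‖u‖ ^ 2 := by
    rw [hδρ]
    refine (norm_add_le _ _).trans ?_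
    rw [norm_neg]
    have h5 := norm_add_le (-((a - 1 / 2) * v ^ 2 / 2)) (((c : ℂ) * u + a - 1 / 2) * e)
    rw [norm_neg] at h5
    have h6 : C₂ / ‖u‖ ^ 2 = K₁ / ‖u‖ ^ 2 + K₂ / ‖u‖ ^ 2 + K₃ / ‖u‖ ^ 2 := by
      rw [hC₂]
      ring
    linarith
  have hδn : ‖δ‖ ≤ (‖ρ‖ + C₂) / ‖u‖ := by
    have h5 : ‖δ‖ ≤ ‖δ - ρ / u‖ + ‖ρ / u‖ := by
      have := norm_add_le (δ - ρ / u) (ρ / u)
      simpa using this
    rw [norm_div] at h5
    have h6 : C₂ / ‖u‖ ^ 2 ≤ C₂ / ‖u‖ := by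
      apply div_le_div_of_nonneg_left hC₂0 hn0
      nlinarith
    have h7 : (‖ρ‖ + C₂) / ‖u‖ = ‖ρ‖ / ‖u‖ + C₂ / ‖u‖ := by ring
    linarith
  have hδ1 : ‖δ‖ ≤ 1 := by
    refine hδn.trans ?_
    rw [div_le_one hn0]
    linarith
  have hexp : ‖Complex.exp δ - (1 + ρ / u)‖ ≤ ((‖ρ‖ + C₂) ^ 2 + C₂) / ‖u‖ ^ 2 := by
    have h5 := Complex.norm_exp_sub_one_sub_id_le hδ1
    have h6 : Complex.exp δ - (1 + ρ / u) = (Complex.exp δ - 1 - δ) + (δ - ρ / u) := by ring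
    rw [h6]
    refine (norm_add_le _ _).trans ?_
    have h7 : ‖δ‖ ^ 2 ≤ ((‖ρ‖ + C₂) / ‖u‖) ^ 2 := pow_le_pow_left₀ (norm_nonneg _) hδn 2
    have h8 : ((‖ρ‖ + C₂) ^ 2 + C₂) / ‖u‖ ^ 2 = ((‖ρ‖ + C₂) / ‖u‖) ^ 2 + C₂ / ‖u‖ ^ 2 := by
      rw [div_pow]
      ring
    linarith
  have hexp3 : ‖Complex.exp δ‖ ≤ 3 := by
    refine (Complex.norm_exp_le_exp_norm δ).trans ?_
    have h5 := Real.exp_le_exp.2 hδ1
    have h6 := Real.exp_one_lt_d9
    linarith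
  have hGam : ‖Complex.Gamma z / stir z - 1‖ ≤ |C₁| * (4 / c ^ 2) / ‖u‖ ^ 2 := by
    refine hS.trans ?_
    have h5 : 0 < ‖z‖ := norm_pos_iff.2 hz0
    calc C₁ / ‖z‖ ^ 2 ≤ |C₁| / ‖z‖ ^ 2 := by gcongr; exact le_abs_self _
      _ ≤ |C₁| / (c * ‖u‖ / 2) ^ 2 := by gcongr
      _ = |C₁| * (4 / c ^ 2) / ‖u‖ ^ 2 := by
        field_simp
        try norm_num
  have hfin : Complex.Gamma z / smain c a u - (1 + ρ / u) =
      (Complex.Gamma z / stir z - 1) * Complex.exp δ + (Complex.exp δ - (1 + ρ / u)) := by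
    rw [← hquot]
    have h5 : stir z ≠ 0 := stir_ne_zero z
    have h6 : smain c a u ≠ 0 := Complex.exp_ne_zero _
    field_simp
    ring
  rw [hfin]
  refine (norm_add_le _ _).trans ?_
  rw [norm_mul]
  have h5 : ‖Complex.Gamma z / stir z - 1‖ * ‖Complex.exp δ‖ ≤
      |C₁| * (4 / c ^ 2) / ‖u‖ ^ 2 * 3 := by
    gcongr
  have h6 : (3 * (|C₁| * (4 / c ^ 2)) + (‖ρ‖ + C₂) ^ 2 + C₂) / ‖u‖ ^ 2 =
      |C₁| * (4 / c ^ 2) / ‖u‖ ^ 2 * 3 + ((‖ρ‖ + C₂) ^ 2 + C₂) / ‖u‖ ^ 2 := by ring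
  rw [h6]
  linarith

end Pool.Agent.H14.Sel
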