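import Mathlib
import Pool.Agent.H14.Sel.Defs
import Pool.Agent.H14.Sel.St4

set_option autoImplicit false

/-!
# Module RASY (MP_8e9775_nt): asymptotics of `R`

Let `s = 5/4 + i t`, `t → -∞`. Write the four kinds of Gamma values by ST4:
* `Γ(3/2 - s) = Γ(u + 3/2)` with `u = -s`, `c = 1`;
* `Γ(s + 1/2)` with `u = s`, `c = 1`;
* `Γ(lam_j s + conj mu_j)` with `u = s`, `c = lam_j`;
* `Γ(lam_j (1 - s) + mu_j) = Γ(lam_j u + lam_j + mu_j)` with `u = -s`, `c = lam_j`.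
Each value is `smain * (1 + ρ/u + O(u^-2))`; products and quotients of such factors
`1 + ρ/s + O(s^-2)` are again of this form (small lemma: the class of functions
`f : ℝ → ℂ` for which there are `ρ, K, T` with `‖f t - (1 + ρ/(5/4 + i t))‖ ≤ K/t^2` for `t ≤ -T`
is closed under multiplication, inversion and finite products).
The quotient of the main terms (with the factor `∏ exp (-(lam_j (2s - 1) log lam_j))`) is the
exponential of
`(-s + 1) log(-s) + s - s log s + s`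
`+ ∑_j [ (lam_j s + conj mu_j - 1/2)(log lam_j + log s) - lam_j s - (-lam_j s + lam_j + mu_j - 1/2)(log lam_j + log(-s)) - lam_j s - lam_j (2 s - 1) log lam_j ]`
(the constants `log(2π)/2` cancel). Using `∑ lam_j = 1` the terms `s` cancel, and with
`m = ∑ mu_j` (real: `∑ conj mu_j = ∑ mu_j`) it equals
`(m - r/2) (log s - log(-s)) + ∑_j (conj mu_j - mu_j) log lam_j`. Since `Im s < 0`:
`log(-s) = log s + iπ` (`Complex.log_neg_eq...` or `arg_neg_eq_arg_add_pi_of_im_neg`), so it equals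
the constant `-iπ (m - r/2) - 2 i ∑ Im(mu_j) log lam_j`, purely imaginary. So `c₀ = exp` of it has
modulus one.
Finally `ρ/(5/4 + i t) = ρ/(3/4 + i t) + O(t^-2)`.
-/

namespace Pool.Agent.H14.Sel

open Complex MeasureTheory Filter Topology Pool.Agent.H11.Selberg

/-- the inverse of `5/4 + i t` -/
private noncomputable def ras_v (t : ℝ) : ℂ := (5 / 4 + t * I : ℂ)⁻¹

/-- functions of the form `1 + ρ/(5/4 + i t) + O(t^-2)` as `t → -∞` -/
private def RasA (f : ℝ → ℂ) : Prop :=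
  ∃ ρ : ℂ, (fun t : ℝ => f t - (1 + ρ * ras_v t)) =O[atBot] (fun t : ℝ => ((t ^ 2)⁻¹ : ℝ))

private lemma ras_norm (t : ℝ) : |t| ≤ ‖(5 / 4 + t * I : ℂ)‖ := by
  have := Complex.abs_im_le_norm (5 / 4 + t * I : ℂ)
  simpa using this

private lemma ras_v_bigO : ras_v =O[atBot] (fun t : ℝ => (t⁻¹ : ℝ)) := by
  apply Asymptotics.IsBigO.of_bound 1
  filter_upwards [eventually_lt_atBot (0 : ℝ)] with t ht
  rw [ras_v, norm_inv, norm_inv, one_mul, Real.norm_eq_abs]
  exact inv_anti₀ (abs_pos.2 ht.ne) (ras_norm t)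

private lemma ras_v2 : (fun t => ras_v t * ras_v t) =O[atBot] (fun t : ℝ => ((t ^ 2)⁻¹ : ℝ)) := by
  have h := ras_v_bigO.mul ras_v_bigO
  refine h.congr_right ?_
  intro t
  rw [← mul_inv, pow_two]

private lemma ras_inv_tendsto : Tendsto (fun t : ℝ => ((t ^ 2)⁻¹ : ℝ)) atBot (𝓝 0) := by
  apply tendsto_inv_atTop_zero.comp
  have h := (tendsto_pow_atTop (α := ℝ) (two_ne_zero)).comp tendsto_abs_atBot_atTop
  refine h.congr ?_
  intro t
  simp

private lemma ras_v_tendsto : Tendsto ras_v atBot (𝓝 0) :=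
  ras_v_bigO.trans_tendsto tendsto_inv_atBot_zero

private lemma RasA.tendsto {f : ℝ → ℂ} (h : RasA f) : Tendsto f atBot (𝓝 1) := by
  obtain ⟨ρ, h⟩ := h
  have h1 : Tendsto (fun t : ℝ => f t - (1 + ρ * ras_v t)) atBot (𝓝 0) := h.trans_tendsto ras_inv_tendsto
  have h2 : Tendsto (fun t : ℝ => (1 + ρ * ras_v t : ℂ)) atBot (𝓝 (1 + ρ * 0)) :=
    tendsto_const_nhds.add (tendsto_const_nhds.mul ras_v_tendsto)
  have h3 := h1.add h2
  simpa using h3

private lemma RasA.bdd {f : ℝ → ℂ} (h : RasA f) : f =O[atBot] (fun _ : ℝ => (1 : ℝ)) :=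
  h.tendsto.isBigO_one ℝ

private lemma ras_lin_bdd (ρ : ℂ) : (fun t => 1 + ρ * ras_v t) =O[atBot] (fun _ : ℝ => (1 : ℝ)) := by
  have h2 : Tendsto (fun t : ℝ => (1 + ρ * ras_v t : ℂ)) atBot (𝓝 (1 + ρ * 0)) :=
    tendsto_const_nhds.add (tendsto_const_nhds.mul ras_v_tendsto)
  exact h2.isBigO_one ℝ

private lemma RasA.mul {f g : ℝ → ℂ} (hf : RasA f) (hg : RasA g) : RasA (fun t => f t * g t) := by
  have hgb := hg.bdd
  obtain ⟨ρ, hf⟩ := hf
  obtain ⟨σ, hg⟩ := hg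
  refine ⟨ρ + σ, ?_⟩
  have h1 := hf.mul hgb
  have h2 := (ras_lin_bdd ρ).mul hg
  have h3 := ras_v2.const_mul_left (ρ * σ)
  have h12 := (h1.congr_right (g₂ := fun t : ℝ => ((t ^ 2)⁻¹ : ℝ)) (by intro t; simp)).add
    (h2.congr_right (g₂ := fun t : ℝ => ((t ^ 2)⁻¹ : ℝ)) (by intro t; simp))
  refine (h12.add h3).congr_left ?_
  intro t
  ring

private lemma RasA.one : RasA (fun _ => 1) := by
  refine ⟨0, ?_⟩
  simp only [zero_mul, add_zero, sub_self]
  exact Asymptotics.isBigO_zero _ _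

private lemma RasA.inv {f : ℝ → ℂ} (hf : RasA f) : RasA (fun t => (f t)⁻¹) := by
  have hT := hf.tendsto
  have hinv : Tendsto (fun t => (f t)⁻¹) atBot (𝓝 (1 : ℂ)⁻¹) := hT.inv₀ one_ne_zero
  have hib : (fun t => (f t)⁻¹) =O[atBot] (fun _ : ℝ => (1 : ℝ)) := hinv.isBigO_one ℝ
  have hne : ∀ᶠ t in atBot, f t ≠ 0 := hT.eventually_ne one_ne_zero
  obtain ⟨ρ, hf⟩ := hf
  refine ⟨-ρ, ?_⟩
  have h1 := ras_v2.const_mul_left (ρ * ρ)
  have h2 := (hf.mul (ras_lin_bdd (-ρ))).congr_right (g₂ := fun t : ℝ => ((t ^ 2)⁻¹ : ℝ)) (by intro t; simp)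
  have h3 := (hib.mul (h1.sub h2)).congr_right (g₂ := fun t : ℝ => ((t ^ 2)⁻¹ : ℝ)) (by intro t; simp)
  refine h3.congr' ?_ (EventuallyEq.refl _ _)
  filter_upwards [hne] with t ht
  field_simp
  ring

private lemma RasA.prod {ι : Type*} (s : Finset ι) (f : ι → ℝ → ℂ) (h : ∀ i ∈ s, RasA (f i)) :
    RasA (fun t => ∏ i ∈ s, f i t) := by
  classical
  induction s using Finset.induction_on with
  | empty => simpa using RasA.one
  | insert i s hi ih =>
    have h1 := (h i (Finset.mem_insert_self i s)).mul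
      (ih (fun j hj => h j (Finset.mem_insert_of_mem hj)))
    simpa only [Finset.prod_insert hi] using h1

private lemma ras_pos (c : ℝ) (hc : 0 < c) (a : ℂ) :
    RasA (fun t => Complex.Gamma ((c : ℂ) * (5 / 4 + t * I) + a) / smain c a (5 / 4 + t * I)) := by
  obtain ⟨ρ, C, T, hT, h⟩ := gamma_shift c hc a (5 / 4)
  refine ⟨ρ, ?_⟩
  apply Asymptotics.IsBigO.of_bound |C|
  filter_upwards [eventually_le_atBot (-T)] with t ht
  have ht0 : t < 0 := by linarith
  have h1 := h (5 / 4 + t * I) (by simp; norm_num) (by simp; rw [abs_of_neg ht0]; linarith)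
  rw [ras_v, ← div_eq_mul_inv ρ]
  refine h1.trans ?_
  have hn := ras_norm t
  have htne := ht0.ne
  have htp : 0 < t ^ 2 := by positivity
  have hsq : t ^ 2 ≤ ‖(5 / 4 + t * I : ℂ)‖ ^ 2 := by
    rw [← sq_abs t]
    gcongr
  rw [norm_inv, Real.norm_eq_abs, abs_of_pos htp, ← div_eq_mul_inv]
  calc C / ‖(5 / 4 + t * I : ℂ)‖ ^ 2 ≤ |C| / ‖(5 / 4 + t * I : ℂ)‖ ^ 2 := by
        gcongr
        exact le_abs_self C
    _ ≤ |C| / t ^ 2 := by gcongr

private lemma ras_neg (c : ℝ) (hc : 0 < c) (a : ℂ) :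
    RasA (fun t => Complex.Gamma ((c : ℂ) * (-(5 / 4 + t * I)) + a) / smain c a (-(5 / 4 + t * I))) := by
  obtain ⟨ρ, C, T, hT, h⟩ := gamma_shift c hc a (5 / 4)
  refine ⟨-ρ, ?_⟩
  apply Asymptotics.IsBigO.of_bound |C|
  filter_upwards [eventually_le_atBot (-T)] with t ht
  have ht0 : t < 0 := by linarith
  have h1 := h (-(5 / 4 + t * I)) (by simp; norm_num) (by simp; rw [abs_of_neg ht0]; linarith)
  have e1 : (-ρ) * ras_v t = ρ / (-(5 / 4 + t * I)) := by
    rw [ras_v, div_neg, div_eq_mul_inv]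
    ring
  rw [e1]
  refine h1.trans ?_
  have hn := ras_norm t
  have htne := ht0.ne
  have htp : 0 < t ^ 2 := by positivity
  have hsq : t ^ 2 ≤ ‖(5 / 4 + t * I : ℂ)‖ ^ 2 := by
    rw [← sq_abs t]
    gcongr
  rw [norm_inv, Real.norm_eq_abs, abs_of_pos htp, ← div_eq_mul_inv, norm_neg]
  calc C / ‖(5 / 4 + t * I : ℂ)‖ ^ 2 ≤ |C| / ‖(5 / 4 + t * I : ℂ)‖ ^ 2 := by
        gcongr
        exact le_abs_self C
    _ ≤ |C| / t ^ 2 := by gcongr

private lemma smain_ne_zero (c : ℝ) (a u : ℂ) : smain c a u ≠ 0 := Complex.exp_ne_zero _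

/-- the exponent of the main term -/
private noncomputable def ras_E {r : ℕ} (lam : Fin r → ℝ) (mu : Fin r → ℂ) : ℂ :=
  ∑ j, ((starRingEnd ℂ) (mu j) - mu j) * (Real.log (lam j) : ℂ) -
    I * Real.pi * (∑ j, mu j) + I * Real.pi * r / 2

private lemma ras_log_neg (s : ℂ) (hs : s.im < 0) : Complex.log (-s) = Complex.log s + I * Real.pi := by
  rw [Complex.log, Complex.log, norm_neg, Complex.arg_neg_eq_arg_add_pi_of_im_neg hs]
  push_cast
  ring

private lemma ras_main {r : ℕ} (lam : Fin r → ℝ) (mu : Fin r → ℂ)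
    (hs : ∑ j, lam j = 1) (hm : (∑ j, mu j).im = 0) (s : ℂ) (him : s.im < 0) :
    smain 1 (3 / 2) (-s) * (smain 1 (1 / 2) s)⁻¹ *
      (∏ j, Complex.exp (-((lam j : ℂ) * (2 * s - 1) * (Real.log (lam j) : ℂ)))) *
      ((∏ j, smain (lam j) ((starRingEnd ℂ) (mu j)) s) *
        ∏ j, (smain (lam j) ((lam j : ℂ) + mu j) (-s))⁻¹) = Complex.exp (ras_E lam mu) := by
  unfold smain
  rw [ras_log_neg s him]
  simp only [← Complex.exp_neg, ← Complex.exp_sum, ← Complex.exp_add]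
  congr 1
  have hsc : (∑ j, (lam j : ℂ)) = 1 := by
    rw [← Complex.ofReal_sum, hs]; simp
  have hmc : (∑ j, (starRingEnd ℂ) (mu j)) = ∑ j, mu j := by
    rw [← map_sum]
    exact Complex.conj_eq_iff_im.2 hm
  unfold ras_E
  have key : ∀ j : Fin r,
      -((lam j : ℂ) * (2 * s - 1) * (Real.log (lam j) : ℂ)) +
        ((((lam j : ℂ) * s + (starRingEnd ℂ) (mu j) - 1 / 2) * ((Real.log (lam j) : ℂ) + Complex.log s) -
          (lam j : ℂ) * s + (Real.log (2 * Real.pi) : ℂ) / 2) +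
        -(((lam j : ℂ) * -s + ((lam j : ℂ) + mu j) - 1 / 2) *
          ((Real.log (lam j) : ℂ) + (Complex.log s + I * Real.pi)) - (lam j : ℂ) * -s +
            (Real.log (2 * Real.pi) : ℂ) / 2)) =
      ((starRingEnd ℂ) (mu j) - mu j) * (Real.log (lam j) : ℂ) +
        (lam j : ℂ) * ((2 * s - 1) * Complex.log s - 2 * s + I * Real.pi * s - I * Real.pi) +
        ((starRingEnd ℂ) (mu j) * Complex.log s - mu j * (Complex.log s + I * Real.pi)) +
          I * Real.pi / 2 := by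
    intro j
    ring
  have hs1 : (∑ j, -((lam j : ℂ) * (2 * s - 1) * (Real.log (lam j) : ℂ))) +
        ((∑ j, (((lam j : ℂ) * s + (starRingEnd ℂ) (mu j) - 1 / 2) * ((Real.log (lam j) : ℂ) + Complex.log s) -
          (lam j : ℂ) * s + (Real.log (2 * Real.pi) : ℂ) / 2)) +
        ∑ j, -(((lam j : ℂ) * -s + ((lam j : ℂ) + mu j) - 1 / 2) *
          ((Real.log (lam j) : ℂ) + (Complex.log s + I * Real.pi)) - (lam j : ℂ) * -s +
            (Real.log (2 * Real.pi) : ℂ) / 2)) =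
      ∑ j, (((starRingEnd ℂ) (mu j) - mu j) * (Real.log (lam j) : ℂ) +
        (lam j : ℂ) * ((2 * s - 1) * Complex.log s - 2 * s + I * Real.pi * s - I * Real.pi) +
        ((starRingEnd ℂ) (mu j) * Complex.log s - mu j * (Complex.log s + I * Real.pi)) +
          I * Real.pi / 2) := by
    rw [← Finset.sum_add_distrib, ← Finset.sum_add_distrib]
    exact Finset.sum_congr rfl (fun j _ => key j)
  rw [Finset.sum_add_distrib (f := fun j => ((starRingEnd ℂ) (mu j) - mu j) * (Real.log (lam j) : ℂ) +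
        (lam j : ℂ) * ((2 * s - 1) * Complex.log s - 2 * s + I * Real.pi * s - I * Real.pi) +
        ((starRingEnd ℂ) (mu j) * Complex.log s - mu j * (Complex.log s + I * Real.pi))),
    Finset.sum_add_distrib (f := fun j => ((starRingEnd ℂ) (mu j) - mu j) * (Real.log (lam j) : ℂ) +
        (lam j : ℂ) * ((2 * s - 1) * Complex.log s - 2 * s + I * Real.pi * s - I * Real.pi)),
    Finset.sum_add_distrib (f := fun j => ((starRingEnd ℂ) (mu j) - mu j) * (Real.log (lam j) : ℂ)),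
    Finset.sum_sub_distrib, ← Finset.sum_mul, ← Finset.sum_mul, ← Finset.sum_mul, hsc, hmc,
    Finset.sum_const, Finset.card_univ, Fintype.card_fin, nsmul_eq_mul] at hs1
  have e1 : (Real.log 1 : ℂ) = 0 := by simp
  rw [e1]
  simp only [Complex.ofReal_one]
  linear_combination hs1

private lemma ras_alg (G1 G2 P G3 G4 m1 m2 m3 m4 : ℂ) (h1 : m1 ≠ 0) (h2 : m2 ≠ 0) (h3 : m3 ≠ 0)
    (h4 : m4 ≠ 0) : G1 * G2⁻¹ * P * (G3 * G4⁻¹) =
      (m1 * m2⁻¹ * P * (m3 * m4⁻¹)) * (G1 / m1 * (G2 / m2)⁻¹ * (G3 / m3 * (G4 / m4)⁻¹)) := by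
  rw [inv_div, inv_div, div_eq_mul_inv m2, div_eq_mul_inv m4]
  generalize G2⁻¹ = a
  generalize G4⁻¹ = b
  field_simp

theorem R_asymp {r : ℕ} (lam : Fin r → ℝ) (mu : Fin r → ℂ) (hl : ∀ j, 0 < lam j)
    (hs : ∑ j, lam j = 1) (hm : (∑ j, mu j).im = 0) :
    ∃ (c₀ r₁ : ℂ) (K T : ℝ), ‖c₀‖ = 1 ∧ 1 ≤ T ∧ ∀ t : ℝ, t ≤ -T →
      ‖R lam mu (5 / 4 + t * I) - c₀ * (1 + r₁ / (3 / 4 + t * I))‖ ≤ K / t ^ 2 := by
  have hA : RasA (fun t =>
      (Complex.Gamma (((1 : ℝ) : ℂ) * (-(5 / 4 + t * I)) + 3 / 2) / smain 1 (3 / 2) (-(5 / 4 + t * I))) *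
      (Complex.Gamma (((1 : ℝ) : ℂ) * (5 / 4 + t * I) + 1 / 2) / smain 1 (1 / 2) (5 / 4 + t * I))⁻¹ *
      ((∏ j, (Complex.Gamma ((lam j : ℂ) * (5 / 4 + t * I) + (starRingEnd ℂ) (mu j)) /
          smain (lam j) ((starRingEnd ℂ) (mu j)) (5 / 4 + t * I))) *
        ∏ j, (Complex.Gamma ((lam j : ℂ) * (-(5 / 4 + t * I)) + ((lam j : ℂ) + mu j)) /
          smain (lam j) ((lam j : ℂ) + mu j) (-(5 / 4 + t * I)))⁻¹)) := by
    refine RasA.mul (RasA.mul (ras_neg 1 one_pos _) (ras_pos 1 one_pos _).inv) (RasA.mul ?_ ?_)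
    · exact RasA.prod _ _ (fun j _ => ras_pos (lam j) (hl j) _)
    · exact RasA.prod _ _ (fun j _ => (ras_neg (lam j) (hl j) _).inv)
  set g : ℝ → ℂ := (fun t =>
      (Complex.Gamma (((1 : ℝ) : ℂ) * (-(5 / 4 + t * I)) + 3 / 2) / smain 1 (3 / 2) (-(5 / 4 + t * I))) *
      (Complex.Gamma (((1 : ℝ) : ℂ) * (5 / 4 + t * I) + 1 / 2) / smain 1 (1 / 2) (5 / 4 + t * I))⁻¹ *
      ((∏ j, (Complex.Gamma ((lam j : ℂ) * (5 / 4 + t * I) + (starRingEnd ℂ) (mu j)) /
          smain (lam j) ((starRingEnd ℂ) (mu j)) (5 / 4 + t * I))) *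
        ∏ j, (Complex.Gamma ((lam j : ℂ) * (-(5 / 4 + t * I)) + ((lam j : ℂ) + mu j)) /
          smain (lam j) ((lam j : ℂ) + mu j) (-(5 / 4 + t * I)))⁻¹)) with hg
  have hR : ∀ t : ℝ, t < 0 → R lam mu (5 / 4 + t * I) = Complex.exp (ras_E lam mu) * g t := by
    intro t ht
    rw [← ras_main lam mu hs hm (5 / 4 + t * I) (by simpa using ht), hg]
    unfold R gratio
    set s : ℂ := 5 / 4 + t * I with hs'
    have e1 : (3 / 2 - s : ℂ) = ((1 : ℝ) : ℂ) * (-s) + 3 / 2 := by push_cast; ring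
    have e2 : (s + 1 / 2 : ℂ) = ((1 : ℝ) : ℂ) * s + 1 / 2 := by push_cast; ring
    have e3 : ∀ j, (lam j : ℂ) * (1 - s) + mu j = (lam j : ℂ) * (-s) + ((lam j : ℂ) + mu j) := by
      intro j; ring
    rw [e1, e2]
    simp only [e3, Finset.prod_inv_distrib, Finset.prod_div_distrib]
    have n1 := smain_ne_zero 1 (3 / 2) (-s)
    have n2 := smain_ne_zero 1 (1 / 2) s
    have n3 : ∏ j, smain (lam j) ((starRingEnd ℂ) (mu j)) s ≠ 0 :=
      Finset.prod_ne_zero_iff.2 (fun j _ => smain_ne_zero _ _ _)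
    have n4 : ∏ j, smain (lam j) ((lam j : ℂ) + mu j) (-s) ≠ 0 :=
      Finset.prod_ne_zero_iff.2 (fun j _ => smain_ne_zero _ _ _)
    exact ras_alg _ _ _ _ _ _ _ _ _ n1 n2 n3 n4
  obtain ⟨ρ, h⟩ := hA
  obtain ⟨K, hK⟩ := h.bound
  obtain ⟨T0, hT0⟩ := eventually_atBot.1 hK
  refine ⟨Complex.exp (ras_E lam mu), ρ, K + ‖ρ‖ / 2, max 1 (-T0), ?_, le_max_left _ _, ?_⟩
  · rw [Complex.norm_exp]
    have hre : (ras_E lam mu).re = 0 := by
      unfold ras_E
      have hmr : (∑ j, mu j) = (((∑ j, mu j).re : ℝ) : ℂ) := by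
        apply Complex.ext
        · simp
        · simp [hm]
      have h1 : (I * Real.pi * (∑ j, mu j)).re = 0 := by
        rw [hmr]
        simp
      have h2 : (I * Real.pi * r / 2 : ℂ).re = 0 := by
        have : (I * Real.pi * r / 2 : ℂ) = I * ((Real.pi * r / 2 : ℝ) : ℂ) := by push_cast; ring
        rw [this]
        simp
      have h3 : (∑ j, ((starRingEnd ℂ) (mu j) - mu j) * (Real.log (lam j) : ℂ)).re = 0 := by
        rw [Complex.re_sum]
        apply Finset.sum_eq_zero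
        intro j _
        simp
      rw [Complex.add_re, Complex.sub_re, h1, h2, h3]
      simp
    rw [hre, Real.exp_zero]
  · intro t ht
    have ht1 : t ≤ -1 := by
      have := le_max_left (1 : ℝ) (-T0)
      linarith
    have htT : t ≤ T0 := by
      have := le_max_right (1 : ℝ) (-T0)
      linarith
    have ht0 : t < 0 := by linarith
    have htne := ht0.ne
    have htp : 0 < t ^ 2 := by positivity
    rw [hR t ht0, ← mul_sub, norm_mul]
    have hnorm1 : ‖Complex.exp (ras_E lam mu)‖ = 1 := by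
      rw [Complex.norm_exp]
      have hre : (ras_E lam mu).re = 0 := by
        unfold ras_E
        have hmr : (∑ j, mu j) = (((∑ j, mu j).re : ℝ) : ℂ) := by
          apply Complex.ext
          · simp
          · simp [hm]
        have h1 : (I * Real.pi * (∑ j, mu j)).re = 0 := by
          rw [hmr]
          simp
        have h2 : (I * Real.pi * r / 2 : ℂ).re = 0 := by
          have : (I * Real.pi * r / 2 : ℂ) = I * ((Real.pi * r / 2 : ℝ) : ℂ) := by push_cast; ring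
          rw [this]
          simp
        have h3 : (∑ j, ((starRingEnd ℂ) (mu j) - mu j) * (Real.log (lam j) : ℂ)).re = 0 := by
          rw [Complex.re_sum]
          apply Finset.sum_eq_zero
          intro j _
          simp
        rw [Complex.add_re, Complex.sub_re, h1, h2, h3]
        simp
      rw [hre, Real.exp_zero]
    rw [hnorm1, one_mul]
    have hb := hT0 t htT
    rw [norm_inv, Real.norm_eq_abs, abs_of_pos htp] at hb
    have hn1 : |t| ≤ ‖(5 / 4 + t * I : ℂ)‖ := ras_norm t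
    have hn2 : |t| ≤ ‖(3 / 4 + t * I : ℂ)‖ := by
      have := Complex.abs_im_le_norm (3 / 4 + t * I : ℂ)
      simpa using this
    have htabs : 0 < |t| := abs_pos.2 htne
    have h5 : (5 / 4 + t * I : ℂ) ≠ 0 := by
      intro h
      rw [h, norm_zero] at hn1
      linarith
    have h3 : (3 / 4 + t * I : ℂ) ≠ 0 := by
      intro h
      rw [h, norm_zero] at hn2
      linarith
    have hdiff : g t - (1 + ρ / (3 / 4 + t * I)) = (g t - (1 + ρ * ras_v t)) +
        (-(ρ / 2)) * ((5 / 4 + t * I : ℂ)⁻¹ * (3 / 4 + t * I : ℂ)⁻¹) := by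
      have hab : ∀ a b : ℂ, a ≠ 0 → b ≠ 0 → b⁻¹ - a⁻¹ = (a - b) * (a⁻¹ * b⁻¹) := by
        intro a b ha hb
        field_simp
      have h9 := hab _ _ h5 h3
      have h10 : ((5 / 4 + t * I) - (3 / 4 + t * I) : ℂ) = 1 / 2 := by ring
      rw [h10] at h9
      rw [ras_v, div_eq_mul_inv]
      linear_combination (-ρ) * h9
    rw [hdiff]
    refine (norm_add_le _ _).trans ?_
    have h6 : ‖(-(ρ / 2)) * ((5 / 4 + t * I : ℂ)⁻¹ * (3 / 4 + t * I : ℂ)⁻¹)‖ ≤ (‖ρ‖ / 2) * (t ^ 2)⁻¹ := by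
      rw [norm_mul, norm_neg, norm_div, norm_mul, norm_inv, norm_inv, ← sq_abs t, pow_two, mul_inv]
      have : ‖(2 : ℂ)‖ = 2 := by simp
      rw [this]
      gcongr
    have h7 : (K + ‖ρ‖ / 2) / t ^ 2 = K * (t ^ 2)⁻¹ + (‖ρ‖ / 2) * (t ^ 2)⁻¹ := by
      rw [div_eq_mul_inv]; ring
    rw [h7]
    exact add_le_add hb h6

end Pool.Agent.H14.Sel
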