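import Mathlib
import Pool.Agent.H14.Sel.Defs
import Pool.Agent.H14.Sel.Conj
import Pool.Agent.H14.Sel.RAsy

set_option autoImplicit false

/-!
# Module RBD (MP_8e9775_nt): decomposition of `R` on the line `Re s = 5/4`

`R_cont`: `t ↦ R lam mu (5/4 + i t)` is continuous: `3/2 - s` has real part `1/4 > 0`,
`lam_j s + conj mu_j` has positive real part (so `Γ` is differentiable there), and `(Γ ·)⁻¹` is
entire (`Complex.differentiable_one_div_Gamma`).

`R_decomp`: take `c₀, r₁, K₀, T` from RASY. For `t ≤ -T` use RASY and `(1+|t|)^2 ≤ 4 t^2`. For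
`-T ≤ t ≤ 0` both `R` and `c₀ (1 + r₁/(3/4+it))` are continuous, so bounded on the compact interval,
and `(1+|t|)^2 ≤ (1+T)^2`. For `t ≥ 0`: RASY for the conjugate data gives boundedness of
`R lam (conj mu) (5/4 + i t')` for `t' ≤ -T'`, and `R lam mu (5/4 + i t) = conj (R lam (conj mu) (5/4 - i t))`
by `R_cj`; on `[0, T']` use continuity.
-/

namespace Pool.Agent.H14.Sel

open Complex MeasureTheory Filter Topology Pool.Agent.H11.Selberg

lemma RBd_invGamma_cont : Continuous (fun s : ℂ => (Complex.Gamma s)⁻¹) :=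
  Complex.differentiable_one_div_Gamma.continuous

lemma RBd_Gamma_contAt {s : ℂ} (hs : 0 < s.re) : ContinuousAt Complex.Gamma s := by
  refine (Complex.differentiableAt_Gamma s ?_).continuousAt
  intro m h
  rw [h] at hs
  simp at hs
  have : (0 : ℝ) ≤ (m : ℝ) := Nat.cast_nonneg m
  linarith

theorem R_cont {r : ℕ} (lam : Fin r → ℝ) (mu : Fin r → ℂ) (hl : ∀ j, 0 < lam j)
    (hmu : ∀ j, 0 ≤ (mu j).re) : Continuous (fun t : ℝ => R lam mu (5 / 4 + t * I)) := by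
  unfold R gratio
  refine Continuous.mul (Continuous.mul (Continuous.mul ?_ ?_) ?_) (Continuous.mul ?_ ?_)
  · rw [continuous_iff_continuousAt]
    intro t
    refine ContinuousAt.comp (g := Complex.Gamma) (f := fun t : ℝ => 3 / 2 - (5 / 4 + (t : ℂ) * I))
      (RBd_Gamma_contAt ?_) ?_
    · have : (3 / 2 - (5 / 4 + (t : ℂ) * I)).re = 1 / 4 := by
        simp
        norm_num
      rw [this]; norm_num
    · fun_prop
  · exact RBd_invGamma_cont.comp (by fun_prop)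
  · fun_prop
  · refine continuous_finsetProd _ (fun j _ => ?_)
    rw [continuous_iff_continuousAt]
    intro t
    refine ContinuousAt.comp (g := Complex.Gamma)
      (f := fun t : ℝ => (lam j : ℂ) * (5 / 4 + (t : ℂ) * I) + (starRingEnd ℂ) (mu j))
      (RBd_Gamma_contAt ?_) ?_
    · have : ((lam j : ℂ) * (5 / 4 + (t : ℂ) * I) + (starRingEnd ℂ) (mu j)).re =
          lam j * (5 / 4) + (mu j).re := by
        simp
      rw [this]
      have h1 := hl j
      have h2 := hmu j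
      positivity
    · fun_prop
  · refine continuous_finsetProd _ (fun j _ => ?_)
    exact RBd_invGamma_cont.comp (by fun_prop)

lemma RBd_model_norm (r₁ : ℂ) (t : ℝ) : ‖r₁ / (3 / 4 + t * I)‖ ≤ ‖r₁‖ * 2 := by
  rw [norm_div, div_le_iff₀ (by
    rw [norm_pos_iff]
    intro h
    have := congrArg Complex.re h
    simp at this)]
  have h1 : (1 / 2 : ℝ) ≤ ‖(3 / 4 + t * I : ℂ)‖ := by
    have h2 := Complex.abs_re_le_norm (3 / 4 + t * I : ℂ)
    have h3 : (3 / 4 + t * I : ℂ).re = 3 / 4 := by simp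
    rw [h3, abs_of_pos (by norm_num)] at h2
    linarith
  have h4 := norm_nonneg r₁
  nlinarith

lemma RBd_half {r : ℕ} (lam : Fin r → ℝ) (mu : Fin r → ℂ) (hl : ∀ j, 0 < lam j)
    (hmu : ∀ j, 0 ≤ (mu j).re) (hs : ∑ j, lam j = 1) (hm : (∑ j, mu j).im = 0) :
    ∃ (c₀ r₁ : ℂ) (K : ℝ), ‖c₀‖ = 1 ∧ 0 ≤ K ∧
      (∀ t : ℝ, t ≤ 0 → ‖R lam mu (5 / 4 + t * I) - c₀ * (1 + r₁ / (3 / 4 + t * I))‖ ≤
        K / (1 + |t|) ^ 2) := by
  obtain ⟨c₀, r₁, K, T, hc, hT, hK⟩ := R_asymp lam mu hl hs hm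
  have hcont : Continuous (fun t : ℝ =>
      ‖R lam mu (5 / 4 + t * I) - c₀ * (1 + r₁ / (3 / 4 + t * I))‖) := by
    refine Continuous.norm (Continuous.sub (R_cont lam mu hl hmu) ?_)
    refine Continuous.mul continuous_const (Continuous.add continuous_const ?_)
    refine Continuous.div continuous_const (by fun_prop) ?_
    intro t h
    have := congrArg Complex.re h
    simp at this
  obtain ⟨B, hB⟩ := (isCompact_Icc (a := -T) (b := (0 : ℝ))).exists_bound_of_continuousOn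
    hcont.continuousOn
  refine ⟨c₀, r₁, |K| * 4 + |B| * (1 + T) ^ 2, hc, by positivity, ?_⟩
  intro t ht
  have habs : |t| = -t := abs_of_nonpos ht
  have hpos : 0 < (1 + |t|) ^ 2 := by positivity
  rcases le_total t (-T) with h1 | h1
  · refine (hK t h1).trans ?_
    have ht1 : t ≤ -1 := by linarith
    have ht2 : 0 < t ^ 2 := by nlinarith
    rw [div_le_div_iff₀ ht2 hpos]
    have h2 : (1 + |t|) ^ 2 ≤ 4 * t ^ 2 := by
      rw [habs]; nlinarith
    have h3 : K ≤ |K| := le_abs_self K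
    have h4 : 0 ≤ |K| := abs_nonneg K
    have h5 : 0 ≤ |B| * (1 + T) ^ 2 := by positivity
    calc K * (1 + |t|) ^ 2 ≤ |K| * (1 + |t|) ^ 2 := by gcongr
      _ ≤ |K| * (4 * t ^ 2) := by gcongr
      _ ≤ (|K| * 4 + |B| * (1 + T) ^ 2) * t ^ 2 := by nlinarith
  · have h2 := hB t ⟨h1, ht⟩
    rw [Real.norm_eq_abs, abs_of_nonneg (norm_nonneg _)] at h2
    refine h2.trans ?_
    rw [le_div_iff₀ hpos]
    have h3 : B ≤ |B| := le_abs_self B
    have h4 : (1 + |t|) ^ 2 ≤ (1 + T) ^ 2 := by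
      rw [habs]
      have : 0 ≤ 1 + -t := by linarith
      gcongr
      linarith
    have h5 : 0 ≤ |B| := abs_nonneg B
    calc B * (1 + |t|) ^ 2 ≤ |B| * (1 + |t|) ^ 2 := by gcongr
      _ ≤ |B| * (1 + T) ^ 2 := by gcongr
      _ ≤ |K| * 4 + |B| * (1 + T) ^ 2 := by
        have := abs_nonneg K
        linarith

lemma RBd_bdd {r : ℕ} (lam : Fin r → ℝ) (mu : Fin r → ℂ) (c₀ r₁ : ℂ) (K : ℝ) (hc : ‖c₀‖ = 1)
    (hK0 : 0 ≤ K)
    (h : ∀ t : ℝ, t ≤ 0 → ‖R lam mu (5 / 4 + t * I) - c₀ * (1 + r₁ / (3 / 4 + t * I))‖ ≤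
        K / (1 + |t|) ^ 2) (t : ℝ) (ht : t ≤ 0) :
    ‖R lam mu (5 / 4 + t * I)‖ ≤ K + (1 + ‖r₁‖ * 2) := by
  have h1 := h t ht
  have h2 : K / (1 + |t|) ^ 2 ≤ K := by
    refine div_le_self hK0 ?_
    have := abs_nonneg t
    nlinarith
  have h3 : ‖c₀ * (1 + r₁ / (3 / 4 + t * I))‖ ≤ 1 + ‖r₁‖ * 2 := by
    rw [norm_mul, hc, one_mul]
    refine (norm_add_le _ _).trans ?_
    rw [norm_one]
    have := RBd_model_norm r₁ t
    linarith
  have h4 := norm_add_le (R lam mu (5 / 4 + t * I) - c₀ * (1 + r₁ / (3 / 4 + t * I)))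
    (c₀ * (1 + r₁ / (3 / 4 + t * I)))
  rw [sub_add_cancel] at h4
  linarith

theorem R_decomp {r : ℕ} (lam : Fin r → ℝ) (mu : Fin r → ℂ) (hl : ∀ j, 0 < lam j)
    (hmu : ∀ j, 0 ≤ (mu j).re) (hs : ∑ j, lam j = 1) (hm : (∑ j, mu j).im = 0) :
    ∃ (c₀ r₁ : ℂ) (K : ℝ), ‖c₀‖ = 1 ∧
      (∀ t : ℝ, t ≤ 0 → ‖R lam mu (5 / 4 + t * I) - c₀ * (1 + r₁ / (3 / 4 + t * I))‖ ≤
        K / (1 + |t|) ^ 2) ∧
      (∀ t : ℝ, ‖R lam mu (5 / 4 + t * I)‖ ≤ K) := by
  obtain ⟨c₀, r₁, K, hc, hK0, hK⟩ := RBd_half lam mu hl hmu hs hm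
  obtain ⟨c₀', r₁', K', hc', hK0', hK'⟩ := RBd_half lam (fun j => (starRingEnd ℂ) (mu j)) hl
    (by intro j; simpa using hmu j) hs (by
      have : (∑ j, (starRingEnd ℂ) (mu j)) = (starRingEnd ℂ) (∑ j, mu j) := by
        rw [map_sum]
      rw [this, Complex.conj_im, hm, neg_zero])
  have hn1 := norm_nonneg r₁
  have hn2 := norm_nonneg r₁'
  refine ⟨c₀, r₁, (K + (1 + ‖r₁‖ * 2)) + (K' + (1 + ‖r₁'‖ * 2)), hc, ?_, ?_⟩
  · intro t ht
    refine (hK t ht).trans ?_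
    gcongr
    linarith
  · intro t
    rcases le_total t 0 with ht | ht
    · have := RBd_bdd lam mu c₀ r₁ K hc hK0 hK t ht
      linarith
    · have h1 := RBd_bdd lam (fun j => (starRingEnd ℂ) (mu j)) c₀' r₁' K' hc' hK0' hK' (-t)
        (by linarith)
      rw [R_cj, Complex.norm_conj] at h1
      have h2 : (starRingEnd ℂ) (5 / 4 + ((-t : ℝ) : ℂ) * I) = 5 / 4 + (t : ℂ) * I := by
        have h54 : (5 / 4 : ℂ) = ((5 / 4 : ℝ) : ℂ) := by push_cast; ring
        rw [h54, map_add, map_mul, Complex.conj_ofReal, Complex.conj_ofReal, Complex.conj_I]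
        push_cast
        ring
      rw [h2] at h1
      linarith

end Pool.Agent.H14.Sel
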