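import Mathlib
import Pool.Agent.H14.Sel.Defs

set_option autoImplicit false

/-!
# Module FEXT (MP_8e9775_nt): the functional equation in the half plane `Re s > 0`

For `0 < Re s < 1`: the functional equation at `1 - s` reads
`Φ(1 - s) = ε conj Φ(conj s)` (as `1 - conj (1 - s) = conj s`), i.e.
`Q^(1-s) ∏ Γ(lam_j (1 - s) + mu_j) H(1 - s) = ε Q^s ∏ Γ(lam_j s + conj mu_j) conj (H (conj s))`
(`Complex.Gamma_conj`, `Q > 0`). No Gamma value on the left vanishes (`Complex.Gamma_ne_zero_of_re_pos`, real part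
`lam_j (1 - Re s) + Re mu_j > 0`). Divide: this is the claim in the strip.
Both sides are differentiable on the (convex, so preconnected) open half plane `Re s > 0`:
`s ↦ Γ(lam_j s + conj mu_j)` (`Complex.differentiableAt_Gamma`, real part positive),
`Complex.differentiable_one_div_Gamma` for the inverses, and `s ↦ conj (H (conj s))` is entire
(e.g. `Differentiable.star_star`/`DifferentiableAt.conj_conj`; look for `conj_conj` in Mathlib).
Identity theorem: `AnalyticOnNhd.eqOn_of_preconnected_of_eventuallyEq`.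
-/

namespace Pool.Agent.H14.Sel

open Complex MeasureTheory Filter Topology Pool.Agent.H11.Selberg

private theorem feq_strip {a : ℕ → ℂ} {H : ℂ → ℂ} {Q : ℝ} {r : ℕ} {lam : Fin r → ℝ}
    {mu : Fin r → ℂ} {ε : ℂ} (h : Dat a H Q lam mu ε) (s : ℂ) (hs : 0 < s.re) (hs1 : s.re < 1) :
    H (1 - s) = ε * (Q : ℂ) ^ (2 * s - 1) * gratio lam mu s *
      (starRingEnd ℂ) (H ((starRingEnd ℂ) s)) := by
  have hf := h.feq (1 - s) (by simp; linarith) (by simp; linarith)
  have e1 : 1 - (starRingEnd ℂ) (1 - s) = (starRingEnd ℂ) s := by simp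
  rw [e1] at hf
  unfold completed at hf
  have hQ : (Q : ℂ) ≠ 0 := by exact_mod_cast h.Qpos.ne'
  have hQc : (starRingEnd ℂ) ((Q : ℂ) ^ ((starRingEnd ℂ) s)) = (Q : ℂ) ^ s := by
    rw [Complex.cpow_def_of_ne_zero hQ, Complex.cpow_def_of_ne_zero hQ, ← Complex.exp_conj,
      map_mul, Complex.conj_conj]
    congr 2
    rw [← Complex.ofReal_log h.Qpos.le, Complex.conj_ofReal]
  have hG : (starRingEnd ℂ) (∏ j, Complex.Gamma ((lam j : ℂ) * (starRingEnd ℂ) s + mu j)) =
      ∏ j, Complex.Gamma ((lam j : ℂ) * s + (starRingEnd ℂ) (mu j)) := by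
    rw [map_prod]
    refine Finset.prod_congr rfl fun j _ => ?_
    rw [← Complex.Gamma_conj]
    simp
  rw [map_mul, map_mul, hQc, hG] at hf
  have hne : ∀ j, Complex.Gamma ((lam j : ℂ) * (1 - s) + mu j) ≠ 0 := by
    intro j
    apply Complex.Gamma_ne_zero_of_re_pos
    have h1 := h.lampos j
    have h2 := h.mupos j
    simp only [Complex.add_re, Complex.mul_re, Complex.ofReal_re, Complex.ofReal_im,
      Complex.sub_re, Complex.one_re, zero_mul, sub_zero]
    have : 0 < lam j * (1 - s.re) := mul_pos h1 (by linarith)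
    linarith
  have hP : (∏ j, Complex.Gamma ((lam j : ℂ) * (1 - s) + mu j)) ≠ 0 :=
    Finset.prod_ne_zero_iff.2 fun j _ => hne j
  have hQ1 : (Q : ℂ) ^ (1 - s) ≠ 0 := by
    rw [Complex.cpow_def_of_ne_zero hQ]; exact Complex.exp_ne_zero _
  have hQQ : (Q : ℂ) ^ (2 * s - 1) * (Q : ℂ) ^ (1 - s) = (Q : ℂ) ^ s := by
    rw [← Complex.cpow_add _ _ hQ]
    congr 1
    ring
  unfold gratio
  rw [Finset.prod_inv_distrib]
  have key : ((Q : ℂ) ^ (1 - s) * ∏ j, Complex.Gamma ((lam j : ℂ) * (1 - s) + mu j)) *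
      H (1 - s) = ((Q : ℂ) ^ (1 - s) * ∏ j, Complex.Gamma ((lam j : ℂ) * (1 - s) + mu j)) *
      (ε * (Q : ℂ) ^ (2 * s - 1) * ((∏ j, Complex.Gamma ((lam j : ℂ) * s + (starRingEnd ℂ) (mu j)))
        * (∏ j, Complex.Gamma ((lam j : ℂ) * (1 - s) + mu j))⁻¹) *
      (starRingEnd ℂ) (H ((starRingEnd ℂ) s))) := by
    rw [hf, ← hQQ]
    generalize (∏ j, Complex.Gamma ((lam j : ℂ) * (1 - s) + mu j)) = P at hP ⊢
    generalize (∏ j, Complex.Gamma ((lam j : ℂ) * s + (starRingEnd ℂ) (mu j))) = P'
    field_simp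
  exact mul_left_cancel₀ (mul_ne_zero hQ1 hP) key

theorem feq_ext {a : ℕ → ℂ} {H : ℂ → ℂ} {Q : ℝ} {r : ℕ} {lam : Fin r → ℝ} {mu : Fin r → ℂ}
    {ε : ℂ} (h : Dat a H Q lam mu ε) (s : ℂ) (hs : 0 < s.re) :
    H (1 - s) = ε * (Q : ℂ) ^ (2 * s - 1) * gratio lam mu s *
      (starRingEnd ℂ) (H ((starRingEnd ℂ) s)) := by
  have hQ : (Q : ℂ) ≠ 0 := by exact_mod_cast h.Qpos.ne'
  set U : Set ℂ := {z | 0 < z.re} with hU
  have hUo : IsOpen U := isOpen_lt continuous_const Complex.continuous_re
  have hUc : IsPreconnected U := (convex_halfSpace_re_gt 0).isPreconnected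
  have hL : AnalyticOnNhd ℂ (fun z => H (1 - z)) U := by
    apply DifferentiableOn.analyticOnNhd _ hUo
    exact (h.diff.comp (by fun_prop)).differentiableOn
  have hR : AnalyticOnNhd ℂ (fun z => ε * (Q : ℂ) ^ (2 * z - 1) * gratio lam mu z *
      (starRingEnd ℂ) (H ((starRingEnd ℂ) z))) U := by
    apply DifferentiableOn.analyticOnNhd _ hUo
    intro z hz
    apply DifferentiableAt.differentiableWithinAt
    have hz0 : 0 < z.re := hz
    have d1 : DifferentiableAt ℂ (fun z : ℂ => (Q : ℂ) ^ (2 * z - 1)) z := by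
      apply DifferentiableAt.const_cpow (by fun_prop)
      left; exact hQ
    have d2 : DifferentiableAt ℂ (fun z : ℂ => gratio lam mu z) z := by
      unfold gratio
      apply DifferentiableAt.mul
      · apply DifferentiableAt.fun_finsetProd
        intro j _
        have h1 : DifferentiableAt ℂ Complex.Gamma ((lam j : ℂ) * z + (starRingEnd ℂ) (mu j)) := by
          apply Complex.differentiableAt_Gamma
          intro m hm
          have hre := congrArg Complex.re hm
          have h3 := h.lampos j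
          have h4 := h.mupos j
          simp only [Complex.add_re, Complex.mul_re, Complex.ofReal_re, Complex.ofReal_im,
            zero_mul, sub_zero, Complex.conj_re, Complex.neg_re, Complex.natCast_re] at hre
          have : 0 < lam j * z.re := mul_pos h3 hz0
          have hm0 : (0 : ℝ) ≤ m := Nat.cast_nonneg m
          linarith
        exact h1.comp z (by fun_prop)
      · apply DifferentiableAt.fun_finsetProd
        intro j _
        have h1 : DifferentiableAt ℂ (fun w => (Complex.Gamma w)⁻¹)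
            ((lam j : ℂ) * (1 - z) + mu j) := Complex.differentiable_one_div_Gamma _
        exact DifferentiableAt.comp (f := fun z : ℂ => (lam j : ℂ) * (1 - z) + mu j) z h1
          (by fun_prop)
    have d3 : DifferentiableAt ℂ (fun z : ℂ => (starRingEnd ℂ) (H ((starRingEnd ℂ) z))) z := by
      have := (h.diff ((starRingEnd ℂ) z)).conj_conj
      simpa [Function.comp_def] using this
    exact ((d1.const_mul ε).mul d2).mul d3
  have hhalf : (1 / 2 : ℂ) ∈ U := by
    show (0 : ℝ) < (1 / 2 : ℂ).re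
    norm_num
  have hev : (fun z => H (1 - z)) =ᶠ[𝓝 (1 / 2 : ℂ)]
      (fun z => ε * (Q : ℂ) ^ (2 * z - 1) * gratio lam mu z *
      (starRingEnd ℂ) (H ((starRingEnd ℂ) z))) := by
    have hop : IsOpen {z : ℂ | 0 < z.re ∧ z.re < 1} :=
      (isOpen_lt continuous_const Complex.continuous_re).inter
        (isOpen_lt Complex.continuous_re continuous_const)
    have hmem : (1 / 2 : ℂ) ∈ {z : ℂ | 0 < z.re ∧ z.re < 1} := by
      constructor <;> norm_num
    filter_upwards [hop.mem_nhds hmem] with z hz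
    exact feq_strip h z hz.1 hz.2
  have := hL.eqOn_of_preconnected_of_eventuallyEq hR hUc hhalf hev
  exact this hs

end Pool.Agent.H14.Sel
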