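import Mathlib
import Pool.Agent.H14.Sel.Defs
import Pool.Agent.H14.Sel.Fext
import Pool.Agent.H14.Sel.RBd
import Pool.Agent.H14.Sel.GamB

set_option autoImplicit false

/-!
# Module GROW (MP_8e9775_nt): polynomial growth of `H` in the strip `-1/4 ≤ Re s ≤ 5/4`

* On `Re s = 5/4`: `‖H s‖ ≤ ∑ ‖a n‖ n^(-5/4)` (`h.eqL`, `h.summ`).
* On `Re s = -1/4`, `s = -1/4 + i t`: with `s' = 1 - s = 5/4 - i t`, FEXT gives
  `‖H s‖ = Q^(3/2) ‖gratio lam mu s'‖ ‖H (conj s')‖` and by the definition of `R`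
  `‖gratio s'‖ = ‖R s'‖ ‖Γ(s' + 1/2)‖/‖Γ(3/2 - s')‖ * ∏ |exp (lam_j (2 s' - 1) log lam_j)|`, the last
  product is the constant `∏ lam_j^(3 lam_j/2)`; `R` is bounded (RBD) and the Gamma quotient is
  `‖Γ(7/4 + i t')‖/‖Γ(1/4 - i t')‖ ≤ C (1+|t|)^2` with `t' = -t` (GAMB).
* Phragmen-Lindelof (`PhragmenLindelof.vertical_strip` with `a = -1/4`, `b = 5/4`) applied to
  `f s = H s/(s + 2)^2`: bounded on both edges since `‖s + 2‖ ≥ c (1 + |Im s|)`; the growth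
  hypothesis with `c = 1 < π/(3/2)`, `B = 1`: by `h.fin`
  `‖H s‖ ≤ C exp (B (1+‖s‖)^A)` and `B (1 + ‖s‖)^A ≤ exp |Im s|` for `|Im s|` large in the strip.
  Conclusion: `‖H s‖ ≤ C ‖s + 2‖^2 ≤ C' (1+|Im s|)^2`.
-/

namespace Pool.Agent.H14.Sel

open Complex MeasureTheory Filter Topology Pool.Agent.H11.Selberg

private theorem right_edge {a : ℕ → ℂ} {H : ℂ → ℂ} {Q : ℝ} {r : ℕ} {lam : Fin r → ℝ}
    {mu : Fin r → ℂ} {ε : ℂ} (h : Dat a H Q lam mu ε) :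
    ∃ C : ℝ, 0 ≤ C ∧ ∀ s : ℂ, s.re = 5 / 4 → ‖H s‖ ≤ C := by
  refine ⟨∑' n : ℕ, ‖LSeries.term a (5 / 4 : ℂ) n‖, tsum_nonneg fun n => norm_nonneg _, ?_⟩
  intro s hs
  have h1 : 1 < s.re := by rw [hs]; norm_num
  have h2 : (1 : ℝ) < ((5 / 4 : ℂ)).re := by norm_num
  have he : ∀ n : ℕ, ‖LSeries.term a s n‖ = ‖LSeries.term a (5 / 4 : ℂ) n‖ := by
    intro n
    rw [LSeries.norm_term_eq, LSeries.norm_term_eq, hs]
    norm_num
  have hsum : Summable fun n : ℕ => ‖LSeries.term a s n‖ := (h.summ s h1).norm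
  rw [h.eqL s h1, LSeries]
  calc ‖∑' n : ℕ, LSeries.term a s n‖ ≤ ∑' n : ℕ, ‖LSeries.term a s n‖ :=
        norm_tsum_le_tsum_norm hsum
    _ = ∑' n : ℕ, ‖LSeries.term a (5 / 4 : ℂ) n‖ := tsum_congr he

private theorem gratio_le {a : ℕ → ℂ} {H : ℂ → ℂ} {Q : ℝ} {r : ℕ} {lam : Fin r → ℝ}
    {mu : Fin r → ℂ} {ε : ℂ} (h : Dat a H Q lam mu ε) :
    ∃ C : ℝ, 0 ≤ C ∧ ∀ t : ℝ,
      ‖gratio lam mu (5 / 4 + t * I)‖ ≤ C * (1 + |t|) ^ 2 := by
  obtain ⟨c₀, r₁, K, -, -, hK⟩ := R_decomp lam mu h.lampos h.mupos h.deg h.im0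
  obtain ⟨C, hC⟩ := gamma_ratio
  set P : ℝ := ∏ j, Real.exp (lam j * (3 / 2) * Real.log (lam j)) with hP
  have hP0 : 0 < P := Finset.prod_pos fun j _ => Real.exp_pos _
  refine ⟨|K| * |C| * P, by positivity, ?_⟩
  intro t
  have hRt := (hK t).trans (le_abs_self K)
  have hCt := hC t
  set s : ℂ := 5 / 4 + t * I with hs
  have e1 : (3 / 2 : ℂ) - s = 1 / 4 - t * I := by rw [hs]; ring
  have e2 : s + 1 / 2 = 7 / 4 + t * I := by rw [hs]; ring
  have hg1 : Complex.Gamma (1 / 4 - t * I) ≠ 0 := by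
    apply Complex.Gamma_ne_zero_of_re_pos
    simp
  have hg2 : Complex.Gamma (7 / 4 + t * I) ≠ 0 := by
    apply Complex.Gamma_ne_zero_of_re_pos
    simp
  have hn1 : 0 < ‖Complex.Gamma (1 / 4 - t * I)‖ := norm_pos_iff.mpr hg1
  have hn2 : 0 < ‖Complex.Gamma (7 / 4 + t * I)‖ := norm_pos_iff.mpr hg2
  have hexp : ∀ j, ‖Complex.exp (-((lam j : ℂ) * (2 * s - 1) * (Real.log (lam j) : ℂ)))‖ =
      (Real.exp (lam j * (3 / 2) * Real.log (lam j)))⁻¹ := by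
    intro j
    rw [Complex.norm_exp, ← Real.exp_neg]
    congr 1
    have : (2 * s - 1 : ℂ) = ((3 / 2 : ℝ) : ℂ) + ((2 * t : ℝ) : ℂ) * I := by
      rw [hs]; push_cast; ring
    rw [this]
    simp only [Complex.neg_re, Complex.mul_re, Complex.mul_im, Complex.add_re, Complex.add_im,
      Complex.ofReal_re, Complex.ofReal_im, Complex.I_re, Complex.I_im]
    ring
  have hRn : ‖R lam mu s‖ = ‖Complex.Gamma (1 / 4 - t * I)‖ *
      ‖Complex.Gamma (7 / 4 + t * I)‖⁻¹ * P⁻¹ * ‖gratio lam mu s‖ := by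
    unfold R
    rw [e1, e2, norm_mul, norm_mul, norm_mul, norm_inv, norm_prod]
    congr 2
    rw [hP, ← Finset.prod_inv_distrib]
    exact Finset.prod_congr rfl fun j _ => hexp j
  have hgr : ‖gratio lam mu s‖ = ‖R lam mu s‖ * ‖Complex.Gamma (7 / 4 + t * I)‖ *
      P * ‖Complex.Gamma (1 / 4 - t * I)‖⁻¹ := by
    rw [hRn]
    have hn1' := hn1.ne'
    have hn2' := hn2.ne'
    have hP' := hP0.ne'
    generalize ‖Complex.Gamma (1 / 4 - t * I)‖ = x at hn1'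
    generalize ‖Complex.Gamma (7 / 4 + t * I)‖ = y at hn2'
    field_simp
  have hCt' : ‖Complex.Gamma (7 / 4 + t * I)‖ * ‖Complex.Gamma (1 / 4 - t * I)‖⁻¹ ≤
      |C| * (1 + |t|) ^ 2 := by
    rw [← div_eq_mul_inv, div_le_iff₀ hn1]
    refine hCt.trans ?_
    gcongr
    exact le_abs_self C
  calc ‖gratio lam mu s‖ = ‖R lam mu s‖ * P *
        (‖Complex.Gamma (7 / 4 + t * I)‖ * ‖Complex.Gamma (1 / 4 - t * I)‖⁻¹) := by
        rw [hgr]; ring
    _ ≤ |K| * P * (|C| * (1 + |t|) ^ 2) := by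
        gcongr
    _ = |K| * |C| * P * (1 + |t|) ^ 2 := by ring

private theorem left_edge {a : ℕ → ℂ} {H : ℂ → ℂ} {Q : ℝ} {r : ℕ} {lam : Fin r → ℝ}
    {mu : Fin r → ℂ} {ε : ℂ} (h : Dat a H Q lam mu ε) :
    ∃ C : ℝ, 0 ≤ C ∧ ∀ s : ℂ, s.re = -1 / 4 → ‖H s‖ ≤ C * (1 + |s.im|) ^ 2 := by
  obtain ⟨C1, hC10, hC1⟩ := right_edge h
  obtain ⟨C2, hC20, hC2⟩ := gratio_le h
  have hQ := h.Qpos
  refine ⟨Q ^ (3 / 2 : ℝ) * C2 * C1, by positivity, ?_⟩
  intro s hs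
  set t : ℝ := -s.im with ht
  have hs' : (1 : ℂ) - s = 5 / 4 + t * I := by
    apply Complex.ext
    · simp [hs]; norm_num
    · simp [ht]
  have hre : (5 / 4 + (t : ℂ) * I).re = 5 / 4 := by simp
  have hfe := feq_ext h (5 / 4 + t * I) (by rw [hre]; norm_num)
  have hs2 : (1 : ℂ) - (5 / 4 + t * I) = s := by rw [← hs']; ring
  rw [hs2] at hfe
  have habs : |t| = |s.im| := by rw [ht, abs_neg]
  have hg := hC2 t
  rw [habs] at hg
  have hc : ‖H ((starRingEnd ℂ) (5 / 4 + t * I))‖ ≤ C1 := by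
    apply hC1
    rw [Complex.conj_re, hre]
  have hQn : ‖(Q : ℂ) ^ (2 * (5 / 4 + (t : ℂ) * I) - 1)‖ = Q ^ (3 / 2 : ℝ) := by
    rw [Complex.norm_cpow_eq_rpow_re_of_pos hQ]
    congr 1
    simp
    norm_num
  calc ‖H s‖ = ‖ε‖ * ‖(Q : ℂ) ^ (2 * (5 / 4 + (t : ℂ) * I) - 1)‖ *
        ‖gratio lam mu (5 / 4 + t * I)‖ * ‖H ((starRingEnd ℂ) (5 / 4 + t * I))‖ := by
        rw [hfe, norm_mul, norm_mul, norm_mul, RCLike.norm_conj]
    _ ≤ 1 * Q ^ (3 / 2 : ℝ) * (C2 * (1 + |s.im|) ^ 2) * C1 := by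
        rw [h.eps, hQn]
        gcongr
    _ = Q ^ (3 / 2 : ℝ) * C2 * C1 * (1 + |s.im|) ^ 2 := by ring

private theorem pow_exp_large (A : ℕ) (B c : ℝ) :
    ∀ᶠ y : ℝ in atTop, B * (c + y) ^ A ≤ Real.exp y := by
  have h0 : (fun x : ℝ => x ^ A) =o[atTop] Real.exp :=
    Real.isLittleO_pow_exp_atTop
  have hpos : 0 < 1 / ((|B| + 1) * Real.exp c) := by positivity
  have h1 := h0.bound hpos
  have ht : Tendsto (fun y : ℝ => c + y) atTop atTop := tendsto_atTop_add_const_left _ _ tendsto_id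
  have h2 := ht.eventually h1
  filter_upwards [h2] with y hy
  have h3 : (c + y) ^ A ≤ 1 / ((|B| + 1) * Real.exp c) * Real.exp (c + y) := by
    have := (le_abs_self ((c + y) ^ A)).trans hy
    rwa [Real.norm_eq_abs, Real.abs_exp] at this
  have h3' : |(c + y) ^ A| ≤ 1 / ((|B| + 1) * Real.exp c) * Real.exp (c + y) := by
    rwa [Real.norm_eq_abs, Real.norm_eq_abs, Real.abs_exp] at hy
  calc B * (c + y) ^ A ≤ |B * (c + y) ^ A| := le_abs_self _
    _ = |B| * |(c + y) ^ A| := abs_mul _ _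
    _ ≤ (|B| + 1) * (1 / ((|B| + 1) * Real.exp c) * Real.exp (c + y)) := by
        gcongr
        linarith
    _ = Real.exp y := by
        rw [Real.exp_add]
        field_simp

theorem growth {a : ℕ → ℂ} {H : ℂ → ℂ} {Q : ℝ} {r : ℕ} {lam : Fin r → ℝ} {mu : Fin r → ℂ}
    {ε : ℂ} (h : Dat a H Q lam mu ε) :
    ∃ C : ℝ, ∀ s : ℂ, -1 / 4 ≤ s.re → s.re ≤ 5 / 4 → ‖H s‖ ≤ C * (1 + |s.im|) ^ 2 := by
  obtain ⟨C1, hC10, hC1⟩ := right_edge h
  obtain ⟨C2, hC20, hC2⟩ := left_edge h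
  obtain ⟨A, B, C0, hfin⟩ := h.fin
  set M : ℝ := C1 + 2 * C2 with hM
  have hM0 : 0 ≤ M := by positivity
  -- size of `s + 2`
  have hsq : ∀ s : ℂ, ‖s + 2‖ ^ 2 = (s.re + 2) ^ 2 + s.im ^ 2 := by
    intro s
    rw [← Complex.normSq_eq_norm_sq, Complex.normSq_apply]
    simp
    ring
  have hlow : ∀ s : ℂ, -1 / 4 ≤ s.re → (1 + |s.im|) ^ 2 ≤ 2 * ‖s + 2‖ ^ 2 := by
    intro s hs
    rw [hsq s]
    nlinarith [sq_abs s.im, sq_nonneg (1 - |s.im|), abs_nonneg s.im]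
  have hone : ∀ s : ℂ, -1 / 4 ≤ s.re → 1 ≤ ‖s + 2‖ ^ 2 := by
    intro s hs
    rw [hsq s]
    nlinarith [sq_nonneg s.im]
  have hne : ∀ s : ℂ, -1 / 4 ≤ s.re → s + 2 ≠ 0 := by
    intro s hs h0
    have := hone s hs
    rw [h0] at this
    norm_num at this
  have hdiff : DiffContOnCl ℂ (fun s : ℂ => H s / (s + 2) ^ 2)
      (Complex.re ⁻¹' Set.Ioo (-1 / 4 : ℝ) (5 / 4)) := by
    apply DifferentiableOn.diffContOnCl
    have hcl : closure (Complex.re ⁻¹' Set.Ioo (-1 / 4 : ℝ) (5 / 4)) ⊆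
        Complex.re ⁻¹' Set.Icc (-1 / 4 : ℝ) (5 / 4) :=
      closure_minimal (Set.preimage_mono Set.Ioo_subset_Icc_self)
        (isClosed_Icc.preimage Complex.continuous_re)
    intro s hs
    have hs' := hcl hs
    have hn := hne s hs'.1
    apply DifferentiableAt.differentiableWithinAt
    apply DifferentiableAt.div (h.diff s)
    · fun_prop
    · exact pow_ne_zero 2 hn
  have hkey : ∀ s : ℂ, -1 / 4 ≤ s.re → s.re ≤ 5 / 4 → ‖H s / (s + 2) ^ 2‖ ≤ M := by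
    intro s hs1 hs2
    refine PhragmenLindelof.vertical_strip (f := fun s : ℂ => H s / (s + 2) ^ 2)
      (a := -1 / 4) (b := 5 / 4) hdiff ?_ ?_ ?_ hs1 hs2
    · refine ⟨1, ?_, 1, ?_⟩
      · rw [lt_div_iff₀ (by norm_num)]
        have := Real.pi_gt_three
        linarith
      · apply Asymptotics.IsBigO.of_bound |C0|
        have hev := pow_exp_large A (|B|) (9 / 4)
        have hev' : ∀ᶠ z : ℂ in comap (_root_.abs ∘ Complex.im) atTop ⊓
            𝓟 (Complex.re ⁻¹' Set.Ioo (-1 / 4 : ℝ) (5 / 4)),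
            |B| * (9 / 4 + |z.im|) ^ A ≤ Real.exp |z.im| := by
          apply Filter.Eventually.filter_mono inf_le_left
          exact hev.comap _
        have hmem : ∀ᶠ z : ℂ in comap (_root_.abs ∘ Complex.im) atTop ⊓
            𝓟 (Complex.re ⁻¹' Set.Ioo (-1 / 4 : ℝ) (5 / 4)),
            z ∈ Complex.re ⁻¹' Set.Ioo (-1 / 4 : ℝ) (5 / 4) := by
          apply Filter.Eventually.filter_mono inf_le_right
          exact Filter.eventually_principal.mpr fun z hz => hz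
        filter_upwards [hev', hmem] with z hz1 hz2
        have hz2' : -1 / 4 < z.re ∧ z.re < 5 / 4 := hz2
        have hnz : ‖z‖ ≤ 5 / 4 + |z.im| := by
          refine (Complex.norm_le_abs_re_add_abs_im z).trans ?_
          have : |z.re| ≤ 5 / 4 := by
            rw [abs_le]
            constructor <;> linarith [hz2'.1, hz2'.2]
          linarith
        have h1 : ‖H z / (z + 2) ^ 2‖ ≤ ‖H z‖ := by
          rw [norm_div, norm_pow]
          exact div_le_self (norm_nonneg _) (hone z hz2'.1.le)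
        have h2 : ‖H z‖ ≤ |C0| * Real.exp (|B| * (9 / 4 + |z.im|) ^ A) := by
          refine (hfin z).trans ?_
          have h3 : B * (1 + ‖z‖) ^ A ≤ |B| * (9 / 4 + |z.im|) ^ A := by
            have h4 : (1 + ‖z‖) ^ A ≤ (9 / 4 + |z.im|) ^ A := by
              apply pow_le_pow_left₀ (by positivity)
              linarith
            calc B * (1 + ‖z‖) ^ A ≤ |B| * (1 + ‖z‖) ^ A := by
                  gcongr
                  exact le_abs_self B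
              _ ≤ |B| * (9 / 4 + |z.im|) ^ A := by gcongr
          calc C0 * Real.exp (B * (1 + ‖z‖) ^ A) ≤ |C0| * Real.exp (B * (1 + ‖z‖) ^ A) := by
                gcongr
                exact le_abs_self C0
            _ ≤ |C0| * Real.exp (|B| * (9 / 4 + |z.im|) ^ A) := by
                gcongr
        calc ‖H z / (z + 2) ^ 2‖ ≤ |C0| * Real.exp (|B| * (9 / 4 + |z.im|) ^ A) := h1.trans h2
          _ ≤ |C0| * Real.exp (Real.exp |z.im|) := by gcongr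
          _ = |C0| * ‖Real.exp (1 * Real.exp (1 * |z.im|))‖ := by
              rw [Real.norm_eq_abs, Real.abs_exp, one_mul, one_mul]
    · intro z hz
      have hz' : -1 / 4 ≤ z.re := by rw [hz]
      have h1 := hC2 z hz
      have h2 := hlow z hz'
      have h3 := hone z hz'
      rw [norm_div, norm_pow, div_le_iff₀ (by linarith)]
      calc ‖H z‖ ≤ C2 * (1 + |z.im|) ^ 2 := h1
        _ ≤ C2 * (2 * ‖z + 2‖ ^ 2) := by gcongr
        _ ≤ M * ‖z + 2‖ ^ 2 := by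
            rw [hM]
            nlinarith
    · intro z hz
      have hz' : -1 / 4 ≤ z.re := by rw [hz]; norm_num
      have h1 := hC1 z hz
      have h3 := hone z hz'
      rw [norm_div, norm_pow, div_le_iff₀ (by linarith)]
      calc ‖H z‖ ≤ C1 := h1
        _ ≤ M * ‖z + 2‖ ^ 2 := by
            rw [hM]
            nlinarith
  refine ⟨M * (13 / 4) ^ 2, ?_⟩
  intro s hs1 hs2
  have h1 := hkey s hs1 hs2
  have h3 := hone s hs1
  rw [norm_div, norm_pow, div_le_iff₀ (by linarith)] at h1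
  have h2 : ‖s + 2‖ ^ 2 ≤ (13 / 4) ^ 2 * (1 + |s.im|) ^ 2 := by
    rw [hsq s]
    nlinarith [sq_abs s.im, abs_nonneg s.im, sq_nonneg (s.re + 2)]
  calc ‖H s‖ ≤ M * ‖s + 2‖ ^ 2 := h1
    _ ≤ M * ((13 / 4) ^ 2 * (1 + |s.im|) ^ 2) := by gcongr
    _ = M * (13 / 4) ^ 2 * (1 + |s.im|) ^ 2 := by ring

end Pool.Agent.H14.Sel
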