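import Mathlib
import Pool.Agent.H14.Sel.Defs

set_option autoImplicit false

/-!
# Module SHIFT (MP_8e9775_nt): shifting a vertical line of integration

`Complex.integral_boundary_rect_eq_zero_of_differentiableOn` on the rectangle with corners
`α - iT`, `β + iT`; the two horizontal sides are bounded by `(β - α) C/(1+T)^2 → 0`; the vertical
integrals converge to the improper ones (`intervalIntegral_tendsto_integral`, integrability
from `‖f‖ ≤ C/(1+|t|)^2` and continuity).
-/

namespace Pool.Agent.H14.Sel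

open Complex MeasureTheory Filter Topology Pool.Agent.H11.Selberg

private theorem shift_line_integrable (f : ℂ → ℂ) (σ : ℝ)
    (hf : ∀ t : ℝ, DifferentiableAt ℂ f (σ + t * I)) (C : ℝ)
    (hC : ∀ t : ℝ, ‖f (σ + t * I)‖ * (1 + |t|) ^ 2 ≤ C) :
    Integrable (fun t : ℝ => f (σ + t * I)) := by
  have hcont : Continuous (fun t : ℝ => f (σ + t * I)) := by
    rw [continuous_iff_continuousAt]
    intro t
    have h1 : ContinuousAt f (σ + t * I) := (hf t).continuousAt
    have h2 : ContinuousAt (fun t : ℝ => (σ : ℂ) + t * I) t := by fun_prop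
    exact ContinuousAt.comp (g := f) (f := fun t : ℝ => (σ : ℂ) + t * I) h1 h2
  refine (integrable_inv_one_add_sq.const_mul C).mono' hcont.aestronglyMeasurable ?_
  refine Filter.Eventually.of_forall fun t => ?_
  have h1 := hC t
  have h2 : (0 : ℝ) < 1 + t ^ 2 := by positivity
  have h3 : 1 + t ^ 2 ≤ (1 + |t|) ^ 2 := by
    have := abs_nonneg t
    nlinarith [sq_abs t]
  have h4 : ‖f (σ + t * I)‖ * (1 + t ^ 2) ≤ C :=
    (mul_le_mul_of_nonneg_left h3 (norm_nonneg _)).trans h1
  rw [← div_eq_mul_inv, le_div_iff₀ h2]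
  exact h4

theorem shift (f : ℂ → ℂ) (α β : ℝ) (hαβ : α ≤ β)
    (hf : ∀ s : ℂ, α ≤ s.re → s.re ≤ β → DifferentiableAt ℂ f s) (C : ℝ)
    (hC : ∀ s : ℂ, α ≤ s.re → s.re ≤ β → ‖f s‖ * (1 + |s.im|) ^ 2 ≤ C) :
    (∫ t : ℝ, f (α + t * I)) = ∫ t : ℝ, f (β + t * I) := by
  have hline : ∀ σ : ℝ, α ≤ σ → σ ≤ β → Integrable (fun t : ℝ => f (σ + t * I)) := by
    intro σ h1 h2
    refine shift_line_integrable f σ (fun t => hf _ (by simpa using h1) (by simpa using h2)) C
      (fun t => ?_)
    have := hC (σ + t * I) (by simpa using h1) (by simpa using h2)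
    simpa using this
  have hiα := hline α le_rfl hαβ
  have hiβ := hline β hαβ le_rfl
  -- limits of the vertical sides
  have hα := intervalIntegral_tendsto_integral hiα tendsto_neg_atTop_atBot tendsto_id
  have hβ := intervalIntegral_tendsto_integral hiβ tendsto_neg_atTop_atBot tendsto_id
  -- the horizontal sides
  have hhor : ∀ T : ℝ, ‖∫ x in α..β, f (x + T * I)‖ ≤ C * (1 + T ^ 2)⁻¹ * |β - α| := by
    intro T
    refine intervalIntegral.norm_integral_le_of_norm_le_const fun x hx => ?_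
    rw [Set.uIoc_of_le hαβ] at hx
    have h1 := hC (x + T * I) (by simpa using hx.1.le) (by simpa using hx.2)
    have h2 : (0 : ℝ) < 1 + T ^ 2 := by positivity
    have h3 : 1 + T ^ 2 ≤ (1 + |T|) ^ 2 := by
      have := abs_nonneg T
      nlinarith [sq_abs T]
    have him : ((x : ℂ) + T * I).im = T := by simp
    rw [him] at h1
    rw [← div_eq_mul_inv, le_div_iff₀ h2]
    exact (mul_le_mul_of_nonneg_left h3 (norm_nonneg _)).trans h1
  have hlim0 : Tendsto (fun T : ℝ => C * (1 + T ^ 2)⁻¹ * |β - α|) atTop (𝓝 0) := by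
    have h1 : Tendsto (fun T : ℝ => (1 + T ^ 2)⁻¹) atTop (𝓝 0) := by
      refine tendsto_inv_atTop_zero.comp ?_
      exact tendsto_atTop_add_const_left _ _ (tendsto_pow_atTop two_ne_zero)
    have h2 := (h1.const_mul C).mul_const |β - α|
    simpa using h2
  have hup : Tendsto (fun T : ℝ => ∫ x in α..β, f (x + T * I)) atTop (𝓝 0) :=
    squeeze_zero_norm (fun T => hhor T) hlim0
  have hdown : Tendsto (fun T : ℝ => ∫ x in α..β, f (x + ((-T : ℝ) : ℂ) * I)) atTop (𝓝 0) := by
    refine squeeze_zero_norm (fun T => ?_) hlim0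
    have := hhor (-T)
    rwa [neg_sq] at this
  have hrect : ∀ T : ℝ, 0 ≤ T →
      (∫ x in α..β, f (x + ((-T : ℝ) : ℂ) * I)) - (∫ x in α..β, f (x + T * I)) +
        I • (∫ y in (-T)..T, f (β + y * I)) - I • (∫ y in (-T)..T, f (α + y * I)) = 0 := by
    intro T hT
    have h := integral_boundary_rect_eq_zero_of_differentiableOn f (α + ((-T : ℝ) : ℂ) * I)
      (β + (T : ℂ) * I) (by
        intro s hs
        rw [mem_reProdIm] at hs
        have h1 : (α + ((-T : ℝ) : ℂ) * I).re = α := by simp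
        have h2 : (β + (T : ℂ) * I).re = β := by simp
        rw [h1, h2, Set.uIcc_of_le hαβ] at hs
        exact (hf s hs.1.1 hs.1.2).differentiableWithinAt)
    have h1 : (α + ((-T : ℝ) : ℂ) * I).re = α := by simp
    have h2 : (β + (T : ℂ) * I).re = β := by simp
    have h3 : (α + ((-T : ℝ) : ℂ) * I).im = -T := by simp
    have h4 : (β + (T : ℂ) * I).im = T := by simp
    rw [h1, h2, h3, h4] at h
    exact h
  have hfin : Tendsto (fun T : ℝ =>
      (∫ x in α..β, f (x + ((-T : ℝ) : ℂ) * I)) - (∫ x in α..β, f (x + T * I)) +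
        I • (∫ y in (-T)..T, f (β + y * I)) - I • (∫ y in (-T)..T, f (α + y * I))) atTop
      (𝓝 (0 - 0 + I • (∫ t : ℝ, f (β + t * I)) - I • ∫ t : ℝ, f (α + t * I))) :=
    ((hdown.sub hup).add (hβ.const_smul I)).sub (hα.const_smul I)
  have hzero : Tendsto (fun T : ℝ =>
      (∫ x in α..β, f (x + ((-T : ℝ) : ℂ) * I)) - (∫ x in α..β, f (x + T * I)) +
        I • (∫ y in (-T)..T, f (β + y * I)) - I • (∫ y in (-T)..T, f (α + y * I))) atTop
      (𝓝 0) := by
    refine tendsto_const_nhds.congr' ?_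
    filter_upwards [eventually_ge_atTop (0 : ℝ)] with T hT
    exact (hrect T hT).symm
  have heq := tendsto_nhds_unique hfin hzero
  rw [sub_zero, zero_add, ← smul_sub, smul_eq_mul, mul_eq_zero] at heq
  rcases heq with h | h
  · exact absurd h I_ne_zero
  · exact (sub_eq_zero.1 h).symm

end Pool.Agent.H14.Sel
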