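import Mathlib
import Pool.Agent.H14.Sel.Defs
import Pool.Agent.H14.Sel.Fext
import Pool.Agent.H14.Sel.Grow
import Pool.Agent.H14.Sel.Dec
import Pool.Agent.H14.Sel.Mel
import Pool.Agent.H14.Sel.Shift

set_option autoImplicit false

/-!
# Module REFL (MP_8e9775_nt): the reflected integral

Let `Im z > 0`, `X = -2πi z` (`Re X = 2π Im z > 0`), `q = cond Q lam`, `W = 2πi/(q z)`
(`Re W = 2π Im z/(q |z|^2) > 0`), so `X W = 4π^2/q`. By MEL (`c = 5/4`, `β = 1/2`, `h.eqL`)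
`2π E(1/2) a X = ∫ f(5/4 + it) dt`, `f s = Γ(s + 1/2) X^(-(s+1/2)) H s`. By SHIFT (`f` is
differentiable for `Re s > -1/2`, and decays by DEC with `α = 1/4`, `β = 7/4`, `k = 4` and GROW) this is
`∫ f(-1/4 + it) dt = ∫ f(-1/4 - it) dt = ∫ f(1 - s) dt`, `s = 5/4 + it`, and by FEXT
`f(1 - s) = Γ(3/2 - s) X^(s - 3/2) ε Q^(2s-1) gratio s conj(H (conj s))`. By the definition of `R`
`Γ(3/2 - s) gratio s = R s Γ(s+1/2) ∏ exp (lam_j (2s-1) log lam_j)` (`Γ(s+1/2) ≠ 0`), and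
`Q^(2s-1) ∏ exp (lam_j (2s-1) log lam_j) = exp ((s - 1/2) log (q/(4π^2)))` since
`q/(4π^2) = Q^2 ∏ lam_j^(2 lam_j)`. Finally `X^(s-3/2) exp ((s-1/2) log (q/(4π^2)))`
`= X^(-1) (q X/(4π^2))^(s - 1/2) = X^(-1) W^(-(s - 1/2)) = X^(-1) W W^(-(s+1/2))` (`1/W = qX/(4π^2)`, all in the
right half plane, so `Complex.inv_cpow`, `mul_cpow_ofReal_nonneg` apply; `log X = - log W + log(4π^2/q)`).
And `conj (H (conj s)) = LSeries (cj a) s` for `Re s > 1`. Take norms: `‖X^(-1) W‖ = 4π^2/(q ‖X‖^2) = 1/(q ‖z‖^2)`.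
-/

namespace Pool.Agent.H14.Sel

open Complex MeasureTheory Filter Topology Pool.Agent.H11.Selberg

private lemma refl_conj (a : ℕ → ℂ) (s : ℂ) :
    (starRingEnd ℂ) (LSeries a ((starRingEnd ℂ) s)) = LSeries (cj a) s := by
  unfold LSeries
  rw [Complex.conj_tsum]
  congr 1
  ext n
  rcases Nat.eq_zero_or_pos n with rfl | hn
  · simp
  · rw [LSeries.term_of_ne_zero hn.ne', LSeries.term_of_ne_zero hn.ne', cj, map_div₀]
    congr 1
    rw [← Complex.conj_cpow]
    · simp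
    · rw [Complex.natCast_arg]
      exact Real.pi_pos.ne

private lemma refl_cond_pos {Q : ℝ} (hQ : 0 < Q) {r : ℕ} {lam : Fin r → ℝ} (hl : ∀ j, 0 < lam j) :
    0 < cond Q lam := by
  unfold cond
  have : 0 < ∏ j, (lam j) ^ (2 * lam j) := Finset.prod_pos (fun j _ => Real.rpow_pos_of_pos (hl j) _)
  positivity

private lemma refl_logcond {Q : ℝ} (hQ : 0 < Q) {r : ℕ} {lam : Fin r → ℝ} (hl : ∀ j, 0 < lam j) :
    Real.log ((2 * Real.pi) ^ 2 / cond Q lam) = -(2 * Real.log Q + 2 * ∑ j, lam j * Real.log (lam j)) := by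
  have hp : 0 < ∏ j, (lam j) ^ (2 * lam j) := Finset.prod_pos (fun j _ => Real.rpow_pos_of_pos (hl j) _)
  have h2 : (0 : ℝ) < (2 * Real.pi) ^ 2 := by positivity
  have hc := refl_cond_pos hQ hl
  rw [Real.log_div h2.ne' hc.ne']
  unfold cond
  rw [Real.log_mul (by positivity) hp.ne', Real.log_mul h2.ne' (by positivity), Real.log_pow (n := 2) (x := Q),
    Real.log_prod (fun j _ => (Real.rpow_pos_of_pos (hl j) _).ne')]
  have : ∀ j, Real.log ((lam j) ^ (2 * lam j)) = 2 * (lam j * Real.log (lam j)) := by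
    intro j
    rw [Real.log_rpow (hl j)]
    ring
  simp only [this, ← Finset.mul_sum]
  push_cast
  ring

/-- the pointwise identity on the line `Re s = 5/4` -/
private lemma refl_point {a : ℕ → ℂ} {H : ℂ → ℂ} {Q : ℝ} {r : ℕ} {lam : Fin r → ℝ} {mu : Fin r → ℂ}
    {ε : ℂ} (h : Dat a H Q lam mu ε) (z : ℂ) (hz : 0 < z.im) (s : ℂ) (hs : 1 < s.re) :
    Complex.Gamma ((1 - s) + 1 / 2) * (-(2 * (Real.pi : ℂ) * I * z)) ^ (-((1 - s) + 1 / 2)) * H (1 - s) =
      (ε * ((-(2 * (Real.pi : ℂ) * I * z))⁻¹ * (2 * (Real.pi : ℂ) * I / ((cond Q lam : ℂ) * z)))) *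
      (R lam mu s * (Complex.Gamma (s + 1 / 2) *
        (2 * (Real.pi : ℂ) * I / ((cond Q lam : ℂ) * z)) ^ (-(s + 1 / 2)) * LSeries (cj a) s)) := by
  have hz0 : z ≠ 0 := by rintro rfl; simp at hz
  have hq := refl_cond_pos h.Qpos h.lampos
  have hpi := Real.pi_pos
  set X : ℂ := -(2 * (Real.pi : ℂ) * I * z) with hX
  set κ : ℝ := (2 * Real.pi) ^ 2 / cond Q lam with hκ
  have hκ0 : 0 < κ := by positivity
  have hXre : 0 < X.re := by
    have : X.re = 2 * Real.pi * z.im := by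
      rw [hX]; simp
    rw [this]; positivity
  have hX0 : X ≠ 0 := by intro h0; rw [h0] at hXre; simp at hXre
  have hpc : (Real.pi : ℂ) ≠ 0 := by exact_mod_cast hpi.ne'
  have hqc : (cond Q lam : ℂ) ≠ 0 := by exact_mod_cast hq.ne'
  have hW : 2 * (Real.pi : ℂ) * I / ((cond Q lam : ℂ) * z) = (κ : ℂ) * X⁻¹ := by
    rw [hX, hκ]
    push_cast
    field_simp
    have := I_sq
    linear_combination this
  have hargX : X.arg ≠ Real.pi := by
    have := (Complex.abs_arg_lt_pi_div_two_iff (z := X)).2 (Or.inl hXre)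
    intro h0
    rw [h0, abs_of_pos hpi] at this
    linarith
  have hlogW : Complex.log ((κ : ℂ) * X⁻¹) = (Real.log κ : ℂ) - Complex.log X := by
    rw [Complex.log_ofReal_mul hκ0 (inv_ne_zero hX0), Complex.log_inv _ hargX]
    ring
  have hW0 : (κ : ℂ) * X⁻¹ ≠ 0 := mul_ne_zero (by exact_mod_cast hκ0.ne') (inv_ne_zero hX0)
  rw [hW]
  rw [feq_ext h s (by linarith), h.eqL _ (by simpa using hs), refl_conj]
  have hG : Complex.Gamma (s + 1 / 2) ≠ 0 := Complex.Gamma_ne_zero_of_re_pos (by simp; linarith)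
  have hQc : (Q : ℂ) ≠ 0 := by exact_mod_cast h.Qpos.ne'
  -- the exponential identity
  have hkey : X ^ (-((1 - s) + 1 / 2)) * (Q : ℂ) ^ (2 * s - 1) =
      X⁻¹ * ((κ : ℂ) * X⁻¹) * ((κ : ℂ) * X⁻¹) ^ (-(s + 1 / 2)) *
        ∏ j, Complex.exp (-((lam j : ℂ) * (2 * s - 1) * (Real.log (lam j) : ℂ))) := by
    rw [Complex.cpow_def_of_ne_zero hX0, Complex.cpow_def_of_ne_zero hQc, Complex.cpow_def_of_ne_zero hW0,
      hlogW, ← Complex.exp_sum]
    have e1 : X⁻¹ = Complex.exp (-Complex.log X) := by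
      rw [Complex.exp_neg, Complex.exp_log hX0]
    have e2 : (κ : ℂ) = Complex.exp (Real.log κ) := by
      rw [← Complex.ofReal_exp, Real.exp_log hκ0]
    have e3 : Complex.log (Q : ℂ) = (Real.log Q : ℂ) := (Complex.ofReal_log h.Qpos.le).symm
    nth_rewrite 1 [e2]
    rw [e1, e3]
    simp only [← Complex.exp_add]
    congr 1
    have e4 := refl_logcond h.Qpos h.lampos
    have e5 : (Real.log κ : ℂ) = -(2 * (Real.log Q : ℂ) + 2 * ∑ j, (lam j : ℂ) * (Real.log (lam j) : ℂ)) := by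
      rw [hκ, e4]
      push_cast
      ring
    have e6 : ∑ j, -((lam j : ℂ) * (2 * s - 1) * (Real.log (lam j) : ℂ)) =
        -((2 * s - 1) * ∑ j, (lam j : ℂ) * (Real.log (lam j) : ℂ)) := by
      rw [Finset.mul_sum, ← Finset.sum_neg_distrib]
      refine Finset.sum_congr rfl (fun j _ => ?_)
      ring
    rw [e6, e5]
    ring
  have e7 : (1 - s) + 1 / 2 = 3 / 2 - s := by ring
  unfold R
  calc Complex.Gamma ((1 - s) + 1 / 2) * X ^ (-((1 - s) + 1 / 2)) *
        (ε * (Q : ℂ) ^ (2 * s - 1) * gratio lam mu s * LSeries (cj a) s)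
      = (X ^ (-((1 - s) + 1 / 2)) * (Q : ℂ) ^ (2 * s - 1)) * (Complex.Gamma ((1 - s) + 1 / 2) * ε *
          gratio lam mu s * LSeries (cj a) s) := by ring
    _ = _ := by
      rw [hkey, e7]
      have hGG : (Complex.Gamma (s + 1 / 2))⁻¹ * Complex.Gamma (s + 1 / 2) = 1 := inv_mul_cancel₀ hG
      linear_combination (-(X⁻¹ * ((κ : ℂ) * X⁻¹) * ((κ : ℂ) * X⁻¹) ^ (-(s + 1 / 2)) *
        (∏ j, Complex.exp (-((lam j : ℂ) * (2 * s - 1) * (Real.log (lam j) : ℂ)))) *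
        Complex.Gamma (3 / 2 - s) * ε * gratio lam mu s * LSeries (cj a) s)) * hGG

theorem reflected {a : ℕ → ℂ} {H : ℂ → ℂ} {Q : ℝ} {r : ℕ} {lam : Fin r → ℝ} {mu : Fin r → ℂ}
    {ε : ℂ} (h : Dat a H Q lam mu ε) (z : ℂ) (hz : 0 < z.im) :
    2 * Real.pi * (cond Q lam * ‖z‖ ^ 2) * ‖E (1 / 2) a (-(2 * (Real.pi : ℂ) * I * z))‖ =
      ‖∫ t : ℝ, R lam mu (5 / 4 + t * I) * (Complex.Gamma (7 / 4 + t * I) *
        (2 * (Real.pi : ℂ) * I / ((cond Q lam : ℂ) * z)) ^ (-(7 / 4 + t * I : ℂ)) *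
        LSeries (cj a) (5 / 4 + t * I))‖ := by
  have hz0 : z ≠ 0 := by rintro rfl; simp at hz
  have hq := refl_cond_pos h.Qpos h.lampos
  have hpi := Real.pi_pos
  have hpc : (Real.pi : ℂ) ≠ 0 := by exact_mod_cast hpi.ne'
  have hqc : (cond Q lam : ℂ) ≠ 0 := by exact_mod_cast hq.ne'
  have hpoint := fun s : ℂ => refl_point h z hz s
  set X : ℂ := -(2 * (Real.pi : ℂ) * I * z) with hX
  set W : ℂ := 2 * (Real.pi : ℂ) * I / ((cond Q lam : ℂ) * z) with hW
  have hXre : 0 < X.re := by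
    have : X.re = 2 * Real.pi * z.im := by
      rw [hX]; simp
    rw [this]; positivity
  have hX0 : X ≠ 0 := by intro h0; rw [h0] at hXre; simp at hXre
  set f : ℂ → ℂ := fun s => Complex.Gamma (s + 1 / 2) * X ^ (-(s + 1 / 2)) * H s with hf
  -- Mellin
  have hm : (∫ t : ℝ, f ((5 / 4 : ℝ) + t * I)) = 2 * Real.pi * E (1 / 2) a X := by
    rw [← mel a (5 / 4) (1 / 2) (by norm_num) (by norm_num) (h.summ _ (by norm_num)) X hXre]
    refine integral_congr_ae (Eventually.of_forall fun t => ?_)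
    simp only [hf]
    have e1 : (((5 / 4 : ℝ) : ℂ) + t * I + 1 / 2) = (((5 / 4 + 1 / 2 : ℝ) : ℂ) + t * I) := by
      push_cast; ring
    rw [e1, h.eqL]
    simp
    norm_num
  -- shift
  have hsh : (∫ t : ℝ, f ((-1 / 4 : ℝ) + t * I)) = ∫ t : ℝ, f ((5 / 4 : ℝ) + t * I) := by
    obtain ⟨C1, hC1⟩ := gamma_decay (1 / 4) (7 / 4) (by norm_num) 4 X hXre
    obtain ⟨C2, hC2⟩ := growth h
    refine shift f (-1 / 4) (5 / 4) (by norm_num) ?_ (C1 * C2) ?_
    · intro s h1 h2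
      have hg : DifferentiableAt ℂ Complex.Gamma (s + 1 / 2) := by
        apply Complex.differentiableAt_Gamma
        intro m h0
        have := congrArg Complex.re h0
        simp at this
        have hm0 : (0 : ℝ) ≤ m := Nat.cast_nonneg m
        linarith
      have hg2 : DifferentiableAt ℂ (fun s : ℂ => Complex.Gamma (s + 1 / 2)) s :=
        hg.comp s (differentiableAt_id.add_const _)
      have hc : DifferentiableAt ℂ (fun s : ℂ => X ^ (-(s + 1 / 2))) s :=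
        (differentiableAt_id.add_const _).neg.const_cpow (Or.inl hX0)
      exact (hg2.mul hc).mul h.diff.differentiableAt
    · intro s h1 h2
      have e1 := hC1 (s + 1 / 2) (by simp; linarith) (by simp; linarith)
      have e2 := hC2 s h1 h2
      have him : (s + 1 / 2).im = s.im := by simp
      rw [him] at e1
      simp only [hf]
      rw [norm_mul]
      have hp : 0 < 1 + |s.im| := by positivity
      have hC1' : 0 ≤ C1 := le_trans (by positivity) e1
      calc ‖Complex.Gamma (s + 1 / 2) * X ^ (-(s + 1 / 2))‖ * ‖H s‖ * (1 + |s.im|) ^ 2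
          ≤ ‖Complex.Gamma (s + 1 / 2) * X ^ (-(s + 1 / 2))‖ * (C2 * (1 + |s.im|) ^ 2) * (1 + |s.im|) ^ 2 := by
            gcongr
        _ = (‖Complex.Gamma (s + 1 / 2) * X ^ (-(s + 1 / 2))‖ * (1 + |s.im|) ^ 4) * C2 := by ring
        _ ≤ C1 * C2 := by
            have hC2' : 0 ≤ C2 := by
              have := (norm_nonneg (H s)).trans e2
              by_contra hneg
              push Not at hneg
              have : C2 * (1 + |s.im|) ^ 2 < 0 := mul_neg_of_neg_of_pos hneg (by positivity)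
              linarith
            gcongr
  -- reflect
  have hrefl : (∫ t : ℝ, f ((-1 / 4 : ℝ) + t * I)) = ∫ t : ℝ, f (1 - (5 / 4 + t * I)) := by
    rw [← integral_neg_eq_self]
    refine integral_congr_ae (Eventually.of_forall fun t => ?_)
    simp only
    congr 1
    push_cast
    ring
  have hpt : ∀ t : ℝ, f (1 - (5 / 4 + t * I)) = (ε * (X⁻¹ * W)) *
      (R lam mu (5 / 4 + t * I) * (Complex.Gamma (7 / 4 + t * I) *
        W ^ (-(7 / 4 + t * I : ℂ)) * LSeries (cj a) (5 / 4 + t * I))) := by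
    intro t
    have e1 := hpoint (5 / 4 + t * I) (by simp; norm_num)
    simp only [hf]
    rw [e1]
    have e2 : (5 / 4 + t * I + 1 / 2 : ℂ) = 7 / 4 + t * I := by ring
    rw [e2]
  have htot : 2 * Real.pi * E (1 / 2) a X = (ε * (X⁻¹ * W)) *
      ∫ t : ℝ, R lam mu (5 / 4 + t * I) * (Complex.Gamma (7 / 4 + t * I) *
        W ^ (-(7 / 4 + t * I : ℂ)) * LSeries (cj a) (5 / 4 + t * I)) := by
    rw [← hm, ← hsh, hrefl, ← integral_const_mul]
    exact integral_congr_ae (Eventually.of_forall hpt)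
  have hnorm := congrArg norm htot
  rw [norm_mul, norm_mul (ε * (X⁻¹ * W)), norm_mul ε, h.eps, one_mul] at hnorm
  have hXW : ‖X⁻¹ * W‖ = 1 / (cond Q lam * ‖z‖ ^ 2) := by
    rw [hX, hW]
    simp only [norm_mul, norm_inv, norm_neg, norm_div, Complex.norm_I, Complex.norm_real,
      Real.norm_eq_abs, abs_of_pos hpi, abs_of_pos hq]
    have hzn : ‖z‖ ≠ 0 := norm_ne_zero_iff.2 hz0
    have h2 : ‖(2 : ℂ)‖ = 2 := by simp
    rw [h2]
    field_simp
  have h2pi : ‖(2 * Real.pi : ℂ)‖ = 2 * Real.pi := by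
    simp [abs_of_pos hpi]
  rw [hXW, h2pi] at hnorm
  have hzn : 0 < ‖z‖ := norm_pos_iff.2 hz0
  calc 2 * Real.pi * (cond Q lam * ‖z‖ ^ 2) * ‖E (1 / 2) a X‖
      = (cond Q lam * ‖z‖ ^ 2) * (2 * Real.pi * ‖E (1 / 2) a X‖) := by ring
    _ = _ := by
      rw [hnorm, ← mul_assoc, mul_one_div_cancel (by positivity), one_mul]

end Pool.Agent.H14.Sel
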