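import Mathlib
import Pool.Agent.H11.Selberg.Growth
import Pool.Agent.H14.Sel.Defs
import Pool.Agent.H14.Sel.Conj
import Pool.Agent.H14.Sel.RBd
import Pool.Agent.H14.Sel.Mel
import Pool.Agent.H14.Sel.Refl
import Pool.Agent.H14.Sel.ErrInt
import Pool.Agent.H14.Sel.Triv

set_option autoImplicit false

/-!
# Module LEML (MP_8e9775_nt): the reflection lemma

`lemmaL_neg` (`Re z ≤ 0`). Put `q = cond Q lam`, `W = 2πi/(q z)`, `v = Im z/(q ‖z‖^2)`, so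
`Re W = 2π v`, `Im W = 2π Re z/(q ‖z‖^2) ≤ 0`, `‖W‖ = 2π/(q ‖z‖)`, and `z* = 1/(q conj z)` has
`Im z* = v`, `-(2πi z*) = conj W`. By E_cj `phi a z* = v ‖E (1/2) (cj a) W‖`.
By REFL `phi a z = (v/(2π)) ‖J‖`, `J = ∫ R(s) Γ(s+1/2) W^(-(s+1/2)) LSeries (cj a) s dt`, `s = 5/4 + it`.
Write `R(s) = c₀ + c₀ r₁/(3/4 + it) + e(t)` (RBD), so
`J = c₀ ∫ Γ(7/4+it) W^(-(7/4+it)) L dt + c₀ r₁ W^(-1) ∫ Γ(3/4+it) W^(-(3/4+it)) L dt + ∫ e L Γ W^..`
(`Γ(7/4+it) = (3/4+it) Γ(3/4+it)`), which by MEL (with `c = 5/4`, `β = ±1/2`, `b = cj a`) equals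
`2π c₀ E(1/2)(cj a) W + 2π c₀ r₁ W^(-1) E(-1/2)(cj a) W + err`. All three integrands are integrable
(`mel_integrable`; `e L` continuous and bounded). Since `‖c₀‖ = 1`,
`|phi a z - phi a z*| ≤ v (‖r₁‖ ‖W‖^(-1) ‖E(-1/2)(cj a) W‖ + ‖err‖/(2π))`.
TRIV with `β = -1/2`, `k = 3/4`: `‖E(-1/2)‖ ≤ C (2πv)^(-3/4)`. ERRINT (with the function
`e t * LSeries (cj a) (5/4 + it)`, `‖LSeries‖ ≤ B`): `‖err‖ ≤ C ‖W‖^(-3/2) (Re W)^(-1/4)`.
With `‖W‖ = 2π/(q‖z‖)`, `‖z‖^2 = y/(q v)`: `‖W‖^(-1) = (1/2π) sqrt(q y/v)`, so the two terms are at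
most `C v v^(-1/2) y^(1/2) v^(-3/4) = C v^(-1/4) y^(1/2)` and
`C v (y/v)^(3/4) v^(-1/4) = C y^(3/4)`. Since `‖z‖^2 ≤ 1/q` gives `v ≥ y`, and `y ≤ 1`, both are `≤ C y^(1/4)`.

`lemmaL`: for `Re z ≥ 0` apply `lemmaL_neg` to the conjugate data (`Dat.conj`) and `-conj z`:
`phi (cj a) (-conj z) = phi a z` by `phi_cj`, and `1/(q conj(-conj z)) = -1/(q z) = -conj(1/(q conj z))`,
so `phi (cj a) (1/(q conj (-conj z))) = phi a (1/(q conj z))`.
-/

namespace Pool.Agent.H14.Sel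

open Complex MeasureTheory Filter Topology Pool.Agent.H11.Selberg

theorem LemL.cond_pos {a : ℕ → ℂ} {H : ℂ → ℂ} {Q : ℝ} {r : ℕ} {lam : Fin r → ℝ} {mu : Fin r → ℂ}
    {ε : ℂ} (h : Dat a H Q lam mu ε) : 0 < cond Q lam := by
  unfold cond
  have h1 : 0 < ∏ j, (lam j) ^ (2 * lam j) :=
    Finset.prod_pos (fun j _ => Real.rpow_pos_of_pos (h.lampos j) _)
  have h2 := h.Qpos
  positivity

/-- decomposition of the reflected integral -/
theorem LemL.decomp {a : ℕ → ℂ} {H : ℂ → ℂ} {Q : ℝ} {r : ℕ} {lam : Fin r → ℝ} {mu : Fin r → ℂ}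
    {ε : ℂ} (h : Dat a H Q lam mu ε) :
    ∃ (c₀ r₁ : ℂ) (C : ℝ), ‖c₀‖ = 1 ∧ 0 ≤ C ∧ ∀ W : ℂ, 0 < W.re → W.im ≤ 0 →
      ‖(∫ t : ℝ, R lam mu (5 / 4 + t * I) * (Complex.Gamma (7 / 4 + t * I) *
        W ^ (-(7 / 4 + t * I : ℂ)) * LSeries (cj a) (5 / 4 + t * I))) -
        (c₀ * (2 * Real.pi * E (1 / 2) (cj a) W) +
          c₀ * r₁ * W⁻¹ * (2 * Real.pi * E (-1 / 2) (cj a) W))‖ ≤
      C * ‖W‖ ^ (-3 / 2 : ℝ) * W.re ^ (-1 / 4 : ℝ) := by
  obtain ⟨c₀, r₁, K, hc₀, hK1, hK2⟩ := R_decomp lam mu h.lampos h.mupos h.deg h.im0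
  have hc := h.conj
  -- the Dirichlet series on the line
  set L : ℝ → ℂ := fun t => LSeries (cj a) (5 / 4 + t * I) with hL
  have hre : ∀ t : ℝ, (5 / 4 + (t : ℂ) * I : ℂ).re = 5 / 4 := by
    intro t; simp
  have hLeq : L = fun t : ℝ => (starRingEnd ℂ) (H ((starRingEnd ℂ) (5 / 4 + t * I))) := by
    funext t
    simp only [hL]
    rw [← hc.eqL (5 / 4 + t * I) (by rw [hre]; norm_num)]
  have hLcont : Continuous L := by
    rw [hLeq]
    have h1 := h.diff.continuous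
    fun_prop
  have hsum : LSeriesSummable (cj a) ((5 / 4 : ℝ) : ℂ) := by
    refine hc.summ _ ?_
    rw [Complex.ofReal_re]
    norm_num
  have hLb : ∀ t : ℝ, ‖L t‖ ≤ ∑' n : ℕ, ‖LSeries.term (cj a) ((5 / 4 : ℝ) : ℂ) n‖ := by
    intro t
    have := LSeries_norm_le (cj a) (5 / 4 + t * I) (by rw [hre]; exact hsum)
    rwa [hre] at this
  set B : ℝ := ∑' n : ℕ, ‖LSeries.term (cj a) ((5 / 4 : ℝ) : ℂ) n‖ with hB
  have hB0 : 0 ≤ B := (norm_nonneg _).trans (hLb 0)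
  -- the error function
  set e : ℝ → ℂ := fun t => R lam mu (5 / 4 + t * I) - c₀ * (1 + r₁ / (3 / 4 + t * I)) with he
  have h34 : ∀ t : ℝ, (3 / 4 + (t : ℂ) * I : ℂ) ≠ 0 := by
    intro t h0
    have := congrArg Complex.re h0
    simp at this
  have hRc := R_cont lam mu h.lampos h.mupos
  have hec : Continuous e := by
    refine hRc.sub (continuous_const.mul (continuous_const.add ?_))
    exact continuous_const.div (by fun_prop) h34
  have h34n : ∀ t : ℝ, ‖r₁ / (3 / 4 + t * I)‖ ≤ ‖r₁‖ * (4 / 3) := by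
    intro t
    rw [norm_div]
    have h1 : (3 / 4 : ℝ) ≤ ‖(3 / 4 + (t : ℂ) * I : ℂ)‖ := by
      have := Complex.abs_re_le_norm (3 / 4 + (t : ℂ) * I : ℂ)
      have h2 : (3 / 4 + (t : ℂ) * I : ℂ).re = 3 / 4 := by simp
      rw [h2] at this
      exact (le_abs_self _).trans this
    rw [div_le_iff₀ (by linarith)]
    nlinarith [norm_nonneg r₁]
  have hK0 : 0 ≤ K := (norm_nonneg _).trans (hK2 0)
  set K' : ℝ := K + 1 + ‖r₁‖ * (4 / 3) with hK'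
  have hK'0 : 0 ≤ K' := by positivity
  have heb : ∀ t : ℝ, ‖e t‖ ≤ K' := by
    intro t
    calc ‖e t‖ ≤ ‖R lam mu (5 / 4 + t * I)‖ + ‖c₀ * (1 + r₁ / (3 / 4 + t * I))‖ := norm_sub_le _ _
      _ ≤ K + (1 + ‖r₁‖ * (4 / 3)) := by
        refine add_le_add (hK2 t) ?_
        rw [norm_mul, hc₀, one_mul]
        refine (norm_add_le _ _).trans ?_
        rw [norm_one]
        linarith [h34n t]
      _ = K' := by rw [hK']; ring
  obtain ⟨C, hC⟩ := err_int (K' * B)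
  refine ⟨c₀, r₁, |C|, hc₀, abs_nonneg _, ?_⟩
  intro W hW hW2
  have hWne : W ≠ 0 := by
    intro h0; rw [h0] at hW; simp at hW
  -- the two main integrals
  have hm1 := mel (cj a) (5 / 4) (1 / 2) (by norm_num) (by norm_num) hsum W hW
  have hi1 := mel_integrable (cj a) (5 / 4) (1 / 2) (by norm_num) hsum W hW
  have hm2 := mel (cj a) (5 / 4) (-1 / 2) (by norm_num) (by norm_num) hsum W hW
  have hi2 := mel_integrable (cj a) (5 / 4) (-1 / 2) (by norm_num) hsum W hW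
  have hcast1 : (((5 / 4 + 1 / 2 : ℝ)) : ℂ) = 7 / 4 := by push_cast; norm_num
  have hcast2 : (((5 / 4 + -1 / 2 : ℝ)) : ℂ) = 3 / 4 := by push_cast; norm_num
  have hcast3 : (((5 / 4 : ℝ)) : ℂ) = 5 / 4 := by push_cast; norm_num
  rw [hcast1, hcast3] at hm1 hi1
  rw [hcast2, hcast3] at hm2 hi2
  -- the pointwise identity
  set g : ℝ → ℂ := fun t => Complex.Gamma (7 / 4 + t * I) * W ^ (-(7 / 4 + t * I : ℂ)) with hg
  set g₂ : ℝ → ℂ := fun t => Complex.Gamma (3 / 4 + t * I) * W ^ (-(3 / 4 + t * I : ℂ)) with hg₂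
  have hg12 : ∀ t : ℝ, g t = (3 / 4 + t * I) * g₂ t * W⁻¹ := by
    intro t
    simp only [hg, hg₂]
    have h1 : Complex.Gamma (7 / 4 + t * I) = (3 / 4 + t * I) * Complex.Gamma (3 / 4 + t * I) := by
      rw [← Complex.Gamma_add_one _ (h34 t)]
      congr 1; ring
    have h2 : W ^ (-(7 / 4 + t * I : ℂ)) = W ^ (-(3 / 4 + t * I : ℂ)) * W⁻¹ := by
      rw [← Complex.cpow_neg_one, ← Complex.cpow_add _ _ hWne]
      congr 1; ring
    rw [h1, h2]; ring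
  have hpt : ∀ t : ℝ, R lam mu (5 / 4 + t * I) * (g t * L t) =
      c₀ * (g t * L t) + c₀ * r₁ * W⁻¹ * (g₂ t * L t) + (e t * L t) * g t := by
    intro t
    have h1 : R lam mu (5 / 4 + t * I) = c₀ + c₀ * (r₁ / (3 / 4 + t * I)) + e t := by
      simp only [he]; ring
    have h2 : r₁ / (3 / 4 + t * I) * g t = r₁ * W⁻¹ * g₂ t := by
      rw [hg12]
      have h5 := h34 t
      calc r₁ / (3 / 4 + t * I) * ((3 / 4 + t * I) * g₂ t * W⁻¹)
          = r₁ * ((3 / 4 + t * I) / (3 / 4 + t * I)) * W⁻¹ * g₂ t := by ring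
        _ = _ := by rw [div_self h5, mul_one]
    rw [h1]
    calc (c₀ + c₀ * (r₁ / (3 / 4 + t * I)) + e t) * (g t * L t)
        = c₀ * (g t * L t) + c₀ * (r₁ / (3 / 4 + t * I) * g t) * L t + (e t * L t) * g t := by ring
      _ = _ := by rw [h2]; ring
  have hgL : Integrable (fun t => g t * L t) := hi1
  have hg2L : Integrable (fun t => g₂ t * L t) := hi2
  have heL : Integrable (fun t => (e t * L t) * g t) := by
    have h1 : Integrable (fun t => e t * (g t * L t)) := by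
      refine hgL.bdd_mul (c := K') hec.aestronglyMeasurable (Eventually.of_forall heb)
    refine h1.congr (Eventually.of_forall fun t => ?_)
    simp only; ring
  have hJ : (∫ t : ℝ, R lam mu (5 / 4 + t * I) * (g t * L t)) =
      c₀ * (2 * Real.pi * E (1 / 2) (cj a) W) +
        c₀ * r₁ * W⁻¹ * (2 * Real.pi * E (-1 / 2) (cj a) W) + ∫ t, (e t * L t) * g t := by
    rw [integral_congr_ae (Eventually.of_forall hpt)]
    rw [integral_add (by exact (hgL.const_mul _).add (hg2L.const_mul _)) heL,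
      integral_add (hgL.const_mul _) (hg2L.const_mul _), integral_const_mul, integral_const_mul]
    rw [show (∫ t, g t * L t) = 2 * Real.pi * E (1 / 2) (cj a) W from hm1,
      show (∫ t, g₂ t * L t) = 2 * Real.pi * E (-1 / 2) (cj a) W from hm2]
  have herr := hC W (fun t => e t * L t) hW hW2 (hec.mul hLcont) (by
    intro t ht
    rw [norm_mul]
    have h1 := hK1 t ht
    calc ‖e t‖ * ‖L t‖ ≤ (K / (1 + |t|) ^ 2) * B :=
          mul_le_mul h1 (hLb t) (norm_nonneg _) (by positivity)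
      _ = K * B / (1 + |t|) ^ 2 := by ring
      _ ≤ K' * B / (1 + |t|) ^ 2 := by
        have hKK : K ≤ K' := by rw [hK']; nlinarith [norm_nonneg r₁]
        gcongr) (by
    intro t
    rw [norm_mul]
    exact mul_le_mul (heb t) (hLb t) (norm_nonneg _) hK'0)
  rw [show (fun t : ℝ => R lam mu (5 / 4 + t * I) * (Complex.Gamma (7 / 4 + t * I) *
        W ^ (-(7 / 4 + t * I : ℂ)) * LSeries (cj a) (5 / 4 + t * I))) =
        fun t : ℝ => R lam mu (5 / 4 + t * I) * (g t * L t) from rfl, hJ, add_sub_cancel_left]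
  refine herr.trans ?_
  have : 0 ≤ ‖W‖ ^ (-3 / 2 : ℝ) * W.re ^ (-1 / 4 : ℝ) := by positivity
  nlinarith [le_abs_self C]

theorem lemmaL_neg {a : ℕ → ℂ} {H : ℂ → ℂ} {Q : ℝ} {r : ℕ} {lam : Fin r → ℝ} {mu : Fin r → ℂ}
    {ε : ℂ} (h : Dat a H Q lam mu ε) :
    ∃ C : ℝ, ∀ z : ℂ, 0 < z.im → z.im ≤ 1 → z.re ≤ 0 → ‖z‖ ^ 2 ≤ 1 / cond Q lam →
      |phi a z - phi a (1 / ((cond Q lam : ℂ) * (starRingEnd ℂ) z))| ≤ C * z.im ^ (1 / 4 : ℝ) := by
  obtain ⟨c₀, r₁, C₁, hc₀, hC₁, hdec⟩ := LemL.decomp h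
  obtain ⟨C₂, hC₂, hE⟩ := norm_E_le (cj a) h.conj.ram (-1 / 2) (3 / 4) (by norm_num) (by norm_num)
    (by norm_num)
  set q : ℝ := cond Q lam with hq
  have hq0 : 0 < q := LemL.cond_pos h
  have hpi := Real.pi_pos
  refine ⟨‖r₁‖ * C₂ * (q ^ (1 / 4 : ℝ)) ^ 2 + C₁ * (q ^ (1 / 4 : ℝ)) ^ 3, ?_⟩
  intro z hy hy1 hx hz
  set y : ℝ := z.im with hydef
  have hz0 : z ≠ 0 := by
    intro h0; rw [hydef, h0] at hy; simp at hy
  have hn0 : 0 < ‖z‖ := norm_pos_iff.mpr hz0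
  set W : ℂ := 2 * (Real.pi : ℂ) * I / ((q : ℂ) * z) with hWdef
  set v : ℝ := y / (q * ‖z‖ ^ 2) with hv
  have hv0 : 0 < v := by positivity
  have hnsq : z.re * z.re + z.im * z.im = ‖z‖ ^ 2 := by
    rw [← Complex.normSq_eq_norm_sq, Complex.normSq_apply]
  have hW1 : W = ((2 * Real.pi / (q * ‖z‖ ^ 2) : ℝ) : ℂ) * (I * (starRingEnd ℂ) z) := by
    rw [hWdef]
    have h1 : (z : ℂ) * (starRingEnd ℂ) z = ((‖z‖ ^ 2 : ℝ) : ℂ) := by
      rw [Complex.mul_conj, Complex.normSq_eq_norm_sq]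
    have h2 : (((‖z‖ ^ 2 : ℝ) : ℂ)) ≠ 0 := by
      exact_mod_cast (pow_pos hn0 2).ne'
    have hqc : (q : ℂ) ≠ 0 := by exact_mod_cast hq0.ne'
    rw [div_eq_iff (mul_ne_zero hqc hz0)]
    push_cast
    push_cast at h1 h2
    calc 2 * (Real.pi : ℂ) * I = 2 * Real.pi * I * (((‖z‖ : ℂ) ^ 2) / ((‖z‖ : ℂ) ^ 2)) *
          ((q : ℂ) / q) := by rw [div_self h2, div_self hqc]; ring
      _ = 2 * Real.pi * I * ((z * (starRingEnd ℂ) z) / ((‖z‖ : ℂ) ^ 2)) * ((q : ℂ) / q) := by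
          rw [h1]
      _ = _ := by
          field_simp
  have hWre : W.re = 2 * Real.pi * v := by
    rw [hW1, Complex.re_ofReal_mul]
    simp only [Complex.mul_re, Complex.I_re, Complex.I_im, Complex.conj_re, Complex.conj_im]
    rw [hv]; ring
  have hWim : W.im = (2 * Real.pi / (q * ‖z‖ ^ 2)) * z.re := by
    rw [hW1, Complex.im_ofReal_mul]
    simp only [Complex.mul_im, Complex.I_re, Complex.I_im, Complex.conj_re, Complex.conj_im]
    ring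
  have hWre0 : 0 < W.re := by rw [hWre]; positivity
  have hWim0 : W.im ≤ 0 := by
    rw [hWim]
    exact mul_nonpos_of_nonneg_of_nonpos (by positivity) hx
  have hWn : ‖W‖ = 2 * Real.pi / (q * ‖z‖) := by
    rw [hWdef, norm_div, norm_mul, norm_mul, norm_mul, Complex.norm_I]
    simp only [Complex.norm_real, Real.norm_eq_abs, abs_of_pos hpi, abs_of_pos hq0,
      Complex.norm_ofNat]
    ring
  have hWn0 : 0 < ‖W‖ := by rw [hWn]; positivity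
  -- the reflected point
  set zs : ℂ := 1 / ((q : ℂ) * (starRingEnd ℂ) z) with hzs
  have hzs1 : zs = ((1 / (q * ‖z‖ ^ 2) : ℝ) : ℂ) * z := by
    rw [hzs]
    have h1 : (z : ℂ) * (starRingEnd ℂ) z = ((‖z‖ ^ 2 : ℝ) : ℂ) := by
      rw [Complex.mul_conj, Complex.normSq_eq_norm_sq]
    have hc0 : (starRingEnd ℂ) z ≠ 0 := by simpa using hz0
    have hqc : (q : ℂ) ≠ 0 := by exact_mod_cast hq0.ne'
    have h2 : (((‖z‖ ^ 2 : ℝ) : ℂ)) ≠ 0 := by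
      exact_mod_cast (pow_pos hn0 2).ne'
    rw [div_eq_iff (mul_ne_zero hqc hc0)]
    push_cast
    push_cast at h1 h2
    calc (1 : ℂ) = (((‖z‖ : ℂ) ^ 2) / ((‖z‖ : ℂ) ^ 2)) * ((q : ℂ) / q) := by
          rw [div_self h2, div_self hqc]; ring
      _ = ((z * (starRingEnd ℂ) z) / ((‖z‖ : ℂ) ^ 2)) * ((q : ℂ) / q) := by rw [h1]
      _ = _ := by field_simp
  have hzsim : zs.im = v := by
    rw [hzs1, Complex.im_ofReal_mul, hv]; ring
  have hzsW : -(2 * (Real.pi : ℂ) * I * zs) = (starRingEnd ℂ) W := by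
    rw [hW1, hzs1]
    simp only [map_mul, Complex.conj_ofReal, Complex.conj_I, Complex.conj_conj]
    push_cast
    ring
  have hphis : phi a zs = v * ‖E (1 / 2) (cj a) W‖ := by
    unfold phi
    rw [hzsim, hzsW, E_cj, Complex.norm_conj]
  -- the value at z
  have hrefl := reflected h z hy
  set J : ℂ := ∫ t : ℝ, R lam mu (5 / 4 + t * I) * (Complex.Gamma (7 / 4 + t * I) *
        W ^ (-(7 / 4 + t * I : ℂ)) * LSeries (cj a) (5 / 4 + t * I)) with hJ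
  have hphiz : phi a z = v / (2 * Real.pi) * ‖J‖ := by
    unfold phi
    rw [← hrefl, hv, ← hq, ← hydef]
    field_simp
  have hd := hdec W hWre0 hWim0
  rw [← hJ] at hd
  set M : ℂ := c₀ * (2 * Real.pi * E (1 / 2) (cj a) W) +
    c₀ * r₁ * W⁻¹ * (2 * Real.pi * E (-1 / 2) (cj a) W) with hM
  have hmain : |‖J‖ - 2 * Real.pi * ‖E (1 / 2) (cj a) W‖| ≤
      2 * Real.pi * (‖r₁‖ * ‖W‖⁻¹ * ‖E (-1 / 2) (cj a) W‖) +
        C₁ * ‖W‖ ^ (-3 / 2 : ℝ) * W.re ^ (-1 / 4 : ℝ) := by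
    have h1 : ‖c₀ * (2 * Real.pi * E (1 / 2) (cj a) W)‖ = 2 * Real.pi * ‖E (1 / 2) (cj a) W‖ := by
      rw [norm_mul, hc₀, one_mul, norm_mul, norm_mul]
      simp [abs_of_pos hpi]
    have h2 : ‖c₀ * r₁ * W⁻¹ * (2 * Real.pi * E (-1 / 2) (cj a) W)‖ =
        2 * Real.pi * (‖r₁‖ * ‖W‖⁻¹ * ‖E (-1 / 2) (cj a) W‖) := by
      rw [norm_mul, norm_mul, norm_mul, hc₀, one_mul, norm_mul, norm_mul, norm_inv]
      simp [abs_of_pos hpi]
      ring
    rw [← h1]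
    calc |‖J‖ - ‖c₀ * (2 * Real.pi * E (1 / 2) (cj a) W)‖|
        ≤ ‖J - c₀ * (2 * Real.pi * E (1 / 2) (cj a) W)‖ := abs_norm_sub_norm_le _ _
      _ = ‖c₀ * r₁ * W⁻¹ * (2 * Real.pi * E (-1 / 2) (cj a) W) + (J - M)‖ := by
          rw [hM]; congr 1; ring
      _ ≤ _ := by
          refine (norm_add_le _ _).trans ?_
          rw [h2]
          linarith
  have hdiff : |phi a z - phi a zs| ≤
      v * (‖r₁‖ * ‖W‖⁻¹ * ‖E (-1 / 2) (cj a) W‖) +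
        v / (2 * Real.pi) * (C₁ * ‖W‖ ^ (-3 / 2 : ℝ) * W.re ^ (-1 / 4 : ℝ)) := by
    rw [hphiz, hphis]
    have h1 : v / (2 * Real.pi) * ‖J‖ - v * ‖E (1 / 2) (cj a) W‖ =
        v / (2 * Real.pi) * (‖J‖ - 2 * Real.pi * ‖E (1 / 2) (cj a) W‖) := by
      field_simp
    rw [h1, abs_mul, abs_of_pos (by positivity : 0 < v / (2 * Real.pi))]
    refine (mul_le_mul_of_nonneg_left hmain (by positivity)).trans (le_of_eq ?_)
    field_simp
  refine hdiff.trans ?_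
  -- comparisons
  have hvy : y ≤ v := by
    rw [hv, le_div_iff₀ (by positivity)]
    have : q * ‖z‖ ^ 2 ≤ 1 := by
      rw [le_div_iff₀ hq0] at hz; linarith
    nlinarith
  set k : ℝ := q ^ (1 / 4 : ℝ) with hk
  set A : ℝ := y ^ (1 / 4 : ℝ) with hA
  set B : ℝ := v ^ (1 / 4 : ℝ) with hB
  have hk0 : 0 < k := by positivity
  have hA0 : 0 < A := by positivity
  have hB0 : 0 < B := by positivity
  have pow4 : ∀ x : ℝ, 0 < x → (x ^ (1 / 4 : ℝ)) ^ 4 = x := by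
    intro x hx0
    rw [← Real.rpow_natCast, ← Real.rpow_mul hx0.le]
    norm_num
  have hk4 : k ^ 4 = q := pow4 q hq0
  have hA4 : A ^ 4 = y := pow4 y hy
  have hB4 : B ^ 4 = v := pow4 v hv0
  have hAB : A ≤ B := Real.rpow_le_rpow hy.le hvy (by norm_num)
  have hA1 : A ≤ 1 := Real.rpow_le_one hy.le hy1 (by norm_num)
  have hzn : ‖z‖ = A ^ 2 / (k ^ 2 * B ^ 2) := by
    have h1 : ‖z‖ ^ 2 = (A ^ 2 / (k ^ 2 * B ^ 2)) ^ 2 := by
      have h2 : v * (q * ‖z‖ ^ 2) = y := by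
        rw [hv]; field_simp
      rw [← hB4, ← hA4, ← hk4] at h2
      rw [div_pow, eq_div_iff (by positivity)]
      calc ‖z‖ ^ 2 * (k ^ 2 * B ^ 2) ^ 2 = B ^ 4 * (k ^ 4 * ‖z‖ ^ 2) := by ring
        _ = A ^ 4 := h2
        _ = (A ^ 2) ^ 2 := by ring
    exact (pow_left_inj₀ (norm_nonneg _) (by positivity) (by norm_num)).mp h1
  have hWlow : B ^ 2 / (k ^ 2 * A ^ 2) ≤ ‖W‖ := by
    rw [hWn, hzn, ← hk4, div_le_div_iff₀ (by positivity) (by positivity)]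
    have h1 : k ^ 4 * (A ^ 2 / (k ^ 2 * B ^ 2)) = k ^ 2 * A ^ 2 / B ^ 2 := by
      field_simp
    rw [h1]
    have h2 : B ^ 2 * (k ^ 2 * A ^ 2 / B ^ 2) = k ^ 2 * A ^ 2 := by field_simp
    rw [h2]
    have h3 : (1 : ℝ) ≤ 2 * Real.pi := by nlinarith [Real.pi_gt_three]
    nlinarith [mul_pos (pow_pos hk0 2) (pow_pos hA0 2)]
  have hWlow0 : 0 < B ^ 2 / (k ^ 2 * A ^ 2) := by positivity
  have hWinv : ‖W‖⁻¹ ≤ k ^ 2 * A ^ 2 / B ^ 2 := by
    have := inv_anti₀ hWlow0 hWlow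
    rwa [inv_div] at this
  have hW32 : ‖W‖ ^ (-3 / 2 : ℝ) ≤ k ^ 3 * A ^ 3 / B ^ 3 := by
    have h1 := Real.rpow_le_rpow_of_nonpos hWlow0 hWlow (by norm_num : (-3 / 2 : ℝ) ≤ 0)
    refine h1.trans (le_of_eq ?_)
    have h2 : B ^ 2 / (k ^ 2 * A ^ 2) = (B / (k * A)) ^ (2 : ℝ) := by
      rw [Real.rpow_two]; field_simp
    rw [h2, ← Real.rpow_mul (by positivity)]
    rw [show (2 : ℝ) * (-3 / 2) = -((3 : ℕ) : ℝ) by norm_num, Real.rpow_neg (by positivity),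
      Real.rpow_natCast, ← inv_pow, inv_div]
    field_simp
  have hWre34 : W.re ^ (-(3 / 4) : ℝ) ≤ 1 / B ^ 3 := by
    have h0 : v ≤ W.re := by
      rw [hWre]; nlinarith [Real.pi_gt_three]
    have h1 := Real.rpow_le_rpow_of_nonpos hv0 h0 (by norm_num : (-(3 / 4) : ℝ) ≤ 0)
    refine h1.trans (le_of_eq ?_)
    have h2 : B ^ 3 = v ^ (3 / 4 : ℝ) := by
      rw [hB, ← Real.rpow_natCast, ← Real.rpow_mul hv0.le]
      norm_num
    rw [Real.rpow_neg hv0.le, h2, one_div]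
  have hWre14 : W.re ^ (-1 / 4 : ℝ) ≤ 1 / B := by
    have h0 : v ≤ W.re := by
      rw [hWre]; nlinarith [Real.pi_gt_three]
    have h1 := Real.rpow_le_rpow_of_nonpos hv0 h0 (by norm_num : (-1 / 4 : ℝ) ≤ 0)
    refine h1.trans (le_of_eq ?_)
    rw [show (-1 / 4 : ℝ) = -(1 / 4 : ℝ) by norm_num, Real.rpow_neg hv0.le, hB]
    exact (one_div _).symm
  have hEb := (hE W hWre0).trans (mul_le_mul_of_nonneg_left hWre34 hC₂)
  have ht1 : v * (‖r₁‖ * ‖W‖⁻¹ * ‖E (-1 / 2) (cj a) W‖) ≤ ‖r₁‖ * C₂ * k ^ 2 * A := by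
    calc v * (‖r₁‖ * ‖W‖⁻¹ * ‖E (-1 / 2) (cj a) W‖)
        ≤ v * (‖r₁‖ * (k ^ 2 * A ^ 2 / B ^ 2) * (C₂ * (1 / B ^ 3))) := by
          gcongr
      _ = ‖r₁‖ * C₂ * k ^ 2 * (A * (A / B)) := by
          rw [← hB4]; field_simp
      _ ≤ ‖r₁‖ * C₂ * k ^ 2 * (A * 1) := by
          have : A / B ≤ 1 := by rw [div_le_one hB0]; exact hAB
          gcongr
      _ = _ := by ring
  have ht2 : v / (2 * Real.pi) * (C₁ * ‖W‖ ^ (-3 / 2 : ℝ) * W.re ^ (-1 / 4 : ℝ)) ≤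
      C₁ * k ^ 3 * A := by
    have h3 : v / (2 * Real.pi) ≤ v := by
      rw [div_le_iff₀ (by positivity)]
      nlinarith [Real.pi_gt_three]
    calc v / (2 * Real.pi) * (C₁ * ‖W‖ ^ (-3 / 2 : ℝ) * W.re ^ (-1 / 4 : ℝ))
        ≤ v * (C₁ * (k ^ 3 * A ^ 3 / B ^ 3) * (1 / B)) := by
          gcongr
      _ = C₁ * k ^ 3 * (A * (A * A)) := by
          rw [← hB4]; field_simp
      _ ≤ C₁ * k ^ 3 * (A * (1 * 1)) := by
          gcongr
      _ = _ := by ring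
  calc _ ≤ ‖r₁‖ * C₂ * k ^ 2 * A + C₁ * k ^ 3 * A := add_le_add ht1 ht2
    _ = _ := by ring

theorem lemmaL {a : ℕ → ℂ} {H : ℂ → ℂ} {Q : ℝ} {r : ℕ} {lam : Fin r → ℝ} {mu : Fin r → ℂ}
    {ε : ℂ} (h : Dat a H Q lam mu ε) :
    ∃ C : ℝ, ∀ z : ℂ, 0 < z.im → z.im ≤ 1 → ‖z‖ ^ 2 ≤ 1 / cond Q lam →
      |phi a z - phi a (1 / ((cond Q lam : ℂ) * (starRingEnd ℂ) z))| ≤ C * z.im ^ (1 / 4 : ℝ) := by
  obtain ⟨C, hC⟩ := lemmaL_neg h
  obtain ⟨C', hC'⟩ := lemmaL_neg h.conj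
  refine ⟨max C C', ?_⟩
  intro z hy hy1 hz
  have hyp : 0 ≤ z.im ^ (1 / 4 : ℝ) := by positivity
  rcases le_total z.re 0 with hx | hx
  · refine (hC z hy hy1 hx hz).trans ?_
    exact mul_le_mul_of_nonneg_right (le_max_left _ _) hyp
  · have h1 := hC' (-(starRingEnd ℂ) z) (by simpa using hy) (by simpa using hy1)
      (by simpa using hx) (by simpa using hz)
    rw [phi_cj, phi_cj] at h1
    simp only [map_neg, Complex.conj_conj, neg_neg, map_div₀, map_one, map_mul,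
      Complex.conj_ofReal, Complex.neg_im, Complex.conj_im] at h1
    have h2 : -(1 / ((cond Q lam : ℂ) * -(starRingEnd ℂ) z)) =
        1 / ((cond Q lam : ℂ) * (starRingEnd ℂ) z) := by
      rw [mul_neg, div_neg, neg_neg]
    rw [h2] at h1
    exact h1.trans (mul_le_mul_of_nonneg_right (le_max_right _ _) hyp)

end Pool.Agent.H14.Sel
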