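import Mathlib
import Pool.Agent.H14.Sel.Defs

set_option autoImplicit false

/-!
# Module SUP (MP_8e9775_nt): `φ` is bounded

Let `C ≥ 0` be the constant of `h.refl`. Since `q < 4` choose `y₀ ∈ (0, 1]` and `ρ > 1` with
`(1/4 + y₀^2) q ρ ≤ 1` (e.g. `ρ = (1 + 4/q)/2`, `1/4 + y₀^2 ≤ 1/(q ρ)`). Let `M` bound `φ` on
`Im z ≥ y₀` (`h.high`, take `M ≥ 0`). Put `A = C/(ρ^(1/4) - 1)` and `K = 1 + (ρ^(1/4) - 1)`, more than enough:
claim by induction on `n`: for all `z` with `0 < Im z`, `y₀ ρ^(-n) ≤ Im z < y₀`: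
`φ z ≤ M + A (K - (Im z)^(1/4))` (`y₀ ≤ 1`). Step: translate (`h.per` and its iterates, also
backwards) to `|Re z| ≤ 1/2` (`round`), so `‖z‖^2 ≤ 1/4 + y₀^2 ≤ 1/(qρ) ≤ 1/q`, `z' = 1/(q conj z)` has
`Im z' = Im z/(q ‖z‖^2) ≥ ρ Im z`, and `φ z ≤ φ z' + C (Im z)^(1/4)`. If `Im z' ≥ y₀`, `φ z' ≤ M`
and `C (Im z)^(1/4) ≤ A (K - (Im z)^(1/4))` because `A K = C ρ^(1/4)/(ρ^(1/4)-1) = C + A` and `(Im z)^(1/4) ≤ 1`.
Otherwise the induction hypothesis gives `φ z ≤ M + A (K - ρ^(1/4) (Im z)^(1/4)) + C (Im z)^(1/4)`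
`= M + A (K - (Im z)^(1/4))`. So `B = M + A K`.
-/

namespace Pool.Agent.H14.Sel

open Complex MeasureTheory Filter Topology Pool.Agent.H11.Selberg

theorem sup_per_int {q : ℝ} {φ : ℂ → ℝ} (h : Aut q φ) (z : ℂ) (m : ℤ) : φ (z - m) = φ z := by
  have hn : ∀ (n : ℕ) (w : ℂ), φ (w + n) = φ w := by
    intro n
    induction n with
    | zero => intro w; simp
    | succ n ih =>
      intro w
      rw [Nat.cast_add, Nat.cast_one, ← add_assoc, h.per, ih]
  rcases Int.le_total 0 m with hm | hm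
  · obtain ⟨n, rfl⟩ := Int.eq_ofNat_of_zero_le hm
    have h1 := hn n (z - n)
    rw [sub_add_cancel] at h1
    simpa using h1.symm
  · obtain ⟨n, hn'⟩ := Int.eq_ofNat_of_zero_le (Int.neg_nonneg_of_nonpos hm)
    have h2 : m = -(n:ℤ) := by omega
    have h1 := hn n z
    rw [h2]
    simpa using h1

theorem Aut.bounded {q : ℝ} {φ : ℂ → ℝ} (h : Aut q φ) : ∃ B : ℝ, ∀ z : ℂ, 0 < z.im → φ z ≤ B := by
  obtain ⟨C, hC⟩ := h.refl
  have hq := h.qpos
  have hq4 := h.q4
  set ρ : ℝ := (1 + 4 / q) / 2 with hρ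
  have hqρ : q * ρ = (q + 4) / 2 := by
    rw [hρ]
    field_simp
  have hρ1 : 1 < ρ := by
    have : 1 < 4 / q := by rw [lt_div_iff₀ hq]; linarith
    rw [hρ]
    linarith
  have hρ0 : 0 < ρ := by linarith
  set d : ℝ := 1 / (q * ρ) - 1 / 4 with hd
  have hd0 : 0 < d := by
    rw [hd, hqρ]
    have : (1:ℝ) / 4 < 1 / ((q + 4) / 2) := by
      apply one_div_lt_one_div_of_lt
      · linarith
      · linarith
    linarith
  set y₀ : ℝ := min 1 d with hy₀
  have hy0 : 0 < y₀ := lt_min one_pos hd0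
  have hy1 : y₀ ≤ 1 := min_le_left _ _
  have hyd : y₀ ^ 2 ≤ d := by
    have h1 : y₀ ≤ d := min_le_right _ _
    nlinarith
  obtain ⟨M, hM⟩ := h.high y₀ hy0
  set κ : ℝ := ρ ^ (1 / 4 : ℝ) with hκ
  have hκ1 : 1 < κ := Real.one_lt_rpow hρ1 (by norm_num)
  set C' : ℝ := max C 0 with hC'
  have hC'0 : 0 ≤ C' := le_max_right _ _
  set M' : ℝ := max M 0 with hM'
  set A : ℝ := C' / (κ - 1) with hA
  have hA0 : 0 ≤ A := div_nonneg hC'0 (by linarith)
  have hAC : A * (κ - 1) = C' := by
    rw [hA]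
    exact div_mul_cancel₀ _ (by linarith)
  have key : ∀ n : ℕ, ∀ z : ℂ, 0 < z.im → z.im < y₀ → y₀ ≤ z.im * ρ ^ n →
      φ z ≤ M' + A * (κ - z.im ^ (1 / 4 : ℝ)) := by
    intro n
    induction n with
    | zero =>
      intro z _ h2 h3
      simp at h3
      linarith
    | succ n ih =>
      intro z h1 h2 h3
      set w : ℂ := z - (round z.re : ℤ) with hw
      have hwim : w.im = z.im := by simp [hw]
      have hwre : |w.re| ≤ 1 / 2 := by
        simp only [hw, sub_re, intCast_re]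
        exact abs_sub_round z.re
      have hφw : φ w = φ z := sup_per_int h z _
      have hns : Complex.normSq w = w.re * w.re + w.im * w.im := Complex.normSq_apply w
      have hns1 : Complex.normSq w ≤ 1 / (q * ρ) := by
        rw [hns]
        have e1 : w.re * w.re ≤ 1 / 4 := by
          have := abs_le.mp hwre
          nlinarith
        have e2 : w.im * w.im ≤ y₀ ^ 2 := by
          rw [hwim]
          nlinarith
        have : d = 1 / (q * ρ) - 1 / 4 := hd
        linarith
      have hns0 : 0 < Complex.normSq w := by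
        rw [hns, hwim]
        nlinarith [mul_self_nonneg w.re]
      have hnsρ : Complex.normSq w * (q * ρ) ≤ 1 := by
        rwa [le_div_iff₀ (by positivity)] at hns1
      have hnorm : ‖w‖ ^ 2 ≤ 1 / q := by
        rw [← Complex.normSq_eq_norm_sq, le_div_iff₀ hq]
        nlinarith [mul_pos hns0 hq]
      have hr := hC w (by rw [hwim]; exact h1) (by rw [hwim]; linarith) hnorm
      rw [hwim, hφw] at hr
      set z' : ℂ := 1 / ((q : ℂ) * (starRingEnd ℂ) w) with hz'
      have hz'im : z'.im = z.im / (q * Complex.normSq w) := by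
        rw [hz', one_div, Complex.inv_im]
        have e1 : ((q : ℂ) * (starRingEnd ℂ) w).im = -(q * w.im) := by simp
        have e2 : Complex.normSq ((q : ℂ) * (starRingEnd ℂ) w) = q ^ 2 * Complex.normSq w := by
          rw [map_mul, Complex.normSq_ofReal, Complex.normSq_conj]
          ring
        rw [e1, e2, hwim]
        field_simp
      have hz'ge : ρ * z.im ≤ z'.im := by
        rw [hz'im, le_div_iff₀ (by positivity)]
        nlinarith [mul_pos hns0 hq]
      have hz'pos : 0 < z'.im := lt_of_lt_of_le (mul_pos hρ0 h1) hz'ge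
      set u : ℝ := z.im ^ (1 / 4 : ℝ) with hu
      have hu0 : 0 ≤ u := Real.rpow_nonneg h1.le _
      have hu1 : u ≤ 1 := Real.rpow_le_one h1.le (by linarith) (by norm_num)
      have hCu : C * u ≤ C' * u := mul_le_mul_of_nonneg_right (le_max_left _ _) hu0
      have hφ : φ z ≤ φ z' + C' * u := by
        have := (abs_le.mp hr).2
        linarith
      by_cases hcase : y₀ ≤ z'.im
      · have e1 := hM z' hcase
        have e2 : M ≤ M' := le_max_left _ _
        have e3 : C' * u ≤ A * (κ - u) := by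
          rw [← hAC]
          have e4 : 0 ≤ A * κ * (1 - u) :=
            mul_nonneg (mul_nonneg hA0 (by linarith)) (sub_nonneg.mpr hu1)
          nlinarith [e4]
        linarith
      · push Not at hcase
        have e0 : y₀ ≤ z'.im * ρ ^ n := by
          have : z.im * ρ ^ (n + 1) = (ρ * z.im) * ρ ^ n := by ring
          rw [this] at h3
          exact h3.trans (mul_le_mul_of_nonneg_right hz'ge (by positivity))
        have e1 := ih z' hz'pos hcase e0
        have e2 : κ * u ≤ z'.im ^ (1 / 4 : ℝ) := by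
          rw [hκ, hu, ← Real.mul_rpow hρ0.le h1.le]
          exact Real.rpow_le_rpow (by positivity) hz'ge (by norm_num)
        have e3 : A * (κ - z'.im ^ (1 / 4 : ℝ)) ≤ A * (κ - κ * u) :=
          mul_le_mul_of_nonneg_left (by linarith) hA0
        have e4 : A * (κ - κ * u) + C' * u = A * (κ - u) := by
          rw [← hAC]
          ring
        linarith
  refine ⟨M' + A * κ, fun z hz => ?_⟩
  have hAκ : 0 ≤ A * κ := mul_nonneg hA0 (by linarith)
  by_cases hcase : y₀ ≤ z.im
  · have e1 := hM z hcase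
    have e2 : M ≤ M' := le_max_left _ _
    linarith
  · push Not at hcase
    obtain ⟨n, hn⟩ := pow_unbounded_of_one_lt (y₀ / z.im) hρ1
    have h1 : y₀ ≤ z.im * ρ ^ n := by
      rw [div_lt_iff₀ hz] at hn
      linarith
    have h2 := key n z hz hcase h1
    have h3 : 0 ≤ A * z.im ^ (1 / 4 : ℝ) := mul_nonneg hA0 (Real.rpow_nonneg hz.le _)
    linarith [mul_sub A κ (z.im ^ (1 / 4 : ℝ))]

end Pool.Agent.H14.Sel
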