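import Mathlib
import Pool.Agent.H11.Selberg.Equiv
import Pool.Agent.H14.Sel.Norm
import Pool.Agent.H14.Sel.LemL
import Pool.Agent.H14.Sel.Top
import Pool.Agent.H14.Sel.Pars
import Pool.Agent.H14.Sel.Sup
import Pool.Agent.H14.Sel.Meas
import Pool.Agent.H14.Sel.Taub

set_option autoImplicit false

/-!
# Module MAIN (MP_8e9775_nt): assembly
-/

namespace Pool.Agent.H14.Sel

open Complex MeasureTheory Filter Topology Pool.Agent.H11.Selberg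

theorem cond_pos {a : ℕ → ℂ} {H : ℂ → ℂ} {Q : ℝ} {r : ℕ} {lam : Fin r → ℝ} {mu : Fin r → ℂ}
    {ε : ℂ} (h : Dat a H Q lam mu ε) : 0 < cond Q lam := by
  unfold cond
  have h1 : 0 < ∏ j, (lam j) ^ (2 * lam j) :=
    Finset.prod_pos (fun j _ => Real.rpow_pos_of_pos (h.lampos j) _)
  have h2 := h.Qpos
  positivity

theorem aut_phi {a : ℕ → ℂ} {H : ℂ → ℂ} {Q : ℝ} {r : ℕ} {lam : Fin r → ℝ} {mu : Fin r → ℂ}
    {ε : ℂ} (h : Dat a H Q lam mu ε) (h4 : cond Q lam < 4) : Aut (cond Q lam) (phi a) where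
  qpos := cond_pos h
  q4 := h4
  per := phi_per a
  nonneg := fun _ hz => mul_nonneg hz.le (norm_nonneg _)
  cont := fun y hy => phi_cont a h.ram y hy
  refl := lemmaL h
  high := fun t ht => phi_high a h.ram t ht
  top := phi_top a h.one h.ram

theorem mean_square {a : ℕ → ℂ} {H : ℂ → ℂ} {Q : ℝ} {r : ℕ} {lam : Fin r → ℝ} {mu : Fin r → ℂ}
    {ε : ℂ} (h : Dat a H Q lam mu ε) (h4 : cond Q lam < 4) :
    ∃ c' C' : ℝ, 0 < c' ∧ ∀ x : ℝ, 2 ≤ x →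
      c' * Real.log x ≤ ∑ n ∈ Finset.Icc 1 ⌊x⌋₊, ‖a n‖ ^ 2 / (n : ℝ) ∧
      ∑ n ∈ Finset.Icc 1 ⌊x⌋₊, ‖a n‖ ^ 2 / (n : ℝ) ≤ C' * Real.log x := by
  have hA := aut_phi h h4
  obtain ⟨B, hB⟩ := hA.bounded
  obtain ⟨c, Y₁, hc, hY₁, hlow⟩ := hA.mean_low
  refine taub (fun n => ‖a n‖ ^ 2) (fun n => by positivity) (by simp [h.one])
    (fun y hy => (mean_eq a h.ram y hy).1) c (B ^ 2) Y₁ hc hY₁ ?_ ?_
  · intro y hy
    rw [← (mean_eq a h.ram y hy).2]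
    have hcont : Continuous (fun x : ℝ => (phi a (x + y * I)) ^ 2) := (hA.cont y hy).pow 2
    have h1 : ∫ x in (0:ℝ)..1, (phi a (x + y * I)) ^ 2 ≤ ∫ x in (0:ℝ)..1, B ^ 2 := by
      refine intervalIntegral.integral_mono_on (by norm_num) (hcont.intervalIntegrable _ _)
        (by simp) ?_
      intro x _
      have him : 0 < ((x : ℂ) + y * I).im := by simpa using hy
      exact pow_le_pow_left₀ (hA.nonneg _ him) (hB _ him) 2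
    simpa using h1
  · intro y hy hy1
    rw [← (mean_eq a h.ram y hy).2]
    exact hlow y hy hy1

/-- Selberg's orthogonality conjecture for entire functions of degree two and conductor less
than four. -/
theorem main (a : ℕ → ℂ) (F H : ℂ → ℂ) (Q : ℝ) {r : ℕ} (lam : Fin r → ℝ) (mu : Fin r → ℂ)
    (ε : ℂ) (h : IsSelberg a F) (hH : Differentiable ℂ H) (hHF : ∀ s : ℂ, s ≠ 1 → H s = F s)
    (hQ : 0 < Q) (hlam : ∀ j, 0 < lam j) (hmu : ∀ j, 0 ≤ (mu j).re) (hε : ‖ε‖ = 1)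
    (hfeq : ∀ s : ℂ, 0 < s.re → s.re < 1 → completed Q lam mu F s =
      ε * (starRingEnd ℂ) (completed Q lam mu F (1 - (starRingEnd ℂ) s)))
    (hdeg : ∑ j, lam j = 1) (hcond : cond Q lam < 4) :
    ∃ C : ℝ, ∀ x : ℝ, 2 ≤ x → |S a x - Real.log (Real.log x)| ≤ C := by
  obtain ⟨a', H', mu', ε', hd, hn⟩ := normalise a F H Q lam mu ε h hH hHF hQ hlam hmu hε hfeq hdeg
  obtain ⟨c', C', hc', hms⟩ := mean_square hd hcond
  obtain ⟨b, θ, K, hθ, hb1, hb2⟩ := h.euler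
  have hE : EulerCoeff b F := ⟨θ, K, hθ, hb1, hb2⟩
  have hT := equivalence a F b 1 h hE zero_le_one
  have h2 : ∃ c C : ℝ, 0 < c ∧ ∀ x : ℝ, 2 ≤ x →
        c * (Real.log x) ^ (1 : ℝ) ≤ ∑ n ∈ Finset.Icc 1 ⌊x⌋₊, ‖a n‖ ^ 2 / (n : ℝ) ∧
        ∑ n ∈ Finset.Icc 1 ⌊x⌋₊, ‖a n‖ ^ 2 / (n : ℝ) ≤ C * (Real.log x) ^ (1 : ℝ) := by
    refine ⟨c', C', hc', fun x hx => ?_⟩
    have hsum : ∑ n ∈ Finset.Icc 1 ⌊x⌋₊, ‖a n‖ ^ 2 / (n : ℝ) =
        ∑ n ∈ Finset.Icc 1 ⌊x⌋₊, ‖a' n‖ ^ 2 / (n : ℝ) := by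
      refine Finset.sum_congr rfl (fun n hn1 => ?_)
      rw [hn n (Finset.mem_Icc.mp hn1).1]
    rw [hsum, Real.rpow_one]
    exact hms x hx
  have h1 : ∃ C : ℝ, ∀ x : ℝ, 2 ≤ x → |S a x - 1 * Real.log (Real.log x)| ≤ C :=
    (hT.out 0 1).mpr h2
  simpa using h1

end Pool.Agent.H14.Sel
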